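import Pool.Agent.SPR.Cx

/-!
# The algebraic part: from effectivity to the two functions
-/

set_option autoImplicit false

noncomputable section

namespace Pool.Agent.SPR

open Pool.Agent.SRF Pool.Agent.CPT
open scoped Classical

theorem w_mem {k F : Type} [Field k] [Field F] [Algebra k F] {x y w : F} {N a : ℕ}
    {g : Polynomial (MvPolynomial (Fin 2) k)} (hSCI : Stmt_SCI) (hM : Mdl k x y w N a g) :
    w ∈ L k x y (fun O => a * H k x y O) := by
  refine hSCI k F x y hM.surf a N w (fun j => if j ≤ N then g.coeff (N - j) else 0) ?_ ?_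
  · intro j
    split_ifs with hj
    · have := hM.bound (N - j) (Nat.sub_le _ _)
      rwa [Nat.sub_sub_self hj] at this
    · simp
  · have h := hM.root
    rw [← Finset.sum_range_reflect] at h
    rw [Finset.sum_range_succ'] at h
    have h0 : MvPolynomial.aeval ![x, y] (g.coeff (N + 1 - 1 - 0)) * w ^ (N + 1 - 1 - 0) = w ^ N := by
      have : g.coeff N = 1 := by
        rw [← hM.deg]
        exact hM.monic
      simp [this]
    rw [h0, add_comm] at h
    rw [← h]
    congr 1
    rw [Finset.range_eq_Ico, Finset.sum_Ico_add' (fun j => MvPolynomial.aeval ![x, y]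
      (g.coeff (N + 1 - 1 - j)) * w ^ (N + 1 - 1 - j)) 0 N 1]
    have : Finset.Ico (0 + 1) (N + 1) = Finset.Icc 1 N := by
      ext j
      simp only [Finset.mem_Ico, Finset.mem_Icc]
      omega
    rw [this]
    refine Finset.sum_congr rfl fun j hj => ?_
    rw [Finset.mem_Icc] at hj
    simp [hj.2]

theorem alg_proof (hPLC : Stmt_PLC) (hMDL : Stmt_MDL) (hSPE : Stmt_SPE) (hGAU : Stmt_GAU)
    (hFWD : Stmt_FWD) (hLES : Stmt_LES) (hDJS : Stmt_DJS) (hNCS : Stmt_NCS) (hBAK : Stmt_BAK)
    (hCPP : Stmt_CPP) (hSUP : SRF.Stmt_SUP) (hFCH : Stmt_FCH) (hFQ : Stmt_FQ)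
    (hSCI : Stmt_SCI) : DIS.Stmt_Alg := by
  intro K _ _ _ F _ _ x y hS CC r hBig
  obtain ⟨w, N, A, g, hM⟩ := hMDL K F x y hS
  obtain ⟨C, hCfin, hbig⟩ := hBig.big
  haveI : Fintype (I2 x y C) := hCfin.fintype
  choose a b π u hLE B Cs hCs using fun j => hLES K F x y w N A g hM (EE x y CC C j)
  -- the elements `z1 z3 z4`
  obtain ⟨o1, ho1⟩ := hBig.nonempty (XV.ed 0 1)
  obtain ⟨o3, ho3⟩ := hBig.nonempty (XV.ed 0 3)
  obtain ⟨o4, ho4⟩ := hBig.nonempty (XV.ed 0 4)
  -- disjointness
  have hdj : ∀ p : I1 x y CC × I1 x y CC, ∃ C1 : Finset K, p.1.1 ≠ p.2.1 →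
      ¬ XV.Disj p.1.1 p.2.1 → ∀ (Ω : Type) [Field Ω] (P : Plc K Ω), P.Gd C1 →
      ∀ (Fs : Type) [Field Fs] [Algebra Ω Fs] (xs ys ws : Fs), Mdl Ω xs ys ws N A (P.pl g) →
      ∀ G : Gau P x y w xs ys ws,
        LE Ω xs ys (a (.inl p.1)) (b (.inl p.1)) (fun j => G.res (π (.inl p.1) j))
          (fun j => G.res (u (.inl p.1) j))
          (mn Ω xs ys (a (.inl p.1)) (fun j => G.res (π (.inl p.1) j))) →
        LE Ω xs ys (a (.inl p.2)) (b (.inl p.2)) (fun j => G.res (π (.inl p.2) j))
          (fun j => G.res (u (.inl p.2) j))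
          (mn Ω xs ys (a (.inl p.2)) (fun j => G.res (π (.inl p.2) j))) →
        ∀ O O', 0 < mn Ω xs ys (a (.inl p.1)) (fun j => G.res (π (.inl p.1) j)) O →
          0 < mn Ω xs ys (a (.inl p.2)) (fun j => G.res (π (.inl p.2) j)) O' →
          NoM Ω xs ys O O' := by
    intro p
    by_cases h : p.1.1 ≠ p.2.1 ∧ ¬ XV.Disj p.1.1 p.2.1
    · obtain ⟨C1, hC1⟩ := hDJS K F x y w N A g hM (EE x y CC C (.inl p.1))
        (EE x y CC C (.inl p.2)) (by
          intro V hV hcon
          exact hBig.disj p.1.1 p.2.1 h.1 h.2 _ p.1.2.2 _ p.2.2.2 V hV hcon.1 hcon.2)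
        _ _ _ _ _ _ _ _ (hLE (.inl p.1)) (hLE (.inl p.2))
      exact ⟨C1, fun _ _ => hC1⟩
    · exact ⟨∅, fun h1 h2 => absurd ⟨h1, h2⟩ h⟩
  choose C1 hC1 using hdj
  have hnc : ∀ p : I1 x y CC × I1 x y CC, ∃ C2 : Finset K, p.1.1 ≠ p.2.1 →
      ∀ (Ω : Type) [Field Ω] (P : Plc K Ω), P.Gd C2 →
      ∀ (Fs : Type) [Field Fs] [Algebra Ω Fs] (xs ys ws : Fs), Mdl Ω xs ys ws N A (P.pl g) →
      ∀ G : Gau P x y w xs ys ws,
        LE Ω xs ys (a (.inl p.1)) (b (.inl p.1)) (fun j => G.res (π (.inl p.1) j))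
          (fun j => G.res (u (.inl p.1) j))
          (mn Ω xs ys (a (.inl p.1)) (fun j => G.res (π (.inl p.1) j))) →
        LE Ω xs ys (a (.inl p.2)) (b (.inl p.2)) (fun j => G.res (π (.inl p.2) j))
          (fun j => G.res (u (.inl p.2) j))
          (mn Ω xs ys (a (.inl p.2)) (fun j => G.res (π (.inl p.2) j))) →
        ∀ O, ¬ (0 < mn Ω xs ys (a (.inl p.1)) (fun j => G.res (π (.inl p.1) j)) O ∧
          0 < mn Ω xs ys (a (.inl p.2)) (fun j => G.res (π (.inl p.2) j)) O) := by
    intro p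
    by_cases h : p.1.1 ≠ p.2.1
    · obtain ⟨C2, hC2⟩ := hNCS K F x y w N A g hM (EE x y CC C (.inl p.1))
        (EE x y CC C (.inl p.2)) (by
          intro hE
          have h1 : (p.1.2.1 : PP K x y) = p.2.2.1 := hE
          have h2 := p.1.2.2
          rw [h1] at h2
          exact Finset.disjoint_left.mp (hBig.once _ _ h) h2 p.2.2.2)
        _ _ _ _ _ _ _ _ (hLE (.inl p.1)) (hLE (.inl p.2))
      exact ⟨C2, fun _ => hC2⟩
    · exact ⟨∅, fun h1 => absurd h1 h⟩
  choose C2 hC2 using hnc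
  obtain ⟨C3, hC3⟩ := hSPE K F x y w N A g hM
  -- the bound at closed points
  obtain ⟨K₀, hK₀⟩ := hCPP (I1 x y CC) (fun i => (XV.eS i.1, XV.eT i.1)) (fun i => r i.2.1)
    (Finset.univ.sup B) N A (∑ i : I1 x y CC, a (.inl i) 0)
    (by
      intro i
      have : ∀ s : Fin 10, XV.eS s ≠ XV.eT s := by decide
      exact this i.1)
    (fun i => hBig.pos i.1 _ i.2.2)
  obtain ⟨f, hf, heq⟩ := hBAK K F x y w N A g hM (I1 x y CC ⊕ I2 x y C) a b π u
    (fun j => dlt (EE x y CC C j)) hLE (Fin 8)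
    (fun ν => dv CC C (pe ν) (kk (K₀ + Finset.univ.sup B + 1) ν)
      (zz ⟨_, o1, ho1⟩ ⟨_, o3, ho3⟩ ⟨_, o4, ho4⟩ ν))
    (eqs (K₀ + Finset.univ.sup B + 1)) (by
      intro C4
      haveI hch : CharP (AlgebraicClosure (ZMod 2)) 2 :=
        charP_of_injective_algebraMap (algebraMap (ZMod 2) (AlgebraicClosure (ZMod 2))).injective 2
      obtain ⟨P, hP⟩ := hPLC 2 K (AlgebraicClosure (ZMod 2))
        (C4 ∪ (C3 ∪ (Finset.univ.biUnion Cs ∪ (Finset.univ.biUnion C1 ∪ Finset.univ.biUnion C2))))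
      have hP4 : P.Gd C4 := Plc.Gd.mono (by intro c hc; simp [hc]) hP
      have hP3 : P.Gd C3 := Plc.Gd.mono (by intro c hc; simp [hc]) hP
      have hPs : ∀ j, P.Gd (Cs j) := fun j => Plc.Gd.mono (by
        intro c hc
        simp only [Finset.mem_union, Finset.mem_biUnion, Finset.mem_univ, true_and]
        right; right; left
        exact ⟨j, hc⟩) hP
      have hP1 : ∀ j, P.Gd (C1 j) := fun j => Plc.Gd.mono (by
        intro c hc
        simp only [Finset.mem_union, Finset.mem_biUnion, Finset.mem_univ, true_and]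
        right; right; right; left
        exact ⟨j, hc⟩) hP
      have hP2 : ∀ j, P.Gd (C2 j) := fun j => Plc.Gd.mono (by
        intro c hc
        simp only [Finset.mem_union, Finset.mem_biUnion, Finset.mem_univ, true_and]
        right; right; right; right
        exact ⟨j, hc⟩) hP
      obtain ⟨hgO, Fs, iF, iA, xs, ys, ws, hMs⟩ := hC3 _ P hP3
      obtain ⟨G⟩ := hGAU K _ F Fs x y w xs ys ws N A g hM P hgO hMs
      have hLs := fun j => hCs j _ P (hPs j) Fs xs ys ws hMs G
      let D' : I1 x y CC ⊕ I2 x y C → PP (AlgebraicClosure (ZMod 2)) xs ys → ℤ :=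
        fun j => mn _ xs ys (a j) (fun i => G.res (π j i))
      have hLE' : ∀ j, LE _ xs ys (a j) (b j) (fun i => G.res (π j i)) (fun i => G.res (u j i))
          (D' j) := fun j => (hLs j).2.1
      have hB' : ∀ j O, D' j O ≤ ((Finset.univ.sup B : ℕ) : ℤ) := by
        intro j O
        refine le_trans ((hLs j).2.2 O) ?_
        exact_mod_cast Finset.le_sup (Finset.mem_univ j)
      have hnn : ∀ j O, 0 ≤ D' j O := fun j O => (hLE' j).nonneg O
      have hfin : ∀ c : AlgebraicClosure (ZMod 2), ∃ n : ℕ, 0 < n ∧ c ^ 2 ^ n = c := by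
        intro c
        have hint : IsIntegral (ZMod 2) c := Algebra.IsIntegral.isIntegral c
        haveI : FiniteDimensional (ZMod 2) (IntermediateField.adjoin (ZMod 2) {c}) :=
          IntermediateField.adjoin.finiteDimensional hint
        haveI : Finite (IntermediateField.adjoin (ZMod 2) {c}) :=
          Module.finite_of_finite (ZMod 2)
        haveI := Fintype.ofFinite (IntermediateField.adjoin (ZMod 2) {c})
        haveI : CharP (IntermediateField.adjoin (ZMod 2) {c}) 2 :=
          charP_of_injective_algebraMap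
            (algebraMap (ZMod 2) (IntermediateField.adjoin (ZMod 2) {c})).injective 2
        obtain ⟨n, hn1, hn2⟩ := FiniteField.card (IntermediateField.adjoin (ZMod 2) {c}) 2
        refine ⟨n, n.2, ?_⟩
        have h3 := FiniteField.pow_card
          (⟨c, IntermediateField.mem_adjoin_simple_self (ZMod 2) c⟩ :
            IntermediateField.adjoin (ZMod 2) {c})
        rw [hn2] at h3
        have h4 := congrArg Subtype.val h3
        simpa using h4
      have hcp := cp_place hSUP hFCH hFQ hFWD hS CC r hBig.once C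
        (by
          intro c₀ c hc n
          obtain ⟨m, f, hf0, hf⟩ := hbig c₀ c hc n
          exact ⟨m, f, hf0, by exact_mod_cast hf⟩)
        hfin hMs.surf G a b π u hLE (fun j => (hLs j).1) D' hLE' (Finset.univ.sup B) hB'
        (by
          intro i i' h1 h2 O O' hO hO'
          exact hC1 (i, i') h1 h2 _ P (hP1 _) Fs xs ys ws hMs G (hLE' _) (hLE' _) O O' hO hO')
        (by
          intro i i' h1 O hO
          exact hC2 (i, i') h1 _ P (hP2 _) Fs xs ys ws hMs G (hLE' _) (hLE' _) O hO)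
      have hprod0 : ∏ i : I1 x y CC, G.res (π (.inl i) 0) ≠ 0 :=
        Finset.prod_ne_zero_iff.mpr fun i _ => (hLE' (.inl i)).pi_ne 0
      have hord : ∀ (O : PP (AlgebraicClosure (ZMod 2)) xs ys) (s : Finset (I1 x y CC)),
          ord O.1 (∏ i ∈ s, G.res (π (.inl i) 0)) = ∑ i ∈ s, ord O.1 (G.res (π (.inl i) 0)) := by
        intro O s
        induction s using Finset.induction_on with
        | empty => simp [(PP.isOrd O).one]
        | insert i s hi ih =>
          rw [Finset.prod_insert hi, Finset.sum_insert hi, (PP.isOrd O).mul _ _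
            ((hLE' (.inl i)).pi_ne 0)
            (Finset.prod_ne_zero_iff.mpr fun i _ => (hLE' (.inl i)).pi_ne 0), ih]
      have hsum : ∀ O : PP (AlgebraicClosure (ZMod 2)) xs ys,
          ord O.1 (∏ i : I1 x y CC, G.res (π (.inl i) 0)) +
            ((∑ i : I1 x y CC, a (.inl i) 0 : ℕ) : ℤ) * H _ xs ys O =
          ∑ i : I1 x y CC, (ord O.1 (G.res (π (.inl i) 0)) + a (.inl i) 0 * H _ xs ys O) := by
        intro O
        rw [hord O Finset.univ, Finset.sum_add_distrib]
        congr 1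
        push_cast
        rw [Finset.sum_mul]
      have hterm : ∀ (O : PP (AlgebraicClosure (ZMod 2)) xs ys) (i : I1 x y CC),
          0 ≤ ord O.1 (G.res (π (.inl i) 0)) + a (.inl i) 0 * H _ xs ys O := fun O i =>
        le_trans (hnn _ O) ((hLE' (.inl i)).low O 0)
      obtain ⟨X, hX0, hXa, hXp, hXz, hXn⟩ := hK₀ _ Fs xs ys hMs.surf (by
          rw [← hMs.rank]) ws (∏ i : I1 x y CC, G.res (π (.inl i) 0))
        (w_mem hSCI hMs) hMs.gen hprod0 (by
          right
          intro O
          have h1 := hsum O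
          have h2 := Finset.sum_nonneg fun (i : I1 x y CC) (_ : i ∈ Finset.univ) => hterm O i
          simp only
          linarith) (fun i => D' (.inl i)) hcp (by
          intro i O hO
          rw [hsum O]
          have h1 : 1 ≤ D' (.inl i) O := by
            have := hnn (.inl i) O
            omega
          refine le_trans h1 (le_trans ((hLE' (.inl i)).low O 0) ?_)
          exact Finset.single_le_sum (fun i _ => hterm O i) (Finset.mem_univ i))
      obtain ⟨f, hf, heq⟩ := unknowns CC C D' hnn (le_refl _) hB' ⟨_, o1, ho1⟩ ⟨_, o3, ho3⟩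
        ⟨_, o4, ho4⟩ rfl rfl rfl X hX0 hXa hXp hXz hXn
      exact ⟨_, _, P, hP4, Fs, iF, iA, xs, ys, ws, hMs, G, D', hLE', f, hf, heq⟩)
  exact ⟨f 0, f 1, funs_of CC C hBig.once _ (by omega) _ _ _ rfl rfl rfl f hf heq⟩

end Pool.Agent.SPR
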