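import Pool.Agent.SPR.Lift85

/-!
# BAK: transfer of equations between sections of divisors (helper85)
-/

set_option autoImplicit false
set_option linter.all false

noncomputable section

namespace Pool.Agent.SPR

open Pool.Agent.SRF

namespace BAK_

open MvPolynomial

theorem mul1_ne {F : Type} [Field F] (π u : Fin 2 → F) (d : ℤ) (j : Fin 2) (hπ : ∀ j, π j ≠ 0)
    (hu : ∀ j, u j ≠ 0) : mul1 π u d j ≠ 0 := by
  unfold mul1
  exact mul_ne_zero (pow_ne_zero _ (hπ j)) (pow_ne_zero _ (div_ne_zero (hu j) (hπ j)))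

section

variable {κ Ω F Fs : Type} [Field κ] [Field Ω] [Field F] [Field Fs] [Algebra κ F] [Algebra Ω Fs]
  {P : Plc κ Ω} {x y w : F} {xs ys ws : Fs} (G : Gau P x y w xs ys ws)

theorem U_div {f g : F} (hf : G.U f) (hg : G.U g) : G.U (f / g) := by
  rw [div_eq_mul_inv]; exact hf.mul hg.inv

theorem res_div {f g : F} (hf : G.U f) (hg : G.U g) : G.res (f / g) = G.res f / G.res g := by
  rw [div_eq_mul_inv, Gau.res_mul hf.2.1 hg.inv.2.1, hg.res_inv, div_eq_mul_inv]

theorem U_mul1 {π u : Fin 2 → F} (hπ : ∀ j, G.U (π j)) (hu : ∀ j, G.U (u j)) (d : ℤ) (j : Fin 2) :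
    G.U (mul1 π u d j) := by
  unfold mul1
  exact ((hπ j).pow _).mul ((U_div G (hu j) (hπ j)).pow _)

theorem res_mul1 {π u : Fin 2 → F} (hπ : ∀ j, G.U (π j)) (hu : ∀ j, G.U (u j)) (d : ℤ)
    (j : Fin 2) : G.res (mul1 π u d j) = mul1 (fun j => G.res (π j)) (fun j => G.res (u j)) d j := by
  unfold mul1
  rw [Gau.res_mul ((hπ j).pow _).2.1 ((U_div G (hu j) (hπ j)).pow _).2.1,
    Gau.res_pow (hπ j).2.1, Gau.res_pow (U_div G (hu j) (hπ j)).2.1, res_div G (hu j) (hπ j)]

theorem U_prod {ι : Type} (s : Finset ι) (f : ι → F) (hf : ∀ i ∈ s, G.U (f i)) :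
    G.U (∏ i ∈ s, f i) := by
  classical
  induction s using Finset.induction_on with
  | empty => simpa using (Gau.U.one (G := G))
  | insert i s hi ih =>
    rw [Finset.prod_insert hi]
    exact (hf i (Finset.mem_insert_self i s)).mul
      (ih fun j hj => hf j (Finset.mem_insert_of_mem hj))

end

end BAK_

open BAK_ Lift85 in
theorem BAK_proof (hGUN : Stmt_GUN) (hMUL : Stmt_MUL) (hBAL : Stmt_BAL) : Stmt_BAK := by
  classical
  intro κ F _ _ _ _ x y w N A g hM ι _ a b π u D hLE σ _ d S hyp
  -- the finite set of local equations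
  let T : Finset F := (Finset.univ : Finset (ι × Fin 2)).image (fun p => π p.1 p.2) ∪
    (Finset.univ : Finset (ι × Fin 2)).image (fun p => u p.1 p.2)
  obtain ⟨C₀, hC₀⟩ := hGUN κ F x y w N A g hM T
  have hπT : ∀ i j, π i j ∈ T := fun i j => Finset.mem_union_left _
    (Finset.mem_image.2 ⟨(i, j), Finset.mem_univ _, rfl⟩)
  have huT : ∀ i j, u i j ∈ T := fun i j => Finset.mem_union_right _
    (Finset.mem_image.2 ⟨(i, j), Finset.mem_univ _, rfl⟩)
  -- multipliers
  let μ : σ → (ι → Fin 2) → F := fun ν j => ∏ i, mul1 (π i) (u i) (d ν i) (j i)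
  let q : σ → (ι → Fin 2) → ℕ := fun ν j => ∑ i, deg1 (a i) (b i) (d ν i) (j i)
  have hμ0 : ∀ ν j, μ ν j ≠ 0 := fun ν j => Finset.prod_ne_zero_iff.2 fun i _ =>
    mul1_ne _ _ _ _ (hLE i).pi_ne (hLE i).u_ne
  let j₀ : ι → Fin 2 := fun _ => 0
  -- equations
  let e1 : σ × (ι → Fin 2) × (ι → Fin 2) → MvPolynomial (σ × (ι → Fin 2)) F := fun p =>
    MvPolynomial.X (p.1, p.2.1) * MvPolynomial.C (μ p.1 p.2.2) -
      MvPolynomial.X (p.1, p.2.2) * MvPolynomial.C (μ p.1 p.2.1)
  let e2 : MvPolynomial σ ℤ → MvPolynomial (σ × (ι → Fin 2)) F := fun Φ =>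
    MvPolynomial.aeval (fun ν => MvPolynomial.C (μ ν j₀)⁻¹ * MvPolynomial.X (ν, j₀)) Φ
  haveI : Fintype σ := Fintype.ofFinite σ
  obtain ⟨v, hvL, hvS⟩ := hBAL κ F x y w N A g hM (σ × (ι → Fin 2)) (fun p => q p.1 p.2)
    (Finset.univ.image e1 ∪ S.image e2) (by
      intro C
      obtain ⟨Ω, _, P, hP, Fs, _, _, xs, ys, ws, hMs, G, D', hLE', f, hf, hfS⟩ := hyp (C ∪ C₀)
      have hGU := hC₀ Ω P (hP.mono Finset.subset_union_right) Fs xs ys ws hMs G
      have hπU : ∀ i j, G.U (π i j) := fun i j => hGU _ (hπT i j) ((hLE i).pi_ne j)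
      have huU : ∀ i j, G.U (u i j) := fun i j => hGU _ (huT i j) ((hLE i).u_ne j)
      have hμU : ∀ ν j, G.U (μ ν j) := fun ν j => U_prod G _ _ fun i _ =>
        U_mul1 G (hπU i) (huU i) _ _
      let μs : σ → (ι → Fin 2) → Fs := fun ν j =>
        ∏ i, mul1 (fun j => G.res (π i j)) (fun j => G.res (u i j)) (d ν i) (j i)
      have hμs : ∀ ν j, G.res (μ ν j) = μs ν j := by
        intro ν j
        rw [Gau.res_prod _ _ (fun i _ => (U_mul1 G (hπU i) (huU i) _ _).2.1)]
        exact Finset.prod_congr rfl fun i _ => res_mul1 G (hπU i) (huU i) _ _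
      have hμs0 : ∀ ν j, μs ν j ≠ 0 := fun ν j => by
        rw [← hμs]; exact (hμU ν j).res_ne
      refine ⟨Ω, _, P, hP.mono Finset.subset_union_left, Fs, _, _, xs, ys, ws, hMs, G,
        fun p => f p.1 * μs p.1 p.2, ?_, ?_⟩
      · rintro ⟨ν, j⟩
        have h1 := (hMUL Ω Fs xs ys ι a b (fun i j => G.res (π i j)) (fun i j => G.res (u i j)) D'
          hLE' (d ν) 0 (f ν)).1 (by
            have h2 := hf ν
            have h3 : (fun O => ∑ i, d ν i * D' i O + 0 * H Ω xs ys O) =
                (fun O => ∑ i, d ν i * D' i O) := by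
              funext O; ring
            rw [h3]; exact h2) j
        have h4 : (fun O => ((0 : ℤ) + ((∑ i, deg1 (a i) (b i) (d ν i) (j i) : ℕ) : ℤ)) *
            H Ω xs ys O) = (fun O => (q ν j : ℤ) * H Ω xs ys O) := by
          funext O; rw [zero_add]
        rw [h4] at h1
        exact h1
      · intro Φ' hΦ'
        rcases Finset.mem_union.1 hΦ' with hΦ' | hΦ'
        · obtain ⟨⟨ν, j, j'⟩, -, rfl⟩ := Finset.mem_image.1 hΦ'
          let c : G.W := ⟨μ ν j', (hμU ν j').2.1⟩
          let c' : G.W := ⟨μ ν j, (hμU ν j).2.1⟩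
          have h1 : e1 (ν, j, j') = MvPolynomial.map G.W.subtype
              (MvPolynomial.X (ν, j) * MvPolynomial.C c -
                MvPolynomial.X (ν, j') * MvPolynomial.C c') := by
            simp only [map_sub, map_mul, MvPolynomial.map_X, MvPolynomial.map_C]
            rfl
          rw [h1, G_map]
          simp only [map_sub, map_mul, MvPolynomial.map_X, MvPolynomial.map_C,
            MvPolynomial.eval_X, MvPolynomial.eval_C]
          have hc : G.r c = μs ν j' := by
            rw [← hμs, Gau.res_of_mem (hμU ν j').2.1]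
          have hc' : G.r c' = μs ν j := by
            rw [← hμs, Gau.res_of_mem (hμU ν j).2.1]
          rw [hc, hc']
          ring
        · obtain ⟨Φ, hΦS, rfl⟩ := Finset.mem_image.1 hΦ'
          let c : σ → G.W := fun ν => ⟨(μ ν j₀)⁻¹, (hμU ν j₀).2.2⟩
          have h1 : e2 Φ = MvPolynomial.map G.W.subtype
              (MvPolynomial.aeval (fun ν => MvPolynomial.C (c ν) * MvPolynomial.X (ν, j₀)) Φ) := by
            change MvPolynomial.aeval _ Φ = _
            rw [MvPolynomial.aeval_def, MvPolynomial.aeval_def,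
              MvPolynomial.hom_eval₂]
            congr 1
            · exact Subsingleton.elim _ _
            · funext ν
              simp only [Function.comp_apply, map_mul, MvPolynomial.map_X, MvPolynomial.map_C]
              rfl
          rw [h1, G_map]
          have h2 : MvPolynomial.eval (fun p : σ × (ι → Fin 2) => f p.1 * μs p.1 p.2)
              (MvPolynomial.map G.r (MvPolynomial.aeval
                (fun ν => MvPolynomial.C (c ν) * MvPolynomial.X (ν, j₀)) Φ)) =
              MvPolynomial.aeval f Φ := by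
            rw [MvPolynomial.aeval_def, MvPolynomial.hom_eval₂, MvPolynomial.hom_eval₂,
              MvPolynomial.aeval_def]
            congr 1
            · exact Subsingleton.elim _ _
            · funext ν
              simp only [Function.comp_apply, map_mul, MvPolynomial.map_X, MvPolynomial.map_C,
                MvPolynomial.eval_X, MvPolynomial.eval_C]
              have hc : G.r (c ν) = (μs ν j₀)⁻¹ := by
                rw [← hμs, ← (hμU ν j₀).res_inv, Gau.res_of_mem (hμU ν j₀).2.2]
              rw [hc]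
              have := hμs0 ν j₀
              field_simp
          rw [h2]
          exact hfS Φ hΦS)
  refine ⟨fun ν => v (ν, j₀) / μ ν j₀, ?_, ?_⟩
  · intro ν
    have h1 := (hMUL κ F x y ι a b π u D hLE (d ν) 0 (v (ν, j₀) / μ ν j₀)).2 (by
      intro j
      have h2 := hvL (ν, j)
      have h3 := hvS (e1 (ν, j₀, j)) (Finset.mem_union_left _
        (Finset.mem_image_of_mem _ (Finset.mem_univ _)))
      simp only [e1, map_sub, map_mul, MvPolynomial.eval_X, MvPolynomial.eval_C] at h3
      have h4 : v (ν, j₀) / μ ν j₀ * ∏ i, mul1 (π i) (u i) (d ν i) (j i) = v (ν, j) := by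
        change v (ν, j₀) / μ ν j₀ * μ ν j = v (ν, j)
        have := hμ0 ν j₀
        field_simp
        linear_combination h3
      have h5 : (fun O => ((0 : ℤ) + ((∑ i, deg1 (a i) (b i) (d ν i) (j i) : ℕ) : ℤ)) *
            H κ x y O) = (fun O => (q ν j : ℤ) * H κ x y O) := by
        funext O; rw [zero_add]
      rw [h4, h5]
      exact h2)
    have h3 : (fun O => ∑ i, d ν i * D i O + 0 * H κ x y O) =
        (fun O => ∑ i, d ν i * D i O) := by
      funext O; ring
    rw [h3] at h1
    exact h1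
  · intro Φ hΦ
    have h1 := hvS (e2 Φ) (Finset.mem_union_right _ (Finset.mem_image_of_mem _ hΦ))
    rw [← h1]
    change _ = MvPolynomial.eval v (MvPolynomial.aeval _ Φ)
    rw [MvPolynomial.aeval_def, MvPolynomial.aeval_def, MvPolynomial.hom_eval₂]
    congr 1
    · exact Subsingleton.elim _ _
    · funext ν
      simp only [Function.comp_apply, map_mul, MvPolynomial.eval_X, MvPolynomial.eval_C]
      rw [div_eq_mul_inv, mul_comm]

end Pool.Agent.SPR
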