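import Pool.Agent.SPR.Lift85

/-!
# BAL: transfer of equations between sections of multiples of the line at infinity (helper85)
-/

set_option autoImplicit false
set_option linter.all false

noncomputable section

namespace Pool.Agent.SPR

open Pool.Agent.SRF

namespace BAL_

open MvPolynomial

/-! ### exponents of bounded degree -/

/-- the exponents of degree at most `D` -/
def Em (D : ℕ) : Finset (Fin 2 →₀ ℕ) :=
  open scoped Classical in
  (Finset.range (D + 1)).biUnion fun n => Finset.finsuppAntidiag Finset.univ n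

theorem mem_Em {D : ℕ} {m : Fin 2 →₀ ℕ} : m ∈ Em D ↔ m 0 + m 1 ≤ D := by
  classical
  simp only [Em, Finset.mem_biUnion, Finset.mem_range, Finset.mem_finsuppAntidiag,
    Fin.sum_univ_two]
  constructor
  · rintro ⟨n, hn, h, -⟩
    omega
  · intro h
    exact ⟨m 0 + m 1, by omega, rfl, Finset.subset_univ _⟩

section
variable {k : Type} [Field k]

/-- the polynomial with the given coefficients -/
def poly2 (D : ℕ) (c : (Fin 2 →₀ ℕ) → k) : MvPolynomial (Fin 2) k := ∑ m ∈ Em D, monomial m (c m)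

theorem poly2_deg (D : ℕ) (c : (Fin 2 →₀ ℕ) → k) : (poly2 D c).totalDegree ≤ D := by
  unfold poly2
  refine totalDegree_finsetSum_le fun m hm => ?_
  refine (totalDegree_monomial_le m (c m)).trans ?_
  rw [Finsupp.sum_fintype _ _ (fun _ => rfl), Fin.sum_univ_two]
  exact mem_Em.1 hm

theorem poly2_coeff (D : ℕ) (b : MvPolynomial (Fin 2) k) (h : b.totalDegree ≤ D)
    (c : (Fin 2 →₀ ℕ) → k) (hc : ∀ m ∈ Em D, c m = b.coeff m) : poly2 D c = b := by
  classical
  unfold poly2
  rw [Finset.sum_congr rfl (fun m hm => by rw [hc m hm])]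
  conv_rhs => rw [← b.support_sum_monomial_coeff]
  symm
  refine Finset.sum_subset ?_ ?_
  · intro m hm
    rw [mem_Em]
    have := le_totalDegree hm
    rw [Finsupp.sum_fintype _ _ (fun _ => rfl), Fin.sum_univ_two] at this
    omega
  · intro m _ hm
    rw [notMem_support_iff.1 hm, monomial_zero]

end

/-! ### relations: graphs of partially defined ring homomorphisms -/

/-- the pair `(p, f)` is in the image of `(φ, ψ)` -/
def Rl {R A K : Type} [CommRing R] [CommRing A] [CommRing K] (φ : R →+* A) (ψ : R →+* K) (p : A)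
    (f : K) : Prop := ∃ r, φ r = p ∧ ψ r = f

section
variable {R A K : Type} [CommRing R] [CommRing A] [CommRing K] {φ : R →+* A} {ψ : R →+* K}

theorem Rl.add {p q : A} {f g : K} (h1 : Rl φ ψ p f) (h2 : Rl φ ψ q g) :
    Rl φ ψ (p + q) (f + g) := by
  obtain ⟨r, rfl, rfl⟩ := h1
  obtain ⟨s, rfl, rfl⟩ := h2
  exact ⟨r + s, map_add _ _ _, map_add _ _ _⟩

theorem Rl.mul {p q : A} {f g : K} (h1 : Rl φ ψ p f) (h2 : Rl φ ψ q g) :
    Rl φ ψ (p * q) (f * g) := by
  obtain ⟨r, rfl, rfl⟩ := h1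
  obtain ⟨s, rfl, rfl⟩ := h2
  exact ⟨r * s, map_mul _ _ _, map_mul _ _ _⟩

theorem Rl.one : Rl φ ψ 1 1 := ⟨1, map_one _, map_one _⟩

theorem Rl.zero : Rl φ ψ 0 0 := ⟨0, map_zero _, map_zero _⟩

theorem Rl.natCast (n : ℕ) : Rl φ ψ (n : A) (n : K) := ⟨n, map_natCast _ _, map_natCast _ _⟩

theorem Rl.pow {p : A} {f : K} (h1 : Rl φ ψ p f) (n : ℕ) : Rl φ ψ (p ^ n) (f ^ n) := by
  obtain ⟨r, rfl, rfl⟩ := h1
  exact ⟨r ^ n, map_pow _ _ _, map_pow _ _ _⟩

theorem Rl.sum {ι : Type} (s : Finset ι) {p : ι → A} {f : ι → K}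
    (h : ∀ i ∈ s, Rl φ ψ (p i) (f i)) : Rl φ ψ (∑ i ∈ s, p i) (∑ i ∈ s, f i) := by
  classical
  induction s using Finset.induction_on with
  | empty => simpa using (Rl.zero (φ := φ) (ψ := ψ))
  | insert i s hi ih =>
    rw [Finset.sum_insert hi, Finset.sum_insert hi]
    exact (h i (Finset.mem_insert_self i s)).add
      (ih fun j hj => h j (Finset.mem_insert_of_mem hj))

theorem Rl.prod {ι : Type} (s : Finset ι) {p : ι → A} {f : ι → K}
    (h : ∀ i ∈ s, Rl φ ψ (p i) (f i)) : Rl φ ψ (∏ i ∈ s, p i) (∏ i ∈ s, f i) := by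
  classical
  induction s using Finset.induction_on with
  | empty => simpa using (Rl.one (φ := φ) (ψ := ψ))
  | insert i s hi ih =>
    rw [Finset.prod_insert hi, Finset.prod_insert hi]
    exact (h i (Finset.mem_insert_self i s)).mul
      (ih fun j hj => h j (Finset.mem_insert_of_mem hj))

end

/-! ### the generic system -/

/-- the unknowns -/
abbrev Tau (σ : Type) (N M : ℕ) : Type := σ × Bool × Fin (N + 1) × Fin (M + 1) × Fin (M + 1)

/-- all variables -/
abbrev Rho (σ : Type) (N M : ℕ) : Type := Tau σ N M ⊕ Fin 3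

section
variable {σ : Type} {N M : ℕ} (κ : Type) [Field κ]

/-- the name of an unknown coefficient -/
def tt (s : Bool) (i : σ) (j : ℕ) (m : Fin 2 →₀ ℕ) : Tau σ N M :=
  (i, s, Fin.ofNat (N + 1) j, Fin.ofNat (M + 1) (m 0), Fin.ofNat (M + 1) (m 1))

/-- the generic polynomial of degree at most `D` in `X, Y` -/
def gp (D : ℕ) (t : (Fin 2 →₀ ℕ) → Tau σ N M) : MvPolynomial (Rho σ N M) κ :=
  ∑ m ∈ Em D, X (Sum.inl (t m)) * X (Sum.inr 0) ^ (m 0) * X (Sum.inr 1) ^ (m 1)

variable {κ}

theorem Rl_gp {R k K : Type} [CommRing R] [Field k] [Field K] [Algebra k K]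
    {φ : R →+* MvPolynomial (Rho σ N M) κ} {ψ : R →+* K} {x y : K} {u : Tau σ N M → k}
    (hU : ∀ t, Rl φ ψ (X (Sum.inl t)) (algebraMap k K (u t)))
    (h0 : Rl φ ψ (X (Sum.inr 0)) x) (h1 : Rl φ ψ (X (Sum.inr 1)) y) (D : ℕ)
    (t : (Fin 2 →₀ ℕ) → Tau σ N M) :
    Rl φ ψ (gp κ D t) (aeval ![x, y] (poly2 D (fun m => u (t m)))) := by
  have : aeval ![x, y] (poly2 D (fun m => u (t m))) =
      ∑ m ∈ Em D, algebraMap k K (u (t m)) * x ^ (m 0) * y ^ (m 1) := by
    unfold poly2
    rw [map_sum]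
    refine Finset.sum_congr rfl fun m _ => ?_
    rw [aeval_monomial, Finsupp.prod_fintype _ _ (fun _ => pow_zero _), Fin.prod_univ_two,
      mul_assoc]
    rfl
  rw [this]
  exact Rl.sum _ fun m _ => ((hU _).mul (h0.pow _)).mul (h1.pow _)

variable (q : σ → ℕ) (a : ℕ) (g : Polynomial (MvPolynomial (Fin 2) κ))

/-- the inclusions of the variables -/
def i2 : Fin 2 → Rho σ N M := fun k => Sum.inr k.castSucc

def i3 : Fin 3 → Rho σ N M := Sum.inr

/-- the numerator of the unknown section -/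
def gB (i : σ) : MvPolynomial (Rho σ N M) κ :=
  ∑ j ∈ Finset.range N, gp κ (q i + a * N) (tt false i j) * X (Sum.inr 2) ^ j

/-- the coefficients of its integral equation -/
def gC (i : σ) (j : ℕ) : MvPolynomial (Rho σ N M) κ := gp κ (q i * j) (tt true i j)

/-- the derivative -/
def gD : MvPolynomial (Rho σ N M) κ :=
  ∑ j ∈ Finset.range N, ((j + 1 : ℕ) : MvPolynomial (Rho σ N M) κ) *
    rename i2 (g.coeff (j + 1)) * X (Sum.inr 2) ^ j

/-- the integral equation -/
def e1 (i : σ) : MvPolynomial (Rho σ N M) κ :=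
  gB q a i ^ N + ∑ j ∈ Finset.Icc 1 N, gC q i j * gD g ^ j * gB q a i ^ (N - j)

/-- the equations between the sections -/
def e2 {F : Type} [Field F] (nn : F → MvPolynomial (Fin 3) κ) (Φ : MvPolynomial σ F) :
    MvPolynomial (Rho σ N M) κ :=
  ∑ m ∈ Φ.support, rename i3 (nn (Φ.coeff m)) * (∏ i ∈ m.support, gB q a i ^ (m i)) *
    gD g ^ (Φ.totalDegree - ∑ i ∈ m.support, m i)

theorem Rl_e1 {R K : Type} [CommRing R] [Field K]
    {φ : R →+* MvPolynomial (Rho σ N M) κ} {ψ : R →+* K} {δ : K} {f : σ → K} {c : σ → ℕ → K}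
    (hB : ∀ i, Rl φ ψ (gB q a i) (δ * f i)) (hC : ∀ i j, Rl φ ψ (gC q i j) (c i j))
    (hD : Rl φ ψ (gD g) δ) (i : σ) :
    Rl φ ψ (e1 q a g i) (δ ^ N * (f i ^ N + ∑ j ∈ Finset.Icc 1 N, c i j * f i ^ (N - j))) := by
  have h1 : δ ^ N * (f i ^ N + ∑ j ∈ Finset.Icc 1 N, c i j * f i ^ (N - j)) =
      (δ * f i) ^ N + ∑ j ∈ Finset.Icc 1 N, c i j * δ ^ j * (δ * f i) ^ (N - j) := by
    rw [mul_add, mul_pow, Finset.mul_sum]
    congr 1
    refine Finset.sum_congr rfl fun j hj => ?_
    have hj' : j ≤ N := (Finset.mem_Icc.1 hj).2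
    have h2 : δ ^ N = δ ^ j * δ ^ (N - j) := by rw [← pow_add, Nat.add_sub_cancel' hj']
    rw [h2, mul_pow]; ring
  rw [h1]
  exact ((hB i).pow _).add (Rl.sum _ fun j _ => ((hC i j).mul (hD.pow _)).mul ((hB i).pow _))

theorem Rl_e2 {F R K : Type} [Field F] [CommRing R] [Field K]
    {φ : R →+* MvPolynomial (Rho σ N M) κ} {ψ : R →+* K} {δ : K} {f : σ → K}
    (nn : F → MvPolynomial (Fin 3) κ) (Φ : MvPolynomial σ F) (nv : F → K)
    (hn : ∀ m ∈ Φ.support, Rl φ ψ (rename i3 (nn (Φ.coeff m))) (nv (Φ.coeff m)))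
    (hB : ∀ i, Rl φ ψ (gB q a i) (δ * f i)) (hD : Rl φ ψ (gD g) δ) :
    Rl φ ψ (e2 q a g nn Φ) (δ ^ Φ.totalDegree *
      ∑ m ∈ Φ.support, nv (Φ.coeff m) * ∏ i ∈ m.support, f i ^ (m i)) := by
  have h1 : δ ^ Φ.totalDegree * ∑ m ∈ Φ.support, nv (Φ.coeff m) * ∏ i ∈ m.support, f i ^ (m i) =
      ∑ m ∈ Φ.support, nv (Φ.coeff m) * (∏ i ∈ m.support, (δ * f i) ^ (m i)) *
        δ ^ (Φ.totalDegree - ∑ i ∈ m.support, m i) := by
    rw [Finset.mul_sum]
    refine Finset.sum_congr rfl fun m hm => ?_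
    have h2 : ∑ i ∈ m.support, m i ≤ Φ.totalDegree := le_totalDegree hm
    have h3 : δ ^ Φ.totalDegree = δ ^ (∑ i ∈ m.support, m i) *
        δ ^ (Φ.totalDegree - ∑ i ∈ m.support, m i) := by
      rw [← pow_add, Nat.add_sub_cancel' h2]
    have h4 : ∏ i ∈ m.support, (δ * f i) ^ (m i) =
        δ ^ (∑ i ∈ m.support, m i) * ∏ i ∈ m.support, f i ^ (m i) := by
      simp only [mul_pow]
      rw [Finset.prod_mul_distrib, Finset.prod_pow_eq_pow_sum]
    rw [h3, h4]; ring
  rw [h1]
  exact Rl.sum _ fun m hm => ((hn m hm).mul (Rl.prod _ fun i _ => (hB i).pow _)).mul (hD.pow _)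

theorem Rl_gB {R k K : Type} [CommRing R] [Field k] [Field K] [Algebra k K]
    {φ : R →+* MvPolynomial (Rho σ N M) κ} {ψ : R →+* K} {x y w : K} {u : Tau σ N M → k}
    (hU : ∀ t, Rl φ ψ (X (Sum.inl t)) (algebraMap k K (u t)))
    (h0 : Rl φ ψ (X (Sum.inr 0)) x) (h1 : Rl φ ψ (X (Sum.inr 1)) y)
    (h2 : Rl φ ψ (X (Sum.inr 2)) w) (i : σ) :
    Rl φ ψ (gB q a i) (∑ j ∈ Finset.range N,
      aeval ![x, y] (poly2 (q i + a * N) (fun m => u (tt false i j m))) * w ^ j) :=
  Rl.sum _ fun j _ => (Rl_gp hU h0 h1 _ _).mul (h2.pow _)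

theorem Rl_gD {R K : Type} [CommRing R] [Field K]
    {φ : R →+* MvPolynomial (Rho σ N M) κ} {ψ : R →+* K} {w : K}
    (gv : ℕ → K) (hg : ∀ j, Rl φ ψ (rename i2 (g.coeff (j + 1))) (gv (j + 1)))
    (h2 : Rl φ ψ (X (Sum.inr 2)) w) :
    Rl φ ψ (gD g) (∑ j ∈ Finset.range N, ((j + 1 : ℕ) : K) * gv (j + 1) * w ^ j) :=
  Rl.sum _ fun j _ => ((Rl.natCast _).mul (hg j)).mul (h2.pow _)

end

/-! ### common denominators -/

theorem exists_frac {κ F : Type} [Field κ] [Field F] [Algebra κ F] {x y w : F} {N a : ℕ}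
    {g : Polynomial (MvPolynomial (Fin 2) κ)} (hM : Mdl κ x y w N a g) (c : F) :
    ∃ n d : MvPolynomial (Fin 3) κ, aeval ![x, y, w] d ≠ 0 ∧
      c * aeval ![x, y, w] d = aeval ![x, y, w] n := by
  have h1 : IntermediateField.adjoin κ ({x, y} ∪ {w} : Set F) = ⊤ := by
    rw [← IntermediateField.adjoin_adjoin_left, hM.gen]
    rfl
  have h2 : c ∈ IntermediateField.adjoin κ ({x, y} ∪ {w} : Set F) := by rw [h1]; trivial
  rw [IntermediateField.mem_adjoin_iff_div] at h2
  obtain ⟨r, hr, s, hs, hc⟩ := h2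
  have h3 : ({x, y} ∪ {w} : Set F) = Set.range ![x, y, w] := by
    rw [Matrix.range_cons, Matrix.range_cons, Matrix.range_cons, Matrix.range_empty]
    ext t
    simp only [Set.mem_union, Set.mem_insert_iff, Set.mem_singleton_iff, Set.mem_empty_iff_false]
    tauto
  rw [h3, Algebra.adjoin_range_eq_range_aeval] at hr hs
  obtain ⟨n, rfl⟩ := hr
  obtain ⟨d, rfl⟩ := hs
  by_cases h0 : aeval ![x, y, w] d = 0
  · refine ⟨0, 1, by simp, ?_⟩
    rw [hc]
    change aeval ![x, y, w] n / aeval ![x, y, w] d * _ = _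
    rw [h0]; simp
  · exact ⟨n, d, h0, by rw [hc]; exact div_mul_cancel₀ _ h0⟩

theorem exists_common {κ F : Type} [Field κ] [Field F] [Algebra κ F] {x y w : F} {N a : ℕ}
    {g : Polynomial (MvPolynomial (Fin 2) κ)} (hM : Mdl κ x y w N a g) (T : Finset F) :
    ∃ d : MvPolynomial (Fin 3) κ, aeval ![x, y, w] d ≠ 0 ∧ ∃ nn : F → MvPolynomial (Fin 3) κ,
      ∀ c ∈ T, c * aeval ![x, y, w] d = aeval ![x, y, w] (nn c) := by
  classical
  induction T using Finset.induction_on with
  | empty => exact ⟨1, by simp, fun _ => 0, by simp⟩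
  | insert c T hc ih =>
    obtain ⟨d, hd, nn, hnn⟩ := ih
    obtain ⟨n, d', hd', hn⟩ := exists_frac hM c
    refine ⟨d * d', by rw [map_mul]; exact mul_ne_zero hd hd',
      fun c' => if c' = c then n * d else nn c' * d', ?_⟩
    intro c' hc'
    by_cases h : c' = c
    · subst h
      simp only [if_true, map_mul]
      linear_combination (aeval ![x, y, w] d) * hn
    · simp only [if_neg h, map_mul]
      have := hnn c' ((Finset.mem_insert.1 hc').resolve_left h)
      linear_combination (aeval ![x, y, w] d') * this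

end BAL_

open BAL_ Lift85 in
theorem BAL_proof (hGUN : Stmt_GUN) (_hGPO : Stmt_GPO) (hREP : Stmt_REP) (hTRF : Stmt_TRF)
    (hSCP : SRF.Stmt_SCP) (hSCI : SRF.Stmt_SCI) : Stmt_BAL := by
  classical
  intro κ F _ _ _ _ x y w N a g hM σ _ q S hyp
  haveI : Fintype σ := Fintype.ofFinite σ
  -- coefficients of the equations
  let T : Finset F := S.biUnion fun Φ => Φ.support.image fun m => Φ.coeff m
  have hT : ∀ Φ ∈ S, ∀ m ∈ Φ.support, Φ.coeff m ∈ T := fun Φ hΦ m hm =>
    Finset.mem_biUnion.2 ⟨Φ, hΦ, Finset.mem_image.2 ⟨m, hm, rfl⟩⟩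
  obtain ⟨d, hd, nn, hnn⟩ := exists_common hM T
  let M : ℕ := Finset.univ.sup fun i : σ => (q i + a * N) + q i * N
  have hM1 : ∀ i, q i + a * N ≤ M := fun i => by
    have : (q i + a * N) + q i * N ≤ M :=
      Finset.le_sup (f := fun i : σ => (q i + a * N) + q i * N) (Finset.mem_univ i)
    omega
  have hM2 : ∀ i j, j ≤ N → q i * j ≤ M := fun i j hj => by
    have : (q i + a * N) + q i * N ≤ M :=
      Finset.le_sup (f := fun i : σ => (q i + a * N) + q i * N) (Finset.mem_univ i)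
    have h2 : q i * j ≤ q i * N := Nat.mul_le_mul_left _ hj
    omega
  -- the exceptional constants
  obtain ⟨C₀, hC₀⟩ := hGUN κ F x y w N a g hM
    (insert (MvPolynomial.aeval ![x, y, w] d) T)
  let C₁ : Finset κ := (Finset.range (N + 1)).biUnion fun j =>
    (g.coeff j).support.image fun m => (g.coeff j).coeff m
  let C₂ : Finset κ := T.biUnion fun c => (nn c).support.image fun m => (nn c).coeff m
  let C₃ : Finset κ := d.support.image fun m => d.coeff m
  -- the system
  let Q : Finset (MvPolynomial (Rho σ N M) κ) :=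
    (Finset.univ.image fun i : σ => e1 q a g i) ∪ S.image fun Φ => e2 q a g nn Φ
  obtain ⟨u, hu⟩ := hTRF κ F x y w N a g hM (Tau σ N M) Q (by
    intro C
    obtain ⟨Ω, _, P, hP, Fs, _, _, xs, ys, ws, hMs, G, f, hf, hfS⟩ :=
      hyp (C ∪ (C₀ ∪ (C₁ ∪ (C₂ ∪ C₃))))
    have hPC : P.Gd C := hP.mono Finset.subset_union_left
    have hP' := hP.mono (Finset.subset_union_right (s₁ := C))
    have hPC0 : P.Gd C₀ := hP'.mono Finset.subset_union_left
    have hP'' := hP'.mono (Finset.subset_union_right (s₁ := C₀))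
    have hPC1 : P.Gd C₁ := hP''.mono Finset.subset_union_left
    have hP3 := hP''.mono (Finset.subset_union_right (s₁ := C₁))
    have hPC2 : P.Gd C₂ := hP3.mono Finset.subset_union_left
    have hPC3 : P.Gd C₃ := hP3.mono (Finset.subset_union_right (s₁ := C₂))
    have hGU := hC₀ Ω P hPC0 Fs xs ys ws hMs G
    -- coefficients are in the valuation ring
    have mg : ∀ j m, (g.coeff j).coeff m ∈ P.O := by
      intro j m
      by_cases h0 : (g.coeff j).coeff m = 0
      · rw [h0]; exact zero_mem _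
      by_cases hj : j ∈ Finset.range (N + 1)
      · exact (hPC1 _ (Finset.mem_biUnion.2 ⟨j, hj, Finset.mem_image.2
          ⟨m, MvPolynomial.mem_support_iff.2 h0, rfl⟩⟩) h0).1
      · exfalso
        apply h0
        have : g.coeff j = 0 := by
          apply Polynomial.coeff_eq_zero_of_natDegree_lt
          rw [hM.deg]
          rw [Finset.mem_range] at hj
          omega
        rw [this, MvPolynomial.coeff_zero]
    have mn : ∀ c ∈ T, ∀ m, (nn c).coeff m ∈ P.O := by
      intro c hc m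
      by_cases h0 : (nn c).coeff m = 0
      · rw [h0]; exact zero_mem _
      · exact (hPC2 _ (Finset.mem_biUnion.2 ⟨c, hc, Finset.mem_image.2
          ⟨m, MvPolynomial.mem_support_iff.2 h0, rfl⟩⟩) h0).1
    have md : ∀ m, d.coeff m ∈ P.O := by
      intro m
      by_cases h0 : d.coeff m = 0
      · rw [h0]; exact zero_mem _
      · exact (hPC3 _ (Finset.mem_image.2 ⟨m, MvPolynomial.mem_support_iff.2 h0, rfl⟩) h0).1
    -- representation of the sections
    have hrep := hREP Ω Fs xs ys ws N a (P.pl g) hMs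
    have hδ := hrep.1
    choose b hbdeg hb using fun i => hrep.2 (q i) (f i) (hf i)
    choose c hcdeg hc using fun i => (hSCP Ω Fs xs ys hMs.surf (q i) (f i)).1 (hf i)
    have hrank : Module.finrank (IntermediateField.adjoin Ω {xs, ys}) Fs = N := hMs.rank
    -- the values of the unknowns
    let ex : ℕ → ℕ → (Fin 2 →₀ ℕ) := fun α β => Finsupp.single 0 α + Finsupp.single 1 β
    have hex : ∀ m : Fin 2 →₀ ℕ, ex (m 0) (m 1) = m := by
      intro m
      ext k
      fin_cases k <;> simp [ex]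
    let u : Tau σ N M → Ω := fun t =>
      if t.2.1 then (c t.1 t.2.2.1).coeff (ex t.2.2.2.1 t.2.2.2.2)
      else (b t.1 t.2.2.1).coeff (ex t.2.2.2.1 t.2.2.2.2)
    have hut : ∀ i j (m : Fin 2 →₀ ℕ), j ≤ N → m 0 + m 1 ≤ M →
        u (tt true i j m) = (c i j).coeff m := by
      intro i j m hj hm
      simp only [u, tt, if_true, Fin.ofNat]
      rw [Nat.mod_eq_of_lt (by omega), Nat.mod_eq_of_lt (by omega), Nat.mod_eq_of_lt (by omega),
        hex]
    have huf : ∀ i j (m : Fin 2 →₀ ℕ), j ≤ N → m 0 + m 1 ≤ M →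
        u (tt false i j m) = (b i j).coeff m := by
      intro i j m hj hm
      simp only [u, tt, Fin.ofNat, Bool.false_eq_true, if_false]
      rw [Nat.mod_eq_of_lt (by omega), Nat.mod_eq_of_lt (by omega), Nat.mod_eq_of_lt (by omega),
        hex]
    let v : Rho σ N M → Fs := Sum.elim (fun i => algebraMap Ω Fs (u i)) ![xs, ys, ws]
    let φ : MvPolynomial (Rho σ N M) P.O →+* MvPolynomial (Rho σ N M) κ :=
      MvPolynomial.map P.O.subtype
    let ψ : MvPolynomial (Rho σ N M) P.O →+* Fs :=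
      (MvPolynomial.aeval v : MvPolynomial (Rho σ N M) Ω →ₐ[Ω] Fs).toRingHom.comp
        (MvPolynomial.map P.r)
    have hRl : ∀ p f, Rl φ ψ p f → MvPolynomial.aeval v (P.mv p) = f := by
      rintro p f ⟨r, rfl, rfl⟩
      rw [P_map]; rfl
    have hX : ∀ i, Rl φ ψ (MvPolynomial.X i) (v i) := by
      intro i
      refine ⟨MvPolynomial.X i, MvPolynomial.map_X _ _, ?_⟩
      change MvPolynomial.aeval v (MvPolynomial.map P.r (MvPolynomial.X i)) = v i
      rw [MvPolynomial.map_X, MvPolynomial.aeval_X]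
    have hren : ∀ (ρ : Type) (e : ρ → Rho σ N M) (p : MvPolynomial ρ κ), (∀ m, p.coeff m ∈ P.O) →
        Rl φ ψ (MvPolynomial.rename e p) (MvPolynomial.aeval (v ∘ e) (P.mv p)) := by
      intro ρ e p hp
      obtain ⟨r, rfl⟩ := exists_lift P.O p hp
      refine ⟨MvPolynomial.rename e r, MvPolynomial.map_rename _ _ _, ?_⟩
      change MvPolynomial.aeval v (MvPolynomial.map P.r (MvPolynomial.rename e r)) = _
      rw [MvPolynomial.map_rename, MvPolynomial.aeval_rename, P_map]
    have hv2 : v ∘ (i2 : Fin 2 → Rho σ N M) = ![xs, ys] := by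
      funext k; fin_cases k <;> rfl
    have hv3 : v ∘ (i3 : Fin 3 → Rho σ N M) = ![xs, ys, ws] := by
      funext k; fin_cases k <;> rfl
    have h0 : Rl φ ψ (MvPolynomial.X (Sum.inr 0)) xs := hX (Sum.inr 0)
    have h1 : Rl φ ψ (MvPolynomial.X (Sum.inr 1)) ys := hX (Sum.inr 1)
    have h2 : Rl φ ψ (MvPolynomial.X (Sum.inr 2)) ws := hX (Sum.inr 2)
    have hU : ∀ t, Rl φ ψ (MvPolynomial.X (Sum.inl t)) (algebraMap Ω Fs (u t)) :=
      fun t => hX (Sum.inl t)
    let δ : Fs := der Ω xs ys ws N (P.pl g)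
    have hD : Rl φ ψ (gD g) δ := by
      have := Rl_gD (φ := φ) (ψ := ψ) (N := N) (M := M) (σ := σ) g
        (fun j => MvPolynomial.aeval ![xs, ys] ((P.pl g).coeff j)) (by
          intro j
          have := hren _ (i2 : Fin 2 → Rho σ N M) (g.coeff (j + 1)) (mg _)
          rw [hv2, ← Plc.coeff_pl] at this
          exact this) h2
      exact this
    have hB : ∀ i, Rl φ ψ (gB q a i) (δ * f i) := by
      intro i
      have := Rl_gB (φ := φ) (ψ := ψ) q a hU h0 h1 h2 i
      rw [hb i]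
      convert this using 1
      refine Finset.sum_congr rfl fun j hj => ?_
      rw [Finset.mem_range] at hj
      rw [poly2_coeff (q i + a * N) (b i j) (hbdeg i j)]
      intro m hm
      rw [mem_Em] at hm
      exact huf i j m hj.le (hm.trans (hM1 i))
    have hCC : ∀ i j, Rl φ ψ (gC q i j) (MvPolynomial.aeval ![xs, ys]
        (poly2 (q i * j) (fun m => u (tt true i j m)))) := by
      intro i j
      exact Rl_gp hU h0 h1 _ _
    refine ⟨Ω, _, P, hPC, Fs, _, _, xs, ys, ws, hMs, u, ?_⟩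
    intro E hE
    rcases Finset.mem_union.1 hE with hE | hE
    · obtain ⟨i, -, rfl⟩ := Finset.mem_image.1 hE
      have h3 := hRl _ _ (Rl_e1 q a g hB hCC hD i)
      rw [h3]
      have h4 : ∑ j ∈ Finset.Icc 1 N, MvPolynomial.aeval ![xs, ys]
          (poly2 (q i * j) (fun m => u (tt true i j m))) * f i ^ (N - j) =
          ∑ j ∈ Finset.Icc 1 N, MvPolynomial.aeval ![xs, ys] (c i j) * f i ^ (N - j) := by
        refine Finset.sum_congr rfl fun j hj => ?_
        have hj' := (Finset.mem_Icc.1 hj).2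
        rw [poly2_coeff (q i * j) (c i j) (hcdeg i j)]
        intro m hm
        rw [mem_Em] at hm
        exact hut i j m hj' (hm.trans (hM2 i j hj'))
      rw [h4]
      have h5 := hc i
      rw [hrank] at h5
      rw [h5, mul_zero]
    · obtain ⟨Φ, hΦ, rfl⟩ := Finset.mem_image.1 hE
      have h3 := hRl _ _ (Rl_e2 q a g nn Φ
        (fun c => MvPolynomial.aeval ![xs, ys, ws] (P.mv (nn c))) (by
          intro m hm
          have := hren _ (i3 : Fin 3 → Rho σ N M) (nn (Φ.coeff m)) (mn _ (hT Φ hΦ m hm))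
          rw [hv3] at this
          exact this) hB hD)
      rw [h3]
      -- evaluation of reductions
      have hev : ∀ p : MvPolynomial (Fin 3) κ, (∀ m, p.coeff m ∈ P.O) →
          MvPolynomial.aeval ![x, y, w] p ∈ G.W ∧
          G.res (MvPolynomial.aeval ![x, y, w] p) =
            MvPolynomial.aeval ![xs, ys, ws] (P.mv p) := by
        intro p hp
        obtain ⟨r, rfl⟩ := exists_lift P.O p hp
        let j : P.O →+* G.W :=
          { toFun := fun c => ⟨algebraMap κ F c, (G.const_mem _).2 c.2⟩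
            map_one' := Subtype.ext (map_one _)
            map_mul' := fun a b => Subtype.ext (map_mul _ _ _)
            map_zero' := Subtype.ext (map_zero _)
            map_add' := fun a b => Subtype.ext (map_add _ _ _) }
        let vW : Fin 3 → G.W := ![⟨x, G.x_mem⟩, ⟨y, G.y_mem⟩, ⟨w, G.w_mem⟩]
        have e1 : MvPolynomial.aeval ![x, y, w] (MvPolynomial.map P.O.subtype r) =
            ((MvPolynomial.eval₂ j vW r : G.W) : F) := by
          rw [MvPolynomial.aeval_def, MvPolynomial.eval₂_map]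
          change _ = G.W.subtype _
          rw [MvPolynomial.hom_eval₂]
          congr 1
          funext k; fin_cases k <;> rfl
        have e2 : G.r (MvPolynomial.eval₂ j vW r) =
            MvPolynomial.aeval ![xs, ys, ws] (P.mv (MvPolynomial.map P.O.subtype r)) := by
          rw [P_map, MvPolynomial.aeval_def, MvPolynomial.eval₂_map, MvPolynomial.hom_eval₂]
          congr 1
          · ext c
            change G.r ⟨algebraMap κ F c, _⟩ = algebraMap Ω Fs (P.r c)
            rw [G.const, Plc.res_of_mem c.2]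
          · funext k
            fin_cases k
            · exact G.r_x
            · exact G.r_y
            · exact G.r_w
        refine ⟨by rw [e1]; exact Subtype.prop _, ?_⟩
        rw [← e2, e1, Gau.res_of_mem (Subtype.prop _)]
      have hdU : G.U (MvPolynomial.aeval ![x, y, w] d) :=
        hGU _ (Finset.mem_insert_self _ _) hd
      have hnv : ∀ m ∈ Φ.support, MvPolynomial.aeval ![xs, ys, ws] (P.mv (nn (Φ.coeff m))) =
          G.res (MvPolynomial.aeval ![x, y, w] d) * G.res (Φ.coeff m) := by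
        intro m hm
        have hcT := hT Φ hΦ m hm
        have hcU : G.U (Φ.coeff m) := hGU _ (Finset.mem_insert_of_mem hcT)
          (MvPolynomial.mem_support_iff.1 hm)
        rw [← (hev _ (mn _ hcT)).2, ← hnn _ hcT, Gau.res_mul hcU.2.1 hdU.2.1, mul_comm]
      have h4 : ∑ m ∈ Φ.support, MvPolynomial.aeval ![xs, ys, ws] (P.mv (nn (Φ.coeff m))) *
          ∏ i ∈ m.support, f i ^ (m i) =
          G.res (MvPolynomial.aeval ![x, y, w] d) * MvPolynomial.eval f (G.mv Φ) := by
        unfold Gau.mv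
        rw [map_sum, Finset.mul_sum]
        refine Finset.sum_congr rfl fun m hm => ?_
        rw [hnv m hm, MvPolynomial.eval_monomial, mul_assoc]
        rfl
      rw [h4, hfS Φ hΦ, mul_zero, mul_zero])
  -- back
  have hrep := hREP κ F x y w N a g hM
  have hδ := hrep.1
  let δ : F := der κ x y w N g
  let v : Rho σ N M → F := Sum.elim (fun i => algebraMap κ F (u i)) ![x, y, w]
  let φ : MvPolynomial (Rho σ N M) κ →+* MvPolynomial (Rho σ N M) κ := RingHom.id _
  let ψ : MvPolynomial (Rho σ N M) κ →+* F :=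
    (MvPolynomial.aeval v : MvPolynomial (Rho σ N M) κ →ₐ[κ] F).toRingHom
  have hRl : ∀ p f, Rl φ ψ p f → MvPolynomial.aeval v p = f := by
    rintro p f ⟨r, rfl, rfl⟩
    rfl
  have hX : ∀ i, Rl φ ψ (MvPolynomial.X i) (v i) := by
    intro i
    exact ⟨MvPolynomial.X i, rfl, MvPolynomial.aeval_X _ _⟩
  have hren : ∀ (ρ : Type) (e : ρ → Rho σ N M) (p : MvPolynomial ρ κ),
      Rl φ ψ (MvPolynomial.rename e p) (MvPolynomial.aeval (v ∘ e) p) := by
    intro ρ e p
    exact ⟨MvPolynomial.rename e p, rfl, MvPolynomial.aeval_rename _ _ _⟩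
  have hv2 : v ∘ (i2 : Fin 2 → Rho σ N M) = ![x, y] := by
    funext k; fin_cases k <;> rfl
  have hv3 : v ∘ (i3 : Fin 3 → Rho σ N M) = ![x, y, w] := by
    funext k; fin_cases k <;> rfl
  have h0 : Rl φ ψ (MvPolynomial.X (Sum.inr 0)) x := hX (Sum.inr 0)
  have h1 : Rl φ ψ (MvPolynomial.X (Sum.inr 1)) y := hX (Sum.inr 1)
  have h2 : Rl φ ψ (MvPolynomial.X (Sum.inr 2)) w := hX (Sum.inr 2)
  have hU : ∀ t, Rl φ ψ (MvPolynomial.X (Sum.inl t)) (algebraMap κ F (u t)) :=
    fun t => hX (Sum.inl t)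
  have hD : Rl φ ψ (gD g) δ := by
    have := Rl_gD (φ := φ) (ψ := ψ) (N := N) (M := M) (σ := σ) g
      (fun j => MvPolynomial.aeval ![x, y] (g.coeff j)) (by
        intro j
        have := hren _ (i2 : Fin 2 → Rho σ N M) (g.coeff (j + 1))
        rw [hv2] at this
        exact this) h2
    exact this
  let f : σ → F := fun i => (∑ j ∈ Finset.range N, MvPolynomial.aeval ![x, y]
    (poly2 (q i + a * N) (fun m => u (tt false i j m))) * w ^ j) / δ
  have hB : ∀ i, Rl φ ψ (gB q a i) (δ * f i) := by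
    intro i
    have := Rl_gB (φ := φ) (ψ := ψ) q a hU h0 h1 h2 i
    have h3 : δ * f i = ∑ j ∈ Finset.range N, MvPolynomial.aeval ![x, y]
        (poly2 (q i + a * N) (fun m => u (tt false i j m))) * w ^ j := mul_div_cancel₀ _ hδ
    rw [h3]
    exact this
  have hCC : ∀ i j, Rl φ ψ (gC q i j) (MvPolynomial.aeval ![x, y]
      (poly2 (q i * j) (fun m => u (tt true i j m)))) := by
    intro i j
    exact Rl_gp hU h0 h1 _ _
  refine ⟨f, ?_, ?_⟩
  · intro i
    refine hSCI κ F x y hM.surf (q i) N (f i) (fun j => poly2 (q i * j)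
      (fun m => u (tt true i j m))) (fun j => poly2_deg _ _) ?_
    have h3 := hRl _ _ (Rl_e1 q a g hB hCC hD i)
    have h4 := hu (e1 q a g i) (Finset.mem_union_left _
      (Finset.mem_image_of_mem _ (Finset.mem_univ i)))
    rw [h3] at h4
    exact (mul_eq_zero.1 h4).resolve_left (pow_ne_zero _ hδ)
  · intro Φ hΦ
    have h3 := hRl _ _ (Rl_e2 q a g nn Φ
      (fun c => MvPolynomial.aeval ![x, y, w] (nn c)) (by
        intro m hm
        have := hren _ (i3 : Fin 3 → Rho σ N M) (nn (Φ.coeff m))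
        rw [hv3] at this
        exact this) hB hD)
    have h4 := hu (e2 q a g nn Φ) (Finset.mem_union_right _
      (Finset.mem_image_of_mem _ hΦ))
    rw [h3] at h4
    have h5 := (mul_eq_zero.1 h4).resolve_left (pow_ne_zero _ hδ)
    have h6 : ∑ m ∈ Φ.support, MvPolynomial.aeval ![x, y, w] (nn (Φ.coeff m)) *
        ∏ i ∈ m.support, f i ^ (m i) =
        MvPolynomial.aeval ![x, y, w] d * MvPolynomial.eval f Φ := by
      rw [MvPolynomial.eval_eq, Finset.mul_sum]
      refine Finset.sum_congr rfl fun m hm => ?_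
      rw [← hnn _ (hT Φ hΦ m hm)]
      ring
    rw [h6] at h5
    exact (mul_eq_zero.1 h5).resolve_left hd

end Pool.Agent.SPR
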