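import Pool.Agent.SPR.Stmts

/-!
# Specialisation of sections
-/

set_option autoImplicit false

noncomputable section

namespace Pool.Agent.SPR

open Pool.Agent.SRF

namespace FWD_

section

variable {κ Ω F Fs : Type} [Field κ] [Field Ω] [Field F] [Field Fs] [Algebra κ F] [Algebra Ω Fs]
variable {P : Plc κ Ω} {x y w : F} {xs ys ws : Fs} {G : Gau P x y w xs ys ws}

theorem mul1_unit {π u : Fin 2 → F} (h : ∀ j, G.U (π j) ∧ G.U (u j)) (d : ℤ) (j : Fin 2) :
    G.U (mul1 π u d j) := by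
  unfold mul1
  rw [div_eq_mul_inv]
  exact ((h j).1.pow _).mul (((h j).2.mul (h j).1.inv).pow _)

theorem mul1_res {π u : Fin 2 → F} (h : ∀ j, G.U (π j) ∧ G.U (u j)) (d : ℤ) (j : Fin 2) :
    G.res (mul1 π u d j) = mul1 (fun j => G.res (π j)) (fun j => G.res (u j)) d j := by
  unfold mul1
  have h1 := (h j).1
  have h2 := (h j).2
  rw [div_eq_mul_inv, div_eq_mul_inv, Gau.res_mul (h1.pow _).2.1 ((h2.mul h1.inv).pow _).2.1,
    Gau.res_pow h1.2.1, Gau.res_pow (h2.mul h1.inv).2.1, Gau.res_mul h2.2.1 h1.inv.2.1,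
    h1.res_inv]

end

end FWD_

open FWD_ in
theorem FWD_proof (hRDL : Stmt_RDL) (hMUL : Stmt_MUL) : Stmt_FWD := by
  intro κ Ω F Fs _ _ _ _ _ _ x y w xs ys ws P hS hSs G ι _ a b π u D D' hLE hU hLE' d h f hf hfW
  rw [hMUL Ω Fs xs ys ι a b (fun i j => G.res (π i j)) (fun i j => G.res (u i j)) D' hLE' d h]
  rw [hMUL κ F x y ι a b π u D hLE d h] at hf
  intro j
  have h1 := hf j
  have hmem : ∀ i ∈ Finset.univ, mul1 (π i) (u i) (d i) (j i) ∈ G.W := fun i _ =>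
    (mul1_unit (hU i) (d i) (j i)).2.1
  have h2 := hRDL κ Ω F Fs x y w xs ys ws P hS hSs G _ _ h1 (mul_mem hfW (prod_mem hmem))
  rw [Gau.res_mul hfW (prod_mem hmem), Gau.res_prod _ _ hmem] at h2
  have h3 : ∏ i, mul1 (fun j => G.res (π i j)) (fun j => G.res (u i j)) (d i) (j i) =
      ∏ i, G.res (mul1 (π i) (u i) (d i) (j i)) :=
    Finset.prod_congr rfl fun i _ => (mul1_res (hU i) (d i) (j i)).symm
  show G.res f * ∏ i, mul1 (fun j => G.res (π i j)) (fun j => G.res (u i j)) (d i) (j i) ∈ _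
  rw [h3]
  exact h2

end Pool.Agent.SPR
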