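import Pool.Agent.SPR.Stmts

/-!
# GAU: the Gauss place of `F`
-/

set_option autoImplicit false

noncomputable section

namespace Pool.Agent.SPR

open Pool.Agent.SRF

namespace GAU_

section powers

variable {κ F : Type} [Field κ] [Field F] [Algebra κ F] {x y w : F} {N a : ℕ}
  {g : Polynomial (MvPolynomial (Fin 2) κ)}

theorem N_pos (hM : Mdl κ x y w N a g) : 0 < N := by
  have _fd := hM.surf.fin
  rw [← hM.rank]
  exact Module.finrank_pos

theorem aeval_mem (p : MvPolynomial (Fin 2) κ) :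
    MvPolynomial.aeval ![x, y] p ∈ IntermediateField.adjoin κ {x, y} := by
  have h1 : ∀ i, (![x, y] : Fin 2 → F) i ∈ IntermediateField.adjoin κ {x, y} := by
    intro i
    fin_cases i
    · exact IntermediateField.subset_adjoin κ _ (by simp)
    · exact IntermediateField.subset_adjoin κ _ (by simp)
  induction p using MvPolynomial.induction_on with
  | C c => rw [MvPolynomial.aeval_C]; exact algebraMap_mem _ c
  | add p q hp hq => rw [map_add]; exact add_mem hp hq
  | mul_X p i hp => rw [map_mul, MvPolynomial.aeval_X]; exact mul_mem hp (h1 i)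

theorem integral (hM : Mdl κ x y w N a g) :
    IsIntegral (IntermediateField.adjoin κ {x, y}) w := by
  have _fd := hM.surf.fin
  exact Algebra.IsIntegral.isIntegral w

/-- the power basis -/
theorem pb (hM : Mdl κ x y w N a g) :
    (∀ b : ℕ → F, (∀ i, b i ∈ IntermediateField.adjoin κ {x, y}) →
      ∑ i ∈ Finset.range N, b i * w ^ i = 0 → ∀ i < N, b i = 0) ∧
    ∀ f : F, ∃ b : ℕ → F, (∀ i, b i ∈ IntermediateField.adjoin κ {x, y}) ∧
      f = ∑ i ∈ Finset.range N, b i * w ^ i := by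
  classical
  have _fd := hM.surf.fin
  have h1 : Algebra.adjoin (IntermediateField.adjoin κ {x, y}) {w} = ⊤ := by
    have h2 := IntermediateField.adjoin_simple_toSubalgebra_of_isAlgebraic
      (F := IntermediateField.adjoin κ {x, y}) (α := w) (integral hM).isAlgebraic
    rw [← h2, hM.gen]
    rfl
  let B := PowerBasis.ofAdjoinEqTop (integral hM) h1
  have hgen : B.gen = w := PowerBasis.ofAdjoinEqTop_gen _ _
  have hdim : B.dim = N := by
    rw [← hM.rank]
    exact B.finrank.symm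
  constructor
  · intro b hb h0
    have h3 : ∑ i : Fin B.dim, (⟨b i, hb i⟩ : IntermediateField.adjoin κ {x, y}) • B.basis i = 0 := by
      rw [← h0, ← hdim, Finset.sum_range]
      refine Finset.sum_congr rfl fun i _ => ?_
      rw [B.basis_eq_pow, hgen]
      rfl
    have h4 := Fintype.linearIndependent_iff.1 B.basis.linearIndependent _ h3
    intro i hi
    exact congrArg Subtype.val (h4 ⟨i, hdim ▸ hi⟩)
  · intro f
    refine ⟨fun i => if h : i < B.dim then (B.basis.repr f ⟨i, h⟩ : F) else 0, ?_, ?_⟩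
    · intro i
      dsimp only
      by_cases h : i < B.dim
      · rw [dif_pos h]; exact (B.basis.repr f ⟨i, h⟩).2
      · rw [dif_neg h]; exact zero_mem _
    · have h5 := B.basis.sum_repr f
      conv_lhs => rw [← h5]
      rw [← hdim, Finset.sum_range]
      refine Finset.sum_congr rfl fun i _ => ?_
      dsimp only
      rw [dif_pos i.2, B.basis_eq_pow, hgen]
      rfl

end powers

section gauss

variable {κ Ω F Fs : Type} [Field κ] [Field Ω] [Field F] [Field Fs] [Algebra κ F] [Algebra Ω Fs]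
  {x y w : F} {xs ys ws : Fs} {P : Plc κ Ω} {R : Subring F} {γ : R →+* Fs}
  (h3 : ∀ c : κ, algebraMap κ F c ∈ R ↔ c ∈ P.O)
  (h4 : ∀ (c : κ) (hc : algebraMap κ F c ∈ R), γ ⟨_, hc⟩ = algebraMap Ω Fs (P.res c))
  (h5 : ∃ h : x ∈ R, γ ⟨x, h⟩ = xs) (h6 : ∃ h : y ∈ R, γ ⟨y, h⟩ = ys)

/-- lifting of polynomials to the valuation ring -/
theorem lift_poly (p : MvPolynomial (Fin 2) κ) (hp : ∀ m, p.coeff m ∈ P.O) :
    ∃ q : MvPolynomial (Fin 2) P.O, MvPolynomial.map P.O.subtype q = p ∧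
      MvPolynomial.map P.r q = P.mv p := by
  classical
  refine ⟨∑ m ∈ p.support, MvPolynomial.monomial m ⟨p.coeff m, hp m⟩, ?_, ?_⟩
  · rw [map_sum]
    conv_rhs => rw [p.as_sum]
    refine Finset.sum_congr rfl fun m _ => ?_
    rw [MvPolynomial.map_monomial]
    rfl
  · rw [map_sum]
    unfold Plc.mv
    refine Finset.sum_congr rfl fun m _ => ?_
    rw [MvPolynomial.map_monomial, Plc.res_of_mem (hp m)]

include h3 h4 h5 h6 in
theorem gam_aeval (p : MvPolynomial (Fin 2) κ) (hp : ∀ m, p.coeff m ∈ P.O) :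
    ∃ h : MvPolynomial.aeval ![x, y] p ∈ R,
      γ ⟨_, h⟩ = MvPolynomial.aeval ![xs, ys] (P.mv p) := by
  obtain ⟨hx, hx'⟩ := h5
  obtain ⟨hy, hy'⟩ := h6
  obtain ⟨q, hq1, hq2⟩ := lift_poly p hp
  let j : P.O →+* R := ((algebraMap κ F).comp P.O.subtype).codRestrict R
    fun c => (h3 c).2 c.2
  let e : MvPolynomial (Fin 2) P.O →+* R := MvPolynomial.eval₂Hom j ![⟨x, hx⟩, ⟨y, hy⟩]
  have e1 : R.subtype.comp e =
      (MvPolynomial.aeval ![x, y]).toRingHom.comp (MvPolynomial.map P.O.subtype) := by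
    apply MvPolynomial.ringHom_ext
    · intro c
      simp [e, j]
    · intro i
      fin_cases i <;> simp [e]
  have e2 : γ.comp e =
      (MvPolynomial.aeval ![xs, ys]).toRingHom.comp (MvPolynomial.map P.r) := by
    apply MvPolynomial.ringHom_ext
    · intro c
      have h7 : γ (j c) = algebraMap Ω Fs (P.res c) := h4 c ((h3 c).2 c.2)
      simp [e, h7, Plc.res_of_mem c.2]
    · intro i
      fin_cases i
      · simp [e, hx']
      · simp [e, hy']
  have e3 : ((e q : R) : F) = MvPolynomial.aeval ![x, y] p := by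
    rw [← hq1]
    exact RingHom.congr_fun e1 q
  have hmem : MvPolynomial.aeval ![x, y] p ∈ R := e3 ▸ (e q).2
  refine ⟨hmem, ?_⟩
  have e4 : (⟨_, hmem⟩ : R) = e q := Subtype.ext e3.symm
  rw [e4, ← hq2]
  exact RingHom.congr_fun e2 q

variable {N a : ℕ} {g : Polynomial (MvPolynomial (Fin 2) κ)}

include h3 h4 h5 h6 in
/-- the equation of `w` over the Gauss ring -/
theorem exists_eq (hM : Mdl κ x y w N a g) (hg : ∀ j m, (g.coeff j).coeff m ∈ P.O)
    (hMs : Mdl Ω xs ys ws N a (P.pl g)) :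
    ∃ h : Polynomial R, h.Monic ∧ h.natDegree = N ∧ h.eval₂ R.subtype w = 0 ∧
      h.eval₂ γ ws = 0 := by
  classical
  have key := fun j => gam_aeval h3 h4 h5 h6 (g.coeff j) (hg j)
  let c : ℕ → R := fun j => ⟨_, (key j).1⟩
  have hc1 : ∀ j, (c j : F) = MvPolynomial.aeval ![x, y] (g.coeff j) := fun j => rfl
  have hc2 : ∀ j, γ (c j) = MvPolynomial.aeval ![xs, ys] ((P.pl g).coeff j) := fun j => by
    rw [Plc.coeff_pl]
    exact (key j).2
  let h : Polynomial R := ∑ j ∈ Finset.range (N + 1), Polynomial.monomial j (c j)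
  have hcoef : ∀ n, h.coeff n = if n < N + 1 then c n else 0 := by
    intro n
    change (∑ j ∈ Finset.range (N + 1), Polynomial.monomial j (c j)).coeff n = _
    rw [Polynomial.finsetSum_coeff]
    simp only [Polynomial.coeff_monomial]
    rw [Finset.sum_ite_eq']
    simp only [Finset.mem_range]
  have hN1 : c N = 1 := by
    apply Subtype.ext
    rw [hc1]
    have h7 : g.coeff N = 1 := by
      have h8 := hM.monic
      rw [Polynomial.Monic, Polynomial.leadingCoeff, hM.deg] at h8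
      exact h8
    rw [h7, map_one]
    rfl
  have hdeg : h.natDegree ≤ N := by
    rw [Polynomial.natDegree_le_iff_coeff_eq_zero]
    intro n hn
    rw [hcoef, if_neg (by omega)]
  have hcN : h.coeff N = 1 := by
    rw [hcoef, if_pos (by omega), hN1]
  have hmon : h.Monic := Polynomial.monic_of_natDegree_le_of_coeff_eq_one N hdeg hcN
  refine ⟨h, hmon, ?_, ?_, ?_⟩
  · apply le_antisymm hdeg
    apply Polynomial.le_natDegree_of_ne_zero
    rw [hcN]
    exact one_ne_zero
  · change (∑ j ∈ Finset.range (N + 1), Polynomial.monomial j (c j)).eval₂ R.subtype w = 0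
    rw [Polynomial.eval₂_finsetSum]
    simp only [Polynomial.eval₂_monomial]
    exact hM.root
  · change (∑ j ∈ Finset.range (N + 1), Polynomial.monomial j (c j)).eval₂ γ ws = 0
    rw [Polynomial.eval₂_finsetSum]
    simp only [Polynomial.eval₂_monomial, hc2]
    exact hMs.root

end gauss

section ring

variable {κ Ω F Fs : Type} [Field κ] [Field Ω] [Field F] [Field Fs] [Algebra κ F] [Algebra Ω Fs]
  {x y w : F} {ws : Fs} {R : Subring F} {γ : R →+* Fs} {N : ℕ}

theorem exists_rem {h : Polynomial R} (hm : h.Monic) (hd : h.natDegree = N) (hN : 0 < N)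
    (hr : h.eval₂ R.subtype w = 0) (hr' : h.eval₂ γ ws = 0) (q : Polynomial R) :
    ∃ c : ℕ → R, q.eval₂ R.subtype w = ∑ i ∈ Finset.range N, (c i : F) * w ^ i ∧
      q.eval₂ γ ws = ∑ i ∈ Finset.range N, γ (c i) * ws ^ i := by
  have h1 : (q %ₘ h).natDegree < N := by
    rw [← hd]
    apply Polynomial.natDegree_modByMonic_lt q hm
    intro h2
    rw [h2, Polynomial.natDegree_one] at hd
    omega
  have h2 := Polynomial.modByMonic_add_div q h
  refine ⟨(q %ₘ h).coeff, ?_, ?_⟩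
  · conv_lhs => rw [← h2]
    rw [Polynomial.eval₂_add, Polynomial.eval₂_mul, hr, zero_mul, add_zero,
      Polynomial.eval₂_eq_sum_range' _ h1]
    rfl
  · conv_lhs => rw [← h2]
    rw [Polynomial.eval₂_add, Polynomial.eval₂_mul, hr', zero_mul, add_zero,
      Polynomial.eval₂_eq_sum_range' _ h1]

theorem exists_ring (hR : ∀ f ∈ R, f ∈ IntermediateField.adjoin κ {x, y})
    (hLI : ∀ b : ℕ → F, (∀ i, b i ∈ IntermediateField.adjoin κ {x, y}) →
      ∑ i ∈ Finset.range N, b i * w ^ i = 0 → ∀ i < N, b i = 0)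
    {h : Polynomial R} (hm : h.Monic) (hd : h.natDegree = N) (hN : 0 < N)
    (hr : h.eval₂ R.subtype w = 0) (hr' : h.eval₂ γ ws = 0) :
    ∃ (W : Subring F) (r : W →+* Fs), (∀ f ∈ R, f ∈ W) ∧
      (∀ f (hf : f ∈ R) (hf' : f ∈ W), r ⟨f, hf'⟩ = γ ⟨f, hf⟩) ∧
      (∃ hw : w ∈ W, r ⟨w, hw⟩ = ws) ∧
      (∀ f ∈ W, ∃ c : ℕ → R, f = ∑ i ∈ Finset.range N, (c i : F) * w ^ i) ∧
      ∀ f ∈ W, ∃ q : Polynomial F, q.Monic ∧ (∀ n, q.coeff n ∈ R) ∧ q.eval f = 0 := by
  let Φ : Polynomial R →+* F := Polynomial.eval₂RingHom R.subtype w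
  let Ψ : Polynomial R →+* Fs := Polynomial.eval₂RingHom γ ws
  have hker : RingHom.ker Φ.rangeRestrict ≤ RingHom.ker Ψ := by
    intro q hq
    have hq' : q.eval₂ R.subtype w = 0 := congrArg Subtype.val hq
    obtain ⟨c, hc, hc'⟩ := exists_rem hm hd hN hr hr' q
    rw [hq'] at hc
    have h1 := hLI (fun i => (c i : F)) (fun i => hR _ (c i).2) hc.symm
    change q.eval₂ γ ws = 0
    rw [hc']
    refine Finset.sum_eq_zero fun i hi => ?_
    have h2 : c i = 0 := Subtype.ext (h1 i (Finset.mem_range.1 hi))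
    rw [h2, map_zero, zero_mul]
  have hsur : Function.Surjective Φ.rangeRestrict := Φ.rangeRestrict_surjective
  let r : Φ.range →+* Fs := RingHom.liftOfSurjective Φ.rangeRestrict hsur ⟨Ψ, hker⟩
  have hrq : ∀ q, r (Φ.rangeRestrict q) = Ψ q := fun q =>
    RingHom.liftOfRightInverse_comp_apply Φ.rangeRestrict _ _ ⟨Ψ, hker⟩ q
  have hmem : ∀ f ∈ R, f ∈ Φ.range := fun f hf =>
    ⟨Polynomial.C ⟨f, hf⟩, Polynomial.eval₂_C _ _⟩
  have hint : IsIntegral R w := ⟨h, hm, hr⟩
  refine ⟨Φ.range, r, hmem, ?_, ⟨⟨Polynomial.X, Polynomial.eval₂_X _ _⟩, ?_⟩, ?_, ?_⟩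
  · intro f hf hf'
    have h1 : (⟨f, hf'⟩ : Φ.range) = Φ.rangeRestrict (Polynomial.C ⟨f, hf⟩) := by
      apply Subtype.ext
      exact (Polynomial.eval₂_C R.subtype w (a := (⟨f, hf⟩ : R))).symm
    rw [h1, hrq]
    exact Polynomial.eval₂_C _ _
  · have h1 : (⟨w, ⟨Polynomial.X, Polynomial.eval₂_X _ _⟩⟩ : Φ.range) =
        Φ.rangeRestrict Polynomial.X := Subtype.ext (Polynomial.eval₂_X _ _).symm
    rw [h1, hrq]
    exact Polynomial.eval₂_X _ _
  · rintro f ⟨q, rfl⟩
    obtain ⟨c, hc, -⟩ := exists_rem hm hd hN hr hr' q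
    exact ⟨c, hc⟩
  · rintro f ⟨q, rfl⟩
    have h1 : IsIntegral R (Φ q) := by
      have h2 : Φ q ∈ Algebra.adjoin R {w} := by
        rw [Algebra.adjoin_singleton_eq_range_aeval]
        exact ⟨q, rfl⟩
      exact adjoin_le_integralClosure hint h2
    obtain ⟨s, hs, hs'⟩ := h1
    refine ⟨s.map R.subtype, hs.map _, fun n => ?_, ?_⟩
    · rw [Polynomial.coeff_map]
      exact (s.coeff n).2
    · rw [Polynomial.eval_map]
      exact hs'

end ring

end GAU_

open GAU_ in
theorem GAU_proof (hGRG : Stmt_GRG) : Stmt_GAU := by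
  classical
  intro κ Ω F Fs _ _ _ _ _ _ x y w xs ys ws N a g hM P hg hMs
  obtain ⟨R, γ, h1, h2, h3, h4, h5, h6, h7, h8⟩ :=
    hGRG κ Ω F Fs x y xs ys hM.surf.indep hMs.surf.indep P
  obtain ⟨h, hm, hd, hr, hr'⟩ := exists_eq h3 h4 h5 h6 hM hg hMs
  have hN := N_pos hM
  obtain ⟨hLI, hEX⟩ := pb hM
  have hLIs := (pb hMs).1
  obtain ⟨W, r, hRW, hrR, ⟨hw, hrw⟩, hsum, hint⟩ := exists_ring h1 hLI hm hd hN hr hr'
  -- the reduction of a sum
  have hrsum : ∀ (c : ℕ → R) (hf : ∑ i ∈ Finset.range N, (c i : F) * w ^ i ∈ W),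
      r ⟨_, hf⟩ = ∑ i ∈ Finset.range N, γ (c i) * ws ^ i := by
    intro c hf
    have e1 : (⟨_, hf⟩ : W) =
        ∑ i ∈ Finset.range N, (⟨c i, hRW _ (c i).2⟩ : W) * ⟨w, hw⟩ ^ i := by
      apply Subtype.ext
      rw [AddSubmonoidClass.coe_finsetSum]
      rfl
    rw [e1, map_sum]
    refine Finset.sum_congr rfl fun i _ => ?_
    rw [map_mul, map_pow, hrw, hrR _ (c i).2]
  -- the intersection with the field of the plane
  have hWE : ∀ f ∈ W, f ∈ IntermediateField.adjoin κ {x, y} → f ∈ R := by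
    intro f hf hfE
    obtain ⟨c, hc⟩ := hsum f hf
    have e1 := hLI (fun i => (c i : F) - if i = 0 then f else 0) (fun i => by
      refine sub_mem (h1 _ (c i).2) ?_
      split_ifs
      · exact hfE
      · exact zero_mem _) (by
      simp only [sub_mul, Finset.sum_sub_distrib]
      rw [← hc, sub_eq_zero, Finset.sum_eq_single 0]
      · rw [if_pos rfl, pow_zero, mul_one]
      · intro i _ hi
        rw [if_neg hi, zero_mul]
      · intro h0
        exact absurd (Finset.mem_range.2 hN) h0) 0 hN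
    rw [if_pos rfl, sub_eq_zero] at e1
    rw [← e1]
    exact (c 0).2
  -- scaling
  have hscale : ∀ f : F, f ≠ 0 → ∃ c : κ, c ≠ 0 ∧ ∃ hf : algebraMap κ F c * f ∈ W,
      r ⟨_, hf⟩ ≠ 0 := by
    intro f hf0
    obtain ⟨b, hb, hb'⟩ := hEX f
    have hc : ∀ i, ∃ c : κ, c ≠ 0 ∧ (b i ≠ 0 → algebraMap κ F c * b i ∈ R ∧
        (algebraMap κ F c * b i)⁻¹ ∈ R) := by
      intro i
      by_cases hi : b i = 0
      · exact ⟨1, one_ne_zero, fun h => absurd hi h⟩
      · obtain ⟨c, hc, hc'⟩ := h8 (b i) (hb i) hi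
        exact ⟨c, hc, fun _ => hc'⟩
    choose c hc hc' using hc
    let S : Finset ℕ := (Finset.range N).filter fun i => b i ≠ 0
    have hS : S.Nonempty := by
      by_contra hS
      apply hf0
      rw [hb']
      refine Finset.sum_eq_zero fun i hi => ?_
      have h9 : b i = 0 := by
        by_contra h9
        exact hS ⟨i, Finset.mem_filter.2 ⟨hi, h9⟩⟩
      rw [h9, zero_mul]
    obtain ⟨i₀, hi₀, hmin⟩ := Finset.exists_min_image S (fun i => P.O.valuation (c i)) hS
    have hi₀b : b i₀ ≠ 0 := (Finset.mem_filter.1 hi₀).2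
    have hi₀N : i₀ < N := Finset.mem_range.1 (Finset.mem_filter.1 hi₀).1
    have hquo : ∀ i ∈ S, c i₀ / c i ∈ P.O := by
      intro i hi
      rw [← ValuationSubring.valuation_le_one_iff, map_div₀]
      exact (div_le_one₀ (zero_lt_iff.2 (by
        rw [Ne, map_eq_zero]
        exact hc i))).2 (hmin i hi)
    have hmem : ∀ i < N, algebraMap κ F (c i₀) * b i ∈ R := by
      intro i hi
      by_cases hbi : b i = 0
      · rw [hbi, mul_zero]
        exact zero_mem _
      · have h9 : i ∈ S := Finset.mem_filter.2 ⟨Finset.mem_range.2 hi, hbi⟩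
        have h10 : algebraMap κ F (c i₀) * b i =
            algebraMap κ F (c i₀ / c i) * (algebraMap κ F (c i) * b i) := by
          rw [← mul_assoc, ← map_mul, div_mul_cancel₀ _ (hc i)]
        rw [h10]
        exact mul_mem ((h3 _).2 (hquo i h9)) (hc' i hbi).1
    let e : ℕ → R := fun i => if h : algebraMap κ F (c i₀) * b i ∈ R then ⟨_, h⟩ else 0
    have he : ∀ i < N, (e i : F) = algebraMap κ F (c i₀) * b i := by
      intro i hi
      change ((if h : algebraMap κ F (c i₀) * b i ∈ R then (⟨_, h⟩ : R) else 0 : R) : F) = _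
      rw [dif_pos (hmem i hi)]
    have hsum' : algebraMap κ F (c i₀) * f = ∑ i ∈ Finset.range N, (e i : F) * w ^ i := by
      rw [hb', Finset.mul_sum]
      refine Finset.sum_congr rfl fun i hi => ?_
      rw [he i (Finset.mem_range.1 hi), mul_assoc]
    have hW : ∑ i ∈ Finset.range N, (e i : F) * w ^ i ∈ W :=
      sum_mem fun i _ => mul_mem (hRW _ (e i).2) (pow_mem hw i)
    refine ⟨c i₀, hc i₀, hsum' ▸ hW, ?_⟩
    have h11 : r ⟨algebraMap κ F (c i₀) * f, hsum' ▸ hW⟩ = r ⟨_, hW⟩ := by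
      congr 1
      exact Subtype.ext hsum'
    rw [h11, hrsum e hW]
    intro h12
    have h13 := hLIs (fun i => γ (e i)) (fun i => h2 _) h12 i₀ hi₀N
    rw [h7, he i₀ hi₀N] at h13
    rcases h13 with h13 | h13
    · exact mul_ne_zero (by rw [Ne, map_eq_zero]; exact hc i₀) hi₀b h13
    · exact h13 (hc' i₀ hi₀b).2
  -- units
  have hcE : ∀ c : κ, algebraMap κ F c ∈ IntermediateField.adjoin κ {x, y} := fun c =>
    algebraMap_mem _ c
  have hunit : ∀ f (hf : f ∈ W), r ⟨f, hf⟩ ≠ 0 → f⁻¹ ∈ W := by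
    intro f hf hrf
    have hf0 : f ≠ 0 := by
      rintro rfl
      exact hrf (map_zero r)
    obtain ⟨c, hc, hcf, hcr⟩ := hscale f⁻¹ (inv_ne_zero hf0)
    have e1 : algebraMap κ F c = f * (algebraMap κ F c * f⁻¹) := by
      rw [mul_left_comm, mul_inv_cancel₀ hf0, mul_one]
    have e2 : algebraMap κ F c ∈ W := e1 ▸ mul_mem hf hcf
    have e3 : algebraMap κ F c ∈ R := hWE _ e2 (hcE c)
    have e4 : r ⟨algebraMap κ F c, e2⟩ ≠ 0 := by
      have e5 : (⟨algebraMap κ F c, e2⟩ : W) = ⟨f, hf⟩ * ⟨_, hcf⟩ := Subtype.ext e1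
      rw [e5, map_mul]
      exact mul_ne_zero hrf hcr
    rw [hrR _ e3, Ne, h7, not_or, not_not] at e4
    have e6 : f⁻¹ = (algebraMap κ F c)⁻¹ * (algebraMap κ F c * f⁻¹) := by
      rw [← mul_assoc, inv_mul_cancel₀ e4.1, one_mul]
    rw [e6]
    exact mul_mem (hRW _ e4.2) hcf
  have hconst : ∀ c : κ, algebraMap κ F c ∈ W ↔ c ∈ P.O := fun c =>
    ⟨fun hc => (h3 c).1 (hWE _ hc (hcE c)), fun hc => hRW _ ((h3 c).2 hc)⟩
  have hval : ∀ f : F, f ∈ W ∨ f⁻¹ ∈ W := by
    intro f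
    by_cases hf0 : f = 0
    · left
      rw [hf0]
      exact zero_mem _
    obtain ⟨c, hc, hcf, hcr⟩ := hscale f hf0
    have e1 := hunit _ hcf hcr
    have hc0 : algebraMap κ F c ≠ 0 := by rw [Ne, map_eq_zero]; exact hc
    rcases P.O.mem_or_inv_mem c with hcO | hcO
    · right
      have e2 : f⁻¹ = algebraMap κ F c * (algebraMap κ F c * f)⁻¹ := by
        rw [mul_inv, ← mul_assoc, mul_inv_cancel₀ hc0, one_mul]
      rw [e2]
      exact mul_mem ((hconst c).2 hcO) e1
    · left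
      have e2 : f = algebraMap κ F c⁻¹ * (algebraMap κ F c * f) := by
        rw [← mul_assoc, ← map_mul, inv_mul_cancel₀ hc, map_one, one_mul]
      rw [e2]
      exact mul_mem ((hconst _).2 hcO) hcf
  let V : ValuationSubring F := { W with mem_or_inv_mem' := hval }
  have hVW : ∀ f, f ∈ V ↔ f ∈ W := fun f => Iff.rfl
  let r' : V →+* Fs :=
    { toFun := fun f => r ⟨f.1, f.2⟩
      map_one' := map_one r
      map_mul' := fun f g => map_mul r ⟨f.1, f.2⟩ ⟨g.1, g.2⟩
      map_zero' := map_zero r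
      map_add' := fun f g => map_add r ⟨f.1, f.2⟩ ⟨g.1, g.2⟩ }
  obtain ⟨hx, hrx⟩ := h5
  obtain ⟨hy, hry⟩ := h6
  refine ⟨⟨V, r', ?_, hconst, ?_, hRW _ hx, hRW _ hy, hw, ?_, ?_, hrw, ?_, ?_⟩⟩
  · intro f
    constructor
    · intro hf
      by_contra hcon
      rw [not_or, not_not] at hcon
      have e1 : r' f * r' ⟨_, hcon.2⟩ = 1 := by
        rw [← map_mul, ← map_one r']
        congr 1
        exact Subtype.ext (mul_inv_cancel₀ hcon.1)
      rw [hf, zero_mul] at e1
      exact zero_ne_one e1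
    · rintro (hf | hf)
      · have e1 : f = 0 := Subtype.ext hf
        rw [e1, map_zero]
      · by_contra hcon
        exact hf (hunit f.1 f.2 hcon)
  · intro c hc
    change r ⟨algebraMap κ F c, hc⟩ = _
    have e1 : algebraMap κ F c ∈ R := hWE _ hc (hcE c)
    rw [hrR _ e1, h4]
  · change r ⟨x, _⟩ = xs
    rw [hrR x hx, hrx]
  · change r ⟨y, _⟩ = ys
    rw [hrR y hy, hry]
  · intro f hf
    obtain ⟨c, hc, hcf, hcr⟩ := hscale f hf
    exact ⟨c, hc, hcf, hunit _ hcf hcr⟩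
  · intro f hf
    obtain ⟨q, hq, hq', hq''⟩ := hint f hf
    exact ⟨q, hq, fun n => ⟨hRW _ (hq' n), h1 _ (hq' n)⟩, hq''⟩

end Pool.Agent.SPR
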