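import Pool.Agent.SPR.Stmts

/-!
# GIR: good reduction of irreducible polynomials
-/

set_option autoImplicit false

noncomputable section

namespace Pool.Agent.SPR

open Pool.Agent.SRF

namespace GIR_

open Polynomial

section gen

variable {A B : Type} [CommRing A] [CommRing B] (S : Finset (Fin 2 →₀ ℕ))

/-- the monic polynomial of degree `n` in `T` with coefficients supported in `S` -/
def Hn (n : ℕ) (c : Fin n × S → A) : Polynomial (MvPolynomial (Fin 2) A) :=
  X ^ n + ∑ q : Fin n × S, monomial (q.1 : ℕ) (MvPolynomial.monomial (q.2 : Fin 2 →₀ ℕ) (c q))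

lemma map_Hn (n : ℕ) (c : Fin n × S → A) (ψ : A →+* B) :
    (Hn S n c).map (MvPolynomial.map ψ) = Hn S n (fun q => ψ (c q)) := by
  unfold Hn
  simp only [Polynomial.map_add, Polynomial.map_pow, Polynomial.map_X, Polynomial.map_sum,
    Polynomial.map_monomial, MvPolynomial.map_monomial]

lemma Hn_degree_lt [Nontrivial A] (n : ℕ) (c : Fin n × S → A) :
    (∑ q : Fin n × S, monomial (q.1 : ℕ)
      (MvPolynomial.monomial (q.2 : Fin 2 →₀ ℕ) (c q))).degree < n := by
  refine lt_of_le_of_lt (Polynomial.degree_sum_le _ _) ?_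
  rw [Finset.sup_lt_iff (WithBot.bot_lt_coe _)]
  intro q _
  exact lt_of_le_of_lt (Polynomial.degree_monomial_le _ _) (by exact_mod_cast q.1.2)

lemma Hn_monic [Nontrivial A] (n : ℕ) (c : Fin n × S → A) : (Hn S n c).Monic :=
  Polynomial.monic_X_pow_add (Hn_degree_lt S n c)

lemma Hn_natDegree [Nontrivial A] (n : ℕ) (c : Fin n × S → A) : (Hn S n c).natDegree = n := by
  unfold Hn
  rw [Polynomial.natDegree_add_eq_left_of_degree_lt, Polynomial.natDegree_X_pow]
  rw [Polynomial.degree_X_pow]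
  exact Hn_degree_lt S n c

/-- every monic polynomial with coefficients supported in `S` is of this form -/
lemma eq_Hn [Nontrivial A] (h : Polynomial (MvPolynomial (Fin 2) A)) (hm : h.Monic)
    (hS : ∀ j, (h.coeff j).support ⊆ S) :
    h = Hn S h.natDegree (fun q => (h.coeff q.1).coeff (q.2 : Fin 2 →₀ ℕ)) := by
  classical
  conv_lhs => rw [hm.as_sum]
  unfold Hn
  congr 1
  rw [Fintype.sum_prod_type, Finset.sum_range]
  refine Finset.sum_congr rfl fun i _ => ?_
  rw [Polynomial.C_mul_X_pow_eq_monomial]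
  dsimp only
  rw [← map_sum]
  congr 1
  rw [Finset.sum_coe_sort S (fun m => MvPolynomial.monomial m ((h.coeff (i : ℕ)).coeff m))]
  conv_lhs => rw [(h.coeff (i : ℕ)).as_sum]
  refine Finset.sum_subset (hS i) fun m _ hm' => ?_
  rw [MvPolynomial.notMem_support_iff.mp hm', MvPolynomial.monomial_zero]

/-- index set of the unknowns -/
abbrev Ix (n₁ n₂ : ℕ) : Type := (Fin n₁ × S) ⊕ (Fin n₂ × S)

/-- the equation `h₁ h₂ = g` with unknown coefficients -/
def Eq1 (n₁ n₂ : ℕ) (g : Polynomial (MvPolynomial (Fin 2) A)) :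
    Polynomial (MvPolynomial (Fin 2) (MvPolynomial (Ix S n₁ n₂) A)) :=
  Hn S n₁ (fun q => MvPolynomial.X (Sum.inl q)) * Hn S n₂ (fun q => MvPolynomial.X (Sum.inr q)) -
    g.map (MvPolynomial.map MvPolynomial.C)

lemma map_Eq1 (n₁ n₂ : ℕ) (g : Polynomial (MvPolynomial (Fin 2) A)) (φ : A →+* B) :
    (Eq1 S n₁ n₂ g).map (MvPolynomial.map (MvPolynomial.map φ)) =
      Eq1 S n₁ n₂ (g.map (MvPolynomial.map φ)) := by
  unfold Eq1
  rw [Polynomial.map_sub, Polynomial.map_mul, map_Hn, map_Hn, Polynomial.map_map,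
    Polynomial.map_map]
  simp only [MvPolynomial.map_X]
  congr 2
  ext x
  · simp
  · simp

lemma eval_Eq1 (n₁ n₂ : ℕ) (g : Polynomial (MvPolynomial (Fin 2) A)) (u : Ix S n₁ n₂ → A) :
    (Eq1 S n₁ n₂ g).map (MvPolynomial.map (MvPolynomial.eval u)) =
      Hn S n₁ (fun q => u (Sum.inl q)) * Hn S n₂ (fun q => u (Sum.inr q)) - g := by
  unfold Eq1
  rw [Polynomial.map_sub, Polynomial.map_mul, map_Hn, map_Hn, Polynomial.map_map]
  simp only [MvPolynomial.eval_X]
  congr 1
  have h : (MvPolynomial.map (MvPolynomial.eval u)).comp (MvPolynomial.map MvPolynomial.C) =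
      RingHom.id (MvPolynomial (Fin 2) A) := by
    ext x
    · simp
    · simp
  rw [h, Polynomial.map_id]

open scoped Classical in
/-- the system of equations -/
def Sys (n₁ n₂ : ℕ) (g : Polynomial (MvPolynomial (Fin 2) A)) :
    Finset (MvPolynomial (Ix S n₁ n₂) A) :=
  (Eq1 S n₁ n₂ g).support.biUnion fun j =>
    ((Eq1 S n₁ n₂ g).coeff j).support.image fun m => ((Eq1 S n₁ n₂ g).coeff j).coeff m

lemma sol_iff (n₁ n₂ : ℕ) (g : Polynomial (MvPolynomial (Fin 2) A)) (u : Ix S n₁ n₂ → A) :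
    (∀ f ∈ Sys S n₁ n₂ g, MvPolynomial.eval u f = 0) ↔
      Hn S n₁ (fun q => u (Sum.inl q)) * Hn S n₂ (fun q => u (Sum.inr q)) = g := by
  classical
  rw [← sub_eq_zero (b := g), ← eval_Eq1]
  constructor
  · intro h
    ext j m
    rw [Polynomial.coeff_map, MvPolynomial.coeff_map, Polynomial.coeff_zero,
      MvPolynomial.coeff_zero]
    by_cases h0 : ((Eq1 S n₁ n₂ g).coeff j).coeff m = 0
    · rw [h0, map_zero]
    · apply h
      unfold Sys
      rw [Finset.mem_biUnion]
      refine ⟨j, ?_, ?_⟩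
      · rw [Polynomial.mem_support_iff]
        intro h1
        rw [h1, MvPolynomial.coeff_zero] at h0
        exact h0 rfl
      · rw [Finset.mem_image]
        exact ⟨m, MvPolynomial.mem_support_iff.mpr h0, rfl⟩
  · intro h f hf
    unfold Sys at hf
    rw [Finset.mem_biUnion] at hf
    obtain ⟨j, _, hf⟩ := hf
    rw [Finset.mem_image] at hf
    obtain ⟨m, _, rfl⟩ := hf
    have h1 := congrArg (fun q => (Polynomial.coeff q j).coeff m) h
    rw [Polynomial.coeff_map, MvPolynomial.coeff_map, Polynomial.coeff_zero,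
      MvPolynomial.coeff_zero] at h1
    exact h1

end gen

section plc

variable {κ Ω : Type} [Field κ] [Field Ω] (P : Plc κ Ω)

lemma lift_mv {σ : Type} (f : MvPolynomial σ κ) (hf : ∀ m, f.coeff m ∈ P.O) :
    ∃ f' : MvPolynomial σ P.O, MvPolynomial.map P.O.subtype f' = f := by
  refine ⟨∑ m ∈ f.support, MvPolynomial.monomial m ⟨f.coeff m, hf m⟩, ?_⟩
  rw [map_sum]
  conv_rhs => rw [f.as_sum]
  refine Finset.sum_congr rfl fun m _ => ?_
  rw [MvPolynomial.map_monomial]
  rfl

lemma mv_map {σ : Type} (f : MvPolynomial σ P.O) :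
    P.mv (MvPolynomial.map P.O.subtype f) = MvPolynomial.map P.r f := by
  ext m
  rw [Plc.coeff_mv, MvPolynomial.coeff_map, MvPolynomial.coeff_map]
  exact Plc.res_of_mem (f.coeff m).2

lemma lift_pl {σ : Type} (g : Polynomial (MvPolynomial σ κ))
    (hg : ∀ j m, (g.coeff j).coeff m ∈ P.O) :
    ∃ g' : Polynomial (MvPolynomial σ P.O), g'.map (MvPolynomial.map P.O.subtype) = g := by
  choose F hF using fun j => lift_mv P (g.coeff j) (hg j)
  refine ⟨∑ n ∈ g.support, monomial n (F n), ?_⟩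
  rw [Polynomial.map_sum]
  conv_rhs => rw [g.as_sum_support]
  refine Finset.sum_congr rfl fun m _ => ?_
  rw [Polynomial.map_monomial, hF]

lemma pl_map {σ : Type} (g : Polynomial (MvPolynomial σ P.O)) :
    P.pl (g.map (MvPolynomial.map P.O.subtype)) = g.map (MvPolynomial.map P.r) := by
  ext1 n
  rw [Plc.coeff_pl, Polynomial.coeff_map, Polynomial.coeff_map, mv_map]

lemma sol_res (S : Finset (Fin 2 →₀ ℕ)) (n₁ n₂ : ℕ) (g : Polynomial (MvPolynomial (Fin 2) κ))
    (hg : ∀ j m, (g.coeff j).coeff m ∈ P.O) (u : Ix S n₁ n₂ → Ω)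
    (hu : Hn S n₁ (fun q => u (Sum.inl q)) * Hn S n₂ (fun q => u (Sum.inr q)) = P.pl g) :
    ∀ f ∈ Sys S n₁ n₂ g, MvPolynomial.eval u (P.mv f) = 0 := by
  classical
  obtain ⟨g', rfl⟩ := lift_pl P g hg
  rw [pl_map] at hu
  intro f hf
  unfold Sys at hf
  rw [Finset.mem_biUnion] at hf
  obtain ⟨j, _, hf⟩ := hf
  rw [Finset.mem_image] at hf
  obtain ⟨m, _, rfl⟩ := hf
  rw [← map_Eq1, Polynomial.coeff_map, MvPolynomial.coeff_map, mv_map]
  have h1 := eval_Eq1 S n₁ n₂ (g'.map (MvPolynomial.map P.r)) u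
  rw [hu, sub_self, ← map_Eq1] at h1
  have h2 := congrArg (fun q => (Polynomial.coeff q j).coeff m) h1
  rw [Polynomial.coeff_map, MvPolynomial.coeff_map, Polynomial.coeff_zero,
    MvPolynomial.coeff_zero, Polynomial.coeff_map, MvPolynomial.coeff_map] at h2
  exact h2

end plc

section bound

variable {κ Ω : Type} [Field κ] [Field Ω] (P : Plc κ Ω)

/-- total degree in all three variables -/
def td (g : Polynomial (MvPolynomial (Fin 2) κ)) : ℕ :=
  ((MvPolynomial.finSuccEquiv κ 2).symm g).totalDegree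

lemma td_mul {g h : Polynomial (MvPolynomial (Fin 2) κ)} (hg : g ≠ 0) (hh : h ≠ 0) :
    td (g * h) = td g + td h := by
  unfold td
  rw [map_mul, MvPolynomial.totalDegree_mul_of_isDomain]
  · simpa using hg
  · simpa using hh

lemma td_coeff (g : Polynomial (MvPolynomial (Fin 2) κ)) (j : ℕ) (m : Fin 2 →₀ ℕ)
    (hm : m ∈ (g.coeff j).support) : m.degree ≤ td g := by
  have h0 : g.coeff j ≠ 0 := by
    intro h
    rw [h] at hm
    simp at hm
  have h1 := MvPolynomial.totalDegree_coeff_finSuccEquiv_add_le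
    ((MvPolynomial.finSuccEquiv κ 2).symm g) j (by simpa using h0)
  rw [AlgEquiv.apply_symm_apply] at h1
  have h2 := MvPolynomial.le_totalDegree hm
  have h3 : m.degree = m.sum fun _ e => e := rfl
  unfold td
  omega

lemma coeff_symm (g : Polynomial (MvPolynomial (Fin 2) κ)) (M : Fin 3 →₀ ℕ) :
    ((MvPolynomial.finSuccEquiv κ 2).symm g).coeff M = (g.coeff (M 0)).coeff M.tail := by
  have h := MvPolynomial.finSuccEquiv_coeff_coeff M.tail ((MvPolynomial.finSuccEquiv κ 2).symm g)
    (M 0)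
  rw [AlgEquiv.apply_symm_apply, Finsupp.cons_tail] at h
  exact h.symm

lemma td_pl (g : Polynomial (MvPolynomial (Fin 2) κ)) : td (P.pl g) ≤ td g := by
  unfold td
  refine Finset.sup_le fun M hM => ?_
  refine MvPolynomial.le_totalDegree ?_
  rw [MvPolynomial.mem_support_iff, coeff_symm] at hM ⊢
  intro h
  rw [Plc.coeff_pl, Plc.coeff_mv, h, Plc.res_zero] at hM
  exact hM rfl

end bound

lemma pl_monic {κ Ω : Type} [Field κ] [Field Ω] (P : Plc κ Ω)
    (g : Polynomial (MvPolynomial (Fin 2) κ)) (hg : g.Monic) :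
    (P.pl g).Monic ∧ (P.pl g).natDegree = g.natDegree := by
  have h1 : P.mv (1 : MvPolynomial (Fin 2) κ) = 1 := by
    classical
    ext m
    rw [Plc.coeff_mv, MvPolynomial.coeff_one, MvPolynomial.coeff_one]
    split_ifs
    · exact Plc.res_one
    · exact Plc.res_zero
  have h2 : (P.pl g).coeff g.natDegree = 1 := by
    rw [Plc.coeff_pl, hg.coeff_natDegree, h1]
  have h3 : (P.pl g).natDegree = g.natDegree := by
    apply le_antisymm
    · rw [Polynomial.natDegree_le_iff_coeff_eq_zero]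
      intro n hn
      rw [Plc.coeff_pl, Polynomial.coeff_eq_zero_of_natDegree_lt hn, Plc.mv_zero]
    · apply Polynomial.le_natDegree_of_ne_zero
      rw [h2]
      exact one_ne_zero
  refine ⟨?_, h3⟩
  rw [Polynomial.Monic, Polynomial.leadingCoeff, h3, h2]

end GIR_

open GIR_ in
theorem GIR_proof (hNSC : Stmt_NSC) : Stmt_GIR := by
  classical
  intro κ _ _ g hg hN hirr
  have hfin := Finsupp.finite_of_degree_le (σ := Fin 2) (td g)
  set S := hfin.toFinset with hSdef
  have h1 : ∀ n₁ n₂, 0 < n₁ → 0 < n₂ → ∃ C : Finset κ, ∀ (Ω : Type) [Field Ω] (P : Plc κ Ω),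
      P.Gd C → ¬ ∃ u : Ix S n₁ n₂ → Ω, ∀ f ∈ Sys S n₁ n₂ g,
        MvPolynomial.eval u (P.mv f) = 0 := by
    intro n₁ n₂ h1 h2
    apply hNSC κ (Ix S n₁ n₂) (Sys S n₁ n₂ g)
    rintro ⟨u, hu⟩
    rw [sol_iff] at hu
    rcases hirr.isUnit_or_isUnit hu.symm with h | h
    · have := Polynomial.natDegree_eq_zero_of_isUnit h
      rw [Hn_natDegree] at this
      omega
    · have := Polynomial.natDegree_eq_zero_of_isUnit h
      rw [Hn_natDegree] at this
      omega
  choose C hC using h1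
  let C₀ : Finset κ := g.support.biUnion fun j => (g.coeff j).support.image fun m =>
    (g.coeff j).coeff m
  let C₁ : Finset κ := (Finset.range (g.natDegree + 1)).biUnion fun n₁ =>
    (Finset.range (g.natDegree + 1)).biUnion fun n₂ =>
      if h : 0 < n₁ ∧ 0 < n₂ then C n₁ n₂ h.1 h.2 else ∅
  refine ⟨C₀ ∪ C₁, fun Ω _ P hP => ?_⟩
  have hgO : ∀ j m, (g.coeff j).coeff m ∈ P.O := by
    intro j m
    by_cases h0 : (g.coeff j).coeff m = 0
    · rw [h0]; exact zero_mem _
    · refine (hP _ ?_ h0).1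
      refine Finset.mem_union_left _ ?_
      rw [Finset.mem_biUnion]
      refine ⟨j, ?_, ?_⟩
      · rw [Polynomial.mem_support_iff]
        intro h1
        rw [h1, MvPolynomial.coeff_zero] at h0
        exact h0 rfl
      · rw [Finset.mem_image]
        exact ⟨m, MvPolynomial.mem_support_iff.mpr h0, rfl⟩
  obtain ⟨hm, hd⟩ := pl_monic P g hg
  rw [hm.irreducible_iff_natDegree]
  refine ⟨fun h => ?_, fun a b ha hb hab => ?_⟩
  · rw [h, Polynomial.natDegree_one] at hd
    omega
  · by_contra hcon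
    push Not at hcon
    have hsum : a.natDegree + b.natDegree = g.natDegree := by
      rw [← hd, ← hab, ha.natDegree_mul hb]
    have htd : td a + td b ≤ td g := by
      rw [← td_mul ha.ne_zero hb.ne_zero, hab]
      exact td_pl P g
    have hSa : ∀ j, (a.coeff j).support ⊆ S := by
      intro j m hm'
      rw [hSdef, Set.Finite.mem_toFinset]
      have := td_coeff a j m hm'
      change m.degree ≤ td g
      omega
    have hSb : ∀ j, (b.coeff j).support ⊆ S := by
      intro j m hm'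
      rw [hSdef, Set.Finite.mem_toFinset]
      have := td_coeff b j m hm'
      change m.degree ≤ td g
      omega
    have hpos : 0 < a.natDegree ∧ 0 < b.natDegree :=
      ⟨Nat.pos_of_ne_zero hcon.1, Nat.pos_of_ne_zero hcon.2⟩
    have hGd : P.Gd (C a.natDegree b.natDegree hpos.1 hpos.2) := by
      refine hP.mono fun c hc => ?_
      refine Finset.mem_union_right _ ?_
      rw [Finset.mem_biUnion]
      refine ⟨a.natDegree, Finset.mem_range.mpr (by omega), ?_⟩
      rw [Finset.mem_biUnion]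
      refine ⟨b.natDegree, Finset.mem_range.mpr (by omega), ?_⟩
      rw [dif_pos hpos]
      exact hc
    refine hC _ _ hpos.1 hpos.2 Ω P hGd ⟨Sum.elim
      (fun q => (a.coeff q.1).coeff (q.2 : Fin 2 →₀ ℕ))
      (fun q => (b.coeff q.1).coeff (q.2 : Fin 2 →₀ ℕ)), ?_⟩
    refine sol_res P S _ _ g hgO _ ?_
    rw [← hab]
    conv_rhs => rw [eq_Hn S a ha hSa, eq_Hn S b hb hSb]
    rfl

end Pool.Agent.SPR
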