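import Pool.Agent.SPR.Stmts

/-!
# GPO: polynomials and the Gauss place
-/

set_option autoImplicit false

noncomputable section

namespace Pool.Agent.SPR

open Pool.Agent.SRF

namespace GPO_

section

variable {κ Ω F Fs : Type} [Field κ] [Field Ω] [Field F] [Field Fs] [Algebra κ F] [Algebra Ω Fs]
  {x y w : F} {xs ys ws : Fs} {P : Plc κ Ω}

theorem v_mem (G : Gau P x y w xs ys ws) (i : Fin 2) : (![x, y] : Fin 2 → F) i ∈ G.W := by
  fin_cases i
  · exact G.x_mem
  · exact G.y_mem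

theorem v_res (G : Gau P x y w xs ys ws) (i : Fin 2) :
    G.res ((![x, y] : Fin 2 → F) i) = (![xs, ys] : Fin 2 → Fs) i := by
  fin_cases i
  · exact Gau.res_x
  · exact Gau.res_y

theorem aeval_eq {k E : Type} [Field k] [Field E] [Algebra k E] (v : Fin 2 → E)
    (f : MvPolynomial (Fin 2) k) : MvPolynomial.aeval v f =
      ∑ m ∈ f.support, algebraMap k E (f.coeff m) * ∏ i, v i ^ m i := by
  rw [MvPolynomial.aeval_def, MvPolynomial.eval₂_eq']

theorem mem_of_coeff (G : Gau P x y w xs ys ws) (f : MvPolynomial (Fin 2) κ)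
    (hf : ∀ m, f.coeff m ∈ P.O) : MvPolynomial.aeval ![x, y] f ∈ G.W := by
  rw [aeval_eq]
  refine sum_mem fun m _ => mul_mem ((G.const_mem _).mpr (hf m)) ?_
  exact prod_mem fun i _ => pow_mem (v_mem G i) _

theorem res_of_coeff (G : Gau P x y w xs ys ws) (f : MvPolynomial (Fin 2) κ)
    (hf : ∀ m, f.coeff m ∈ P.O) :
    G.res (MvPolynomial.aeval ![x, y] f) = MvPolynomial.aeval ![xs, ys] (P.mv f) := by
  have hp : ∀ m : Fin 2 →₀ ℕ, ∏ i, (![x, y] : Fin 2 → F) i ^ m i ∈ G.W :=
    fun m => prod_mem fun i _ => pow_mem (v_mem G i) _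
  rw [aeval_eq, Gau.res_sum _ _ (fun m _ => mul_mem ((G.const_mem _).mpr (hf m)) (hp m))]
  unfold Plc.mv
  rw [map_sum]
  refine Finset.sum_congr rfl fun m _ => ?_
  rw [Gau.res_mul ((G.const_mem _).mpr (hf m)) (hp m), Gau.res_const (hf m),
    Gau.res_prod _ _ (fun i _ => pow_mem (v_mem G i) _), MvPolynomial.aeval_monomial,
    Finsupp.prod_fintype _ _ (fun i => pow_zero _)]
  congr 1
  refine Finset.prod_congr rfl fun i _ => ?_
  rw [Gau.res_pow (v_mem G i), v_res]

theorem coeff_of_mem (hind : AlgebraicIndependent Ω ![xs, ys]) (G : Gau P x y w xs ys ws)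
    (f : MvPolynomial (Fin 2) κ) (hf : MvPolynomial.aeval ![x, y] f ∈ G.W) :
    ∀ m, f.coeff m ∈ P.O := by
  by_contra hcon
  push Not at hcon
  obtain ⟨m0, hm0⟩ := hcon
  have hs : f.support.Nonempty := by
    refine ⟨m0, ?_⟩
    rw [MvPolynomial.mem_support_iff]
    intro h0
    rw [h0] at hm0
    exact hm0 (zero_mem _)
  obtain ⟨m1, hm1, hmax⟩ := Finset.exists_max_image f.support
    (fun m => P.O.valuation (f.coeff m)) hs
  have hc0 : f.coeff m1 ≠ 0 := MvPolynomial.mem_support_iff.mp hm1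
  set c := f.coeff m1 with hc
  have hle : ∀ m, f.coeff m * c⁻¹ ∈ P.O := by
    intro m
    by_cases hm : m ∈ f.support
    · have h1 := hmax m hm
      rw [← ValuationSubring.valuation_le_one_iff, map_mul, map_inv₀]
      have hv : P.O.valuation c ≠ 0 := (Valuation.ne_zero_iff _).mpr hc0
      rw [← div_eq_mul_inv]
      exact div_le_one_of_le₀ h1 zero_le
    · rw [MvPolynomial.notMem_support_iff.mp hm, zero_mul]
      exact zero_mem _
  have hcO : c ∉ P.O := by
    intro h1
    apply hm0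
    have h2 := mul_mem (hle m0) h1
    rwa [mul_assoc, inv_mul_cancel₀ hc0, mul_one] at h2
  have hciO : c⁻¹ ∈ P.O := (P.O.mem_or_inv_mem c).resolve_left hcO
  have hres : P.res c⁻¹ = 0 := by
    rw [Plc.res_of_mem hciO, P.ker]
    right
    rw [inv_inv]
    exact hcO
  let f1 : MvPolynomial (Fin 2) κ := MvPolynomial.C c⁻¹ * f
  have hf1 : ∀ m, f1.coeff m ∈ P.O := by
    intro m
    have : f1.coeff m = f.coeff m * c⁻¹ := by
      show (MvPolynomial.C c⁻¹ * f).coeff m = _
      rw [MvPolynomial.coeff_C_mul, mul_comm]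
    rw [this]
    exact hle m
  have h2 := res_of_coeff G f1 hf1
  have h3 : MvPolynomial.aeval ![x, y] f1 = algebraMap κ F c⁻¹ * MvPolynomial.aeval ![x, y] f := by
    show MvPolynomial.aeval ![x, y] (MvPolynomial.C c⁻¹ * f) = _
    rw [map_mul, MvPolynomial.aeval_C]
  rw [h3, Gau.res_mul ((G.const_mem _).mpr hciO) hf, Gau.res_const hciO, hres, map_zero,
    zero_mul] at h2
  have h4 : P.mv f1 = 0 := by
    have h5 := hind
    rw [algebraicIndependent_iff] at h5
    exact h5 _ h2.symm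
  have h5 : (P.mv f1).coeff m1 = 1 := by
    rw [Plc.coeff_mv]
    have : f1.coeff m1 = 1 := by
      show (MvPolynomial.C c⁻¹ * f).coeff m1 = _
      rw [MvPolynomial.coeff_C_mul, ← hc, inv_mul_cancel₀ hc0]
    rw [this, Plc.res_one]
  rw [h4, MvPolynomial.coeff_zero] at h5
  exact zero_ne_one h5

end

end GPO_

theorem GPO_proof : Stmt_GPO := by
  intro κ Ω F Fs _ _ _ _ _ _ x y w xs ys ws P hind G f
  refine ⟨⟨GPO_.coeff_of_mem hind G f, GPO_.mem_of_coeff G f⟩, fun h => ?_⟩
  exact GPO_.res_of_coeff G f (GPO_.coeff_of_mem hind G f h)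

end Pool.Agent.SPR
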