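import Pool.Agent.SPR.Stmts

/-!
# The Gauss place of the field `κ(x, y)`
-/

set_option autoImplicit false

noncomputable section

namespace Pool.Agent.SPR

open Pool.Agent.SRF

namespace GRG_

/-- the ring of fractions `i a / i s`, `j s ≠ 0`, with the extension of `j` -/
theorem loc {A F K : Type} [CommRing A] [Field F] [Field K] (i : A →+* F) (j : A →+* K)
    (hi : Function.Injective i) : ∃ (R : Subring F) (γ : R →+* K),
      (∀ f ∈ R, ∃ a s, j s ≠ 0 ∧ f = i a / i s) ∧
      ∀ a s, j s ≠ 0 → ∃ h : i a / i s ∈ R, γ ⟨_, h⟩ = j a / j s := by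
  classical
  haveI hp : (RingHom.ker j).IsPrime := RingHom.ker_isPrime j
  have hmem : ∀ s : (RingHom.ker j).primeCompl, j s ≠ 0 := by
    intro s hs
    exact s.2 ((RingHom.mem_ker).2 hs)
  have hi0 : ∀ s : (RingHom.ker j).primeCompl, i s ≠ 0 := by
    intro s hs
    have h0 : (s : A) = 0 := hi (by rw [hs, map_zero])
    exact hmem s (by rw [h0, map_zero])
  have hI : ∀ s : (RingHom.ker j).primeCompl, IsUnit (i s) := fun s =>
    (hi0 s).isUnit
  have hJ : ∀ s : (RingHom.ker j).primeCompl, IsUnit (j s) := fun s =>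
    (hmem s).isUnit
  let L := Localization (RingHom.ker j).primeCompl
  let iL : L →+* F := IsLocalization.lift (M := (RingHom.ker j).primeCompl) hI
  let jL : L →+* K := IsLocalization.lift (M := (RingHom.ker j).primeCompl) hJ
  have hiL : ∀ (a : A) (s : (RingHom.ker j).primeCompl),
      iL (IsLocalization.mk' L a s) = i a / i s := by
    intro a s
    rw [eq_div_iff (hi0 s)]
    exact (IsLocalization.lift_mk'_spec (S := L) hI a (i a / i s) s).2
      (by rw [mul_div_cancel₀ _ (hi0 s)]) ▸ by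
        rw [div_mul_cancel₀ _ (hi0 s)]
  have hjL : ∀ (a : A) (s : (RingHom.ker j).primeCompl),
      jL (IsLocalization.mk' L a s) = j a / j s := by
    intro a s
    exact (IsLocalization.lift_mk'_spec (S := L) hJ a (j a / j s) s).2
      (by rw [mul_div_cancel₀ _ (hmem s)])
  have hinj : Function.Injective iL := by
    rw [injective_iff_map_eq_zero]
    intro z hz
    obtain ⟨a, s, rfl⟩ := IsLocalization.exists_mk'_eq (RingHom.ker j).primeCompl z
    rw [hiL, div_eq_zero_iff] at hz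
    rcases hz with h | h
    · have h0 : a = 0 := hi (by rw [h, map_zero])
      rw [h0, IsLocalization.mk'_zero]
    · exact absurd h (hi0 s)
  let e : L ≃+* iL.range := RingEquiv.ofBijective iL.rangeRestrict
    ⟨fun a b h => hinj (congrArg Subtype.val h), iL.rangeRestrict_surjective⟩
  refine ⟨iL.range, jL.comp e.symm.toRingHom, ?_, ?_⟩
  · rintro f ⟨z, rfl⟩
    obtain ⟨a, s, rfl⟩ := IsLocalization.exists_mk'_eq (RingHom.ker j).primeCompl z
    exact ⟨a, s, hmem s, hiL a s⟩
  · intro a s hs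
    let s' : (RingHom.ker j).primeCompl := ⟨s, fun h => hs ((RingHom.mem_ker).1 h)⟩
    have h1 : iL (IsLocalization.mk' L a s') = i a / i s := hiL a s'
    refine ⟨⟨_, h1⟩, ?_⟩
    have h2 : e (IsLocalization.mk' L a s') = ⟨i a / i s, ⟨_, h1⟩⟩ := Subtype.ext h1
    show jL (e.symm _) = _
    rw [← h2, RingEquiv.symm_apply_apply]
    exact hjL a s'

section

variable {κ Ω : Type} [Field κ] [Field Ω] (P : Plc κ Ω)

theorem r_ne {a : P.O} (h : P.r a ≠ 0) : (a : κ) ≠ 0 ∧ (a : κ)⁻¹ ∈ P.O := by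
  rw [Ne, P.ker, not_or, not_not] at h
  exact h

/-- division by the coefficient of maximal value -/
theorem scale {σ : Type} (A : MvPolynomial σ κ) (hA : A ≠ 0) :
    ∃ (α : κ) (B : MvPolynomial σ P.O), α ≠ 0 ∧ MvPolynomial.map P.r B ≠ 0 ∧
      A = MvPolynomial.C α * MvPolynomial.map P.O.subtype B := by
  classical
  have hs : A.support.Nonempty := by
    rw [Finset.nonempty_iff_ne_empty, Ne, MvPolynomial.support_eq_empty]
    exact hA
  obtain ⟨m, hm, hmax⟩ := Finset.exists_max_image A.support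
    (fun m => P.O.valuation (A.coeff m)) hs
  have h0 : A.coeff m ≠ 0 := MvPolynomial.mem_support_iff.1 hm
  have hv0 : P.O.valuation (A.coeff m) ≠ 0 := by
    rwa [Ne, Valuation.zero_iff]
  have hmem : ∀ n, (A.coeff m)⁻¹ * A.coeff n ∈ P.O := by
    intro n
    by_cases hn : n ∈ A.support
    · rw [← ValuationSubring.valuation_le_one_iff, map_mul, map_inv₀]
      have h1 := hmax n hn
      rw [inv_mul_le_iff₀ (zero_lt_iff.2 hv0), mul_one]
      exact h1
    · rw [MvPolynomial.notMem_support_iff.1 hn, mul_zero]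
      exact zero_mem _
  have hC : MvPolynomial.C (A.coeff m)⁻¹ * A ∈ Set.range (MvPolynomial.map P.O.subtype) := by
    rw [MvPolynomial.mem_range_map_iff_coeffs_subset]
    intro c hc
    rw [Finset.mem_coe, MvPolynomial.mem_coeffs_iff] at hc
    obtain ⟨n, _, rfl⟩ := hc
    rw [MvPolynomial.coeff_C_mul]
    exact ⟨⟨_, hmem n⟩, rfl⟩
  obtain ⟨B, hB⟩ := hC
  refine ⟨A.coeff m, B, h0, ?_, ?_⟩
  · intro h
    have h1 := congrArg (MvPolynomial.coeff m) hB
    rw [MvPolynomial.coeff_map, MvPolynomial.coeff_C_mul, inv_mul_cancel₀ h0] at h1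
    have h2 : B.coeff m = 1 := Subtype.ext h1
    have h3 := congrArg (MvPolynomial.coeff m) h
    rw [MvPolynomial.coeff_map, h2, map_one, MvPolynomial.coeff_zero] at h3
    exact one_ne_zero h3
  · rw [hB, ← mul_assoc, ← MvPolynomial.C_mul, mul_inv_cancel₀ h0, MvPolynomial.C_1, one_mul]

end

end GRG_

open GRG_ in
theorem GRG_proof : Stmt_GRG := by
  classical
  intro κ Ω F Fs _ _ _ _ _ _ x y xs ys hxy hxys P
  let i : MvPolynomial (Fin 2) P.O →+* F :=
    (MvPolynomial.aeval (R := κ) ![x, y]).toRingHom.comp (MvPolynomial.map P.O.subtype)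
  let j : MvPolynomial (Fin 2) P.O →+* Fs :=
    (MvPolynomial.aeval (R := Ω) ![xs, ys]).toRingHom.comp (MvPolynomial.map P.r)
  have hia : ∀ a, i a = MvPolynomial.aeval (R := κ) ![x, y] (MvPolynomial.map P.O.subtype a) :=
    fun _ => rfl
  have hja : ∀ a, j a = MvPolynomial.aeval (R := Ω) ![xs, ys] (MvPolynomial.map P.r a) :=
    fun _ => rfl
  have hi : Function.Injective i := by
    intro a b h
    rw [hia, hia] at h
    exact MvPolynomial.map_injective _ Subtype.val_injective (hxy h)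
  have hj0 : ∀ a, j a = 0 ↔ MvPolynomial.map P.r a = 0 := by
    intro a
    rw [hja]
    constructor
    · intro h
      exact hxys (by rw [h, map_zero])
    · intro h
      rw [h, map_zero]
  have hi0 : ∀ a, j a ≠ 0 → i a ≠ 0 := by
    intro a h h'
    apply h
    have : a = 0 := hi (by rw [h', map_zero])
    rw [this, map_zero]
  obtain ⟨R, γ, hR, hγ⟩ := loc i j hi
  -- values of elements of `R`
  have hval : ∀ f : R, ∃ a s, j s ≠ 0 ∧ (f : F) = i a / i s ∧ γ f = j a / j s := by
    rintro ⟨f, hf⟩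
    obtain ⟨a, s, hs, rfl⟩ := hR f hf
    obtain ⟨h, hh⟩ := hγ a s hs
    exact ⟨a, s, hs, rfl, hh⟩
  have hpoly : ∀ a, ∃ h : i a ∈ R, γ ⟨i a, h⟩ = j a := by
    intro a
    obtain ⟨h, hh⟩ := hγ a 1 (by rw [map_one]; exact one_ne_zero)
    have h1 : i a / i 1 = i a := by rw [map_one, div_one]
    have h2 : i a ∈ R := h1 ▸ h
    refine ⟨h2, ?_⟩
    have h3 : (⟨i a, h2⟩ : R) = ⟨i a / i 1, h⟩ := Subtype.ext h1.symm
    rw [h3, hh, map_one, div_one]
  have hirange : ∀ a, i a ∈ IntermediateField.adjoin κ {x, y} := by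
    intro a
    have h1 := (IntermediateField.mem_adjoin_range_iff κ ![x, y] (i a)).2
      ⟨MvPolynomial.map P.O.subtype a, 1, by rw [map_one, div_one]; rfl⟩
    rwa [Matrix.range_cons_cons_empty] at h1
  have hjrange : ∀ a, j a ∈ IntermediateField.adjoin Ω {xs, ys} := by
    intro a
    have h1 := (IntermediateField.mem_adjoin_range_iff Ω ![xs, ys] (j a)).2
      ⟨MvPolynomial.map P.r a, 1, by rw [map_one, div_one]; rfl⟩
    rwa [Matrix.range_cons_cons_empty] at h1
  have hiC : ∀ c : P.O, i (MvPolynomial.C c) = algebraMap κ F c := by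
    intro c
    rw [hia, MvPolynomial.map_C, MvPolynomial.algHom_C]
    rfl
  have hjC : ∀ c : P.O, j (MvPolynomial.C c) = algebraMap Ω Fs (P.r c) := by
    intro c
    rw [hja, MvPolynomial.map_C, MvPolynomial.algHom_C]
  have hinv : ∀ f : R, γ f ≠ 0 → (f : F)⁻¹ ∈ R := by
    intro f hf
    obtain ⟨a, s, hs, h1, h2⟩ := hval f
    have ha : j a ≠ 0 := by
      intro h
      apply hf
      rw [h2, h, zero_div]
    obtain ⟨h, -⟩ := hγ s a ha
    rw [h1, inv_div]
    exact h
  have hcon : ∀ c : κ, algebraMap κ F c ∈ R → c ∈ P.O := by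
    intro c hc
    obtain ⟨a, s, hs, h1⟩ := hR _ hc
    have hs0 : MvPolynomial.map P.r s ≠ 0 := fun h => hs ((hj0 s).2 h)
    obtain ⟨m, hm⟩ := MvPolynomial.ne_zero_iff.1 hs0
    rw [MvPolynomial.coeff_map] at hm
    obtain ⟨h2, h3⟩ := r_ne P hm
    have h4 : MvPolynomial.C c * MvPolynomial.map P.O.subtype s =
        MvPolynomial.map P.O.subtype a := by
      apply hxy
      rw [map_mul, MvPolynomial.algHom_C, ← hia, ← hia, h1, div_mul_cancel₀ _ (hi0 s hs)]
    have h5 := congrArg (MvPolynomial.coeff m) h4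
    rw [MvPolynomial.coeff_C_mul, MvPolynomial.coeff_map, MvPolynomial.coeff_map] at h5
    have h5' : c * ((MvPolynomial.coeff m s : P.O) : κ) =
      ((MvPolynomial.coeff m a : P.O) : κ) := h5
    have h6 : c = ((MvPolynomial.coeff m a : P.O) : κ) *
        ((MvPolynomial.coeff m s : P.O) : κ)⁻¹ := by
      rw [← h5', mul_assoc, mul_inv_cancel₀ h2, mul_one]
    rw [h6]
    exact mul_mem (MvPolynomial.coeff m a).2 h3
  refine ⟨R, γ, ?_, ?_, ?_, ?_, ?_, ?_, ?_, ?_⟩
  · intro f hf
    obtain ⟨a, s, hs, rfl⟩ := hR f hf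
    exact div_mem (hirange a) (hirange s)
  · intro f
    obtain ⟨a, s, hs, h1, h2⟩ := hval f
    rw [h2]
    exact div_mem (hjrange a) (hjrange s)
  · intro c
    constructor
    · exact hcon c
    · intro hc
      obtain ⟨h, -⟩ := hpoly (MvPolynomial.C ⟨c, hc⟩)
      have h0 := hiC ⟨c, hc⟩
      rw [h0] at h
      exact h
  · intro c hc
    have hcO := hcon c hc
    obtain ⟨h, hh⟩ := hpoly (MvPolynomial.C ⟨c, hcO⟩)
    have h0 := hiC ⟨c, hcO⟩
    have h1 : (⟨algebraMap κ F c, hc⟩ : R) = ⟨i (MvPolynomial.C ⟨c, hcO⟩), h⟩ :=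
      Subtype.ext h0.symm
    rw [h1, hh, hjC, Plc.res_of_mem hcO]
  · obtain ⟨h, hh⟩ := hpoly (MvPolynomial.X 0)
    have h1 : i (MvPolynomial.X 0) = x := by
      rw [hia, MvPolynomial.map_X, MvPolynomial.aeval_X]
      rfl
    have h2 : j (MvPolynomial.X 0) = xs := by
      rw [hja, MvPolynomial.map_X, MvPolynomial.aeval_X]
      rfl
    refine ⟨h1 ▸ h, ?_⟩
    rw [← h2, ← hh]
    congr 1
    exact Subtype.ext h1.symm
  · obtain ⟨h, hh⟩ := hpoly (MvPolynomial.X 1)
    have h1 : i (MvPolynomial.X 1) = y := by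
      rw [hia, MvPolynomial.map_X, MvPolynomial.aeval_X]
      rfl
    have h2 : j (MvPolynomial.X 1) = ys := by
      rw [hja, MvPolynomial.map_X, MvPolynomial.aeval_X]
      rfl
    refine ⟨h1 ▸ h, ?_⟩
    rw [← h2, ← hh]
    congr 1
    exact Subtype.ext h1.symm
  · intro f
    constructor
    · intro hf
      by_contra hcon
      rw [not_or, not_not] at hcon
      obtain ⟨h0, h1⟩ := hcon
      have h2 : f * ⟨(f : F)⁻¹, h1⟩ = 1 := Subtype.ext (mul_inv_cancel₀ h0)
      have h3 := congrArg γ h2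
      rw [map_mul, hf, zero_mul, map_one] at h3
      exact zero_ne_one h3
    · rintro (h | h)
      · have : f = 0 := Subtype.ext h
        rw [this, map_zero]
      · by_contra h'
        exact h (hinv f h')
  · intro f hf hf0
    have hf' : f ∈ IntermediateField.adjoin κ (Set.range ![x, y]) := by
      rwa [Matrix.range_cons_cons_empty]
    obtain ⟨A, B, hAB⟩ := (IntermediateField.mem_adjoin_range_iff κ ![x, y] f).1 hf'
    have hA : A ≠ 0 := by
      rintro rfl
      rw [map_zero, zero_div] at hAB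
      exact hf0 hAB
    have hB : B ≠ 0 := by
      rintro rfl
      rw [map_zero, div_zero] at hAB
      exact hf0 hAB
    obtain ⟨α, A', hα, hA', hA1⟩ := scale P A hA
    obtain ⟨β, B', hβ, hB', hB1⟩ := scale P B hB
    have hjA : j A' ≠ 0 := fun h => hA' ((hj0 _).1 h)
    have hjB : j B' ≠ 0 := fun h => hB' ((hj0 _).1 h)
    have hα' : algebraMap κ F α ≠ 0 := (map_ne_zero _).2 hα
    have hβ' : algebraMap κ F β ≠ 0 := (map_ne_zero _).2 hβ
    have hBi := hi0 _ hjB
    have key : algebraMap κ F (β / α) * f = i A' / i B' := by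
      rw [hAB, hA1, hB1, map_mul, map_mul, MvPolynomial.algHom_C, MvPolynomial.algHom_C,
        ← hia, ← hia, map_div₀]
      field_simp
    refine ⟨β / α, div_ne_zero hβ hα, ?_, ?_⟩
    · rw [key]
      exact (hγ A' B' hjB).1
    · rw [key, inv_div]
      exact (hγ B' A' hjA).1

end Pool.Agent.SPR
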