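import Pool.Agent.SPR.Stmts

set_option autoImplicit false

noncomputable section

namespace Pool.Agent.SPR

open Pool.Agent.SRF

namespace GUN_

section
variable {κ F : Type} [Field κ] [Field F] [Algebra κ F] {x y w : F} {N a : ℕ}
  {g : Polynomial (MvPolynomial (Fin 2) κ)}

theorem finrank_minpoly (h : Mdl κ x y w N a g) :
    (minpoly (IntermediateField.adjoin κ {x, y}) w).natDegree = N := by
  have := h.surf.fin
  have h1 : Module.finrank (IntermediateField.adjoin κ {x, y})
      (IntermediateField.adjoin (IntermediateField.adjoin κ {x, y}) {w}) =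
      (minpoly (IntermediateField.adjoin κ {x, y}) w).natDegree :=
    IntermediateField.adjoin.finrank (Algebra.IsIntegral.isIntegral w)
  rw [← h1, h.gen, IntermediateField.finrank_top', h.rank]

theorem linInd (h : Mdl κ x y w N a g) :
    LinearIndependent (IntermediateField.adjoin κ {x, y}) (fun i : Fin N => w ^ (i : ℕ)) := by
  have h1 := linearIndependent_pow (K := IntermediateField.adjoin κ {x, y}) w
  rw [finrank_minpoly h] at h1
  exact h1

theorem span (h : Mdl κ x y w N a g) :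
    Submodule.span (IntermediateField.adjoin κ {x, y}) (Set.range (fun i : Fin N => w ^ (i : ℕ)))
      = ⊤ := by
  have := h.surf.fin
  apply (linInd h).span_eq_top_of_card_eq_finrank'
  rw [Fintype.card_fin, h.rank]

theorem frac (f : F) (hf : f ∈ IntermediateField.adjoin κ {x, y}) :
    ∃ A B : MvPolynomial (Fin 2) κ, MvPolynomial.aeval ![x, y] B ≠ 0 ∧
      f = MvPolynomial.aeval ![x, y] A / MvPolynomial.aeval ![x, y] B := by
  have h1 : ({x, y} : Set F) = Set.range ![x, y] := by
    simp [Set.pair_comm]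
  rw [h1, IntermediateField.mem_adjoin_range_iff] at hf
  obtain ⟨r, s, hrs⟩ := hf
  by_cases hs : MvPolynomial.aeval ![x, y] s = 0
  · refine ⟨0, 1, by simp, ?_⟩
    rw [hrs, hs, div_zero, map_zero, zero_div]
  · exact ⟨r, s, hs, hrs⟩

theorem repr (h : Mdl κ x y w N a g) (s : F) :
    ∃ (d : MvPolynomial (Fin 2) κ) (n : Fin N → MvPolynomial (Fin 2) κ),
      MvPolynomial.aeval ![x, y] d ≠ 0 ∧ MvPolynomial.aeval ![x, y] d * s =
        ∑ i, MvPolynomial.aeval ![x, y] (n i) * w ^ (i : ℕ) := by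
  classical
  have h1 : s ∈ Submodule.span (IntermediateField.adjoin κ {x, y})
      (Set.range (fun i : Fin N => w ^ (i : ℕ))) := by rw [span h]; trivial
  obtain ⟨c, hc⟩ := (Submodule.mem_span_range_iff_exists_fun _).mp h1
  choose A B hB hAB using fun i : Fin N => frac (κ := κ) (x := x) (y := y) (c i : F) (c i).2
  refine ⟨∏ i, B i, fun i => A i * ∏ j ∈ Finset.univ.erase i, B j, ?_, ?_⟩
  · rw [map_prod]
    exact Finset.prod_ne_zero_iff.mpr (fun i _ => hB i)
  · rw [← hc, Finset.mul_sum]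
    apply Finset.sum_congr rfl
    intro i _
    have h2 : c i • w ^ (i : ℕ) = (c i : F) * w ^ (i : ℕ) := rfl
    rw [h2, hAB i, map_mul, ← Finset.mul_prod_erase _ _ (Finset.mem_univ i), map_mul]
    have := hB i
    field_simp

end

end GUN_

open GUN_ in
theorem GUN_proof (hGPO : Stmt_GPO) : Stmt_GUN := by
  classical
  intro κ F _ _ _ x y w N a g hM S
  choose d n hd hdn using fun s : F => repr hM s
  refine ⟨S.biUnion fun s => (d s).support.image (fun m => (d s).coeff m) ∪
    Finset.univ.biUnion fun i => (n s i).support.image (fun m => (n s i).coeff m), ?_⟩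
  intro Ω _ P hP Fs _ _ xs ys ws hMs G s hs hs0
  have hind := hMs.surf.indep
  -- polynomials with good coefficients
  have hmem : ∀ f : MvPolynomial (Fin 2) κ,
      (∀ m ∈ f.support, f.coeff m ∈ P.O ∧ (f.coeff m)⁻¹ ∈ P.O) →
      MvPolynomial.aeval ![x, y] f ∈ G.W ∧
      G.res (MvPolynomial.aeval ![x, y] f) = MvPolynomial.aeval ![xs, ys] (P.mv f) ∧
      (f ≠ 0 → P.mv f ≠ 0) := by
    intro f hf
    have h1 := hGPO κ Ω F Fs x y w xs ys ws P hind G f
    have h2 : MvPolynomial.aeval ![x, y] f ∈ G.W := by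
      rw [h1.1]
      intro m
      by_cases hm : m ∈ f.support
      · exact (hf m hm).1
      · rw [MvPolynomial.notMem_support_iff.mp hm]; exact zero_mem _
    refine ⟨h2, h1.2 h2, ?_⟩
    intro hf0 hmv
    obtain ⟨m, hm⟩ := MvPolynomial.support_nonempty.mpr hf0
    have h3 := congrArg (fun q => MvPolynomial.coeff m q) hmv
    simp only [Plc.coeff_mv, MvPolynomial.coeff_zero] at h3
    exact Plc.res_ne_zero (MvPolynomial.mem_support_iff.mp hm) (hf m hm).1 (hf m hm).2 h3
  have hne : ∀ f : MvPolynomial (Fin 2) Ω, f ≠ 0 → MvPolynomial.aeval ![xs, ys] f ≠ 0 := by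
    intro f hf h0
    exact hf (hind.eq_zero_of_aeval_eq_zero f h0)
  have hgd : ∀ m ∈ (d s).support, (d s).coeff m ∈ P.O ∧ ((d s).coeff m)⁻¹ ∈ P.O := by
    intro m hm
    refine hP _ (Finset.mem_biUnion.mpr ⟨s, hs, Finset.mem_union_left _ ?_⟩)
      (MvPolynomial.mem_support_iff.mp hm)
    exact Finset.mem_image_of_mem _ hm
  have hgn : ∀ i, ∀ m ∈ (n s i).support, (n s i).coeff m ∈ P.O ∧ ((n s i).coeff m)⁻¹ ∈ P.O := by
    intro i m hm
    refine hP _ (Finset.mem_biUnion.mpr ⟨s, hs, Finset.mem_union_right _ ?_⟩)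
      (MvPolynomial.mem_support_iff.mp hm)
    exact Finset.mem_biUnion.mpr ⟨i, Finset.mem_univ i, Finset.mem_image_of_mem _ hm⟩
  have hU : ∀ f ∈ G.W, G.res f ≠ 0 → G.U f := by
    intro f hf hf0
    rw [Ne, Gau.res_eq_zero hf, not_or, not_not] at hf0
    exact ⟨hf0.1, hf, hf0.2⟩
  -- the denominator
  obtain ⟨hd1, hd2, hd3⟩ := hmem (d s) hgd
  have hd0 : d s ≠ 0 := by
    intro h0
    apply hd s
    rw [h0, map_zero]
  have hUd : G.U (MvPolynomial.aeval ![x, y] (d s)) := by
    apply hU _ hd1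
    rw [hd2]
    exact hne _ (hd3 hd0)
  -- the numerator
  have hUn : G.U (∑ i, MvPolynomial.aeval ![x, y] (n s i) * w ^ (i : ℕ)) := by
    have hw : ∀ i : Fin N, MvPolynomial.aeval ![x, y] (n s i) * w ^ (i : ℕ) ∈ G.W := fun i =>
      mul_mem (hmem (n s i) (hgn i)).1 (pow_mem G.w_mem _)
    apply hU _ (sum_mem fun i _ => hw i)
    rw [Gau.res_sum _ _ (fun i _ => hw i)]
    have h1 : ∀ i : Fin N, G.res (MvPolynomial.aeval ![x, y] (n s i) * w ^ (i : ℕ)) =
        MvPolynomial.aeval ![xs, ys] (P.mv (n s i)) * ws ^ (i : ℕ) := by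
      intro i
      rw [Gau.res_mul (hmem (n s i) (hgn i)).1 (pow_mem G.w_mem _), (hmem (n s i) (hgn i)).2.1,
        Gau.res_pow G.w_mem, Gau.res_w]
    simp only [h1]
    intro h0
    have hK : ∀ f : MvPolynomial (Fin 2) Ω, MvPolynomial.aeval ![xs, ys] f ∈
        IntermediateField.adjoin Ω {xs, ys} := by
      intro f
      have h2 : ({xs, ys} : Set Fs) = Set.range ![xs, ys] := by simp [Set.pair_comm]
      rw [h2, IntermediateField.mem_adjoin_range_iff]
      exact ⟨f, 1, by simp⟩
    have hli := linInd hMs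
    rw [Fintype.linearIndependent_iff] at hli
    have h3 := hli (fun i => ⟨_, hK (P.mv (n s i))⟩) (by
      rw [← h0]
      rfl)
    have h4 : ∃ i, n s i ≠ 0 := by
      by_contra hcon
      push Not at hcon
      have h5 := hdn s
      simp only [hcon, map_zero, zero_mul, Finset.sum_const_zero] at h5
      rcases mul_eq_zero.mp h5 with h6 | h6
      · exact hd s h6
      · exact hs0 h6
    obtain ⟨i, hi⟩ := h4
    have h5 := congrArg Subtype.val (h3 i)
    exact hne _ ((hmem (n s i) (hgn i)).2.2 hi) h5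
  have hfin : s = (∑ i, MvPolynomial.aeval ![x, y] (n s i) * w ^ (i : ℕ)) *
      (MvPolynomial.aeval ![x, y] (d s))⁻¹ := by
    rw [← hdn s, mul_comm, ← mul_assoc, inv_mul_cancel₀ (hd s), one_mul]
  rw [hfin]
  exact hUn.mul hUd.inv

end Pool.Agent.SPR
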