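import Pool.Agent.SPR.Stmts

/-! Module LES: local equations of prime divisors; they specialise to local equations. -/

set_option autoImplicit false

noncomputable section

namespace Pool.Agent.SPR

open Pool.Agent.SRF

namespace LES_

section

variable {k F : Type} [Field k] [Field F] [Algebra k F] {x y : F}

theorem z_ne (hs : IsSurf k x y) (i : Fin 3) : z x y i ≠ 0 := by
  have h0 := hs.indep.ne_zero (0 : Fin 2)
  have h1 := hs.indep.ne_zero (1 : Fin 2)
  fin_cases i
  · exact one_ne_zero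
  · exact h0
  · exact h1

theorem ord_ge {D : PP k x y → ℤ} {f : F} (hf : f ∈ L k x y D) (h0 : f ≠ 0) (O : PP k x y) :
    - D O ≤ ord O.1 f := (hf.resolve_left h0) O

/-- Two sections which have together with a third one no common zero have no common
component. -/
theorem cop (hZER : SRF.Stmt_ZER) (hCEN : SRF.Stmt_CEN) (hHCH : SRF.Stmt_HCH)
    (hSEC : SRF.Stmt_SEC) (hs : IsSurf k x y) (b : Fin 2 → ℕ) (u : Fin 2 → F) (θ : F)
    (hb : ∀ j, 0 < b j) (hu : ∀ j, u j ∈ L k x y (fun O => b j * H k x y O))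
    (hu0 : ∀ j, u j ≠ 0)
    (hθ : θ ∈ L k x y (fun O => ((b 0 * b 1 : ℕ) : ℤ) * H k x y O)) (hθ0 : θ ≠ 0) (M : ℕ)
    (α : Fin 3 → Fin 3 → F) (hα : ∀ l j, α l j ∈ L k x y (fun O => M * H k x y O))
    (hc : ∀ l, z x y l ^ (M + b 0 * b 1) =
      α l 0 * u 0 ^ b 1 + α l 1 * u 1 ^ b 0 + α l 2 * θ) (O : PP k x y) :
    ∃ j, ord O.1 (u j) + b j * H k x y O = 0 := by
  by_contra hcon
  push Not at hcon
  have hpos : ∀ j, 0 < ord O.1 (u j) + b j * H k x y O := by
    intro j
    have h1 := ord_ge (hu j) (hu0 j) O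
    have h2 := hcon j
    omega
  have hd : 0 < b 0 * b 1 := Nat.mul_pos (hb 0) (hb 1)
  obtain ⟨V, hVc, hVO, hV⟩ := hZER k F x y hs O (b 0 * b 1) hd θ hθ
  obtain ⟨⟨i, hi⟩, -⟩ := hCEN k F x y hs V hVc
  have hiO : chart k x y i ≤ O.1.toSubring := fun a ha => hVO (hi ha)
  have hz := z_ne hs i
  have hH : H k x y O = - ord O.1 (z x y i) := ((hHCH k F x y hs O).2.2 i).1 hiO
  -- membership in `V`
  have memV : ∀ (m : ℕ) (f : F), f ∈ L k x y (fun O => m * H k x y O) → f / z x y i ^ m ∈ V :=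
    fun m f hf => hi (((hSEC k F x y hs m f).1 hf) i)
  -- values
  have vle : ∀ f : F, f ∈ V → V.valuation f ≤ 1 := fun f hf => (V.valuation_le_one_iff f).2 hf
  have vlt : ∀ f : F, f ≠ 0 → f⁻¹ ∉ V → V.valuation f < 1 := by
    intro f hf0 hf
    have h1 : ¬ V.valuation f⁻¹ ≤ 1 := fun h => hf ((V.valuation_le_one_iff _).1 h)
    rw [map_inv₀, not_le] at h1
    exact (one_lt_inv₀ (by rw [zero_lt_iff, Ne, map_eq_zero]; exact hf0)).1 h1
  have hE : ∀ j, V.valuation (u j / z x y i ^ b j) < 1 := by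
    intro j
    have hne : u j / z x y i ^ b j ≠ 0 := div_ne_zero (hu0 j) (pow_ne_zero _ hz)
    refine vlt _ hne fun hmem => ?_
    have h1 : (u j / z x y i ^ b j)⁻¹ ∈ O.1 := hVO hmem
    rw [O.isOrd.mem _ (inv_ne_zero hne), O.isOrd.inv hne, div_eq_mul_inv,
      O.isOrd.mul _ _ (hu0 j) (inv_ne_zero (pow_ne_zero _ hz)),
      O.isOrd.inv (pow_ne_zero _ hz), O.isOrd.pow hz] at h1
    have h2 := hpos j
    rw [hH] at h2
    linarith
  have hθ' : V.valuation (θ / z x y i ^ (b 0 * b 1)) < 1 :=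
    vlt _ (div_ne_zero hθ0 (pow_ne_zero _ hz)) (hV i hi hθ0)
  have hα' : ∀ j, V.valuation (α i j / z x y i ^ M) ≤ 1 := fun j => vle _ (memV M _ (hα i j))
  have hsum : (1 : F) = α i 0 / z x y i ^ M * (u 0 / z x y i ^ b 0) ^ b 1 +
      α i 1 / z x y i ^ M * (u 1 / z x y i ^ b 1) ^ b 0 +
      α i 2 / z x y i ^ M * (θ / z x y i ^ (b 0 * b 1)) := by
    have h1 : z x y i ^ (M + b 0 * b 1) ≠ 0 := pow_ne_zero _ hz
    rw [div_pow, div_pow, ← pow_mul, ← pow_mul, Nat.mul_comm (b 1) (b 0), div_mul_div_comm,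
      div_mul_div_comm, div_mul_div_comm, ← pow_add, ← add_div, ← add_div, ← hc i, div_self h1]
  have key : ∀ a c : F, V.valuation a ≤ 1 → V.valuation c < 1 → V.valuation (a * c) < 1 := by
    intro a c ha hcc
    rw [map_mul]
    calc V.valuation a * V.valuation c ≤ 1 * V.valuation c := mul_le_mul_left ha _
      _ = V.valuation c := one_mul _
      _ < 1 := hcc
  have hp0 : V.valuation ((u 0 / z x y i ^ b 0) ^ b 1) < 1 := by
    rw [map_pow]
    exact pow_lt_one₀ zero_le (hE 0) (hb 1).ne'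
  have hp1 : V.valuation ((u 1 / z x y i ^ b 1) ^ b 0) < 1 := by
    rw [map_pow]
    exact pow_lt_one₀ zero_le (hE 1) (hb 0).ne'
  have hlt : V.valuation (1 : F) < 1 := by
    rw [hsum]
    exact V.valuation.map_add_lt (V.valuation.map_add_lt (key _ _ (hα' 0) hp0)
      (key _ _ (hα' 1) hp1)) (key _ _ (hα' 2) hθ')
  rw [map_one] at hlt
  exact lt_irrefl _ hlt

end

end LES_

open LES_ in
theorem LES_proof (hGUN : Stmt_GUN) (hRDL : Stmt_RDL) (hCRT : SRF.Stmt_CRT)
    (hZER : SRF.Stmt_ZER) (hCEN : SRF.Stmt_CEN) (hHCH : SRF.Stmt_HCH) (hSEC : SRF.Stmt_SEC)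
    (hBND : SRF.Stmt_BND) : Stmt_LES := by
  classical
  intro κ F _ _ _ _ x y w N A g hM E
  have hs := hM.surf
  have : Infinite κ := inferInstance
  obtain ⟨a, b, π, u, θ, hb, hπ, hu, hθ, hπ0, hu0, hθ0, hπE, huE, hle, M, α, hα, hc⟩ :=
    hCRT κ F x y hs E
  set t : ℕ := a 0 + a 1 + 1 with ht
  have ht0 : 0 < t := by omega
  have hcop := cop hZER hCEN hHCH hSEC hs b u θ hb hu hu0 hθ hθ0 M α hα hc
  have hH0 : ∀ O, 0 ≤ H κ x y O := fun O => (hHCH κ F x y hs O).1
  have hge : ∀ j O, 0 ≤ ord O.1 (u j) + b j * H κ x y O := by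
    intro j O
    have := ord_ge (hu j) (hu0 j) O
    linarith
  have hge' : ∀ j O, 0 ≤ ord O.1 (π j) + a j * H κ x y O := by
    intro j O
    have := ord_ge (hπ j) (hπ0 j) O
    linarith
  -- the powers of `u`
  have hut : ∀ j (O : PP κ x y), ord O.1 (u j ^ t) + ((t * b j : ℕ) : ℤ) * H κ x y O =
      t * (ord O.1 (u j) + b j * H κ x y O) := by
    intro j O
    rw [O.isOrd.pow (hu0 j)]
    push_cast
    ring
  have hut0 : ∀ j, u j ^ t ≠ 0 := fun j => pow_ne_zero _ (hu0 j)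
  have hutL : ∀ j, u j ^ t ∈ L κ x y (fun O => ((t * b j : ℕ) : ℤ) * H κ x y O) := by
    intro j
    right
    intro O
    have h1 := hut j O
    have h2 : (0 : ℤ) ≤ t * (ord O.1 (u j) + b j * H κ x y O) :=
      mul_nonneg (by positivity) (hge j O)
    linarith
  have hle' : ∀ j, a j ≤ t * b j := by
    intro j
    have h1 : a j ≤ t := by
      fin_cases j
      · simp only [Fin.zero_eta]; omega
      · simp only [Fin.mk_one]; omega
    calc a j ≤ t * 1 := by omega
      _ ≤ t * b j := Nat.mul_le_mul_left t (hb j)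
  have hLE : LE κ x y a (fun j => t * b j) π (fun j => u j ^ t) (dlt E) := by
    refine ⟨hπ0, hut0, hπ, hutL, hle', ?_, ?_, ?_, ?_⟩
    · intro O j
      unfold dlt
      split_ifs with h
      · subst h
        rw [hπE]
        linarith
      · exact hge' j O
    · intro O
      by_cases h : O = E
      · refine ⟨0, ?_⟩
        unfold dlt
        rw [if_pos h]
        subst h
        rw [hπE]
        ring
      · obtain ⟨j, hj⟩ := hcop O
        refine ⟨j, ?_⟩
        unfold dlt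
        rw [if_neg h]
        have h1 := hle j O h
        have h2 := hge' j O
        linarith
    · intro O j
      rw [hut]
      unfold dlt
      split_ifs with h
      · subst h
        rw [hπE, huE]
        simp
      · have h1 := hle j O h
        have h2 := hge j O
        have h3 : (1 : ℤ) ≤ t := by exact_mod_cast ht0
        nlinarith
    · intro O
      obtain ⟨j, hj⟩ := hcop O
      exact ⟨j, by rw [hut, hj, mul_zero]⟩
  refine ⟨a, fun j => t * b j, π, fun j => u j ^ t, hLE, a 0 * N ^ 2, ?_⟩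
  -- the good places
  obtain ⟨C, hC⟩ := hGUN κ F x y w N A g hM ((Finset.univ.image π ∪ Finset.univ.image u) ∪
    ({θ} ∪ Finset.univ.image fun p : Fin 3 × Fin 3 => α p.1 p.2))
  refine ⟨C, ?_⟩
  intro Ω _ P hP Fs _ _ xs ys ws hM' G
  have hs' := hM'.surf
  have hG := hC Ω P hP Fs xs ys ws hM' G
  have Uπ : ∀ j, G.U (π j) := fun j => hG _ (by simp) (hπ0 j)
  have Uu : ∀ j, G.U (u j) := fun j => hG _ (by simp) (hu0 j)
  have Uθ : G.U θ := hG _ (by simp) hθ0
  have Wα : ∀ l j, α l j ∈ G.W := by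
    intro l j
    by_cases h : α l j = 0
    · rw [h]; exact zero_mem _
    · refine (hG (α l j) ?_ h).2.1
      simp only [Finset.mem_union, Finset.mem_image, Finset.mem_univ, true_and,
        Finset.mem_singleton]
      exact Or.inr (Or.inr ⟨(l, j), rfl⟩)
  have Uut : ∀ j, G.U (u j ^ t) := fun j => (Uu j).pow t
  have hres : ∀ (q : ℤ) (f : F), f ∈ L κ x y (fun O => q * H κ x y O) → f ∈ G.W →
      G.res f ∈ L Ω xs ys (fun O => q * H Ω xs ys O) :=
    fun q f hf hW => hRDL κ Ω F Fs x y w xs ys ws P hs hs' G q f hf hW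
  have hzW : ∀ l, z x y l ∈ G.W ∧ G.res (z x y l) = z xs ys l := by
    intro l
    fin_cases l
    · exact ⟨one_mem _, Gau.res_one⟩
    · exact ⟨G.x_mem, Gau.res_x⟩
    · exact ⟨G.y_mem, Gau.res_y⟩
  have hcop' := cop hZER hCEN hHCH hSEC hs' b (fun j => G.res (u j)) (G.res θ) hb
    (fun j => hres _ _ (hu j) (Uu j).2.1) (fun j => (Uu j).res_ne)
    (hres _ _ hθ Uθ.2.1) Uθ.res_ne M (fun l j => G.res (α l j))
    (fun l j => hres _ _ (hα l j) (Wα l j)) (fun l => by
      have h1 := congrArg G.res (hc l)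
      have m0 := mul_mem (Wα l 0) (pow_mem (Uu 0).2.1 (b 1))
      have m1 := mul_mem (Wα l 1) (pow_mem (Uu 1).2.1 (b 0))
      have m2 := mul_mem (Wα l 2) Uθ.2.1
      rw [Gau.res_pow (hzW l).1, (hzW l).2, Gau.res_add (add_mem m0 m1) m2, Gau.res_add m0 m1,
        Gau.res_mul (Wα l 0) (pow_mem (Uu 0).2.1 (b 1)), Gau.res_pow (Uu 0).2.1,
        Gau.res_mul (Wα l 1) (pow_mem (Uu 1).2.1 (b 0)), Gau.res_pow (Uu 1).2.1,
        Gau.res_mul (Wα l 2) Uθ.2.1] at h1
      exact h1)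
  refine ⟨fun j => ⟨Uπ j, Uut j⟩, ?_, ?_⟩
  · have rπ : ∀ j, G.res (π j) ≠ 0 := fun j => (Uπ j).res_ne
    have ru : ∀ j, G.res (u j ^ t) ≠ 0 := fun j => (Uut j).res_ne
    have mu := fun j => hres _ _ (hutL j) (Uut j).2.1
    refine ⟨rπ, ru, fun j => hres _ _ (hπ j) (Uπ j).2.1, mu, hle', ?_, ?_, ?_, ?_⟩
    · intro O j
      unfold mn
      fin_cases j
      · exact min_le_left _ _
      · exact min_le_right _ _
    · intro O
      unfold mn
      rcases min_choice (ord O.1 (G.res (π 0)) + a 0 * H Ω xs ys O)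
        (ord O.1 (G.res (π 1)) + a 1 * H Ω xs ys O) with h | h
      · exact ⟨0, h⟩
      · exact ⟨1, h⟩
    · intro O j
      -- the quotients
      have hq : ∀ i, ord O.1 (G.res (π j)) + a j * H Ω xs ys O ≤
          ord O.1 (G.res (π i)) + a i * H Ω xs ys O +
            (ord O.1 (G.res (u j ^ t)) + ((t * b j : ℕ) : ℤ) * H Ω xs ys O) := by
        intro i
        have hfU : G.U (u j ^ t * (π i * (π j)⁻¹)) := (Uut j).mul ((Uπ i).mul (Uπ j).inv)
        have hfL : u j ^ t * (π i * (π j)⁻¹) ∈ L κ x y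
            (fun O => (((t * b j : ℕ) : ℤ) + a i - a j) * H κ x y O) := by
          right
          intro Q
          have h1 := hLE.quo Q j
          have h2 := hLE.low Q i
          rw [Q.isOrd.mul _ _ (hut0 j) (mul_ne_zero (hπ0 i) (inv_ne_zero (hπ0 j))),
            Q.isOrd.mul _ _ (hπ0 i) (inv_ne_zero (hπ0 j)), Q.isOrd.inv (hπ0 j)]
          nlinarith
        have h3 := ord_ge (hres _ _ hfL hfU.2.1) hfU.res_ne O
        rw [Gau.res_mul (Uut j).2.1 ((Uπ i).mul (Uπ j).inv).2.1,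
          Gau.res_mul (Uπ i).2.1 (Uπ j).inv.2.1, (Uπ j).res_inv,
          O.isOrd.mul _ _ (ru j) (mul_ne_zero (rπ i) (inv_ne_zero (rπ j))),
          O.isOrd.mul _ _ (rπ i) (inv_ne_zero (rπ j)), O.isOrd.inv (rπ j)] at h3
        nlinarith
      have h0 := hq 0
      have h1 := hq 1
      unfold mn
      rcases min_choice (ord O.1 (G.res (π 0)) + a 0 * H Ω xs ys O)
        (ord O.1 (G.res (π 1)) + a 1 * H Ω xs ys O) with h | h
      · rw [h]; exact h0
      · rw [h]; exact h1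
    · intro O
      obtain ⟨j, hj⟩ := hcop' O
      refine ⟨j, ?_⟩
      have h1 : ord O.1 (G.res (u j ^ t)) = t * ord O.1 (G.res (u j)) := by
        rw [Gau.res_pow (Uu j).2.1, O.isOrd.pow (Uu j).res_ne]
      rw [h1]
      push_cast
      have h2 : (t : ℤ) * (ord O.1 (G.res (u j)) + b j * H Ω xs ys O) = 0 := by
        rw [hj, mul_zero]
      linarith
  · intro O
    have h1 := hBND Ω Fs xs ys hs' (a 0) (G.res (π 0)) (hres _ _ (hπ 0) (Uπ 0).2.1)
      (Uπ 0).res_ne O
    rw [hM'.rank] at h1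
    have h2 : mn Ω xs ys a (fun j => G.res (π j)) O ≤
        ord O.1 (G.res (π 0)) + a 0 * H Ω xs ys O := min_le_left _ _
    push_cast
    exact h2.trans h1

end Pool.Agent.SPR
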