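import Pool.Agent.SPR.Stmts

/-!
# SPR, module MDL: every surface has a model
-/

set_option autoImplicit false

noncomputable section

namespace Pool.Agent.SPR

open Pool.Agent.SRF

namespace MDL_

theorem isAlgebraic_base {F : Type} [Field F] (R : Subring F) (K : Subfield F)
    (h1 : ∀ f ∈ R, f ∈ K) (h2 : ∀ f ∈ K, ∃ a ∈ R, ∃ b ∈ R, b ≠ 0 ∧ f = a / b) (f : F)
    (hf : IsAlgebraic K f) : IsAlgebraic R f := by
  let φ : R →+* K :=
    { toFun := fun x => ⟨x.1, h1 x.1 x.2⟩
      map_one' := rfl
      map_mul' := fun x y => rfl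
      map_zero' := rfl
      map_add' := fun x y => rfl }
  let _ : Algebra R K := φ.toAlgebra
  have _ : IsScalarTower R K F := IsScalarTower.of_algebraMap_eq fun x => rfl
  have _ : Algebra.IsAlgebraic R K := by
    refine ⟨fun g => ?_⟩
    obtain ⟨a, ha, b, hb, hb0, hg⟩ := h2 g.1 g.2
    refine ⟨Polynomial.C (⟨b, hb⟩ : R) * Polynomial.X - Polynomial.C (⟨a, ha⟩ : R), ?_, ?_⟩
    · intro h0
      have h3 := congrArg (fun q => Polynomial.coeff q 1) h0
      simp only [Polynomial.coeff_sub, Polynomial.coeff_C_mul, Polynomial.coeff_X_one,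
        Polynomial.coeff_C_succ, Polynomial.coeff_zero, mul_one, sub_zero] at h3
      exact hb0 (congrArg Subtype.val h3)
    · rw [map_sub, map_mul, Polynomial.aeval_C, Polynomial.aeval_C, Polynomial.aeval_X]
      apply Subtype.ext
      show b * g.1 - a = 0
      rw [hg]
      field_simp
      ring
  exact hf.restrictScalars R

open Polynomial in
/-- the coefficients of the minimal polynomial of an element integral over a chart of the plane -/
lemma coeff_mem (hBAS : SRF.Stmt_BAS) {k F : Type} [Field k] [Field F] [Algebra k F] {x y : F}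
    (hS : IsSurf k x y) (i : Fin 3) {g : F} (hg : IsIntegral (base k x y i) g) (j : ℕ) :
    (((minpoly (IntermediateField.adjoin k {x, y}) g).coeff j : IntermediateField.adjoin k {x, y})
      : F) ∈ base k x y i := by
  obtain ⟨⟨e⟩, h1, h2⟩ := hBAS k F x y hS i
  let K' := IntermediateField.adjoin k {x, y}
  have hle : base k x y i ≤ K'.toSubalgebra := fun f hf => h1 f hf
  let _ : Algebra (base k x y i) K' := (Subalgebra.inclusion hle).toRingHom.toAlgebra
  have _ : IsScalarTower (base k x y i) K' F := IsScalarTower.of_algebraMap_eq (fun _ => rfl)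
  have hinj : Function.Injective (algebraMap (base k x y i) K') := by
    intro a b hab
    apply Subtype.ext
    exact congrArg (fun z : K' => (z : F)) hab
  have _ : FaithfulSMul (base k x y i) K' :=
    (faithfulSMul_iff_algebraMap_injective _ _).2 hinj
  have _ : IsFractionRing (base k x y i) K' := by
    refine IsFractionRing.of_field (base k x y i) K' (fun z => ?_)
    obtain ⟨a, ha, b, hb, hb0, hz⟩ := h2 (z : F) z.2
    refine ⟨⟨a, ha⟩, ⟨b, hb⟩, ?_⟩
    apply Subtype.ext
    exact hz
  have _ : IsIntegrallyClosed (base k x y i) := IsIntegrallyClosed.of_equiv e.toRingEquiv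
  have h3 := minpoly.isIntegrallyClosed_eq_field_fractions' K' hg
  change (((minpoly K' g).coeff j : K') : F) ∈ base k x y i
  rw [h3, coeff_map]
  exact ((minpoly (base k x y i) g).coeff j).2

lemma base_zero {k F : Type} [Field k] [Field F] [Algebra k F] {x y : F} {e : F}
    (he : e ∈ base k x y 0) : ∃ c : MvPolynomial (Fin 2) k, MvPolynomial.aeval ![x, y] c = e := by
  unfold base at he
  rw [Algebra.adjoin_range_eq_range_aeval] at he
  obtain ⟨Q, rfl⟩ := he
  refine ⟨MvPolynomial.aeval ![1, MvPolynomial.X 0, MvPolynomial.X 1] Q, ?_⟩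
  rw [← AlgHom.comp_apply, MvPolynomial.comp_aeval]
  congr 1
  apply congrArg
  funext j
  fin_cases j <;> simp [z]

end MDL_

open MDL_ in
theorem MDL_proof (hBAS : SRF.Stmt_BAS) : Stmt_MDL := by
  classical
  intro κ F _ _ _ x y hS
  have hfin := hS.fin
  have hsep := hS.sep
  obtain ⟨w₀, hw₀⟩ := Field.exists_primitive_element (IntermediateField.adjoin κ {x, y}) F
  obtain ⟨-, h1, h2⟩ := hBAS κ F x y hS 0
  have hw₀' : IsAlgebraic (base κ x y 0) w₀ :=
    isAlgebraic_base (base κ x y 0).toSubring (IntermediateField.adjoin κ {x, y}).toSubfield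
      h1 h2 w₀ (Algebra.IsAlgebraic.isAlgebraic (R := IntermediateField.adjoin κ {x, y}) w₀)
  obtain ⟨b, hb0, hb⟩ := hw₀'.exists_integral_multiple
  have hb0' : (b : F) ≠ 0 := fun h => hb0 (Subtype.ext h)
  obtain ⟨w, hw⟩ : ∃ w : F, w = (b : F) * w₀ := ⟨_, rfl⟩
  have hwint : IsIntegral (base κ x y 0) w := by rw [hw]; exact hb
  have hgen : IntermediateField.adjoin (IntermediateField.adjoin κ {x, y}) {w} = ⊤ := by
    rw [eq_top_iff, ← hw₀, IntermediateField.adjoin_simple_le_iff]
    have h3 : w₀ = w * ((b : F))⁻¹ := by rw [hw]; field_simp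
    rw [h3]
    refine mul_mem (IntermediateField.mem_adjoin_simple_self _ w) (inv_mem ?_)
    have h4 := (IntermediateField.adjoin (IntermediateField.adjoin κ {x, y}) {w}).algebraMap_mem
      ⟨(b : F), h1 _ b.2⟩
    exact h4
  have hdeg : (minpoly (IntermediateField.adjoin κ {x, y}) w).natDegree =
      Module.finrank (IntermediateField.adjoin κ {x, y}) F :=
    (Field.primitive_element_iff_minpoly_natDegree_eq _ w).1 hgen
  obtain ⟨N, hN⟩ : ∃ N, Module.finrank (IntermediateField.adjoin κ {x, y}) F = N := ⟨_, rfl⟩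
  have hmonic : (minpoly (IntermediateField.adjoin κ {x, y}) w).Monic :=
    minpoly.monic (Algebra.IsIntegral.isIntegral w)
  choose c hc using fun j => base_zero (coeff_mem hBAS hS 0 hwint j)
  -- the polynomial
  let p : Polynomial (MvPolynomial (Fin 2) κ) :=
    ∑ j ∈ Finset.range N, Polynomial.monomial j (c j)
  have hpc : ∀ m, p.coeff m = if m < N then c m else 0 := by
    intro m
    simp only [p, Polynomial.finsetSum_coeff, Polynomial.coeff_monomial]
    rw [Finset.sum_ite_eq']
    simp only [Finset.mem_range]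
  have hpd : p.degree < N := by
    rw [Polynomial.degree_lt_iff_coeff_zero]
    intro m hm
    rw [hpc, if_neg (by omega)]
  have hgc : ∀ m, (Polynomial.X ^ N + p).coeff m =
      if m = N then 1 else if m < N then c m else 0 := by
    intro m
    rw [Polynomial.coeff_add, Polynomial.coeff_X_pow, hpc]
    by_cases h : m = N
    · rw [if_pos h, if_pos h, if_neg (by omega), add_zero]
    · rw [if_neg h, if_neg h, zero_add]
  have hval : ∀ m ≤ N, MvPolynomial.aeval ![x, y] ((Polynomial.X ^ N + p).coeff m) =
      (((minpoly (IntermediateField.adjoin κ {x, y}) w).coeff m :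
        IntermediateField.adjoin κ {x, y}) : F) := by
    intro m hm
    rw [hgc]
    by_cases h : m = N
    · rw [if_pos h, map_one, h, ← hN, ← hdeg, hmonic.coeff_natDegree]
      rfl
    · rw [if_neg h, if_pos (by omega), hc]
  refine ⟨w, N, ∑ j ∈ Finset.range N, (c j).totalDegree, Polynomial.X ^ N + p, hS,
    Polynomial.monic_X_pow_add hpd, ?_, hN, ?_, ?_, hgen⟩
  · apply Polynomial.natDegree_eq_of_degree_eq_some
    rw [Polynomial.degree_add_eq_left_of_degree_lt]
    · exact Polynomial.degree_X_pow N
    · rw [Polynomial.degree_X_pow]; exact hpd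
  · intro j hj
    rw [hgc]
    by_cases h : j = N
    · rw [if_pos h, MvPolynomial.totalDegree_one]; exact Nat.zero_le _
    · rw [if_neg h, if_pos (by omega)]
      have h3 : (c j).totalDegree ≤ ∑ j ∈ Finset.range N, (c j).totalDegree :=
        Finset.single_le_sum (f := fun j => (c j).totalDegree) (fun _ _ => Nat.zero_le _)
          (Finset.mem_range.2 (by omega))
      exact h3.trans (Nat.le_mul_of_pos_right _ (by omega))
  · have h3 := minpoly.aeval (IntermediateField.adjoin κ {x, y}) w
    rw [Polynomial.aeval_eq_sum_range, hdeg, hN] at h3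
    rw [← h3]
    refine Finset.sum_congr rfl fun j hj => ?_
    rw [hval j (by rw [Finset.mem_range] at hj; omega)]
    rfl

end Pool.Agent.SPR
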