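import Pool.Agent.SPR.Stmts

/-! The equation of a model is irreducible and separable. -/

set_option autoImplicit false

noncomputable section

namespace Pool.Agent.SPR

open Pool.Agent.SRF

namespace MIR_

variable {κ F : Type} [Field κ] [Field F] [Algebra κ F]

theorem mem_adj (x y : F) (p : MvPolynomial (Fin 2) κ) :
    MvPolynomial.aeval ![x, y] p ∈ IntermediateField.adjoin κ {x, y} := by
  induction p using MvPolynomial.induction_on with
  | C c =>
    rw [MvPolynomial.aeval_C]
    exact (IntermediateField.adjoin κ {x, y}).algebraMap_mem c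
  | add p q hp hq =>
    rw [map_add]
    exact add_mem hp hq
  | mul_X p i hp =>
    rw [map_mul, MvPolynomial.aeval_X]
    refine mul_mem hp ?_
    fin_cases i
    · exact IntermediateField.subset_adjoin κ {x, y} (by simp)
    · exact IntermediateField.subset_adjoin κ {x, y} (by simp)

/-- polynomials as elements of the subfield -/
def ph (x y : F) : MvPolynomial (Fin 2) κ →+* IntermediateField.adjoin κ {x, y} :=
  RingHom.codRestrict (MvPolynomial.aeval ![x, y] : MvPolynomial (Fin 2) κ →ₐ[κ] F).toRingHom
    (IntermediateField.adjoin κ {x, y}) (mem_adj x y)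

theorem ph_coe (x y : F) (p : MvPolynomial (Fin 2) κ) :
    ((ph x y p : IntermediateField.adjoin κ {x, y}) : F) = MvPolynomial.aeval ![x, y] p := rfl

theorem ph_inj {x y : F} (h : IsSurf κ x y) : Function.Injective (ph (κ := κ) x y) := by
  intro p q hpq
  have h1 := congrArg (fun z : IntermediateField.adjoin κ {x, y} => (z : F)) hpq
  exact h.indep h1

end MIR_

open MIR_ in
theorem MIR_proof : Stmt_MIR := by
  intro κ F _ _ _ x y w N a g M
  have hfin : FiniteDimensional (IntermediateField.adjoin κ {x, y}) F := M.surf.fin
  have hsep : Algebra.IsSeparable (IntermediateField.adjoin κ {x, y}) F := M.surf.sep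
  have hN : 0 < N := by
    rw [← M.rank]
    exact Module.finrank_pos
  have hmon : (g.map (ph x y)).Monic := M.monic.map _
  have hdeg : (g.map (ph x y)).natDegree = N := by
    rw [M.monic.natDegree_map]
    exact M.deg
  have hroot : Polynomial.aeval w (g.map (ph x y)) = 0 := by
    rw [Polynomial.aeval_eq_sum_range, hdeg, ← M.root]
    refine Finset.sum_congr rfl fun j _ => ?_
    rw [Polynomial.coeff_map, Algebra.smul_def]
    rfl
  have hint : IsIntegral (IntermediateField.adjoin κ {x, y}) w := ⟨_, hmon, hroot⟩
  have hmin : (minpoly (IntermediateField.adjoin κ {x, y}) w).natDegree = N := by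
    rw [← IntermediateField.adjoin.finrank hint, M.gen, IntermediateField.finrank_top', M.rank]
  have heq : g.map (ph x y) = minpoly (IntermediateField.adjoin κ {x, y}) w := by
    have h2 := Polynomial.eq_of_monic_of_dvd_of_natDegree_le (minpoly.monic hint) hmon
      (minpoly.dvd _ _ hroot) (by rw [hdeg, hmin])
    exact h2
  have hirr : Irreducible (g.map (ph x y)) := by
    rw [heq]
    exact minpoly.irreducible hint
  refine ⟨hN, Polynomial.Monic.irreducible_of_irreducible_map (ph x y) g M.monic hirr, ?_⟩
  intro hd
  have h1 : (minpoly (IntermediateField.adjoin κ {x, y}) w).Separable :=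
    Algebra.IsSeparable.isSeparable _ w
  rw [← heq, Polynomial.separable_iff_derivative_ne_zero hirr, Polynomial.derivative_map, hd,
    Polynomial.map_zero] at h1
  exact h1 rfl

end Pool.Agent.SPR
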