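import Pool.Agent.SPR.Stmts

/-!
# Module MUL: sections of combinations of effective divisors in terms of the local equations
-/

set_option autoImplicit false

noncomputable section

namespace Pool.Agent.SPR

open Pool.Agent.SRF

namespace MUL_

variable {F : Type} [Field F]

theorem ord_prod {O : ValuationSubring F} {v : F → ℤ} (h : IsOrd O v) {ι : Type} (s : Finset ι)
    (g : ι → F) (hg : ∀ i, g i ≠ 0) : v (∏ i ∈ s, g i) = ∑ i ∈ s, v (g i) := by
  classical
  induction s using Finset.induction_on with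
  | empty => simp [h.one]
  | insert i s hi ih =>
    rw [Finset.prod_insert hi, Finset.sum_insert hi,
      h.mul _ _ (hg i) (Finset.prod_ne_zero_iff.2 fun j _ => hg j), ih]

theorem mul1_ne {π u : Fin 2 → F} (d : ℤ) (j : Fin 2) (hπ : π j ≠ 0) (hu : u j ≠ 0) :
    mul1 π u d j ≠ 0 := by
  unfold mul1
  exact mul_ne_zero (pow_ne_zero _ hπ) (pow_ne_zero _ (div_ne_zero hu hπ))

theorem ord_mul1 {O : ValuationSubring F} {v : F → ℤ} (h : IsOrd O v) {π u : Fin 2 → F} (d : ℤ)
    (j : Fin 2) (hπ : π j ≠ 0) (hu : u j ≠ 0) : v (mul1 π u d j) =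
      d.toNat * v (π j) + (-d).toNat * (v (u j) - v (π j)) := by
  unfold mul1
  rw [h.mul _ _ (pow_ne_zero _ hπ) (pow_ne_zero _ (div_ne_zero hu hπ)), h.pow hπ,
    h.pow (div_ne_zero hu hπ), div_eq_mul_inv, h.mul _ _ hu (inv_ne_zero hπ), h.inv hπ]
  ring

end MUL_

theorem MUL_proof : Stmt_MUL := by
  intro k F _ _ _ x y ι _ a b π u D hLE d h f
  by_cases hf : f = 0
  · subst hf
    simp only [zero_mul]
    exact ⟨fun _ _ => Submodule.zero_mem _, fun _ => Submodule.zero_mem _⟩
  have hm : ∀ (j : ι → Fin 2) i, mul1 (π i) (u i) (d i) (j i) ≠ 0 := fun j i =>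
    MUL_.mul1_ne _ _ ((hLE i).pi_ne _) ((hLE i).u_ne _)
  have hp : ∀ j : ι → Fin 2, ∏ i, mul1 (π i) (u i) (d i) (j i) ≠ 0 := fun j =>
    Finset.prod_ne_zero_iff.2 fun i _ => hm j i
  have hord : ∀ (j : ι → Fin 2) (O : PP k x y),
      ord O.1 (f * ∏ i, mul1 (π i) (u i) (d i) (j i)) =
        ord O.1 f + ∑ i, ord O.1 (mul1 (π i) (u i) (d i) (j i)) := by
    intro j O
    rw [O.isOrd.mul _ _ hf (hp j), MUL_.ord_prod O.isOrd _ _ (hm j)]
  have hμ : ∀ (j : ι → Fin 2) (O : PP k x y) i, ord O.1 (mul1 (π i) (u i) (d i) (j i)) +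
      ((deg1 (a i) (b i) (d i) (j i) : ℕ) : ℤ) * H k x y O =
      (d i).toNat * (ord O.1 (π i (j i)) + a i (j i) * H k x y O) +
      (-(d i)).toNat * ((ord O.1 (u i (j i)) + b i (j i) * H k x y O) -
        (ord O.1 (π i (j i)) + a i (j i) * H k x y O)) := by
    intro j O i
    rw [MUL_.ord_mul1 O.isOrd _ _ ((hLE i).pi_ne _) ((hLE i).u_ne _)]
    unfold deg1
    push_cast [Nat.cast_sub ((hLE i).le (j i))]
    ring
  have hH : ∀ O : PP k x y, 0 ≤ H k x y O := fun O => le_max_left _ _
  constructor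
  · intro h1 j
    have h2 := ((mem_L k x y).1 h1).resolve_left hf
    refine (mem_L k x y).2 (Or.inr fun O => ?_)
    rw [hord j O]
    have h3 : -(∑ i, d i * D i O + h * H k x y O) ≤ ord O.1 f := h2 O
    have h4 : ∑ i, d i * D i O ≤ ∑ i, (ord O.1 (mul1 (π i) (u i) (d i) (j i)) +
        ((deg1 (a i) (b i) (d i) (j i) : ℕ) : ℤ) * H k x y O) := by
      refine Finset.sum_le_sum fun i _ => ?_
      rw [hμ]
      have hlow := (hLE i).low O (j i)
      have hquo := (hLE i).quo O (j i)
      rcases le_total 0 (d i) with hd | hd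
      · have e1 : ((d i).toNat : ℤ) = d i := Int.toNat_of_nonneg hd
        have e2 : (-(d i)).toNat = 0 := Int.toNat_of_nonpos (by linarith)
        rw [e1, e2]
        push_cast
        nlinarith
      · have e1 : ((-(d i)).toNat : ℤ) = -(d i) := Int.toNat_of_nonneg (by linarith)
        have e2 : (d i).toNat = 0 := Int.toNat_of_nonpos hd
        rw [e1, e2]
        push_cast
        nlinarith
    rw [Finset.sum_add_distrib, ← Finset.sum_mul] at h4
    push_cast at h4 ⊢
    linarith
  · intro h1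
    refine (mem_L k x y).2 (Or.inr fun O => ?_)
    have hj : ∀ i, ∃ j : Fin 2, (d i).toNat * (ord O.1 (π i j) + a i j * H k x y O) +
      (-(d i)).toNat * ((ord O.1 (u i j) + b i j * H k x y O) -
        (ord O.1 (π i j) + a i j * H k x y O)) ≤ d i * D i O := by
      intro i
      rcases le_total 0 (d i) with hd | hd
      · have e1 : ((d i).toNat : ℤ) = d i := Int.toNat_of_nonneg hd
        have e2 : (-(d i)).toNat = 0 := Int.toNat_of_nonpos (by linarith)
        obtain ⟨j, hj⟩ := (hLE i).att O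
        refine ⟨j, ?_⟩
        rw [e1, e2, ← hj]
        push_cast
        linarith
      · have e1 : ((-(d i)).toNat : ℤ) = -(d i) := Int.toNat_of_nonneg (by linarith)
        have e2 : (d i).toNat = 0 := Int.toNat_of_nonpos hd
        obtain ⟨j, hj⟩ := (hLE i).cop O
        refine ⟨j, ?_⟩
        have hlow := (hLE i).low O j
        rw [e1, e2, hj]
        push_cast
        nlinarith
    choose j hj using hj
    have h2 := ((mem_L k x y).1 (h1 j)).resolve_left (mul_ne_zero hf (hp j)) O
    rw [hord j O] at h2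
    have h4 : ∑ i, (ord O.1 (mul1 (π i) (u i) (d i) (j i)) +
        ((deg1 (a i) (b i) (d i) (j i) : ℕ) : ℤ) * H k x y O) ≤ ∑ i, d i * D i O := by
      refine Finset.sum_le_sum fun i _ => ?_
      rw [hμ]
      exact hj i
    rw [Finset.sum_add_distrib, ← Finset.sum_mul] at h4
    push_cast at h2 h4 ⊢
    linarith

end Pool.Agent.SPR
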