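import Pool.Agent.SPR.Stmts

/-!
# SPR / NCS: different prime divisors specialise to divisors without common component
-/

set_option autoImplicit false

noncomputable section

namespace Pool.Agent.SPR

open Pool.Agent.SRF

namespace NCS_

lemma vlt {F : Type} [Field F] (V : ValuationSubring F) (a : F) (h0 : a ≠ 0) (h : a⁻¹ ∉ V) :
    V.valuation a < 1 := by
  rw [← ValuationSubring.valuation_le_one_iff, not_le, map_inv₀] at h
  exact (one_lt_inv₀ ((zero_lt_iff).2 ((Valuation.ne_zero_iff _).2 h0))).1 h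

lemma vmul {F : Type} [Field F] (V : ValuationSubring F) (c a : F) (hc : c ∈ V)
    (ha : V.valuation a < 1) : V.valuation (c * a) < 1 := by
  rw [map_mul]
  calc V.valuation c * V.valuation a ≤ 1 * V.valuation a :=
        mul_le_mul' ((V.valuation_le_one_iff c).2 hc) le_rfl
    _ < 1 := by rw [one_mul]; exact ha

lemma no3 {F : Type} [Field F] (V : ValuationSubring F) (a b c : F) (ha : V.valuation a < 1)
    (hb : V.valuation b < 1) (hc : V.valuation c < 1) : a + b + c ≠ 1 := by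
  intro h
  have h1 : V.valuation (a + b + c) < 1 :=
    lt_of_le_of_lt (Valuation.map_add _ _ _) (max_lt
      (lt_of_le_of_lt (Valuation.map_add _ _ _) (max_lt ha hb)) hc)
  rw [h, map_one] at h1
  exact lt_irrefl _ h1

lemma z_ne {k F : Type} [Field k] [Field F] [Algebra k F] {x y : F} (h : IsSurf k x y)
    (i : Fin 3) : z x y i ≠ 0 := by
  have h1 := h.indep.ne_zero
  fin_cases i
  · exact one_ne_zero
  · exact h1 0
  · exact h1 1

end NCS_

open NCS_ in
theorem NCS_proof (hGUN : Stmt_GUN) (hFWD : Stmt_FWD) (hNCC : SRF.Stmt_NCC)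
    (hZER : SRF.Stmt_ZER) (hCEN : SRF.Stmt_CEN) (hHCH : SRF.Stmt_HCH) (hSEC : SRF.Stmt_SEC) :
    Stmt_NCS := by
  classical
  intro κ F _ _ _ _ x y w N A g hM E E' hEE a b a' b' π u π' u' hE hE'
  have : Infinite κ := IsAlgClosed.instInfinite
  obtain ⟨d, f, g', θ, hd, hf0, hg0, hθ0, hf, hg, hθ, hfE, hgE, M, α, hα, hz⟩ :=
    hNCC κ F x y hM.surf E E' hEE
  obtain ⟨C, hC⟩ := hGUN κ F x y w N A g hM
    (insert f (insert g' (insert θ ((Finset.univ.image (fun p : Fin 3 × Fin 3 => α p.1 p.2)) ∪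
      (Finset.univ.image π ∪ Finset.univ.image u ∪ (Finset.univ.image π' ∪
        Finset.univ.image u'))))))
  refine ⟨C, ?_⟩
  intro Ω _ P hP Fs _ _ xs ys ws hMs G hL hL' O hO
  have hU := hC Ω P hP Fs xs ys ws hMs G
  have hUf : G.U f := hU f (by simp) hf0
  have hUg : G.U g' := hU g' (by simp) hg0
  have hUθ : G.U θ := hU θ (by simp) hθ0
  have hUπ : ∀ j, G.U (π j) := fun j => hU (π j) (by simp) (hE.pi_ne j)
  have hUu : ∀ j, G.U (u j) := fun j => hU (u j) (by simp) (hE.u_ne j)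
  have hUπ' : ∀ j, G.U (π' j) := fun j => hU (π' j) (by simp) (hE'.pi_ne j)
  have hUu' : ∀ j, G.U (u' j) := fun j => hU (u' j) (by simp) (hE'.u_ne j)
  have hαW : ∀ l j, α l j ∈ G.W := by
    intro l j
    by_cases h0 : α l j = 0
    · rw [h0]; exact zero_mem _
    · have hm : α l j ∈ (insert f (insert g' (insert θ ((Finset.univ.image
          (fun p : Fin 3 × Fin 3 => α p.1 p.2)) ∪
          (Finset.univ.image π ∪ Finset.univ.image u ∪ (Finset.univ.image π' ∪
            Finset.univ.image u')))))) := by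
        refine Finset.mem_insert_of_mem (Finset.mem_insert_of_mem (Finset.mem_insert_of_mem
          (Finset.mem_union_left _ (Finset.mem_image.2 ⟨(l, j), Finset.mem_univ _, rfl⟩))))
      exact (hU (α l j) hm h0).2.1
  -- specialisation of sections
  have hS : ∀ (d : ℤ) (h : ℤ) (f : F), f ∈ L κ x y (fun O => d * dlt E O + h * H κ x y O) →
      f ∈ G.W → G.res f ∈ L Ω xs ys (fun O => d * mn Ω xs ys a (fun j => G.res (π j)) O +
        h * H Ω xs ys O) := by
    intro d h f hf hfW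
    have h1 := hFWD κ Ω F Fs x y w xs ys ws P hM.surf hMs.surf G Unit (fun _ => a) (fun _ => b)
      (fun _ => π) (fun _ => u) (fun _ => dlt E) (fun _ => mn Ω xs ys a (fun j => G.res (π j)))
      (fun _ => hE) (fun _ j => ⟨hUπ j, hUu j⟩) (fun _ => hL) (fun _ => d) h f
      (by simpa using hf) hfW
    simpa using h1
  have hS' : ∀ (d : ℤ) (h : ℤ) (f : F), f ∈ L κ x y (fun O => d * dlt E' O + h * H κ x y O) →
      f ∈ G.W → G.res f ∈ L Ω xs ys (fun O => d * mn Ω xs ys a' (fun j => G.res (π' j)) O +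
        h * H Ω xs ys O) := by
    intro d h f hf hfW
    have h1 := hFWD κ Ω F Fs x y w xs ys ws P hM.surf hMs.surf G Unit (fun _ => a') (fun _ => b')
      (fun _ => π') (fun _ => u') (fun _ => dlt E')
      (fun _ => mn Ω xs ys a' (fun j => G.res (π' j)))
      (fun _ => hE') (fun _ j => ⟨hUπ' j, hUu' j⟩) (fun _ => hL') (fun _ => d) h f
      (by simpa using hf) hfW
    simpa using h1
  have hS0 : ∀ (h : ℕ) (f : F), f ∈ L κ x y (fun O => h * H κ x y O) → f ∈ G.W →
      G.res f ∈ L Ω xs ys (fun O => h * H Ω xs ys O) := by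
    intro h f hf hfW
    have h1 := hS 0 h f (by simpa using hf) hfW
    simpa using h1
  have hfm : G.res f ∈ L Ω xs ys (fun O => (-1) * mn Ω xs ys a (fun j => G.res (π j)) O +
        (d : ℤ) * H Ω xs ys O) := by
    apply hS _ _ _ _ hUf.2.1
    right
    intro O
    change -((-1) * dlt E O + (d : ℤ) * H κ x y O) ≤ ord O.1 f
    by_cases h : O = E
    · have h1 : dlt E O = 1 := by unfold dlt; rw [if_pos h]
      rw [h1, h]
      linarith
    · have h1 : dlt E O = 0 := by unfold dlt; rw [if_neg h]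
      rw [h1]
      have := hf.resolve_left hf0 O
      linarith
  have hgm : G.res g' ∈ L Ω xs ys (fun O => (-1) * mn Ω xs ys a' (fun j => G.res (π' j)) O +
        (d : ℤ) * H Ω xs ys O) := by
    apply hS' _ _ _ _ hUg.2.1
    right
    intro O
    change -((-1) * dlt E' O + (d : ℤ) * H κ x y O) ≤ ord O.1 g'
    by_cases h : O = E'
    · have h1 : dlt E' O = 1 := by unfold dlt; rw [if_pos h]
      rw [h1, h]
      linarith
    · have h1 : dlt E' O = 0 := by unfold dlt; rw [if_neg h]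
      rw [h1]
      have := hg.resolve_left hg0 O
      linarith
  have hf1 : 1 ≤ ord O.1 (G.res f) + d * H Ω xs ys O := by
    have := hfm.resolve_left hUf.res_ne O
    have h1 := hO.1
    linarith
  have hg1 : 1 ≤ ord O.1 (G.res g') + d * H Ω xs ys O := by
    have := hgm.resolve_left hUg.res_ne O
    have h1 := hO.2
    linarith
  obtain ⟨V, hVc, hVO, hVθ⟩ := hZER Ω Fs xs ys hMs.surf O d hd (G.res θ) (hS0 d θ hθ hUθ.2.1)
  obtain ⟨i, hi⟩ := (hCEN Ω Fs xs ys hMs.surf V hVc).1
  have hzi := z_ne hMs.surf i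
  have hiO : chart Ω xs ys i ≤ O.1.toSubring := le_trans hi hVO
  have hordz := ((hHCH Ω Fs xs ys hMs.surf O).2.2 i).1 hiO
  have hzW : ∀ i, z x y i ∈ G.W := by
    intro i
    fin_cases i
    · exact one_mem _
    · exact G.x_mem
    · exact G.y_mem
  have hzres : G.res (z x y i) = z xs ys i := by
    fin_cases i
    · exact Gau.res_one
    · exact Gau.res_x
    · exact Gau.res_y
  have heq := congrArg G.res (hz i)
  rw [Gau.res_pow (hzW i), hzres, Gau.res_add (add_mem (mul_mem (hαW i 0) hUf.2.1)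
    (mul_mem (hαW i 1) hUg.2.1)) (mul_mem (hαW i 2) hUθ.2.1),
    Gau.res_add (mul_mem (hαW i 0) hUf.2.1) (mul_mem (hαW i 1) hUg.2.1),
    Gau.res_mul (hαW i 0) hUf.2.1, Gau.res_mul (hαW i 1) hUg.2.1,
    Gau.res_mul (hαW i 2) hUθ.2.1] at heq
  have hone : G.res (α i 0) / z xs ys i ^ M * (G.res f / z xs ys i ^ d) +
      G.res (α i 1) / z xs ys i ^ M * (G.res g' / z xs ys i ^ d) +
      G.res (α i 2) / z xs ys i ^ M * (G.res θ / z xs ys i ^ d) = 1 := by
    rw [div_mul_div_comm, div_mul_div_comm, div_mul_div_comm, ← pow_add, ← add_div, ← add_div,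
      ← heq]
    exact div_self (pow_ne_zero _ hzi)
  have hαV : ∀ j, G.res (α i j) / z xs ys i ^ M ∈ V := fun j =>
    hi ((hSEC Ω Fs xs ys hMs.surf M (G.res (α i j))).1 (hS0 M _ (hα i j) (hαW i j)) i)
  have hnu : ∀ q : Fs, q ≠ 0 → 1 ≤ ord O.1 q + d * H Ω xs ys O →
      V.valuation (q / z xs ys i ^ d) < 1 := by
    intro q hq0 hq
    have hqz : q / z xs ys i ^ d ≠ 0 := div_ne_zero hq0 (pow_ne_zero _ hzi)
    apply vlt V _ hqz
    intro hmem
    have h1 := (O.isOrd.mem _ (inv_ne_zero hqz)).1 (hVO hmem)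
    rw [O.isOrd.inv hqz, div_eq_mul_inv, O.isOrd.mul _ _ hq0 (inv_ne_zero (pow_ne_zero _ hzi)),
      O.isOrd.inv (pow_ne_zero _ hzi), O.isOrd.pow hzi] at h1
    rw [hordz] at hq
    linarith
  exact no3 V _ _ _ (vmul V _ _ (hαV 0) (hnu _ hUf.res_ne hf1))
    (vmul V _ _ (hαV 1) (hnu _ hUg.res_ne hg1))
    (vmul V _ _ (hαV 2) (vlt V _ (div_ne_zero hUθ.res_ne (pow_ne_zero _ hzi))
      (hVθ i hi hUθ.res_ne))) hone

end Pool.Agent.SPR
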