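import Pool.Agent.SPR.Stmts

/-!
# Certificates of the Nullstellensatz specialise
-/

set_option autoImplicit false

noncomputable section

namespace Pool.Agent.SPR

open Pool.Agent.SRF

namespace NSC_

open MvPolynomial

/-- A polynomial with integral coefficients lifts to the valuation ring. -/
theorem lift {κ Ω : Type} [Field κ] [Field Ω] (P : Plc κ Ω) {σ : Type} (f : MvPolynomial σ κ)
    (hf : ∀ m, f.coeff m ∈ P.O) : ∃ f' : MvPolynomial σ P.O,
      MvPolynomial.map P.O.subtype f' = f ∧ MvPolynomial.map P.r f' = P.mv f := by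
  classical
  refine ⟨∑ m ∈ f.support, monomial m (⟨f.coeff m, hf m⟩ : P.O), ?_, ?_⟩
  · rw [map_sum]
    conv_rhs => rw [f.as_sum]
    refine Finset.sum_congr rfl fun m _ => ?_
    rw [map_monomial]
    rfl
  · rw [map_sum]
    unfold Plc.mv
    refine Finset.sum_congr rfl fun m _ => ?_
    rw [map_monomial, Plc.res_of_mem (hf m)]

/-- The Nullstellensatz in terms of certificates. -/
theorem cert {κ : Type} [Field κ] [IsAlgClosed κ] {σ : Type} [Finite σ]
    (S : Finset (MvPolynomial σ κ)) (h : ¬ ∃ u : σ → κ, ∀ f ∈ S, MvPolynomial.eval u f = 0) :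
    ∃ A : MvPolynomial σ κ → MvPolynomial σ κ, ∑ f ∈ S, A f * f = 1 := by
  have h1 : Ideal.span (S : Set (MvPolynomial σ κ)) = ⊤ := by
    have h2 := vanishingIdeal_zeroLocus_eq_radical (K := κ) (Ideal.span (S : Set (MvPolynomial σ κ)))
    have h3 : zeroLocus κ (Ideal.span (S : Set (MvPolynomial σ κ))) = ∅ := by
      rw [zeroLocus_span]
      ext u
      simp only [Set.mem_setOf_eq, Set.mem_empty_iff_false, iff_false]
      intro hu
      refine h ⟨u, fun f hf => ?_⟩
      have := hu f hf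
      rwa [aeval_eq_eval] at this
    rw [h3, vanishingIdeal_empty] at h2
    exact Ideal.radical_eq_top.mp h2.symm
  have h4 : (1 : MvPolynomial σ κ) ∈ Ideal.span (S : Set (MvPolynomial σ κ)) := by
    rw [h1]; trivial
  obtain ⟨A, hA⟩ := Submodule.mem_span_finset'.mp h4
  classical
  refine ⟨fun f => if hf : f ∈ S then A ⟨f, hf⟩ else 0, ?_⟩
  rw [← hA, ← Finset.sum_attach]
  refine Finset.sum_congr rfl fun f _ => ?_
  show (if hf : (f : MvPolynomial σ κ) ∈ S then A ⟨f, hf⟩ else 0) * (f : MvPolynomial σ κ) = _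
  rw [dif_pos f.2]
  rfl

end NSC_

open NSC_ in
theorem NSC_proof : Stmt_NSC := by
  intro κ _ _ σ _ S hS
  classical
  obtain ⟨A, hA⟩ := cert S hS
  refine ⟨S.biUnion fun f => (f.support.image fun m => f.coeff m) ∪
    ((A f).support.image fun m => (A f).coeff m), ?_⟩
  rintro Ω _ P hC ⟨u, hu⟩
  have hf : ∀ f ∈ S, ∀ m, f.coeff m ∈ P.O := by
    intro f hf m
    by_cases h0 : f.coeff m = 0
    · rw [h0]; exact zero_mem _
    · refine (hC _ ?_ h0).1
      refine Finset.mem_biUnion.mpr ⟨f, hf, Finset.mem_union_left _ ?_⟩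
      exact Finset.mem_image.mpr ⟨m, MvPolynomial.mem_support_iff.mpr h0, rfl⟩
  have hAf : ∀ f ∈ S, ∀ m, (A f).coeff m ∈ P.O := by
    intro f hf m
    by_cases h0 : (A f).coeff m = 0
    · rw [h0]; exact zero_mem _
    · refine (hC _ ?_ h0).1
      refine Finset.mem_biUnion.mpr ⟨f, hf, Finset.mem_union_right _ ?_⟩
      exact Finset.mem_image.mpr ⟨m, MvPolynomial.mem_support_iff.mpr h0, rfl⟩
  choose! F hF1 hF2 using fun f hfS => lift P f (hf f hfS)
  choose! G hG1 hG2 using fun f hfS => lift P (A f) (hAf f hfS)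
  have h1 : ∑ f ∈ S, G f * F f = 1 := by
    apply MvPolynomial.map_injective P.O.subtype Subtype.val_injective
    rw [map_sum, map_one, ← hA]
    refine Finset.sum_congr rfl fun f hfS => ?_
    rw [map_mul, hF1 f hfS, hG1 f hfS]
  have h2 := congrArg (fun q => MvPolynomial.eval u (MvPolynomial.map P.r q)) h1
  simp only [map_sum, map_mul, map_one] at h2
  rw [Finset.sum_eq_zero] at h2
  · exact zero_ne_one h2
  · intro f hfS
    rw [hF2 f hfS, hu f hfS, mul_zero]

end Pool.Agent.SPR
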