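import Pool.Agent.SPR.Stmts

/-!
# Places with prescribed units
-/

set_option autoImplicit false

noncomputable section

namespace Pool.Agent.SPR

open Pool.Agent.SRF

theorem PLC_proof (hPLX : Stmt_PLX) (hPLH : Stmt_PLH) : Stmt_PLC := by
  classical
  intro p _ κ Ω _ _ _ _ _ C
  obtain ⟨h⟩ := hPLH p κ Ω (C ∪ C.image (fun c => c⁻¹))
  obtain ⟨P, hP⟩ := hPLX κ Ω _ h
  refine ⟨P, ?_⟩
  intro c hc _
  have h1 : c ∈ Subring.closure ((C ∪ C.image (fun c => c⁻¹) : Finset κ) : Set κ) :=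
    Subring.subset_closure (Finset.mem_coe.mpr (Finset.mem_union_left _ hc))
  have h2 : c⁻¹ ∈ Subring.closure ((C ∪ C.image (fun c => c⁻¹) : Finset κ) : Set κ) :=
    Subring.subset_closure (Finset.mem_coe.mpr (Finset.mem_union_right _
      (Finset.mem_image_of_mem _ hc)))
  exact ⟨(hP ⟨c, h1⟩).1, (hP ⟨c⁻¹, h2⟩).1⟩

end Pool.Agent.SPR
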