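import Pool.Agent.SPR.Stmts

/-!
# Finitely generated rings of characteristic `p` have points
-/

set_option autoImplicit false

noncomputable section

namespace Pool.Agent.SPR

open Pool.Agent.SRF

theorem PLH_proof : Stmt_PLH := by
  intro p _ κ Ω _ _ _ _ _ C
  let _ : Algebra (ZMod p) κ := ZMod.algebra κ p
  let _ : Algebra (ZMod p) Ω := ZMod.algebra Ω p
  let A : Subalgebra (ZMod p) κ := Algebra.adjoin (ZMod p) (C : Set κ)
  have hA : Algebra.FiniteType (ZMod p) A :=
    (Subalgebra.fg_iff_finiteType A).mp (Subalgebra.fg_adjoin_finset C)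
  obtain ⟨M, hM⟩ := Ideal.exists_maximal A
  let _ : Field (A ⧸ M) := Ideal.Quotient.field M
  have h1 : Algebra.FiniteType (ZMod p) (A ⧸ M) :=
    Algebra.FiniteType.of_surjective (Ideal.Quotient.mkₐ (ZMod p) M)
      (Ideal.Quotient.mkₐ_surjective (ZMod p) M)
  have h2 : Module.Finite (ZMod p) (A ⧸ M) :=
    finite_of_finite_type_of_isJacobsonRing (ZMod p) (A ⧸ M)
  have h3 : Algebra.IsAlgebraic (ZMod p) (A ⧸ M) := Algebra.IsAlgebraic.of_finite _ _
  let φ : (A ⧸ M) →ₐ[ZMod p] Ω := IsAlgClosed.lift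
  have hle : Subring.closure (C : Set κ) ≤ A.toSubring :=
    Subring.closure_le.mpr Algebra.subset_adjoin
  exact ⟨(φ : (A ⧸ M) →+* Ω).comp ((Ideal.Quotient.mk M).comp (Subring.inclusion hle))⟩

end Pool.Agent.SPR
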