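import Pool.Agent.SPR.Stmts

set_option autoImplicit false

noncomputable section

namespace Pool.Agent.SPR

open Pool.Agent.SRF

namespace PLX_

/-- extension of a homomorphism with maximal kernel to an algebra of finite type -/
theorem ext_fin {B S Ω : Type} [CommRing B] [CommRing S] [Field Ω] [IsAlgClosed Ω] [Algebra B S]
    [Algebra.FiniteType B S] (g : B →+* Ω) (hm : (RingHom.ker g).IsMaximal)
    (h : (RingHom.ker g).map (algebraMap B S) ≠ ⊤) :
    ∃ G : S →+* Ω, ∀ b, G (algebraMap B S b) = g b := by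
  obtain ⟨n, hn, hle⟩ := Ideal.exists_le_maximal _ h
  have hle' : RingHom.ker g ≤ n.comap (algebraMap B S) := Ideal.map_le_iff_le_comap.1 hle
  let _ : Field (B ⧸ RingHom.ker g) := Ideal.Quotient.field _
  let _ : Field (S ⧸ n) := Ideal.Quotient.field _
  let _ : Algebra (B ⧸ RingHom.ker g) Ω :=
    (Ideal.Quotient.lift (RingHom.ker g) g (fun a ha => ha)).toAlgebra
  let _ : Algebra (B ⧸ RingHom.ker g) (S ⧸ n) :=
    (Ideal.Quotient.lift (RingHom.ker g) ((Ideal.Quotient.mk n).comp (algebraMap B S))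
      (fun a ha => Ideal.Quotient.eq_zero_iff_mem.2 (hle' ha))).toAlgebra
  have h1 : ∀ b : B, algebraMap (B ⧸ RingHom.ker g) (S ⧸ n) (Ideal.Quotient.mk _ b) =
      algebraMap B (S ⧸ n) b := fun b => rfl
  have h2 : ∀ b : B, algebraMap (B ⧸ RingHom.ker g) Ω (Ideal.Quotient.mk _ b) = g b :=
    fun b => rfl
  have : IsScalarTower B (B ⧸ RingHom.ker g) (S ⧸ n) := by
    apply IsScalarTower.of_algebraMap_eq
    intro b
    rfl
  have : Algebra.FiniteType B (S ⧸ n) :=
    Algebra.FiniteType.of_surjective (Ideal.Quotient.mkₐ B n) (Ideal.Quotient.mkₐ_surjective B n)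
  have : Algebra.FiniteType (B ⧸ RingHom.ker g) (S ⧸ n) :=
    Algebra.FiniteType.of_restrictScalars_finiteType B (B ⧸ RingHom.ker g) (S ⧸ n)
  have : Module.Finite (B ⧸ RingHom.ker g) (S ⧸ n) :=
    finite_of_finite_type_of_isJacobsonRing _ _
  have : Algebra.IsAlgebraic (B ⧸ RingHom.ker g) (S ⧸ n) := inferInstance
  let L : (S ⧸ n) →ₐ[B ⧸ RingHom.ker g] Ω := IsAlgClosed.lift
  refine ⟨L.toRingHom.comp (Ideal.Quotient.mk n), fun b => ?_⟩
  change L (algebraMap (B ⧸ RingHom.ker g) (S ⧸ n) (Ideal.Quotient.mk _ b)) = g b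
  rw [AlgHom.commutes, h2]

variable {κ Ω : Type} [Field κ] [Field Ω]

/-- partial homomorphisms, as graphs -/
def PH (κ Ω : Type) [Field κ] [Field Ω] : Set (Subring (κ × Ω)) :=
  {G | ∀ v, ((0 : κ), v) ∈ G → v = 0}

/-- the graph of a homomorphism -/
def graph (A : Subring κ) (h : A →+* Ω) : Subring (κ × Ω) := (A.subtype.prod h).range

theorem mem_graph {A : Subring κ} {h : A →+* Ω} {p : κ × Ω} :
    p ∈ graph A h ↔ ∃ ha : p.1 ∈ A, h ⟨p.1, ha⟩ = p.2 := by
  constructor
  · rintro ⟨a, rfl⟩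
    exact ⟨a.2, rfl⟩
  · rintro ⟨ha, h1⟩
    exact ⟨⟨p.1, ha⟩, Prod.ext rfl h1⟩

theorem graph_mem (A : Subring κ) (h : A →+* Ω) : graph A h ∈ PH κ Ω := by
  intro v hv
  obtain ⟨ha, h1⟩ := mem_graph.1 hv
  change h ⟨0, ha⟩ = v at h1
  rw [← h1]
  exact map_zero h

/-- every graph comes from a homomorphism -/
theorem exists_hom (G : Subring (κ × Ω)) (hG : G ∈ PH κ Ω) :
    ∃ (B : Subring κ) (g : B →+* Ω), graph B g = G := by
  let φ : G →+* κ := (RingHom.fst κ Ω).comp G.subtype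
  have hinj : Function.Injective φ := by
    rw [injective_iff_map_eq_zero]
    rintro ⟨⟨a, v⟩, hav⟩ h
    have h1 : a = 0 := h
    subst h1
    have h2 : v = 0 := hG v hav
    subst h2
    rfl
  let e : G ≃+* φ.range := RingEquiv.ofBijective φ.rangeRestrict
    ⟨fun x y h => hinj (congrArg Subtype.val h), φ.rangeRestrict_surjective⟩
  let g : φ.range →+* Ω := ((RingHom.snd κ Ω).comp G.subtype).comp e.symm.toRingHom
  have he : ∀ b : φ.range, ((e.symm b : G) : κ × Ω).1 = (b : κ) := by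
    intro b
    have h := congrArg Subtype.val (e.apply_symm_apply b)
    exact h
  refine ⟨φ.range, g, ?_⟩
  ext p
  rw [mem_graph]
  constructor
  · rintro ⟨ha, h1⟩
    have h2 : ((e.symm ⟨p.1, ha⟩ : G) : κ × Ω) = p := Prod.ext (he _) h1
    rw [← h2]
    exact (e.symm ⟨p.1, ha⟩).2
  · intro hp
    refine ⟨⟨⟨p, hp⟩, rfl⟩, ?_⟩
    have h2 : e.symm ⟨p.1, ⟨⟨p, hp⟩, rfl⟩⟩ = ⟨p, hp⟩ := by
      rw [RingEquiv.symm_apply_eq]
      rfl
    change ((e.symm ⟨p.1, ⟨⟨p, hp⟩, rfl⟩⟩ : G) : κ × Ω).2 = p.2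
    rw [h2]

theorem exists_max (A : Subring κ) (h : A →+* Ω) :
    ∃ (B : Subring κ) (g : B →+* Ω), graph A h ≤ graph B g ∧
      ∀ (S : Subring κ) (g' : S →+* Ω), graph B g ≤ graph S g' → S ≤ B := by
  obtain ⟨G, hG, hmax⟩ := zorn_le_nonempty₀ (PH κ Ω) (by
    intro c hc hch y hy
    refine ⟨sSup c, ?_, fun z hz => le_sSup hz⟩
    intro v hv
    rw [Subring.mem_sSup_of_directedOn ⟨y, hy⟩ hch.directedOn] at hv
    obtain ⟨s, hs, hvs⟩ := hv
    exact hc hs v hvs) (graph A h) (graph_mem A h)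
  obtain ⟨B, g, rfl⟩ := exists_hom G hmax.1
  refine ⟨B, g, hG, fun S g' hle a ha => ?_⟩
  have h1 := hmax.2 (graph_mem S g') hle
  have h2 : ((a, g' ⟨a, ha⟩) : κ × Ω) ∈ graph S g' := mem_graph.2 ⟨ha, rfl⟩
  exact (mem_graph.1 (h1 h2)).1

theorem graph_le {B S : Subring κ} {g : B →+* Ω} {g' : S →+* Ω} (hBS : B ≤ S)
    (h : ∀ b : B, g' ⟨b, hBS b.2⟩ = g b) : graph B g ≤ graph S g' := by
  intro p hp
  obtain ⟨ha, h1⟩ := mem_graph.1 hp
  refine mem_graph.2 ⟨hBS ha, ?_⟩
  rw [← h1]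
  exact h ⟨p.1, ha⟩

end PLX_

open PLX_ in
theorem PLX_proof : Stmt_PLX := by
  intro κ Ω _ _ _ A h
  obtain ⟨B, g, hle, hmax⟩ := exists_max A h
  -- step 1: elements outside of the kernel are units
  have st1 : ∀ b : B, g b ≠ 0 → ((b : κ))⁻¹ ∈ B := by
    intro b hb
    have hp : (RingHom.ker g).IsPrime := RingHom.ker_isPrime g
    let S := (LocalSubring.ofPrime B (RingHom.ker g)).toSubring
    have hloc : IsLocalization.AtPrime S (RingHom.ker g) := inferInstance
    let g' : S →+* Ω := IsLocalization.lift (M := (RingHom.ker g).primeCompl) (S := S) (g := g)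
      (fun y => isUnit_iff_ne_zero.2 (fun h0 => y.2 h0))
    have hBS : B ≤ S := LocalSubring.le_ofPrime B _
    have hg' : ∀ b : B, g' ⟨b, hBS b.2⟩ = g b := fun b => IsLocalization.lift_eq _ b
    have hSB := hmax S g' (graph_le hBS hg')
    apply hSB
    have hu := IsLocalization.map_units S (⟨b, hb⟩ : (RingHom.ker g).primeCompl)
    obtain ⟨c, hc⟩ := hu.exists_right_inv
    have h1 : (b : κ) * (c : κ) = 1 := congrArg Subtype.val hc
    rw [inv_eq_of_mul_eq_one_right h1]
    exact c.2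
  have hmaxi : (RingHom.ker g).IsMaximal := by
    rw [Ideal.isMaximal_iff]
    refine ⟨fun h1 => ?_, fun J b hJ hb hbJ => ?_⟩
    · rw [RingHom.mem_ker, map_one] at h1
      exact one_ne_zero h1
    · have h1 : g b ≠ 0 := fun h0 => hb h0
      have h2 := st1 b h1
      have h0 : (b : κ) ≠ 0 := by
        intro h0
        apply h1
        have : b = 0 := Subtype.ext h0
        rw [this, map_zero]
      have h3 : (⟨_, h2⟩ : B) * b = 1 := Subtype.ext (inv_mul_cancel₀ h0)
      rw [← h3]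
      exact J.mul_mem_left _ hbJ
  obtain ⟨V, hBV, hV⟩ := Ideal.image_subset_nonunits_valuationSubring (RingHom.ker g) hmaxi.ne_top
  have hker : ∀ b : B, g b = 0 → (b : κ) ∈ V.nonunits := fun b hb => hV ⟨b, hb, rfl⟩
  -- step 2: V is contained in B
  have hVB : ∀ x ∈ V, x ∈ B := by
    intro x hx
    let S : Subalgebra B κ := Algebra.adjoin B {x}
    have hSV : ∀ s ∈ S, s ∈ V := by
      intro s hs
      induction hs using Algebra.adjoin_induction with
      | mem t ht =>
        rw [Set.mem_singleton_iff] at ht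
        rw [ht]
        exact hx
      | algebraMap b => exact hBV b.2
      | add a b _ _ ha hb => exact add_mem ha hb
      | mul a b _ _ ha hb => exact mul_mem ha hb
    let ψ : S →+* V := S.val.toRingHom.codRestrict V (fun s => hSV s.1 s.2)
    have hne : (RingHom.ker g).map (algebraMap B S) ≠ ⊤ := by
      intro htop
      have h1 : (RingHom.ker g).map (algebraMap B S) ≤ (IsLocalRing.maximalIdeal V).comap ψ := by
        rw [Ideal.map_le_iff_le_comap]
        intro b hb
        obtain ⟨h2, h3⟩ := ValuationSubring.mem_nonunits_iff_exists_mem_maximalIdeal.1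
          (hker b hb)
        exact h3
      rw [htop, top_le_iff] at h1
      exact (Ideal.comap_isPrime ψ (IsLocalRing.maximalIdeal V)).ne_top h1
    have hft : Algebra.FiniteType B S := by
      apply Algebra.FiniteType.adjoin_of_finite
      exact Set.finite_singleton x
    obtain ⟨G, hG⟩ := ext_fin (S := S) g hmaxi hne
    let S' : Subring κ := S.toSubring
    let G' : S' →+* Ω := G
    have hBS : B ≤ S' := fun b hb => S.algebraMap_mem ⟨b, hb⟩
    have hSB := hmax S' G' (graph_le hBS (fun b => hG b))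
    exact hSB (Algebra.subset_adjoin rfl)
  let r : V →+* Ω := g.comp (V.subtype.codRestrict B (fun v => hVB v.1 v.2))
  have hr : ∀ v : V, r v = g ⟨v, hVB v.1 v.2⟩ := fun _ => rfl
  refine ⟨⟨V, r, ?_⟩, ?_⟩
  · intro a
    rw [hr]
    constructor
    · intro h0
      have h1 := hker _ h0
      exact (V.mem_nonunits_iff_or).1 h1
    · rintro (h0 | h0)
      · have : (⟨a, hVB a.1 a.2⟩ : B) = 0 := Subtype.ext h0
        rw [this, map_zero]
      · by_contra h1
        exact h0 (hBV (st1 _ h1))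
  · intro a
    have h1 : ((a : κ), h a) ∈ graph B g := hle (mem_graph.2 ⟨a.2, rfl⟩)
    obtain ⟨h2, h3⟩ := mem_graph.1 h1
    refine ⟨hBV h2, ?_⟩
    rw [Plc.res_of_mem (hBV h2)]
    exact h3

end Pool.Agent.SPR
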