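import Pool.Agent.SPR.Stmts

/-!
# RDL: specialisation of sections of multiples of the line at infinity
-/

set_option autoImplicit false

noncomputable section

namespace Pool.Agent.SPR

open Pool.Agent.SRF

namespace RDL_

theorem totalDegree_mv {κ Ω : Type} [Field κ] [Field Ω] (P : Plc κ Ω) {σ : Type}
    (f : MvPolynomial σ κ) : (P.mv f).totalDegree ≤ f.totalDegree := by
  classical
  rw [MvPolynomial.totalDegree, MvPolynomial.totalDegree]
  refine Finset.sup_mono ?_
  intro m hm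
  rw [MvPolynomial.mem_support_iff] at hm ⊢
  intro h0
  apply hm
  rw [Plc.coeff_mv, h0, Plc.res_zero]

section

variable {κ Ω F Fs : Type} [Field κ] [Field Ω] [Field F] [Field Fs] [Algebra κ F] [Algebra Ω Fs]
  {x y w : F} {xs ys ws : Fs} {P : Plc κ Ω}

/-- the coefficients of the minimal polynomial of an element of the valuation ring lie in the
valuation ring -/
theorem coeff_mem (G : Gau P x y w xs ys ws) (f : F) (hf : f ∈ G.W) (n : ℕ) :
    (((minpoly (IntermediateField.adjoin κ {x, y}) f).coeff n :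
      IntermediateField.adjoin κ {x, y}) : F) ∈ G.W := by
  set K := IntermediateField.adjoin κ {x, y} with hK
  let R0 : ValuationSubring K := G.W.comap (algebraMap K F)
  let _ : Algebra R0 F := ((algebraMap K F).comp (algebraMap R0 K)).toAlgebra
  have : IsScalarTower R0 K F := IsScalarTower.of_algebraMap_eq (fun _ => rfl)
  have hint : IsIntegral R0 f := by
    obtain ⟨q, hq1, hq2, hq3⟩ := G.int f hf
    have hl : q ∈ Polynomial.lifts (algebraMap R0 F) := by
      rw [Polynomial.lifts_iff_coeff_lifts]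
      intro m
      obtain ⟨h1, h2⟩ := hq2 m
      exact ⟨⟨⟨q.coeff m, h2⟩, h1⟩, rfl⟩
    obtain ⟨p, hp1, -, hp2⟩ := Polynomial.lifts_and_natDegree_eq_and_monic hl hq1
    refine ⟨p, hp2, ?_⟩
    rw [← Polynomial.eval_map, hp1, hq3]
  have h1 := minpoly.isIntegrallyClosed_eq_field_fractions' K hint
  rw [h1, Polynomial.coeff_map]
  exact ((minpoly R0 f).coeff n).2

theorem eqn (f : F) {K : Type} [Field K] [Algebra K F] (hint : IsIntegral K f)
    (c : ℕ → F) (hc : ∀ j ≤ (minpoly K f).natDegree,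
      algebraMap K F ((minpoly K f).coeff ((minpoly K f).natDegree - j)) = c j) :
    f ^ (minpoly K f).natDegree + ∑ j ∈ Finset.Icc 1 (minpoly K f).natDegree,
      c j * f ^ ((minpoly K f).natDegree - j) = 0 := by
  set n := (minpoly K f).natDegree with hn
  have h1 : Polynomial.aeval f (minpoly K f) = 0 := minpoly.aeval K f
  rw [Polynomial.aeval_eq_sum_range, ← hn, ← Finset.sum_range_reflect,
    Finset.sum_range_succ'] at h1
  have h2 : Finset.Icc 1 n = Finset.Ico 1 (n + 1) := by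
    ext a; simp
  rw [h2, Finset.sum_Ico_eq_sum_range]
  rw [← h1, add_comm]
  congr 1
  · have h3 : n + 1 - 1 = n := rfl
    rw [h3]
    refine Finset.sum_congr rfl fun j hj => ?_
    rw [Finset.mem_range] at hj
    have h4 : n - (j + 1) = n - (1 + j) := by omega
    rw [Algebra.smul_def, ← hc (1 + j) (by omega), h4]
  · have h3 : n + 1 - 1 - 0 = n := rfl
    rw [h3, Algebra.smul_def]
    have h5 : (minpoly K f).coeff n = 1 := (minpoly.monic hint).coeff_natDegree
    rw [h5, map_one, one_mul]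

theorem nat_case (hGPO : Stmt_GPO) (hSCQ : SRF.Stmt_SCQ) (hSCI : SRF.Stmt_SCI)
    (hs : IsSurf κ x y) (hs' : IsSurf Ω xs ys) (G : Gau P x y w xs ys ws) (a : ℕ) (f : F)
    (hf : f ∈ L κ x y (fun O => a * H κ x y O)) (hW : f ∈ G.W) :
    G.res f ∈ L Ω xs ys (fun O => a * H Ω xs ys O) := by
  have := hs.fin
  obtain ⟨c, hc1, hc2⟩ := hSCQ κ F x y hs a f hf
  set n := (minpoly (IntermediateField.adjoin κ {x, y}) f).natDegree with hn
  have hint : IsIntegral (IntermediateField.adjoin κ {x, y}) f := IsIntegral.of_finite _ f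
  have h1 := eqn f hint (fun j => MvPolynomial.aeval ![x, y] (c j)) (fun j hj => hc2 j hj)
  rw [← hn] at h1
  have hmem : ∀ j ≤ n, MvPolynomial.aeval ![x, y] (c j) ∈ G.W := by
    intro j hj
    rw [← hc2 j hj]
    exact coeff_mem G f hW _
  refine hSCI Ω Fs xs ys hs' a n (G.res f) (fun j => P.mv (c j))
    (fun j => (totalDegree_mv P (c j)).trans (hc1 j)) ?_
  have hmem' : ∀ j ∈ Finset.Icc 1 n, MvPolynomial.aeval ![x, y] (c j) * f ^ (n - j) ∈ G.W :=
    fun j hj => mul_mem (hmem j (Finset.mem_Icc.mp hj).2) (pow_mem hW _)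
  have h2 : G.res (f ^ n + ∑ j ∈ Finset.Icc 1 n, MvPolynomial.aeval ![x, y] (c j) *
      f ^ (n - j)) = 0 := by rw [h1, Gau.res_zero]
  rw [Gau.res_add (pow_mem hW n) (sum_mem hmem'), Gau.res_pow hW, Gau.res_sum _ _ hmem'] at h2
  rw [← h2]
  congr 1
  refine Finset.sum_congr rfl fun j hj => ?_
  have hj' := hmem j (Finset.mem_Icc.mp hj).2
  rw [Gau.res_mul hj' (pow_mem hW _), Gau.res_pow hW,
    (hGPO κ Ω F Fs x y w xs ys ws P hs'.indep G (c j)).2 hj']

theorem z_ne {k E : Type} [Field k] [Field E] [Algebra k E] {u v : E} (hs : IsSurf k u v)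
    (i : Fin 3) : z u v i ≠ 0 := by
  have h0 : ∀ j : Fin 2, (![u, v] : Fin 2 → E) j ≠ 0 := fun j => hs.indep.ne_zero j
  fin_cases i
  · exact one_ne_zero
  · exact h0 0
  · exact h0 1

theorem z_mem (G : Gau P x y w xs ys ws) (i : Fin 3) : z x y i ∈ G.W := by
  fin_cases i
  · exact one_mem _
  · exact G.x_mem
  · exact G.y_mem

theorem res_z (G : Gau P x y w xs ys ws) (i : Fin 3) : G.res (z x y i) = z xs ys i := by
  fin_cases i
  · exact Gau.res_one
  · exact Gau.res_x
  · exact Gau.res_y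

end

end RDL_

theorem RDL_proof (hGPO : Stmt_GPO) (hSCQ : SRF.Stmt_SCQ) (hSCI : SRF.Stmt_SCI)
    (hHCH : SRF.Stmt_HCH) : Stmt_RDL := by
  intro κ Ω F Fs _ _ _ _ _ _ x y w xs ys ws P hs hs' G q f hf hW
  rcases le_or_gt 0 q with hq | hq
  · obtain ⟨a, rfl⟩ := Int.eq_ofNat_of_zero_le hq
    exact RDL_.nat_case hGPO hSCQ hSCI hs hs' G a f hf hW
  · obtain ⟨m, hm⟩ : ∃ m : ℕ, q = -(m : ℤ) := ⟨q.natAbs, by omega⟩
    subst hm
    rw [mem_L]
    by_cases h0 : G.res f = 0
    · exact Or.inl h0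
    right
    intro O
    obtain ⟨i, hi, -⟩ := O.2.2
    have hH := ((hHCH Ω Fs xs ys hs' O).2.2 i).mp hi
    have hf0 : f ≠ 0 := by
      rintro rfl
      exact h0 Gau.res_zero
    have hz := RDL_.z_ne hs i
    have hz' := RDL_.z_ne hs' i
    have h1 : f * z x y i ^ m ∈ L κ x y (fun O => ((0 : ℕ) : ℤ) * H κ x y O) := by
      rw [mem_L]
      right
      intro V
      have h2 := hf.resolve_left hf0 V
      have h3 := (hHCH κ F x y hs V).2.1 i
      rw [V.isOrd.mul _ _ hf0 (pow_ne_zero _ hz), V.isOrd.pow hz]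
      have h4 : 0 ≤ (m : ℤ) * (ord V.1 (z x y i) + H κ x y V) :=
        mul_nonneg (Int.natCast_nonneg m) h3
      have h5 : -(-(m : ℤ) * H κ x y V) ≤ ord V.1 f := h2
      simp only [Nat.cast_zero, zero_mul, neg_zero]
      nlinarith
    have h2 : f * z x y i ^ m ∈ G.W := mul_mem hW (pow_mem (RDL_.z_mem G i) m)
    have h3 := RDL_.nat_case hGPO hSCQ hSCI hs hs' G 0 _ h1 h2
    rw [Gau.res_mul hW (pow_mem (RDL_.z_mem G i) m), Gau.res_pow (RDL_.z_mem G i),
      RDL_.res_z] at h3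
    have h4 := ((mem_L Ω xs ys).mp h3).resolve_left (mul_ne_zero h0 (pow_ne_zero m hz')) O
    rw [O.isOrd.mul _ _ h0 (pow_ne_zero _ hz'), O.isOrd.pow hz'] at h4
    simp only [Nat.cast_zero, zero_mul, neg_zero] at h4
    rw [hH]
    nlinarith

end Pool.Agent.SPR
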