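import Pool.Agent.SPR.Stmts

/-!
# SPR, module REP: sections in terms of the powers of `w`
-/

set_option autoImplicit false

noncomputable section

namespace Pool.Agent.SPR

open Pool.Agent.SRF

namespace REP_

variable {k F : Type} [Field k] [Field F] [Algebra k F] {x y : F}

theorem mulL (hSEC : SRF.Stmt_SEC) (hS : IsSurf k x y) {a b : ℕ} {f g : F}
    (hf : f ∈ L k x y (fun O => a * H k x y O)) (hg : g ∈ L k x y (fun O => b * H k x y O)) :
    f * g ∈ L k x y (fun O => (a + b : ℕ) * H k x y O) := by
  rw [hSEC k F x y hS] at hf hg ⊢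
  intro i
  have h := mul_mem (hf i) (hg i)
  rwa [div_mul_div_comm, ← pow_add] at h

theorem polyL (hSCI : SRF.Stmt_SCI) (hS : IsSurf k x y) {d : ℕ} {c : MvPolynomial (Fin 2) k}
    (hc : c.totalDegree ≤ d) :
    MvPolynomial.aeval ![x, y] c ∈ L k x y (fun O => d * H k x y O) := by
  refine hSCI k F x y hS d 1 _ (fun j => if j = 1 then -c else 0) (fun j => ?_) ?_
  · by_cases h : j = 1
    · rw [if_pos h, h, mul_one, MvPolynomial.totalDegree_neg]; exact hc
    · rw [if_neg h, MvPolynomial.totalDegree_zero]; exact Nat.zero_le _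
  · rw [Finset.Icc_self, Finset.sum_singleton, if_pos rfl, map_neg]
    simp

/-- the trace of a section is a polynomial -/
theorem traceL (hSCQ : SRF.Stmt_SCQ) (hS : IsSurf k x y) {m : ℕ} {h : F}
    (hh : h ∈ L k x y (fun O => m * H k x y O)) :
    ∃ c : MvPolynomial (Fin 2) k, c.totalDegree ≤ m ∧
      ((Algebra.trace (IntermediateField.adjoin k {x, y}) F h : IntermediateField.adjoin k {x, y})
        : F) = MvPolynomial.aeval ![x, y] c := by
  have hfin := hS.fin
  obtain ⟨c, hc1, hc2⟩ := hSCQ k F x y hS m h hh
  have hint : IsIntegral (IntermediateField.adjoin k {x, y}) h :=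
    Algebra.IsIntegral.isIntegral h
  have hpos := minpoly.natDegree_pos hint
  have h1 := hc2 1 hpos
  rw [trace_eq_finrank_mul_minpoly_nextCoeff, Polynomial.nextCoeff_of_natDegree_pos hpos]
  refine ⟨MvPolynomial.C (-((Module.finrank (IntermediateField.adjoin
    (IntermediateField.adjoin k {x, y}) {h}) F : ℕ) : k)) * c 1, ?_, ?_⟩
  · refine (MvPolynomial.totalDegree_mul _ _).trans ?_
    rw [MvPolynomial.totalDegree_C, zero_add]
    simpa using hc1 1
  · rw [map_mul, ← h1, MvPolynomial.aeval_C, map_neg, map_natCast]
    push_cast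
    ring

end REP_

open REP_ in
theorem REP_proof (hSCQ : SRF.Stmt_SCQ) (hSCI : SRF.Stmt_SCI) (hSEC : SRF.Stmt_SEC) :
    Stmt_REP := by
  classical
  intro k F _ _ _ x y w N a g hM
  have hS := hM.surf
  have hfin := hS.fin
  have hsep := hS.sep
  let K' := IntermediateField.adjoin k {x, y}
  have hxK : x ∈ K' := IntermediateField.subset_adjoin k {x, y} (Or.inl rfl)
  have hyK : y ∈ K' := IntermediateField.subset_adjoin k {x, y} (Or.inr rfl)
  have hint : IsIntegral K' w := Algebra.IsIntegral.isIntegral w
  -- the minimal polynomial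
  let φ : MvPolynomial (Fin 2) k →ₐ[k] K' := MvPolynomial.aeval ![⟨x, hxK⟩, ⟨y, hyK⟩]
  have hφ : ∀ c, ((φ c : K') : F) = MvPolynomial.aeval ![x, y] c := by
    intro c
    have h1 : (K'.val.comp φ) = MvPolynomial.aeval ![x, y] := by
      apply MvPolynomial.algHom_ext
      intro i
      fin_cases i <;> simp [φ]
    exact DFunLike.congr_fun h1 c
  have hroot : Polynomial.aeval w (g.map (φ : MvPolynomial (Fin 2) k →+* K')) = 0 := by
    rw [Polynomial.aeval_eq_sum_range' (n := N + 1)]
    · rw [← hM.root]
      refine Finset.sum_congr rfl fun j _ => ?_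
      rw [Polynomial.coeff_map, Algebra.smul_def]
      congr 1
      exact hφ _
    · rw [hM.monic.natDegree_map, hM.deg]; exact Nat.lt_succ_self N
  have hdegw : (minpoly K' w).natDegree = N := by
    rw [← hM.rank]
    exact (Field.primitive_element_iff_minpoly_natDegree_eq K' w).1 hM.gen
  have hmin : g.map (φ : MvPolynomial (Fin 2) k →+* K') = minpoly K' w := by
    refine Polynomial.eq_of_monic_of_dvd_of_natDegree_le (minpoly.monic hint)
      (hM.monic.map _) (minpoly.dvd K' w hroot) ?_
    rw [hM.monic.natDegree_map, hM.deg, hdegw]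
  have hN0 : 0 < N := by rw [← hdegw]; exact minpoly.natDegree_pos hint
  have hcoeff : ∀ j, ((algebraMap K' F) ((minpoly K' w).coeff j)) =
      MvPolynomial.aeval ![x, y] (g.coeff j) := by
    intro j
    rw [← hmin, Polynomial.coeff_map]
    exact hφ _
  have hder : Polynomial.aeval w (Polynomial.derivative (minpoly K' w)) = der k x y w N g := by
    rw [Polynomial.aeval_eq_sum_range' (n := N)]
    · unfold der
      refine Finset.sum_congr rfl fun j _ => ?_
      rw [Polynomial.coeff_derivative, Algebra.smul_def, map_mul, hcoeff]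
      push_cast
      ring
    · have h1 := Polynomial.natDegree_derivative_lt (p := minpoly K' w) (by omega)
      omega
  have hder0 : der k x y w N g ≠ 0 := by
    rw [← hder]
    exact (Algebra.IsSeparable.isSeparable K' w).aeval_derivative_ne_zero (minpoly.aeval K' w)
  refine ⟨hder0, fun q f hf => ?_⟩
  -- `w` is a section
  have hwL : w ∈ L k x y (fun O => a * H k x y O) := by
    refine hSCI k F x y hS a N w (fun j => if j ≤ N then g.coeff (N - j) else 0) (fun j => ?_) ?_
    · by_cases h : j ≤ N
      · rw [if_pos h]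
        have h1 := hM.bound (N - j) (by omega)
        rwa [Nat.sub_sub_self h] at h1
      · rw [if_neg h, MvPolynomial.totalDegree_zero]; exact Nat.zero_le _
    · rw [← hM.root, Finset.sum_range_succ, add_comm]
      have h1 : g.coeff N = 1 := by rw [← hM.deg]; exact hM.monic
      rw [h1, map_one, one_mul]
      congr 1
      refine Finset.sum_bij (fun i _ => N - i) ?_ ?_ ?_ ?_
      · intro i hi
        rw [Finset.mem_Icc] at hi
        rw [Finset.mem_range]; omega
      · intro i hi j hj hij
        rw [Finset.mem_Icc] at hi hj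
        omega
      · intro j hj
        rw [Finset.mem_range] at hj
        exact ⟨N - j, Finset.mem_Icc.2 (by omega), by omega⟩
      · intro i hi
        rw [Finset.mem_Icc] at hi
        rw [if_pos hi.2]
  -- the coefficients of the quotient
  have hβ : ∀ t, t + 1 ≤ N → (minpolyDiv K' w).coeff (N - 1 - t) ∈
      L k x y (fun O => (a * t : ℕ) * H k x y O) := by
    intro t
    induction t with
    | zero =>
      intro _
      rw [coeff_minpolyDiv, hcoeff]
      have h1 : (minpolyDiv K' w).coeff (N - 1 - 0 + 1) = 0 := by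
        apply Polynomial.coeff_eq_zero_of_natDegree_lt
        have h2 := natDegree_minpolyDiv_lt hint
        omega
      rw [h1, zero_mul, add_zero]
      refine polyL hSCI hS ?_
      have h3 := hM.bound (N - 1 - 0 + 1) (by omega)
      have h4 : N - (N - 1 - 0 + 1) = 0 := by omega
      rw [h4] at h3
      exact h3
    | succ t ih =>
      intro ht
      rw [coeff_minpolyDiv, hcoeff]
      have e1 : N - 1 - (t + 1) + 1 = N - 1 - t := by omega
      rw [e1]
      refine Submodule.add_mem _ ?_ ?_
      · refine polyL hSCI hS ?_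
        have h3 := hM.bound (N - 1 - t) (by omega)
        have h4 : N - (N - 1 - t) = t + 1 := by omega
        rwa [h4] at h3
      · have h3 := mulL hSEC hS (ih (by omega)) hwL
        have h4 : a * t + a = a * (t + 1) := by ring
        rwa [h4] at h3
  -- the power basis
  let pb : PowerBasis K' F := (IntermediateField.adjoin.powerBasis hint).map
    ((IntermediateField.equivOfEq hM.gen).trans IntermediateField.topEquiv)
  have hpg : pb.gen = w := rfl
  have hpd : pb.dim = N := hdegw
  -- the traces
  have htr : ∀ i : Fin pb.dim, ∃ c : MvPolynomial (Fin 2) k, c.totalDegree ≤ q + a * N ∧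
      ((Algebra.trace K' F (f * (minpolyDiv K' w).coeff i) : K') : F) =
        MvPolynomial.aeval ![x, y] c := by
    intro i
    have hi : (i : ℕ) < N := lt_of_lt_of_eq i.2 hpd
    have h1 := hβ (N - 1 - i) (by omega)
    have h2 : N - 1 - (N - 1 - (i : ℕ)) = i := by omega
    rw [h2] at h1
    obtain ⟨c, hc1, hc2⟩ := traceL hSCQ hS (mulL hSEC hS hf h1)
    refine ⟨c, hc1.trans (Nat.add_le_add_left (Nat.mul_le_mul_left _ (by omega)) _), hc2⟩
  choose c hc1 hc2 using htr
  have hdual := pb.basis.traceDual_traceDual
  have hexp := pb.basis.sum_repr (der k x y w N g * f)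
  have hrepr : ∀ i, pb.basis.repr (der k x y w N g * f) i =
      Algebra.trace K' F (f * (minpolyDiv K' w).coeff i) := by
    intro i
    conv_lhs => rw [← hdual]
    rw [Module.Basis.traceDual_repr_apply, Module.Basis.traceDual_powerBasis_eq,
      Algebra.traceForm_apply, hpg, hder]
    congr 1
    field_simp
  refine ⟨fun j => if h : j < pb.dim then c ⟨j, h⟩ else 0, fun j => ?_, ?_⟩
  · by_cases h : j < pb.dim
    · simp only [dif_pos h]; exact hc1 _
    · simp only [dif_neg h, MvPolynomial.totalDegree_zero]; exact Nat.zero_le _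
  · have e2 : Finset.range N = Finset.range pb.dim := by rw [hpd]
    rw [← hexp, e2, ← Fin.sum_univ_eq_sum_range (fun j => MvPolynomial.aeval ![x, y]
      (if h : j < pb.dim then c ⟨j, h⟩ else 0) * w ^ j)]
    refine Finset.sum_congr rfl fun i _ => ?_
    rw [hrepr i, PowerBasis.coe_basis, hpg, dif_pos i.2, Algebra.smul_def]
    congr 1
    exact hc2 i

end Pool.Agent.SPR
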