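import Pool.Agent.SPR.Stmts

/-!
# Good places specialise the model
-/

set_option autoImplicit false

noncomputable section

namespace Pool.Agent.SPR

open Pool.Agent.SRF

namespace SPE_

section

variable {κ Ω : Type} [Field κ] [Field Ω] {P : Plc κ Ω}

theorem mv_one {σ : Type} : P.mv (1 : MvPolynomial σ κ) = 1 := by
  classical
  ext m
  rw [Plc.coeff_mv, MvPolynomial.coeff_one, MvPolynomial.coeff_one]
  split_ifs
  · exact Plc.res_one
  · exact Plc.res_zero

theorem totalDegree_mv {σ : Type} (f : MvPolynomial σ κ) :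
    (P.mv f).totalDegree ≤ f.totalDegree := by
  have hsub : (P.mv f).support ⊆ f.support := by
    intro m hm
    rw [MvPolynomial.mem_support_iff, Plc.coeff_mv] at hm
    rw [MvPolynomial.mem_support_iff]
    intro h
    exact hm (by rw [h, Plc.res_zero])
  exact Finset.sup_mono hsub

theorem natDegree_pl {σ : Type} {g : Polynomial (MvPolynomial σ κ)} (hg : g.Monic) :
    (P.pl g).natDegree = g.natDegree := by
  apply Polynomial.natDegree_eq_of_le_of_coeff_ne_zero
  · rw [Polynomial.natDegree_le_iff_coeff_eq_zero]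
    intro n hn
    rw [Plc.coeff_pl, Polynomial.coeff_eq_zero_of_natDegree_lt hn, Plc.mv_zero]
  · rw [Plc.coeff_pl, hg.coeff_natDegree, mv_one]
    exact one_ne_zero

theorem monic_pl {σ : Type} {g : Polynomial (MvPolynomial σ κ)} (hg : g.Monic) :
    (P.pl g).Monic := by
  rw [Polynomial.Monic, Polynomial.leadingCoeff, natDegree_pl hg, Plc.coeff_pl,
    hg.coeff_natDegree, mv_one]

theorem res_natCast (n : ℕ) : P.res (n : κ) = (n : Ω) := by
  have h : (n : κ) ∈ P.O := natCast_mem P.O n
  rw [Plc.res_of_mem h]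
  have : (⟨(n : κ), h⟩ : P.O) = (n : P.O) := Subtype.ext (by simp)
  rw [this, map_natCast]

end

end SPE_

open SPE_ in
theorem SPE_proof (hMIR : Stmt_MIR) (hGIR : Stmt_GIR) (hSPM : Stmt_SPM) : Stmt_SPE := by
  classical
  intro κ F _ _ _ _ x y w N a g hM
  obtain ⟨hN, hirr, hder⟩ := hMIR κ F x y w N a g hM
  obtain ⟨C1, hC1⟩ := hGIR κ g hM.monic (by rw [hM.deg]; exact hN) hirr
  obtain ⟨j, hj⟩ : ∃ j, (Polynomial.derivative g).coeff j ≠ 0 := by
    by_contra h
    push Not at h
    exact hder (Polynomial.ext fun n => by rw [h n, Polynomial.coeff_zero])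
  obtain ⟨m, hm⟩ := MvPolynomial.ne_zero_iff.1 hj
  have hcoeff : MvPolynomial.coeff m ((Polynomial.derivative g).coeff j) =
      MvPolynomial.coeff m (g.coeff (j + 1)) * ((j + 1 : ℕ) : κ) := by
    rw [Polynomial.coeff_derivative]
    have : ((j : MvPolynomial (Fin 2) κ) + 1) = MvPolynomial.C ((j + 1 : ℕ) : κ) := by
      rw [map_natCast]; push_cast; rfl
    rw [this, mul_comm, MvPolynomial.coeff_C_mul, mul_comm]
  let C2 : Finset κ := (Finset.range (N + 1)).biUnion fun n =>
    (g.coeff n).support.image fun m => (g.coeff n).coeff m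
  refine ⟨C1 ∪ C2 ∪ {MvPolynomial.coeff m ((Polynomial.derivative g).coeff j)}, ?_⟩
  intro Ω _ P hP
  have hP1 : P.Gd C1 := hP.mono fun c hc =>
    Finset.mem_union_left _ (Finset.mem_union_left _ hc)
  have hP2 : P.Gd C2 := hP.mono fun c hc =>
    Finset.mem_union_left _ (Finset.mem_union_right _ hc)
  have hP3 := hP _ (Finset.mem_union_right _ (Finset.mem_singleton_self _)) hm
  have hO : ∀ j m, (g.coeff j).coeff m ∈ P.O := by
    intro j m
    by_cases h0 : (g.coeff j).coeff m = 0
    · rw [h0]; exact zero_mem _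
    · have hj : j ∈ Finset.range (N + 1) := by
        rw [Finset.mem_range]
        by_contra hlt
        push Not at hlt
        apply h0
        rw [Polynomial.coeff_eq_zero_of_natDegree_lt (by rw [hM.deg]; omega),
          MvPolynomial.coeff_zero]
      exact (hP2 _ (Finset.mem_biUnion.2 ⟨j, hj, Finset.mem_image.2
        ⟨m, MvPolynomial.mem_support_iff.2 h0, rfl⟩⟩) h0).1
  refine ⟨hO, ?_⟩
  apply hSPM Ω N a (P.pl g) (monic_pl hM.monic) (by rw [natDegree_pl hM.monic, hM.deg]) hN
  · intro j hj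
    rw [Plc.coeff_pl]
    exact (totalDegree_mv _).trans (hM.bound j hj)
  · exact hC1 Ω P hP1
  · intro h
    have h1 := congrArg (fun q => MvPolynomial.coeff m (q.coeff j)) h
    simp only [Polynomial.coeff_zero, MvPolynomial.coeff_zero] at h1
    rw [Polynomial.coeff_derivative, Plc.coeff_pl] at h1
    have h2 : ((j : MvPolynomial (Fin 2) Ω) + 1) = MvPolynomial.C ((j + 1 : ℕ) : Ω) := by
      rw [map_natCast]; push_cast; rfl
    rw [h2, mul_comm, MvPolynomial.coeff_C_mul, mul_comm, Plc.coeff_mv, ← res_natCast (P := P),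
      ← Plc.res_mul (hO _ _) (natCast_mem P.O _), ← hcoeff] at h1
    exact Plc.res_ne_zero hm hP3.1 hP3.2 h1

end Pool.Agent.SPR
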