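import Pool.Agent.SPR.Stmts

/-!
# Module SPM: construction of a model from its equation
-/

set_option autoImplicit false

noncomputable section

namespace Pool.Agent.SPR

open Pool.Agent.SRF

namespace SPM_

open Polynomial in
theorem sep_of_gen {K E : Type} [Field K] [Field E] [Algebra K E] (w : E) (hw : IsSeparable K w)
    (hgen : ∀ z : E, ∃ p : K[X], z = aeval w p) : Algebra.IsSeparable K E := by
  have h1 : Algebra.IsSeparable K (IntermediateField.adjoin K {w}) :=
    (IntermediateField.isSeparable_adjoin_simple_iff_isSeparable K E).2 hw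
  have h2 : IntermediateField.adjoin K {w} = ⊤ := by
    rw [eq_top_iff]
    intro z _
    obtain ⟨p, rfl⟩ := hgen z
    exact IntermediateField.algebra_adjoin_le_adjoin K _ (aeval_mem_adjoin_singleton K _)
  rw [h2] at h1
  exact AlgEquiv.Algebra.isSeparable IntermediateField.topEquiv

open Polynomial in
/-- a field generated by a root of a separable irreducible polynomial -/
theorem root_field {K : Type} [Field K] (g : K[X]) (hg : g.Monic) (hi : Irreducible g)
    (hd : derivative g ≠ 0) : ∃ (E : Type) (_ : Field E) (_ : Algebra K E) (w : E),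
    FiniteDimensional K E ∧ Algebra.IsSeparable K E ∧ Module.finrank K E = g.natDegree ∧
    aeval w g = 0 ∧ ∀ z : E, ∃ p : K[X], z = aeval w p := by
  have hfact : Fact (Irreducible g) := ⟨hi⟩
  have hfin : FiniteDimensional K (AdjoinRoot g) := (AdjoinRoot.powerBasis hg.ne_zero).finite
  have hgen : ∀ z : AdjoinRoot g, ∃ p : K[X], z = aeval (AdjoinRoot.root g) p := by
    intro z
    obtain ⟨p, rfl⟩ := AdjoinRoot.mk_surjective z
    exact ⟨p, by rw [AdjoinRoot.aeval_eq]⟩
  have hroot : aeval (AdjoinRoot.root g) g = 0 := by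
    rw [AdjoinRoot.aeval_eq, AdjoinRoot.mk_self]
  refine ⟨AdjoinRoot g, inferInstance, inferInstance, AdjoinRoot.root g, hfin, ?_, ?_, hroot, hgen⟩
  · have hsep : IsSeparable K (AdjoinRoot.root g) := by
      unfold IsSeparable
      have hmin : minpoly K (AdjoinRoot.root g) = g :=
        (minpoly.eq_of_irreducible_of_monic hi hroot hg).symm
      rw [hmin]
      exact (separable_iff_derivative_ne_zero hi).2 hd
    exact sep_of_gen _ hsep hgen
  · rw [(AdjoinRoot.powerBasis hg.ne_zero).finrank, AdjoinRoot.powerBasis_dim]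

theorem tower {Ω K Fs : Type} [Field Ω] [Field K] [Field Fs] [Algebra Ω K] [Algebra K Fs]
    [Algebra Ω Fs] [IsScalarTower Ω K Fs] (E : IntermediateField Ω Fs)
    (hE : ∀ a : K, algebraMap K Fs a ∈ E) (hE' : ∀ e ∈ E, ∃ a : K, algebraMap K Fs a = e)
    [FiniteDimensional K Fs] [Algebra.IsSeparable K Fs] :
    FiniteDimensional E Fs ∧ Algebra.IsSeparable E Fs ∧
      Module.finrank E Fs = Module.finrank K Fs := by
  let _ : Algebra K E := ((algebraMap K Fs).codRestrict E hE).toAlgebra
  have hmap : ∀ a : K, ((algebraMap K E a : E) : Fs) = algebraMap K Fs a := fun a => rfl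
  have hT : IsScalarTower K E Fs := IsScalarTower.of_algebraMap_eq fun a => (hmap a).symm
  refine ⟨FiniteDimensional.right K E Fs, Algebra.isSeparable_tower_top_of_isSeparable K E Fs, ?_⟩
  have h1 : Function.Bijective (Algebra.linearMap K E) := by
    constructor
    · exact (algebraMap K E).injective
    · intro e
      obtain ⟨a, ha⟩ := hE' e.1 e.2
      exact ⟨a, Subtype.ext ((hmap a).trans ha)⟩
  have h2 : Module.finrank K E = 1 := by
    rw [← (LinearEquiv.ofBijective (Algebra.linearMap K E) h1).finrank_eq, Module.finrank_self]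
  rw [← Module.finrank_mul_finrank K E Fs, h2, one_mul]

end SPM_

open SPM_ in
theorem SPM_proof : Stmt_SPM := by
  intro Ω _ N a g hm hN hN0 hb hi hd
  let R := MvPolynomial (Fin 2) Ω
  let K := FractionRing R
  have hinjRK : Function.Injective (algebraMap R K) := IsFractionRing.injective R K
  have hi' : Irreducible (g.map (algebraMap R K)) :=
    (Polynomial.Monic.irreducible_iff_irreducible_map_fraction_map hm).1 hi
  have hd' : Polynomial.derivative (g.map (algebraMap R K)) ≠ 0 := by
    rw [Polynomial.derivative_map]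
    exact (Polynomial.map_ne_zero_iff hinjRK).2 hd
  obtain ⟨Fs, hF, hA, ws, hfin, hsep, hrk, hroot, hgen⟩ :=
    root_field (g.map (algebraMap R K)) (hm.map _) hi' hd'
  let iA : Algebra Ω Fs := ((algebraMap K Fs).comp (algebraMap Ω K)).toAlgebra
  have hT : IsScalarTower Ω K Fs := IsScalarTower.of_algebraMap_eq fun _ => rfl
  let xs : Fs := algebraMap K Fs (algebraMap R K (MvPolynomial.X 0))
  let ys : Fs := algebraMap K Fs (algebraMap R K (MvPolynomial.X 1))
  have hae : ∀ r : R, MvPolynomial.aeval ![xs, ys] r = algebraMap K Fs (algebraMap R K r) := by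
    intro r
    have h1 : (MvPolynomial.aeval ![xs, ys] : R →ₐ[Ω] Fs) =
        (IsScalarTower.toAlgHom Ω K Fs).comp (IsScalarTower.toAlgHom Ω R K) := by
      apply MvPolynomial.algHom_ext
      intro i
      rw [MvPolynomial.aeval_X]
      fin_cases i
      · rfl
      · rfl
    exact DFunLike.congr_fun h1 r
  have hind : AlgebraicIndependent Ω ![xs, ys] := by
    rw [algebraicIndependent_iff_injective_aeval]
    intro p q hpq
    rw [hae, hae] at hpq
    exact hinjRK ((algebraMap K Fs).injective hpq)
  have hE : ∀ c : K, algebraMap K Fs c ∈ IntermediateField.adjoin Ω {xs, ys} := by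
    intro c
    have haux : ∀ r : R, algebraMap K Fs (algebraMap R K r) ∈
        IntermediateField.adjoin Ω {xs, ys} := by
      intro r
      rw [← hae]
      have h1 : MvPolynomial.aeval ![xs, ys] r ∈ Algebra.adjoin Ω (Set.range ![xs, ys]) := by
        rw [Algebra.adjoin_range_eq_range_aeval]
        exact ⟨r, rfl⟩
      have h2 : Set.range ![xs, ys] = {xs, ys} := by
        rw [Matrix.range_cons, Matrix.range_cons, Matrix.range_empty, Set.union_empty]
        rfl
      rw [h2] at h1
      exact IntermediateField.algebra_adjoin_le_adjoin Ω _ h1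
    obtain ⟨r, s, -, rfl⟩ := IsFractionRing.div_surjective (A := R) c
    rw [map_div₀]
    exact div_mem (haux r) (haux s)
  have hE' : ∀ e ∈ IntermediateField.adjoin Ω {xs, ys}, ∃ c : K, algebraMap K Fs c = e := by
    have h1 : IntermediateField.adjoin Ω {xs, ys} ≤ (IsScalarTower.toAlgHom Ω K Fs).fieldRange := by
      rw [IntermediateField.adjoin_le_iff]
      rintro z (rfl | hz)
      · exact ⟨_, rfl⟩
      · rw [Set.mem_singleton_iff] at hz
        subst hz
        exact ⟨_, rfl⟩
    intro e he
    exact h1 he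
  obtain ⟨h1, h2, h3⟩ := tower (IntermediateField.adjoin Ω {xs, ys}) hE hE'
  refine ⟨Fs, hF, iA, xs, ys, ws, ⟨hind, h1, h2⟩, hm, hN, ?_, hb, ?_, ?_⟩
  · rw [h3, hrk, hm.natDegree_map, hN]
  · have h4 : Polynomial.eval₂ ((algebraMap K Fs).comp (algebraMap R K)) ws g = 0 := by
      rw [← Polynomial.eval₂_map]
      exact hroot
    rw [Polynomial.eval₂_eq_sum_range, hN] at h4
    rw [← h4]
    refine Finset.sum_congr rfl fun j _ => ?_
    rw [hae]
    rfl
  · rw [eq_top_iff]
    intro z _
    obtain ⟨p, rfl⟩ := hgen z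
    rw [Polynomial.aeval_eq_sum_range]
    refine sum_mem fun j _ => ?_
    rw [Algebra.smul_def]
    refine mul_mem ?_ (pow_mem (IntermediateField.subset_adjoin _ _ (Set.mem_singleton _)) j)
    exact (IntermediateField.adjoin (IntermediateField.adjoin Ω {xs, ys}) {ws}).algebraMap_mem
      ⟨_, hE (p.coeff j)⟩

end Pool.Agent.SPR
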