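import Pool.Agent.SPR.Stmts

set_option autoImplicit false

noncomputable section

namespace Pool.Agent.SPR

open Pool.Agent.SRF

namespace TRF_

open MvPolynomial

section gen

variable {σ : Type} {R R' : Type} [CommRing R] [CommRing R']

/-- polynomials in `W` over polynomials in `X, Y` over polynomials in the unknowns -/
abbrev T (R σ : Type) [CommRing R] : Type := Polynomial (MvPolynomial (Fin 2) (MvPolynomial σ R))

/-- change of representation -/
def θ (R σ : Type) [CommRing R] : MvPolynomial (σ ⊕ Fin 3) R →+* T R σ :=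
  eval₂Hom (Polynomial.C.comp (C.comp C))
    (Sum.elim (fun s => Polynomial.C (C (X s))) ![Polynomial.C (X 0), Polynomial.C (X 1),
      Polynomial.X])

/-- change of coefficients -/
def mapT (σ : Type) (φ : R →+* R') : T R σ →+* T R' σ :=
  Polynomial.mapRingHom (MvPolynomial.map (MvPolynomial.map φ))

theorem θ_map (φ : R →+* R') (f : MvPolynomial (σ ⊕ Fin 3) R) :
    mapT σ φ (θ R σ f) = θ R' σ (MvPolynomial.map φ f) := by
  have h : (mapT σ φ).comp (θ R σ) = (θ R' σ).comp (MvPolynomial.map φ) := by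
    apply MvPolynomial.ringHom_ext
    · intro a
      simp [θ, mapT]
    · rintro (s | s)
      · simp [θ, mapT]
      · fin_cases s <;> simp [θ, mapT]
  exact RingHom.congr_fun h f

/-- the equation of the model -/
def lg (σ : Type) (g : Polynomial (MvPolynomial (Fin 2) R)) : T R σ :=
  g.map (MvPolynomial.map C)

theorem lg_map (φ : R →+* R') (g : Polynomial (MvPolynomial (Fin 2) R)) :
    mapT σ φ (lg σ g) = lg σ (g.map (MvPolynomial.map φ)) := by
  unfold mapT lg
  rw [Polynomial.coe_mapRingHom, Polynomial.map_map, Polynomial.map_map]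
  congr 1
  apply MvPolynomial.ringHom_ext
  · intro a
    simp
  · intro i
    simp

theorem lg_monic {g : Polynomial (MvPolynomial (Fin 2) R)} (h : g.Monic) : (lg σ g).Monic :=
  h.map _

/-- evaluation -/
def ev {F : Type} [CommRing F] [Algebra R F] (u : σ → R) (x y w : F) : T R σ →+* F :=
  Polynomial.eval₂RingHom (eval₂Hom ((algebraMap R F).comp (eval₂Hom (RingHom.id R) u)) ![x, y]) w

theorem ev_θ {F : Type} [CommRing F] [Algebra R F] (u : σ → R) (x y w : F)
    (f : MvPolynomial (σ ⊕ Fin 3) R) :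
    ev u x y w (θ R σ f) = aeval (Sum.elim (fun i => algebraMap R F (u i)) ![x, y, w]) f := by
  have h : (ev u x y w).comp (θ R σ) =
      (aeval (Sum.elim (fun i => algebraMap R F (u i)) ![x, y, w]) :
        MvPolynomial (σ ⊕ Fin 3) R →ₐ[R] F).toRingHom := by
    apply MvPolynomial.ringHom_ext
    · intro a
      simp [θ, ev]
    · rintro (s | s)
      · simp [θ, ev]
      · fin_cases s <;> simp [θ, ev]
  exact RingHom.congr_fun h f

theorem ev_coef {F : Type} [CommRing F] [Algebra R F] (u : σ → R) (x y : F)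
    (p : MvPolynomial (Fin 2) (MvPolynomial σ R)) :
    eval₂Hom ((algebraMap R F).comp (eval₂Hom (RingHom.id R) u)) ![x, y] p =
      aeval ![x, y] (MvPolynomial.map (eval₂Hom (RingHom.id R) u) p) := by
  rw [MvPolynomial.aeval_def, MvPolynomial.eval₂_map]
  rfl

theorem ev_lg {F : Type} [CommRing F] [Algebra R F] (u : σ → R) (x y w : F)
    (g : Polynomial (MvPolynomial (Fin 2) R)) :
    ev u x y w (lg σ g) = ∑ j ∈ Finset.range (g.natDegree + 1), aeval ![x, y] (g.coeff j) * w ^ j := by
  unfold ev lg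
  rw [Polynomial.coe_eval₂RingHom, Polynomial.eval₂_map]
  have h : (eval₂Hom ((algebraMap R F).comp (eval₂Hom (RingHom.id R) u)) ![x, y]).comp
      (MvPolynomial.map C) = (aeval ![x, y] : MvPolynomial (Fin 2) R →ₐ[R] F).toRingHom := by
    apply MvPolynomial.ringHom_ext
    · intro a
      simp
    · intro i
      simp
  rw [h, Polynomial.eval₂_eq_sum_range]
  rfl

end gen

section place

variable {κ Ω : Type} [Field κ] [Field Ω] (P : Plc κ Ω)

theorem lift_mv {τ : Type} (f : MvPolynomial τ κ) (h : ∀ m, f.coeff m ∈ P.O) :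
    ∃ f₀ : MvPolynomial τ P.O, MvPolynomial.map P.O.subtype f₀ = f := by
  refine ⟨∑ m ∈ f.support, MvPolynomial.monomial m ⟨f.coeff m, h m⟩, ?_⟩
  rw [map_sum]
  conv_rhs => rw [f.as_sum]
  refine Finset.sum_congr rfl fun m _ => ?_
  rw [MvPolynomial.map_monomial]
  rfl

theorem mv_map {τ : Type} (f₀ : MvPolynomial τ P.O) :
    P.mv (MvPolynomial.map P.O.subtype f₀) = MvPolynomial.map P.r f₀ := by
  ext m
  rw [Plc.coeff_mv, MvPolynomial.coeff_map, MvPolynomial.coeff_map]
  change P.res ((f₀.coeff m : P.O) : κ) = _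
  rw [Plc.res_of_mem (f₀.coeff m).2]

theorem lift_pl {τ : Type} (g : Polynomial (MvPolynomial τ κ))
    (h : ∀ j m, (g.coeff j).coeff m ∈ P.O) :
    ∃ g₀ : Polynomial (MvPolynomial τ P.O), g₀.map (MvPolynomial.map P.O.subtype) = g := by
  choose f₀ hf₀ using fun j => lift_mv P (g.coeff j) (h j)
  refine ⟨∑ j ∈ g.support, Polynomial.monomial j (f₀ j), ?_⟩
  rw [Polynomial.map_sum]
  conv_rhs => rw [g.as_sum_support]
  refine Finset.sum_congr rfl fun j _ => ?_
  rw [Polynomial.map_monomial, hf₀]

theorem pl_map {τ : Type} (g₀ : Polynomial (MvPolynomial τ P.O)) :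
    P.pl (g₀.map (MvPolynomial.map P.O.subtype)) = g₀.map (MvPolynomial.map P.r) := by
  ext j : 1
  rw [Plc.coeff_pl, Polynomial.coeff_map, Polynomial.coeff_map, mv_map]

theorem sub_inj {τ : Type} : Function.Injective (MvPolynomial.map (σ := τ) P.O.subtype) :=
  MvPolynomial.map_injective _ Subtype.val_injective

end place

section model

variable {k F : Type} [Field k] [Field F] [Algebra k F] {x y w : F} {N a : ℕ}
  {g : Polynomial (MvPolynomial (Fin 2) k)}

theorem aeval_mem (p : MvPolynomial (Fin 2) k) :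
    aeval ![x, y] p ∈ IntermediateField.adjoin k {x, y} := by
  have h1 : aeval ![x, y] p ∈ Algebra.adjoin k (Set.range ![x, y]) := by
    rw [Algebra.adjoin_range_eq_range_aeval]
    exact ⟨p, rfl⟩
  have h2 : Set.range ![x, y] = {x, y} := by
    ext t
    simp [eq_comm, or_comm]
  rw [h2] at h1
  exact IntermediateField.algebra_adjoin_le_adjoin k _ h1

/-- independence of the powers of `w` -/
theorem indep (h : Mdl k x y w N a g) (c : ℕ → F)
    (hc : ∀ i, c i ∈ IntermediateField.adjoin k {x, y})
    (h0 : ∑ i ∈ Finset.range N, c i * w ^ i = 0) : ∀ i < N, c i = 0 := by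
  let K := IntermediateField.adjoin k {x, y}
  have hfin : FiniteDimensional K F := h.surf.fin
  have hdeg : (minpoly K w).natDegree = N := by
    rw [← h.rank]
    exact (Field.primitive_element_iff_minpoly_natDegree_eq K w).1 h.gen
  let p : Polynomial K := ∑ i ∈ Finset.range N, Polynomial.monomial i (⟨c i, hc i⟩ : K)
  have hp : Polynomial.aeval w p = 0 := by
    rw [map_sum, ← h0]
    refine Finset.sum_congr rfl fun i _ => ?_
    rw [Polynomial.aeval_monomial]
    rfl
  have hp0 : p = 0 := by
    by_contra hne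
    have h1 := Polynomial.natDegree_le_natDegree (minpoly.degree_le_of_ne_zero K w hne hp)
    rw [hdeg] at h1
    have hN : 0 < N := by
      rw [← hdeg]
      exact minpoly.natDegree_pos (Algebra.IsIntegral.isIntegral w)
    have h2 : p.natDegree < N := by
      have h3 : p.natDegree ≤ N - 1 := by
        apply Polynomial.natDegree_sum_le_of_forall_le
        intro i hi
        refine le_trans (Polynomial.natDegree_monomial_le _) ?_
        have := Finset.mem_range.1 hi
        omega
      omega
    omega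
  intro i hi
  have h1 : p.coeff i = 0 := by rw [hp0, Polynomial.coeff_zero]
  rw [Polynomial.finsetSum_coeff, Finset.sum_eq_single i] at h1
  · rw [Polynomial.coeff_monomial, if_pos rfl] at h1
    exact congrArg Subtype.val h1
  · intro j _ hj
    rw [Polynomial.coeff_monomial, if_neg hj]
  · intro h2
    exact absurd (Finset.mem_range.2 hi) h2

/-- the remainder of a polynomial -/
def rem (σ : Type) (g : Polynomial (MvPolynomial (Fin 2) k)) (f : MvPolynomial (σ ⊕ Fin 3) k) :
    T k σ := θ k σ f %ₘ lg σ g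

theorem lg_root (h : Mdl k x y w N a g) {σ : Type} (u : σ → k) : ev u x y w (lg σ g) = 0 := by
  rw [ev_lg, h.deg]
  exact h.root

theorem ev_rem (h : Mdl k x y w N a g) {σ : Type} (u : σ → k) (f : MvPolynomial (σ ⊕ Fin 3) k) :
    ev u x y w (rem σ g f) =
      aeval (Sum.elim (fun i => algebraMap k F (u i)) ![x, y, w]) f := by
  have h1 := Polynomial.modByMonic_add_div (θ k σ f) (lg σ g)
  have h2 := congrArg (ev u x y w) h1
  rw [map_add, map_mul, lg_root h, zero_mul, add_zero, ev_θ] at h2
  exact h2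

theorem rem_deg (h : Mdl k x y w N a g) {σ : Type} (f : MvPolynomial (σ ⊕ Fin 3) k) (i : ℕ)
    (hi : N ≤ i) : (rem σ g f).coeff i = 0 := by
  apply Polynomial.coeff_eq_zero_of_degree_lt
  refine lt_of_lt_of_le (Polynomial.degree_modByMonic_lt _ (lg_monic h.monic)) ?_
  have h1 : (lg σ g).natDegree = N := by
    unfold lg
    rw [h.monic.natDegree_map, h.deg]
  refine le_trans Polynomial.degree_le_natDegree ?_
  rw [h1]
  exact_mod_cast hi

theorem ev_sum (h : Mdl k x y w N a g) {σ : Type} (u : σ → k) (f : MvPolynomial (σ ⊕ Fin 3) k) :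
    ev u x y w (rem σ g f) = ∑ i ∈ Finset.range N,
      aeval ![x, y] (MvPolynomial.map (eval₂Hom (RingHom.id k) u) ((rem σ g f).coeff i)) * w ^ i := by
  have hle : (rem σ g f).natDegree + 1 ≤ N ∨ N = 0 := by
    by_cases hN : N = 0
    · exact Or.inr hN
    · left
      by_contra hcon
      have h1 : N ≤ (rem σ g f).natDegree := by omega
      have h2 := rem_deg h f _ h1
      have h3 : rem σ g f = 0 := Polynomial.leadingCoeff_eq_zero.1 h2
      rw [h3, Polynomial.natDegree_zero] at h1
      omega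
  have hbig : ∀ i, N ≤ i → (rem σ g f).coeff i = 0 := fun i hi => rem_deg h f i hi
  have h1 : ev u x y w (rem σ g f) = ∑ i ∈ Finset.range ((rem σ g f).natDegree + 1 + N),
      aeval ![x, y] (MvPolynomial.map (eval₂Hom (RingHom.id k) u) ((rem σ g f).coeff i)) * w ^ i := by
    change Polynomial.eval₂ _ _ _ = _
    rw [Polynomial.eval₂_eq_sum_range' _ (n := (rem σ g f).natDegree + 1 + N) (by omega)]
    refine Finset.sum_congr rfl fun i _ => ?_
    rw [ev_coef]
  rw [h1]
  symm
  apply Finset.sum_subset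
  · intro i hi
    rw [Finset.mem_range] at hi ⊢
    omega
  · intro i _ hi
    rw [Finset.mem_range, not_lt] at hi
    rw [hbig i hi]
    simp

/-- a zero of the equation is a zero of all coefficients of the remainder -/
theorem zero_coef (h : Mdl k x y w N a g) {σ : Type} (u : σ → k) (f : MvPolynomial (σ ⊕ Fin 3) k)
    (h0 : aeval (Sum.elim (fun i => algebraMap k F (u i)) ![x, y, w]) f = 0) (i : ℕ)
    (m : Fin 2 →₀ ℕ) : MvPolynomial.eval u (((rem σ g f).coeff i).coeff m) = 0 := by
  by_cases hi : N ≤ i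
  · rw [rem_deg h f i hi]
    simp
  rw [not_le] at hi
  rw [← ev_rem h, ev_sum h] at h0
  have h1 := indep h _ (fun i => aeval_mem _) h0 i hi
  have h2 : MvPolynomial.map (eval₂Hom (RingHom.id k) u) ((rem σ g f).coeff i) = 0 := by
    apply h.surf.indep
    rw [h1, map_zero]
  have h3 := congrArg (MvPolynomial.coeff m) h2
  rw [MvPolynomial.coeff_map, MvPolynomial.coeff_zero] at h3
  exact h3

/-- a zero of all coefficients of the remainder is a zero of the equation -/
theorem coef_zero (h : Mdl k x y w N a g) {σ : Type} (u : σ → k) (f : MvPolynomial (σ ⊕ Fin 3) k)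
    (h0 : ∀ i m, MvPolynomial.eval u (((rem σ g f).coeff i).coeff m) = 0) :
    aeval (Sum.elim (fun i => algebraMap k F (u i)) ![x, y, w]) f = 0 := by
  rw [← ev_rem h, ev_sum h]
  apply Finset.sum_eq_zero
  intro i _
  have h2 : MvPolynomial.map (eval₂Hom (RingHom.id k) u) ((rem σ g f).coeff i) = 0 := by
    ext m
    rw [MvPolynomial.coeff_map, MvPolynomial.coeff_zero]
    exact h0 i m
  rw [h2, map_zero, zero_mul]

end model

/-- the remainders specialise -/
theorem rem_mv {κ Ω : Type} [Field κ] [Field Ω] (P : Plc κ Ω) {σ : Type}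
    (g : Polynomial (MvPolynomial (Fin 2) κ)) (hg : g.Monic)
    (hgO : ∀ j m, (g.coeff j).coeff m ∈ P.O) (f : MvPolynomial (σ ⊕ Fin 3) κ)
    (hf : ∀ m, f.coeff m ∈ P.O) (i : ℕ) (m : Fin 2 →₀ ℕ) :
    P.mv (((rem σ g f).coeff i).coeff m) = ((rem σ (P.pl g) (P.mv f)).coeff i).coeff m := by
  obtain ⟨f₀, rfl⟩ := lift_mv P f hf
  obtain ⟨g₀, rfl⟩ := lift_pl P g hgO
  have hg₀ : g₀.Monic := Polynomial.monic_of_injective (sub_inj P) hg
  have h1 : ∀ {R' : Type} [Field R'] (φ : P.O →+* R'),
      rem σ (g₀.map (MvPolynomial.map φ)) (MvPolynomial.map φ f₀) =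
        mapT σ φ (θ P.O σ f₀ %ₘ lg σ g₀) := by
    intro R' _ φ
    unfold rem
    rw [← θ_map, ← lg_map]
    unfold mapT
    rw [Polynomial.coe_mapRingHom, Polynomial.map_modByMonic _ (lg_monic hg₀)]
  rw [mv_map, pl_map, h1, h1]
  unfold mapT
  rw [Polynomial.coe_mapRingHom, Polynomial.coe_mapRingHom, Polynomial.coeff_map,
    Polynomial.coeff_map, MvPolynomial.coeff_map, MvPolynomial.coeff_map, mv_map]

end TRF_

open TRF_ in
theorem TRF_proof (hNSC : Stmt_NSC) : Stmt_TRF := by
  classical
  intro κ F _ _ _ _ x y w N a g hM σ _ Q hyp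
  let S : Finset (MvPolynomial σ κ) := Q.biUnion fun f => (rem σ g f).support.biUnion fun i =>
    ((rem σ g f).coeff i).support.image fun m => ((rem σ g f).coeff i).coeff m
  have hS : ∀ f ∈ Q, ∀ i m, ((rem σ g f).coeff i).coeff m = 0 ∨
      ((rem σ g f).coeff i).coeff m ∈ S := by
    intro f hf i m
    by_cases h : ((rem σ g f).coeff i).coeff m = 0
    · exact Or.inl h
    · right
      rw [Finset.mem_biUnion]
      refine ⟨f, hf, ?_⟩
      rw [Finset.mem_biUnion]
      refine ⟨i, ?_, ?_⟩
      · rw [Polynomial.mem_support_iff]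
        intro h1
        apply h
        rw [h1, MvPolynomial.coeff_zero]
      · rw [Finset.mem_image]
        exact ⟨m, MvPolynomial.mem_support_iff.2 h, rfl⟩
  by_cases hex : ∃ u : σ → κ, ∀ f ∈ S, MvPolynomial.eval u f = 0
  · obtain ⟨u, hu⟩ := hex
    refine ⟨u, fun f hf => coef_zero hM u f fun i m => ?_⟩
    rcases hS f hf i m with h | h
    · rw [h, map_zero]
    · exact hu _ h
  · exfalso
    obtain ⟨C₁, hC₁⟩ := hNSC κ σ S hex
    let C₂ : Finset κ := Q.biUnion fun f => f.support.image fun m => f.coeff m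
    let C₃ : Finset κ := g.support.biUnion fun j => (g.coeff j).support.image fun m =>
      (g.coeff j).coeff m
    obtain ⟨Ω, _, P, hP, Fs, _, _, xs, ys, ws, hMs, u, hu⟩ := hyp (C₁ ∪ (C₂ ∪ C₃))
    have hP1 : P.Gd C₁ := Plc.Gd.mono Finset.subset_union_left hP
    have hP2 : P.Gd C₂ := Plc.Gd.mono
      (Finset.subset_union_left.trans Finset.subset_union_right) hP
    have hP3 : P.Gd C₃ := Plc.Gd.mono
      (Finset.subset_union_right.trans Finset.subset_union_right) hP
    have hfO : ∀ f ∈ Q, ∀ m, f.coeff m ∈ P.O := by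
      intro f hf m
      by_cases h : f.coeff m = 0
      · rw [h]
        exact zero_mem _
      · apply (hP2 _ _ h).1
        rw [Finset.mem_biUnion]
        exact ⟨f, hf, Finset.mem_image.2 ⟨m, MvPolynomial.mem_support_iff.2 h, rfl⟩⟩
    have hgO : ∀ j m, (g.coeff j).coeff m ∈ P.O := by
      intro j m
      by_cases h : (g.coeff j).coeff m = 0
      · rw [h]
        exact zero_mem _
      · apply (hP3 _ _ h).1
        rw [Finset.mem_biUnion]
        refine ⟨j, ?_, Finset.mem_image.2 ⟨m, MvPolynomial.mem_support_iff.2 h, rfl⟩⟩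
        rw [Polynomial.mem_support_iff]
        intro h1
        apply h
        rw [h1, MvPolynomial.coeff_zero]
    apply hC₁ Ω P hP1
    refine ⟨u, fun s hs => ?_⟩
    rw [Finset.mem_biUnion] at hs
    obtain ⟨f, hf, hs⟩ := hs
    rw [Finset.mem_biUnion] at hs
    obtain ⟨i, -, hs⟩ := hs
    rw [Finset.mem_image] at hs
    obtain ⟨m, -, rfl⟩ := hs
    rw [rem_mv P g hM.monic hgO f (hfO f hf)]
    exact zero_coef hMs u (P.mv f) (hu f hf) i m

end Pool.Agent.SPR
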