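import Mathlib

/-!
# A stable group of odd functions on a finite abelian group contains a difference of two CM types

`G` is a finite abelian group, `c` an element with `c ^ 2 = 1`.  Every nonzero group `R` of functions
`n : G → ℤ` with `n (c x) = - n x`, stable under translations, contains a positive multiple of
`1_Ψ - 1_Ψ'` for two different CM types `Ψ`, `Ψ'`.
-/

set_option autoImplicit false

open scoped BigOperators

namespace Pool.Agent.SPR

noncomputable section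

namespace KT

variable {G : Type} [CommGroup G]

/-- The group elements in the group algebra. -/
def gg (x : G) : MonoidAlgebra ℚ G := MonoidAlgebra.single x 1

theorem gg_mul (x y : G) : gg (x * y) = gg x * gg y := by
  unfold gg
  rw [MonoidAlgebra.single_mul_single, one_mul]

theorem gg_one : gg (1 : G) = 1 := rfl

theorem gg_pow (x : G) (n : ℕ) : gg (x ^ n) = gg x ^ n := by
  induction n with
  | zero => rw [pow_zero, pow_zero, gg_one]
  | succ n ih => rw [pow_succ, pow_succ, gg_mul, ih]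

omit [CommGroup G] in
theorem gg_coeff [DecidableEq G] (x y : G) : (gg x).coeff y = if x = y then 1 else 0 := by
  unfold gg
  rw [MonoidAlgebra.coeff_single, Finsupp.single_apply]

variable [Fintype G]

theorem sum_coeff (a : MonoidAlgebra ℚ G) : a = ∑ x, a.coeff x • gg x := by
  classical
  apply MonoidAlgebra.ext
  apply Finsupp.ext
  intro y
  rw [MonoidAlgebra.coeff_sum, Finsupp.finsetSum_apply, Finset.sum_eq_single y]
  · rw [MonoidAlgebra.coeff_smul, Finsupp.smul_apply, gg_coeff, if_pos rfl, smul_eq_mul, mul_one]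
  · intro x _ hx
    rw [MonoidAlgebra.coeff_smul, Finsupp.smul_apply, gg_coeff, if_neg hx, smul_zero]
  · intro h
    exact absurd (Finset.mem_univ _) h

/-- Integral functions as elements of the group algebra. -/
def emb (n : G → ℤ) : MonoidAlgebra ℚ G := ∑ x, (n x : ℚ) • gg x

theorem emb_coeff (n : G → ℤ) (y : G) : (emb n).coeff y = n y := by
  classical
  unfold emb
  rw [MonoidAlgebra.coeff_sum, Finsupp.finsetSum_apply, Finset.sum_eq_single y]
  · rw [MonoidAlgebra.coeff_smul, Finsupp.smul_apply, gg_coeff, if_pos rfl, smul_eq_mul, mul_one]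
  · intro x _ hx
    rw [MonoidAlgebra.coeff_smul, Finsupp.smul_apply, gg_coeff, if_neg hx, smul_zero]
  · intro h
    exact absurd (Finset.mem_univ _) h

theorem gg_emb (h : G) (n : G → ℤ) : gg h * emb n = emb (fun x => n (h⁻¹ * x)) := by
  unfold emb
  rw [Finset.mul_sum]
  refine Fintype.sum_equiv (Equiv.mulLeft h) _ _ fun x => ?_
  rw [mul_smul_comm, ← gg_mul]
  simp

theorem emb_add (n m : G → ℤ) : emb (n + m) = emb n + emb m := by
  unfold emb
  rw [← Finset.sum_add_distrib]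
  refine Finset.sum_congr rfl fun x _ => ?_
  rw [Pi.add_apply, Int.cast_add, add_smul]

theorem emb_zsmul (k : ℤ) (n : G → ℤ) : emb (k • n) = (k : ℚ) • emb n := by
  unfold emb
  rw [Finset.smul_sum]
  refine Finset.sum_congr rfl fun x _ => ?_
  rw [smul_smul, Pi.smul_apply, smul_eq_mul, Int.cast_mul]

variable (R : AddSubgroup (G → ℤ))

/-- The rational span of `R`. -/
def TS : Submodule ℚ (MonoidAlgebra ℚ G) where
  carrier := {a | ∃ N : ℕ, 1 ≤ N ∧ ∃ n ∈ R, (N : ℚ) • a = emb n}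
  add_mem' := by
    rintro a b ⟨N, hN, n, hn, h1⟩ ⟨M, hM, m, hm, h2⟩
    refine ⟨N * M, Nat.mul_pos hN hM, (M : ℤ) • n + (N : ℤ) • m,
      R.add_mem (R.zsmul_mem hn _) (R.zsmul_mem hm _), ?_⟩
    rw [emb_add, emb_zsmul, emb_zsmul, ← h1, ← h2, smul_smul, smul_smul, smul_add]
    push_cast
    rw [mul_comm (N : ℚ) (M : ℚ)]
  zero_mem' := ⟨1, le_rfl, 0, R.zero_mem, by
    rw [smul_zero]
    unfold emb
    simp⟩
  smul_mem' := by
    rintro q a ⟨N, hN, n, hn, h1⟩
    refine ⟨N * q.den, Nat.mul_pos hN q.pos, q.num • n, R.zsmul_mem hn _, ?_⟩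
    rw [emb_zsmul, ← h1, smul_smul, smul_smul]
    congr 1
    push_cast
    have : (q.den : ℚ) * q = q.num := Rat.den_mul_eq_num q
    rw [mul_assoc, this, mul_comm]

theorem mem_TS (a : MonoidAlgebra ℚ G) :
    a ∈ TS R ↔ ∃ N : ℕ, 1 ≤ N ∧ ∃ n ∈ R, (N : ℚ) • a = emb n := Iff.rfl

/-- `R` is stable under translations. -/
def Stab : Prop := ∀ h : G, ∀ n ∈ R, (fun x => n (h * x)) ∈ R

theorem gg_TS (hR : Stab R) (h : G) {a : MonoidAlgebra ℚ G} (ha : a ∈ TS R) : gg h * a ∈ TS R := by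
  obtain ⟨N, hN, n, hn, h1⟩ := ha
  refine ⟨N, hN, _, hR h⁻¹ n hn, ?_⟩
  rw [← gg_emb, ← h1, mul_smul_comm]

/-- The ideal. -/
def TI (hR : Stab R) : Ideal (MonoidAlgebra ℚ G) where
  carrier := TS R
  add_mem' := (TS R).add_mem
  zero_mem' := (TS R).zero_mem
  smul_mem' := by
    intro b a ha
    rw [smul_eq_mul, sum_coeff b, Finset.sum_mul]
    refine (TS R).sum_mem fun x _ => ?_
    rw [smul_mul_assoc]
    exact (TS R).smul_mem _ (gg_TS R hR x ha)

theorem mem_TI (hR : Stab R) (a : MonoidAlgebra ℚ G) : a ∈ TI R hR ↔ a ∈ TS R := Iff.rfl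

theorem gg_mul_coeff (x : G) (a : MonoidAlgebra ℚ G) (y : G) :
    (gg x * a).coeff y = a.coeff (x⁻¹ * y) := by
  classical
  conv_lhs => rw [sum_coeff a]
  rw [Finset.mul_sum, MonoidAlgebra.coeff_sum, Finsupp.finsetSum_apply,
    Finset.sum_eq_single (x⁻¹ * y)]
  · rw [mul_smul_comm, ← gg_mul, MonoidAlgebra.coeff_smul, Finsupp.smul_apply, gg_coeff,
      if_pos (by group), smul_eq_mul, mul_one]
  · intro z _ hz
    rw [mul_smul_comm, ← gg_mul, MonoidAlgebra.coeff_smul, Finsupp.smul_apply, gg_coeff, if_neg,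
      smul_zero]
    intro h
    apply hz
    rw [← h]
    group
  · intro h
    exact absurd (Finset.mem_univ _) h

/-- Nonzero elements have nonzero images in some residue field. -/
theorem exists_max (a : MonoidAlgebra ℚ G) (ha : a ≠ 0) :
    ∃ m : Ideal (MonoidAlgebra ℚ G), m.IsMaximal ∧ a ∉ m := by
  have : NeZero (Nat.card G : ℚ) := ⟨by
    have : Nat.card G ≠ 0 := Nat.card_pos.ne'
    exact_mod_cast this⟩
  by_contra hcon
  push Not at hcon
  apply ha
  have h1 : a ∈ Ring.jacobson (MonoidAlgebra ℚ G) := by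
    refine Ideal.mem_sInf.mpr fun {I} hI => ?_
    exact hcon I (Ideal.isMaximal_def.mpr hI)
  rw [IsSemisimpleRing.jacobson_eq_bot] at h1
  exact h1

section hom

variable {K K' : Type} [Field K] [Field K'] [CharZero K] [CharZero K']

omit [Fintype G] in
theorem hom_pow (ψ : MonoidAlgebra ℚ G →ₐ[ℚ] K) (x : G) (n : ℕ) :
    ψ (gg (x ^ n)) = ψ (gg x) ^ n := by
  rw [gg_pow, map_pow]

omit [Fintype G] in
theorem hom_ne (ψ : MonoidAlgebra ℚ G →ₐ[ℚ] K) (x : G) : ψ (gg x) ≠ 0 := by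
  intro h
  have : ψ (gg x * gg x⁻¹) = 1 := by
    rw [← gg_mul, mul_inv_cancel, gg_one, map_one]
  rw [map_mul, h, zero_mul] at this
  exact zero_ne_one this

/-- Homomorphisms with the same kernel on `G` and mapping a generator to primitive roots of unity of the
same order have the same kernel. -/
theorem same_ker (ψ : MonoidAlgebra ℚ G →ₐ[ℚ] K) (ψ' : MonoidAlgebra ℚ G →ₐ[ℚ] K') (x : G) (d : ℕ)
    (hd : 0 < d) (h1 : IsPrimitiveRoot (ψ (gg x)) d) (h2 : IsPrimitiveRoot (ψ' (gg x)) d)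
    (hH : ∀ g, ψ (gg g) = 1 → ψ' (gg g) = 1) (hgen : ∀ g, ∃ i : ℕ, ψ (gg g) = ψ (gg x) ^ i)
    (a : MonoidAlgebra ℚ G) (ha : ψ' a = 0) : ψ a = 0 := by
  choose i hi using hgen
  have hi' : ∀ g, ψ' (gg g) = ψ' (gg x) ^ i g := by
    intro g
    have e1 : ψ (gg (g * (x ^ i g)⁻¹)) = 1 := by
      have e2 : ψ (gg (g * (x ^ i g)⁻¹)) * ψ (gg (x ^ i g)) = ψ (gg g) := by
        rw [← map_mul, ← gg_mul]
        congr 2
        group
      rw [hom_pow, ← hi] at e2
      have e3 : (ψ (gg (g * (x ^ i g)⁻¹)) - 1) * ψ (gg g) = 0 := by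
        rw [sub_mul, e2, one_mul, sub_self]
      rcases mul_eq_zero.1 e3 with e4 | e4
      · exact sub_eq_zero.1 e4
      · exact absurd e4 (hom_ne ψ g)
    have e2 : ψ' (gg (g * (x ^ i g)⁻¹)) * ψ' (gg (x ^ i g)) = ψ' (gg g) := by
      rw [← map_mul, ← gg_mul]
      congr 2
      group
    rw [hH _ e1, one_mul, hom_pow] at e2
    exact e2.symm
  let P : Polynomial ℚ := ∑ g, a.coeff g • Polynomial.X ^ i g
  have hP : Polynomial.aeval (ψ (gg x)) P = ψ a := by
    conv_rhs => rw [sum_coeff a]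
    rw [map_sum, map_sum]
    refine Finset.sum_congr rfl fun g _ => ?_
    rw [map_smul, map_smul, map_pow, Polynomial.aeval_X, hi g]
  have hP' : Polynomial.aeval (ψ' (gg x)) P = ψ' a := by
    conv_rhs => rw [sum_coeff a]
    rw [map_sum, map_sum]
    refine Finset.sum_congr rfl fun g _ => ?_
    rw [map_smul, map_smul, map_pow, Polynomial.aeval_X, hi' g]
  rw [ha] at hP'
  rw [← hP]
  have h3 : minpoly ℚ (ψ' (gg x)) ∣ P := minpoly.dvd ℚ _ hP'
  have h4 : minpoly ℚ (ψ' (gg x)) = minpoly ℚ (ψ (gg x)) := by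
    have e1 := Polynomial.cyclotomic_eq_minpoly_rat h2 hd
    have e2 := Polynomial.cyclotomic_eq_minpoly_rat h1 hd
    rw [← e1, e2]
  rw [h4] at h3
  obtain ⟨S, hS⟩ := h3
  rw [hS, map_mul, minpoly.aeval, zero_mul]

/-- The element. -/
def ff (H : Finset G) (x : G) (k : ℕ) : MonoidAlgebra ℚ G :=
  (∑ h ∈ H, gg h) * (1 - gg (x ^ k)) * ∏ p ∈ k.primeFactors.erase 2, (1 + gg (x ^ (k / p)))

theorem ff_hom (ψ : MonoidAlgebra ℚ G →ₐ[ℚ] K) (H : Finset G) (x : G) (k : ℕ) :
    ψ (ff H x k) = (∑ h ∈ H, ψ (gg h)) * (1 - ψ (gg x) ^ k) *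
      ∏ p ∈ k.primeFactors.erase 2, (1 + ψ (gg x) ^ (k / p)) := by
  unfold ff
  simp only [map_mul, map_sum, map_sub, map_one, map_prod, map_add, hom_pow]

theorem ff_ne (ψ : MonoidAlgebra ℚ G →ₐ[ℚ] K) (H : Finset G) (hH : ∀ g, g ∈ H ↔ ψ (gg g) = 1) (x : G)
    (k : ℕ) (hk : 0 < k) (h1 : IsPrimitiveRoot (ψ (gg x)) (2 * k)) : ψ (ff H x k) ≠ 0 := by
  rw [ff_hom]
  refine mul_ne_zero (mul_ne_zero ?_ ?_) ?_
  · rw [Finset.sum_congr rfl fun h hh => (hH h).1 hh, Finset.sum_const, nsmul_eq_mul, mul_one]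
    have h2 : (1 : G) ∈ H := by
      rw [hH, gg_one, map_one]
    have h3 : H.card ≠ 0 := Finset.card_ne_zero_of_mem h2
    exact_mod_cast h3
  · intro h
    have h2 : ψ (gg x) ^ k = 1 := (sub_eq_zero.1 h).symm
    have h3 := Nat.le_of_dvd hk (h1.dvd_of_pow_eq_one k h2)
    omega
  · rw [Finset.prod_ne_zero_iff]
    intro p hp h
    have hp' := Nat.prime_of_mem_primeFactors (Finset.mem_of_mem_erase hp)
    have hpk := Nat.dvd_of_mem_primeFactors (Finset.mem_of_mem_erase hp)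
    have h2 : ψ (gg x) ^ (k / p) = -1 := by linear_combination h
    have h3 : ψ (gg x) ^ (2 * (k / p)) = 1 := by
      rw [mul_comm, pow_mul, h2]
      ring
    have h5 : 0 < k / p := Nat.div_pos (Nat.le_of_dvd hk hpk) hp'.pos
    have h4 := Nat.le_of_dvd (by omega) (h1.dvd_of_pow_eq_one _ h3)
    have h6 : k / p < k := Nat.div_lt_self hk hp'.one_lt
    omega

theorem ff_prim (ψ' : MonoidAlgebra ℚ G →ₐ[ℚ] K') (H : Finset G) (hmul : ∀ g ∈ H, ∀ h, h ∈ H ↔ g * h ∈ H)
    (x : G) (k : ℕ) (hk : 0 < k) (hx : x ^ (2 * k) ∈ H) (hne : ψ' (ff H x k) ≠ 0) :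
    (∀ g ∈ H, ψ' (gg g) = 1) ∧ IsPrimitiveRoot (ψ' (gg x)) (2 * k) := by
  rw [ff_hom] at hne
  have h1 := left_ne_zero_of_mul (left_ne_zero_of_mul hne)
  have h2 := right_ne_zero_of_mul (left_ne_zero_of_mul hne)
  have h3 := right_ne_zero_of_mul hne
  have hH : ∀ g ∈ H, ψ' (gg g) = 1 := by
    intro g hg
    have e1 : ψ' (gg g) * ∑ h ∈ H, ψ' (gg h) = ∑ h ∈ H, ψ' (gg h) := by
      rw [Finset.mul_sum]
      refine Finset.sum_bij (fun h _ => g * h) ?_ ?_ ?_ ?_
      · intro h hh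
        exact (hmul g hg h).1 hh
      · intro h _ h' _ e
        exact mul_left_cancel e
      · intro h hh
        refine ⟨g⁻¹ * h, ?_, by group⟩
        rw [hmul g hg]
        have : g * (g⁻¹ * h) = h := by group
        rw [this]
        exact hh
      · intro h _
        rw [gg_mul, map_mul]
    have e2 : (ψ' (gg g) - 1) * ∑ h ∈ H, ψ' (gg h) = 0 := by
      rw [sub_mul, e1, one_mul, sub_self]
    rcases mul_eq_zero.1 e2 with e3 | e3
    · exact sub_eq_zero.1 e3
    · exact absurd e3 h1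
  refine ⟨hH, ?_⟩
  set y := ψ' (gg x) with hy
  have hy1 : y ^ (2 * k) = 1 := by
    rw [hy, ← hom_pow]
    exact hH _ hx
  have hyk : y ^ k ≠ 1 := by
    intro h
    apply h2
    rw [h, sub_self]
  have hord : orderOf y = 2 * k := by
    apply orderOf_eq_of_pow_and_pow_div_prime (by omega) hy1
    intro p hp hpd
    by_cases hp2 : p = 2
    · subst hp2
      rw [Nat.mul_div_cancel_left _ (by norm_num)]
      exact hyk
    · have hpk : p ∣ k := by
        rcases (Nat.Prime.dvd_mul hp).1 hpd with h | h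
        · exfalso
          exact hp2 ((Nat.prime_dvd_prime_iff_eq hp Nat.prime_two).1 h)
        · exact h
      intro h
      rw [Nat.mul_div_assoc _ hpk, mul_comm, pow_mul] at h
      have h4 : (y ^ (k / p) - 1) * (y ^ (k / p) + 1) = 0 := by linear_combination h
      rcases mul_eq_zero.1 h4 with h5 | h5
      · apply hyk
        have h6 : y ^ (k / p) = 1 := sub_eq_zero.1 h5
        calc y ^ k = (y ^ (k / p)) ^ p := by
              rw [← pow_mul, Nat.div_mul_cancel hpk]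
          _ = 1 := by rw [h6, one_pow]
      · rw [Finset.prod_ne_zero_iff] at h3
        apply h3 p (Finset.mem_erase.2 ⟨hp2, Nat.mem_primeFactors.2 ⟨hp, hpk, hk.ne'⟩⟩)
        linear_combination h5
  rw [← hord]
  exact IsPrimitiveRoot.orderOf y

/-- A generator of the image. -/
theorem exists_gen (ψ : MonoidAlgebra ℚ G →ₐ[ℚ] K) (c : G) (hc : ψ (gg c) = -1) :
    ∃ (x : G) (k : ℕ), 0 < k ∧ IsPrimitiveRoot (ψ (gg x)) (2 * k) ∧
      ∀ g, ∃ i : ℕ, ψ (gg g) = ψ (gg x) ^ i := by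
  let f : G →* K := ⟨⟨fun g => ψ (gg g), by rw [gg_one, map_one]⟩, fun x y => by
    change ψ (gg (x * y)) = ψ (gg x) * ψ (gg y)
    rw [gg_mul, map_mul]⟩
  have hf : ∀ g, f g = ψ (gg g) := fun g => rfl
  have hfin0 : Finite (MonoidHom.range f.toHomUnits) :=
    Set.finite_range f.toHomUnits
  obtain ⟨⟨u, x, rfl⟩, hx⟩ := IsCyclic.exists_monoid_generator (α := MonoidHom.range f.toHomUnits)
  have hgen : ∀ g, ∃ i : ℕ, ψ (gg g) = ψ (gg x) ^ i := by
    intro g
    obtain ⟨n, hn⟩ := hx ⟨f.toHomUnits g, g, rfl⟩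
    refine ⟨n, ?_⟩
    have h1 := congrArg (fun z : MonoidHom.range f.toHomUnits => ((z : Kˣ) : K)) hn
    simp only [SubmonoidClass.coe_pow, Units.val_pow_eq_pow_val, MonoidHom.coe_toHomUnits] at h1
    exact h1.symm
  have hfin : IsOfFinOrder (ψ (gg x)) := by
    rw [isOfFinOrder_iff_pow_eq_one]
    refine ⟨Fintype.card G, Fintype.card_pos, ?_⟩
    rw [← hom_pow, pow_card_eq_one, gg_one, map_one]
  have hpos : 0 < orderOf (ψ (gg x)) := hfin.orderOf_pos
  obtain ⟨j, hj⟩ := hgen c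
  rw [hc] at hj
  have h1 : orderOf (ψ (gg x)) ∣ 2 * j := by
    apply orderOf_dvd_of_pow_eq_one
    rw [mul_comm, pow_mul, ← hj]
    ring
  have h2 : ¬ orderOf (ψ (gg x)) ∣ j := by
    intro h
    have h3 := orderOf_dvd_iff_pow_eq_one.1 h
    rw [← hj] at h3
    norm_num at h3
  have h3 : 2 ∣ orderOf (ψ (gg x)) := by
    by_contra h
    apply h2
    have : Nat.Coprime (orderOf (ψ (gg x))) 2 := by
      rw [Nat.coprime_comm]
      exact (Nat.Prime.coprime_iff_not_dvd Nat.prime_two).2 h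
    exact this.dvd_of_dvd_mul_left h1
  obtain ⟨k, hk⟩ := h3
  refine ⟨x, k, by omega, ?_, hgen⟩
  rw [← hk]
  exact IsPrimitiveRoot.orderOf _

end hom

/-! ### The coefficients -/

/-- The exponents `∑ k / p` are different modulo `k`. -/
theorem exp_inj (k : ℕ) (hk : 0 < k) (S S' : Finset ℕ) (hS : S ⊆ k.primeFactors)
    (hS' : S' ⊆ k.primeFactors) (h : ∑ p ∈ S, k / p ≡ ∑ p ∈ S', k / p [MOD k]) : S ⊆ S' := by
  intro p hp
  by_contra hp'
  have hpp : p.Prime := Nat.prime_of_mem_primeFactors (hS hp)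
  have hpk : p ∣ k := Nat.dvd_of_mem_primeFactors (hS hp)
  set a := k.factorization p with ha
  have hdvd : p ^ a ∣ k := Nat.ordProj_dvd k p
  have key : ∀ q ∈ k.primeFactors, q ≠ p → p ^ a ∣ k / q := by
    intro q hq hqp
    have hqq : q.Prime := Nat.prime_of_mem_primeFactors hq
    have hqk : q ∣ k := Nat.dvd_of_mem_primeFactors hq
    have h1 : p ^ a ∣ q * (k / q) := by
      rw [Nat.mul_div_cancel' hqk]
      exact hdvd
    have h2 : Nat.Coprime (p ^ a) q :=
      Nat.Coprime.pow_left a ((Nat.coprime_primes hpp hqq).2 (Ne.symm hqp))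
    exact h2.dvd_of_dvd_mul_left h1
  have hnot : ¬ p ^ a ∣ k / p := by
    intro h1
    have h2 : p ^ (a + 1) ∣ k := by
      rw [pow_succ]
      have := Nat.mul_dvd_mul_right h1 p
      rw [Nat.div_mul_cancel hpk] at this
      exact this
    exact Nat.pow_succ_factorization_not_dvd hk.ne' hpp h2
  have h1 : ∑ q ∈ S, k / q ≡ ∑ q ∈ S', k / q [MOD p ^ a] := h.of_dvd hdvd
  have h2 : p ^ a ∣ ∑ q ∈ S', k / q := by
    apply Finset.dvd_sum
    intro q hq
    exact key q (hS' hq) (fun e => hp' (e ▸ hq))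
  have h3 : p ^ a ∣ ∑ q ∈ S, k / q := (Nat.ModEq.dvd_iff h1 (dvd_refl _)).2 h2
  rw [← Finset.add_sum_erase S _ hp] at h3
  have h4 : p ^ a ∣ ∑ q ∈ S.erase p, k / q := by
    apply Finset.dvd_sum
    intro q hq
    exact key q (hS (Finset.mem_of_mem_erase hq)) (Finset.ne_of_mem_erase hq)
  exact hnot ((Nat.dvd_add_left h4).1 h3)

section coef

variable {K : Type} [Field K] [CharZero K]

/-- The first factor. -/
def uu (H : Finset G) (x : G) (k : ℕ) : MonoidAlgebra ℚ G :=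
  (∑ h ∈ H, gg h) * ∏ p ∈ k.primeFactors.erase 2, (1 + gg (x ^ (k / p)))

theorem ff_eq (H : Finset G) (x : G) (k : ℕ) : ff H x k = uu H x k - gg (x ^ k) * uu H x k := by
  unfold ff uu
  ring

omit [Fintype G] in
theorem gg_prod (S : Finset ℕ) (f : ℕ → G) : ∏ i ∈ S, gg (f i) = gg (∏ i ∈ S, f i) := by
  induction S using Finset.induction_on with
  | empty => simp [gg_one]
  | insert p S hp ih => rw [Finset.prod_insert hp, Finset.prod_insert hp, ih, gg_mul]

omit [CharZero K] in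
theorem modEq_of_pow (y : K) (d a b : ℕ) (hy : IsPrimitiveRoot y d) (hy0 : y ≠ 0)
    (h : y ^ a = y ^ b) : a ≡ b [MOD d] := by
  have key : ∀ a b : ℕ, a ≤ b → y ^ a = y ^ b → a ≡ b [MOD d] := by
    intro a b hab h
    rw [Nat.modEq_iff_dvd' hab]
    apply hy.dvd_of_pow_eq_one
    have h1 : y ^ a * y ^ (b - a) = y ^ a * 1 := by
      rw [← pow_add, Nat.add_sub_cancel' hab, mul_one, h]
    exact mul_left_cancel₀ (pow_ne_zero _ hy0) h1
  rcases le_total a b with hab | hab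
  · exact key a b hab h
  · exact (key b a hab h.symm).symm

theorem uu_eq (H : Finset G) (x : G) (k : ℕ) :
    uu H x k = ∑ e ∈ H ×ˢ (k.primeFactors.erase 2).powerset, gg (e.1 * x ^ (∑ p ∈ e.2, k / p)) := by
  unfold uu
  rw [Finset.prod_one_add, Finset.sum_mul_sum, Finset.sum_product]
  refine Finset.sum_congr rfl fun h _ => Finset.sum_congr rfl fun S _ => ?_
  rw [gg_mul]
  congr 1
  rw [← Finset.prod_pow_eq_pow_sum]
  exact gg_prod S _

theorem uu_coeff (ψ : MonoidAlgebra ℚ G →ₐ[ℚ] K) (H : Finset G) (hH : ∀ g, g ∈ H ↔ ψ (gg g) = 1) (x : G)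
    (k : ℕ) (hk : 0 < k) (h1 : IsPrimitiveRoot (ψ (gg x)) (2 * k)) (g : G) :
    (uu H x k).coeff g = 0 ∨ (uu H x k).coeff g = 1 := by
  classical
  have h2 : (uu H x k).coeff g = (((H ×ˢ (k.primeFactors.erase 2).powerset).filter
      (fun e => e.1 * x ^ (∑ p ∈ e.2, k / p) = g)).card : ℚ) := by
    rw [uu_eq, MonoidAlgebra.coeff_sum, Finsupp.finsetSum_apply]
    simp only [gg_coeff]
    rw [Finset.sum_boole]
  have h3 : ((H ×ˢ (k.primeFactors.erase 2).powerset).filter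
      (fun e => e.1 * x ^ (∑ p ∈ e.2, k / p) = g)).card ≤ 1 := by
    rw [Finset.card_le_one]
    rintro ⟨h, S⟩ he ⟨h', S'⟩ he'
    rw [Finset.mem_filter, Finset.mem_product, Finset.mem_powerset] at he he'
    obtain ⟨⟨ha, hb⟩, hc⟩ := he
    obtain ⟨⟨ha', hb'⟩, hc'⟩ := he'
    simp only at ha hb hc ha' hb' hc'
    have e1 : ψ (gg x) ^ (∑ p ∈ S, k / p) = ψ (gg g) := by
      rw [← hc, gg_mul, map_mul, (hH h).1 ha, one_mul, hom_pow]
    have e2 : ψ (gg x) ^ (∑ p ∈ S', k / p) = ψ (gg g) := by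
      rw [← hc', gg_mul, map_mul, (hH h').1 ha', one_mul, hom_pow]
    have e3 : ∑ p ∈ S, k / p ≡ ∑ p ∈ S', k / p [MOD 2 * k] :=
      modEq_of_pow _ _ _ _ h1 (hom_ne ψ x) (e1.trans e2.symm)
    have e4 : ∑ p ∈ S, k / p ≡ ∑ p ∈ S', k / p [MOD k] := e3.of_dvd (Dvd.intro_left 2 rfl)
    have hS := hb.trans (Finset.erase_subset _ _)
    have hS' := hb'.trans (Finset.erase_subset _ _)
    have e5 : S = S' := Finset.Subset.antisymm (exp_inj k hk S S' hS hS' e4)
      (exp_inj k hk S' S hS' hS e4.symm)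
    subst e5
    have e6 : h = h' := mul_right_cancel (hc.trans hc'.symm)
    rw [e6]
  rw [h2]
  interval_cases hcard : ((H ×ˢ (k.primeFactors.erase 2).powerset).filter
      (fun e => e.1 * x ^ (∑ p ∈ e.2, k / p) = g)).card
  · left
    simp
  · right
    simp

theorem ff_coeff (ψ : MonoidAlgebra ℚ G →ₐ[ℚ] K) (H : Finset G) (hH : ∀ g, g ∈ H ↔ ψ (gg g) = 1) (x : G)
    (k : ℕ) (hk : 0 < k) (h1 : IsPrimitiveRoot (ψ (gg x)) (2 * k)) (g : G) :
    (ff H x k).coeff g = 0 ∨ (ff H x k).coeff g = 1 ∨ (ff H x k).coeff g = -1 := by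
  have h2 : (ff H x k).coeff g = (uu H x k).coeff g - (uu H x k).coeff ((x ^ k)⁻¹ * g) := by
    rw [ff_eq, MonoidAlgebra.coeff_sub, Finsupp.sub_apply, gg_mul_coeff]
  rw [h2]
  rcases uu_coeff ψ H hH x k hk h1 g with h | h <;>
    rcases uu_coeff ψ H hH x k hk h1 ((x ^ k)⁻¹ * g) with h' | h' <;> rw [h, h'] <;> norm_num

end coef

/-- The element of the ideal. -/
theorem exists_ff (c : G) (hc : c * c = 1) (hst : Stab R) (hodd : ∀ n ∈ R, ∀ x, n (c * x) = - n x)
    (hne : R ≠ ⊥) : ∃ f ∈ TS R, f ≠ 0 ∧ ∀ g, f.coeff g = 0 ∨ f.coeff g = 1 ∨ f.coeff g = -1 := by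
  classical
  have hcard : NeZero (Nat.card G : ℚ) := ⟨by
    have : Nat.card G ≠ 0 := Nat.card_pos.ne'
    exact_mod_cast this⟩
  obtain ⟨e, he, hspan⟩ := IsSemisimpleRing.ideal_eq_span_idempotent (TI R hst)
  have heT : e ∈ TS R := by
    rw [← mem_TI R hst, hspan]
    exact Ideal.mem_span_singleton_self e
  have he0 : e ≠ 0 := by
    intro h
    apply hne
    rw [eq_bot_iff]
    intro n hn
    have h1 : emb n ∈ TI R hst := ⟨1, le_rfl, n, hn, by rw [Nat.cast_one, one_smul]⟩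
    rw [hspan, h, Ideal.span_singleton_eq_bot.2 rfl] at h1
    have h2 : emb n = 0 := h1
    rw [AddSubgroup.mem_bot]
    funext x
    have h3 := emb_coeff n x
    rw [h2] at h3
    have h4 : (n x : ℚ) = 0 := by
      rw [← h3]
      rfl
    exact_mod_cast h4
  -- the oddness
  have hce : (gg c + 1) * e = 0 := by
    obtain ⟨N, hN, n, hn, h1⟩ := heT
    have hN' : (N : ℚ) ≠ 0 := by
      have : N ≠ 0 := by omega
      exact_mod_cast this
    have h2 : gg c * emb n = - emb n := by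
      rw [gg_emb]
      have h3 : c⁻¹ = c := inv_eq_of_mul_eq_one_left hc
      have h4 : (fun x => n (c⁻¹ * x)) = (-1 : ℤ) • n := by
        funext x
        rw [h3, hodd n hn x]
        simp
      rw [h4, emb_zsmul]
      simp
    have h3 : (N : ℚ) • ((gg c + 1) * e) = 0 := by
      rw [← mul_smul_comm, h1, add_mul, h2, one_mul]
      simp
    exact (smul_eq_zero.1 h3).resolve_left hN'
  obtain ⟨m, hm, hem⟩ := exists_max e he0
  let _ : Field (MonoidAlgebra ℚ G ⧸ m) := Ideal.Quotient.field m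
  have hch : CharZero (MonoidAlgebra ℚ G ⧸ m) := algebraRat.charZero _
  let ψ : MonoidAlgebra ℚ G →ₐ[ℚ] (MonoidAlgebra ℚ G ⧸ m) := (Ideal.Quotient.mk m).toRatAlgHom
  have hψ : ∀ a, ψ a = 0 ↔ a ∈ m := fun a => Ideal.Quotient.eq_zero_iff_mem
  have hψe : ψ e ≠ 0 := fun h => hem ((hψ e).1 h)
  have hψc : ψ (gg c) = -1 := by
    have h1 := congrArg ψ hce
    rw [map_mul, map_zero] at h1
    have h2 := (mul_eq_zero.1 h1).resolve_right hψe
    rw [map_add, map_one] at h2
    exact eq_neg_of_add_eq_zero_left h2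
  obtain ⟨x, k, hk, hprim, hgen⟩ := exists_gen ψ c hψc
  let H : Finset G := Finset.univ.filter (fun g => ψ (gg g) = 1)
  have hH : ∀ g, g ∈ H ↔ ψ (gg g) = 1 := by
    intro g
    simp [H]
  have hffne : ψ (ff H x k) ≠ 0 := ff_ne ψ H hH x k hk hprim
  refine ⟨ff H x k, ?_, ?_, ff_coeff ψ H hH x k hk hprim⟩
  · by_contra hcon
    have h1 : ff H x k * (1 - e) ≠ 0 := by
      intro h
      apply hcon
      have h2 : ff H x k = ff H x k * e := by
        have h3 : ff H x k - ff H x k * e = 0 := by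
          rw [← h]
          ring
        exact sub_eq_zero.1 h3
      rw [h2]
      exact (TI R hst).mul_mem_left _ heT
    obtain ⟨m', hm', hm1⟩ := exists_max _ h1
    let _ : Field (MonoidAlgebra ℚ G ⧸ m') := Ideal.Quotient.field m'
    have hch' : CharZero (MonoidAlgebra ℚ G ⧸ m') := algebraRat.charZero _
    let ψ' : MonoidAlgebra ℚ G →ₐ[ℚ] (MonoidAlgebra ℚ G ⧸ m') := (Ideal.Quotient.mk m').toRatAlgHom
    have hψ' : ∀ a, ψ' a = 0 ↔ a ∈ m' := fun a => Ideal.Quotient.eq_zero_iff_mem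
    have h2 : ψ' (ff H x k * (1 - e)) ≠ 0 := fun h => hm1 ((hψ' _).1 h)
    rw [map_mul] at h2
    have h3 := left_ne_zero_of_mul h2
    have h4 := right_ne_zero_of_mul h2
    have h5 : ψ' e = 0 := by
      have h6 : e * (1 - e) = 0 := by
        rw [mul_sub, mul_one, he.eq, sub_self]
      have h7 := congrArg ψ' h6
      rw [map_mul, map_zero] at h7
      exact (mul_eq_zero.1 h7).resolve_right h4
    have hx : x ^ (2 * k) ∈ H := by
      rw [hH, hom_pow]
      exact hprim.pow_eq_one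
    have hmul : ∀ g ∈ H, ∀ h, h ∈ H ↔ g * h ∈ H := by
      intro g hg h
      rw [hH, hH, gg_mul, map_mul, (hH g).1 hg, one_mul]
    obtain ⟨h8, h9⟩ := ff_prim ψ' H hmul x k hk hx h3
    exact hψe (same_ker ψ ψ' x (2 * k) (by omega) hprim h9 (fun g hg => h8 g ((hH g).2 hg)) hgen e h5)
  · intro h
    apply hffne
    rw [h, map_zero]

end KT

/-- A nonzero translation-stable group of odd functions on a finite abelian group contains a positive
multiple of the difference of two different CM types. -/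
theorem keyTrick (G : Type) [CommGroup G] [Finite G] (c : G) (hc : c * c = 1)
    (R : AddSubgroup (G → ℤ)) (hst : ∀ h : G, ∀ n ∈ R, (fun x => n (h * x)) ∈ R)
    (hodd : ∀ n ∈ R, ∀ x, n (c * x) = - n x) (hne : R ≠ ⊥) :
    ∃ Ψ Ψ' : Set G, (∀ x, x ∈ Ψ ↔ c * x ∉ Ψ) ∧ (∀ x, x ∈ Ψ' ↔ c * x ∉ Ψ') ∧ Ψ ≠ Ψ' ∧
      ∃ N : ℕ, 1 ≤ N ∧
        (fun x => (N : ℤ) * (Ψ.indicator 1 x - Ψ'.indicator 1 x)) ∈ R := by
  classical
  have _ : Fintype G := Fintype.ofFinite G
  obtain ⟨f, ⟨N, hN, n, hn, hfn⟩, hf0, hf⟩ := KT.exists_ff R c hc hst hodd hne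
  have hnf : ∀ x, (n x : ℚ) = N * f.coeff x := by
    intro x
    rw [← KT.emb_coeff n x, ← hfn]
    rfl
  have hN' : (N : ℚ) ≠ 0 := by
    have : N ≠ 0 := by omega
    exact_mod_cast this
  -- integral version
  have hf' : ∀ x, ∃ z : ℤ, (z = 0 ∨ z = 1 ∨ z = -1) ∧ f.coeff x = z := by
    intro x
    rcases hf x with h | h | h
    · exact ⟨0, Or.inl rfl, by rw [h]; norm_num⟩
    · exact ⟨1, Or.inr (Or.inl rfl), by rw [h]; norm_num⟩
    · exact ⟨-1, Or.inr (Or.inr rfl), by rw [h]; norm_num⟩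
  choose z hz hfz using hf'
  have hnz : ∀ x, n x = N * z x := by
    intro x
    have := hnf x
    rw [hfz] at this
    exact_mod_cast this
  have hzodd : ∀ x, z (c * x) = - z x := by
    intro x
    have h1 := hodd n hn x
    rw [hnz, hnz] at h1
    have h2 : (N : ℤ) ≠ 0 := by exact_mod_cast hN'
    apply mul_left_cancel₀ h2
    rw [h1]
    ring
  have hz0 : ∃ x, z x ≠ 0 := by
    by_contra hcon
    push Not at hcon
    apply hf0
    rw [KT.sum_coeff f]
    refine Finset.sum_eq_zero fun x _ => ?_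
    rw [hfz, hcon x]
    simp
  have hc1 : c ≠ 1 := by
    rintro rfl
    obtain ⟨x, hx⟩ := hz0
    apply hx
    have := hzodd x
    rw [one_mul] at this
    omega
  -- a CM type
  let e : G ≃ Fin (Fintype.card G) := Fintype.equivFin G
  let Φ : Set G := {x | e x < e (c * x)}
  have hΦ : ∀ x, x ∈ Φ ↔ c * x ∉ Φ := by
    intro x
    have h1 : c * (c * x) = x := by rw [← mul_assoc, hc, one_mul]
    have h2 : e x ≠ e (c * x) := by
      intro h
      apply hc1
      have h3 := e.injective h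
      exact (mul_eq_right.1 h3.symm)
    simp only [Φ, Set.mem_ofPred_eq, h1, not_lt]
    exact ⟨fun h => h.le, fun h => lt_of_le_of_ne h h2⟩
  refine ⟨{x | z x = 1 ∨ (z x = 0 ∧ x ∈ Φ)}, {x | z x = -1 ∨ (z x = 0 ∧ x ∈ Φ)}, ?_, ?_, ?_, N, hN, ?_⟩
  · intro x
    have h1 := hΦ x
    have h2 := hzodd x
    simp only [Set.mem_ofPred_eq, h2]
    rcases hz x with h | h | h <;> rw [h] <;> simp [h1]
  · intro x
    have h1 := hΦ x
    have h2 := hzodd x
    simp only [Set.mem_ofPred_eq, h2]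
    rcases hz x with h | h | h <;> rw [h] <;> simp [h1]
  · intro h
    obtain ⟨x, hx⟩ := hz0
    have h1 : x ∈ {x | z x = 1 ∨ (z x = 0 ∧ x ∈ Φ)} ↔ x ∈ {x | z x = -1 ∨ (z x = 0 ∧ x ∈ Φ)} := by
      rw [h]
    simp only [Set.mem_ofPred_eq] at h1
    rcases hz x with h2 | h2 | h2
    · exact hx h2
    · rw [h2] at h1
      simp at h1
    · rw [h2] at h1
      simp at h1
  · have h0 : (fun x => (N : ℤ) * (Set.indicator {x | z x = 1 ∨ (z x = 0 ∧ x ∈ Φ)} 1 x -
        Set.indicator {x | z x = -1 ∨ (z x = 0 ∧ x ∈ Φ)} 1 x)) = n := by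
      funext x
      rw [hnz]
      congr 1
      by_cases h1 : x ∈ Φ
      · rcases hz x with h | h | h
        · have m1 : x ∈ {x | z x = 1 ∨ (z x = 0 ∧ x ∈ Φ)} := Or.inr ⟨h, h1⟩
          have m2 : x ∈ {x | z x = -1 ∨ (z x = 0 ∧ x ∈ Φ)} := Or.inr ⟨h, h1⟩
          rw [Set.indicator_of_mem m1, Set.indicator_of_mem m2, h]
          rfl
        · have m1 : x ∈ {x | z x = 1 ∨ (z x = 0 ∧ x ∈ Φ)} := Or.inl h
          have m2 : x ∉ {x | z x = -1 ∨ (z x = 0 ∧ x ∈ Φ)} := by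
            rintro (h2 | ⟨h2, -⟩) <;> omega
          rw [Set.indicator_of_mem m1, Set.indicator_of_notMem m2, h]
          rfl
        · have m1 : x ∉ {x | z x = 1 ∨ (z x = 0 ∧ x ∈ Φ)} := by
            rintro (h2 | ⟨h2, -⟩) <;> omega
          have m2 : x ∈ {x | z x = -1 ∨ (z x = 0 ∧ x ∈ Φ)} := Or.inl h
          rw [Set.indicator_of_notMem m1, Set.indicator_of_mem m2, h]
          rfl
      · rcases hz x with h | h | h
        · have m1 : x ∉ {x | z x = 1 ∨ (z x = 0 ∧ x ∈ Φ)} := by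
            rintro (h2 | ⟨-, h2⟩)
            · omega
            · exact h1 h2
          have m2 : x ∉ {x | z x = -1 ∨ (z x = 0 ∧ x ∈ Φ)} := by
            rintro (h2 | ⟨-, h2⟩)
            · omega
            · exact h1 h2
          rw [Set.indicator_of_notMem m1, Set.indicator_of_notMem m2, h]
          rfl
        · have m1 : x ∈ {x | z x = 1 ∨ (z x = 0 ∧ x ∈ Φ)} := Or.inl h
          have m2 : x ∉ {x | z x = -1 ∨ (z x = 0 ∧ x ∈ Φ)} := by
            rintro (h2 | ⟨h2, -⟩) <;> omega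
          rw [Set.indicator_of_mem m1, Set.indicator_of_notMem m2, h]
          rfl
        · have m1 : x ∉ {x | z x = 1 ∨ (z x = 0 ∧ x ∈ Φ)} := by
            rintro (h2 | ⟨h2, -⟩) <;> omega
          have m2 : x ∈ {x | z x = -1 ∨ (z x = 0 ∧ x ∈ Φ)} := Or.inl h
          rw [Set.indicator_of_notMem m1, Set.indicator_of_mem m2, h]
          rfl
    rw [h0]
    exact hn

end

end Pool.Agent.SPR
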