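import Pool.Agent.SPR.StmtsC

/-!
# CLX: the functions at a closed point
-/

set_option autoImplicit false

noncomputable section

namespace Pool.Agent.SPR

open Pool.Agent.SRF

set_option linter.unusedSectionVars false

namespace CLX_

theorem edge_ne : ∀ k : Fin 10, eS k ≠ eT k := by decide

theorem inc_self {k : Fin 10} {i : Fin 5} : ¬ Inc k i i := by
  rintro (⟨h1, h2⟩ | ⟨h1, h2⟩) <;> exact edge_ne k (h1.trans h2.symm)

theorem inc_symm {k : Fin 10} {i j : Fin 5} (h : Inc k i j) : Inc k j i := Or.symm h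

theorem inc_edge (k : Fin 10) : Inc k (eS k) (eT k) := Or.inl ⟨rfl, rfl⟩

theorem inc_share {k l : Fin 10} {i j m : Fin 5} (hjm : j ≠ m) (hk : Inc k i j)
    (hl : Inc l i m) : k ≠ l ∧ ¬ Dsj k l := by
  constructor
  · rintro rfl
    rcases hk with ⟨a1, a2⟩ | ⟨a1, a2⟩ <;> rcases hl with ⟨b1, b2⟩ | ⟨b1, b2⟩
    · exact hjm (a2.symm.trans b2)
    · exact hjm ((a2.symm.trans b2).trans (a1.symm.trans b1))
    · exact hjm ((a1.symm.trans b1).trans (a2.symm.trans b2))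
    · exact hjm (a1.symm.trans b1)
  · rintro ⟨h1, h2, h3, h4⟩
    rcases hk with ⟨a1, a2⟩ | ⟨a1, a2⟩ <;> rcases hl with ⟨b1, b2⟩ | ⟨b1, b2⟩
    · exact h1 (a1.trans b1.symm)
    · exact h2 (a1.trans b2.symm)
    · exact h3 (a2.trans b1.symm)
    · exact h4 (a2.trans b2.symm)

theorem inc_dist {a b : Fin 10} {i j k l : Fin 5} (hd : CPT.Dist i j k l) (ha : Inc a i j)
    (hb : Inc b k l) : a ≠ b := by
  rintro rfl
  rcases ha with ⟨a1, a2⟩ | ⟨a1, a2⟩ <;> rcases hb with ⟨b1, b2⟩ | ⟨b1, b2⟩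
  · exact hd.2.1 (a1.symm.trans b1)
  · exact hd.2.2.1 (a1.symm.trans b1)
  · exact hd.2.2.2.1 (a1.symm.trans b1)
  · exact hd.2.2.2.2.1 (a1.symm.trans b1)

/-- the value of a symmetric matrix on an edge -/
theorem inc_val {n : Fin 5 → Fin 5 → ℤ} (hn : CPT.Lam n) {k : Fin 10} {i j : Fin 5}
    (h : Inc k i j) : n (eS k) (eT k) = n i j := by
  rcases h with ⟨h1, h2⟩ | ⟨h1, h2⟩
  · rw [h1, h2]
  · rw [h1, h2, hn.1]

theorem cr_val {i j k l : Fin 5} (hd : CPT.Dist i j k l) : CPT.cr i j k l i j = 1 := by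
  revert i j k l
  decide

theorem ratio {M B B' mt mt' : ℕ} {rt rt' : ℝ} (h0' : 0 < rt') (h1 : (mt : ℝ) ≤ 2 * (M * rt))
    (h2 : M * rt' / 2 ≤ mt') (h3 : 4 * B * rt / rt' ≤ B') (h0 : 0 < rt) :
    (mt : ℤ) * B ≤ B' * mt' := by
  have h4 : (mt : ℝ) * B ≤ B' * mt' := by
    calc (mt : ℝ) * B ≤ 2 * (M * rt) * B := by
          exact mul_le_mul_of_nonneg_right h1 (Nat.cast_nonneg _)
      _ = (4 * B * rt / rt') * (M * rt' / 2) := by
          field_simp
          ring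
      _ ≤ B' * mt' := by
          apply mul_le_mul h3 h2 (by positivity) (Nat.cast_nonneg _)
  exact_mod_cast h4

section

variable {Ω Fs : Type} [Field Ω] [Field Fs] [Algebra Ω Fs] {xs ys ws : Fs} {N A : ℕ}
  {g : Polynomial (MvPolynomial (Fin 2) Ω)}

/-- the generator is a section -/
theorem w_mem (hSCI : SRF.Stmt_SCI) (hM : Mdl Ω xs ys ws N A g) :
    ws ∈ L Ω xs ys (fun O => A * H Ω xs ys O) := by
  refine hSCI Ω Fs xs ys hM.surf A N ws (fun j => g.coeff (N - j)) ?_ ?_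
  · intro j
    refine (hM.bound (N - j) (Nat.sub_le _ _)).trans ?_
    exact Nat.mul_le_mul le_rfl (by omega)
  · have h1 := hM.root
    rw [Finset.sum_range_succ] at h1
    have h2 : g.coeff N = 1 := by
      have h3 := hM.monic
      rw [Polynomial.Monic, Polynomial.leadingCoeff, hM.deg] at h3
      exact h3
    rw [h2, map_one, one_mul, add_comm] at h1
    rw [← h1]
    congr 1
    have h4 : Finset.Icc 1 N = (Finset.range N).image (fun j => N - j) := by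
      ext j
      simp only [Finset.mem_Icc, Finset.mem_image, Finset.mem_range]
      constructor
      · intro hj
        exact ⟨N - j, by omega, by omega⟩
      · rintro ⟨i, hi, rfl⟩
        omega
    rw [h4, Finset.sum_image (by
      intro i hi j hj hij
      rw [Finset.coe_range, Set.mem_Iio] at hi hj
      dsimp only at hij
      omega)]
    refine Finset.sum_congr rfl fun j hj => ?_
    rw [Finset.mem_range] at hj
    have h5 : N - (N - j) = j := by omega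
    rw [h5]

variable {a b : Fin 2 → ℕ} {π u : Fin 2 → Fs} {D : PP Ω xs ys → ℤ}

theorem le_nonneg (h : LE Ω xs ys a b π u D) (O : PP Ω xs ys) : 0 ≤ D O := by
  obtain ⟨j, hj⟩ := h.att O
  have h1 := (mem_L Ω xs ys).1 (h.pi_mem j)
  have h2 := h1.resolve_left (h.pi_ne j) O
  rw [hj]
  linarith

end

section

variable {Ω Fs : Type} [Field Ω] [Field Fs] [Algebra Ω Fs] {xs ys : Fs}
  {ι : Type} [Fintype ι] [DecidableEq ι] {a b : ι → Fin 2 → ℕ} {π u : ι → Fin 2 → Fs}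
  {D : ι → PP Ω xs ys → ℤ} (hLE : ∀ i, LE Ω xs ys (a i) (b i) (π i) (u i) (D i))
  {T : Finset ι} {s : ι → Fin 10} {m : ι → ℕ} {M : ℕ}

/-- the boundary divisors -/
def Ds (T : Finset ι) (s : ι → Fin 10) (D : ι → PP Ω xs ys → ℤ) (i j : Fin 5) :
    Set (PP Ω xs ys) :=
  {O | ∃ t ∈ T, Inc (s t) i j ∧ 0 < D t O}

/-- the multiplicities -/
def mm (T : Finset ι) (m : ι → ℕ) (D : ι → PP Ω xs ys → ℤ) (O : PP Ω xs ys) : ℤ :=
  ∑ t ∈ T, m t * D t O

include hLE in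
/-- only one component contributes -/
theorem sum_one (hcom : ∀ i ∈ T, ∀ i' ∈ T, i ≠ i' → ∀ O, ¬ (0 < D i O ∧ 0 < D i' O))
    (c : ι → ℤ) {t : ι} (ht : t ∈ T) {O : PP Ω xs ys} (hO : 0 < D t O) :
    ∑ i ∈ T, c i * D i O = c t * D t O := by
  apply Finset.sum_eq_single_of_mem t ht
  intro i hi hit
  have h1 := hcom i hi t ht hit O
  have h2 := le_nonneg (hLE i) O
  have h3 : D i O = 0 := by
    by_contra h3
    exact h1 ⟨lt_of_le_of_ne h2 (Ne.symm h3), hO⟩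
  rw [h3, mul_zero]

include hLE in
theorem D_zero {O : PP Ω xs ys} (hO : ∀ i j, O ∉ Ds T s D i j) : ∀ t ∈ T, D t O = 0 := by
  intro t ht
  by_contra h
  exact hO _ _ ⟨t, ht, inc_edge (s t), lt_of_le_of_ne (le_nonneg (hLE t) O) (Ne.symm h)⟩

include hLE in
theorem exists_inp (hLAH : Stmt_LAH) (hNTL : Stmt_NTL)
    (hdis : ∀ i ∈ T, ∀ i' ∈ T, s i ≠ s i' → ¬ Dsj (s i) (s i') → ∀ O O', 0 < D i O →
      0 < D i' O' → NoM Ω xs ys O O')
    (hcom : ∀ i ∈ T, ∀ i' ∈ T, i ≠ i' → ∀ O, ¬ (0 < D i O ∧ 0 < D i' O))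
    (hM0 : 0 < M) (hm : ∀ i ∈ T, 0 < m i)
    (hNT : ∀ (c₀ : ℤ) (c : Fin 10 → ℤ), NTr c₀ c → ∃ f : Fs, f ≠ 0 ∧ ∀ O : PP Ω xs ys,
        ord O.1 f = c₀ * M * H Ω xs ys O + ∑ i ∈ T, c (s i) * m i * D i O) :
    ∃ I : CPT.Inp Ω Fs xs ys, I.D = Ds T s D ∧ I.m = mm T m D := by
  -- the functions
  have key : ∃ f : (Fin 5 → Fin 5 → ℤ) → Fs, (∀ n, CPT.Lam n → (f n ≠ 0 ∧
      ∀ O : PP Ω xs ys, ord O.1 (f n) = ∑ i ∈ T, (n (eS (s i)) (eT (s i)) * m i) * D i O)) ∧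
      ∀ m n, CPT.Lam m → CPT.Lam n → f (m + n) = f m * f n := by
    refine hLAH Fs (fun n f => f ≠ 0 ∧ ∀ O : PP Ω xs ys, ord O.1 f =
      ∑ i ∈ T, (n (eS (s i)) (eT (s i)) * m i) * D i O) ?_ ?_ ?_ ?_ ?_
    · refine ⟨one_ne_zero, fun O => ?_⟩
      rw [O.isOrd.one]
      symm
      refine Finset.sum_eq_zero fun i _ => ?_
      simp
    · rintro n n' f f' ⟨h1, h2⟩ ⟨h1', h2'⟩
      refine ⟨mul_ne_zero h1 h1', fun O => ?_⟩
      rw [O.isOrd.mul _ _ h1 h1', h2, h2', ← Finset.sum_add_distrib]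
      refine Finset.sum_congr rfl fun i _ => ?_
      simp only [Pi.add_apply]
      ring
    · rintro n f ⟨h1, h2⟩
      refine ⟨inv_ne_zero h1, fun O => ?_⟩
      rw [O.isOrd.inv h1, h2, ← Finset.sum_neg_distrib]
      refine Finset.sum_congr rfl fun i _ => ?_
      simp only [Pi.neg_apply]
      ring
    · rintro n f ⟨h1, -⟩
      exact h1
    · intro n hn
      obtain ⟨f, hf0, hf⟩ := hNT 0 (fun t => n (eS t) (eT t)) (hNTL.2 n hn)
      refine ⟨f, hf0, fun O => ?_⟩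
      rw [hf O]
      simp
  obtain ⟨f, hf, hfa⟩ := key
  -- the section which vanishes on the boundary
  obtain ⟨e, he0, he⟩ := hNT 1 (fun _ => -1) hNTL.1
  have he' : ∀ O : PP Ω xs ys, ord O.1 e⁻¹ = mm T m D O - M * H Ω xs ys O := by
    intro O
    rw [O.isOrd.inv he0, he O]
    unfold mm
    simp only [neg_mul, one_mul, Finset.sum_neg_distrib]
    ring
  refine ⟨⟨Ds T s D, ?_, ?_, ?_, ?_, mm T m D, ?_, f, fun n hn => (hf n hn).1, hfa, ?_, ?_,
    e⁻¹, inv_ne_zero he0, M, hM0, 1, one_pos, ?_, ?_⟩, rfl, rfl⟩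
  · intro i j
    ext O
    constructor <;> rintro ⟨t, ht, h1, h2⟩ <;> exact ⟨t, ht, inc_symm h1, h2⟩
  · intro i
    ext O
    constructor
    · rintro ⟨t, _, h1, _⟩
      exact absurd h1 inc_self
    · intro h
      exact absurd h (Set.notMem_empty O)
  · rintro i j k hjk O ⟨t, ht, h1, h2⟩ O' ⟨t', ht', h1', h2'⟩ V hV
    have h3 := inc_share hjk h1 h1'
    exact hdis t ht t' ht' h3.1 h3.2 O O' h2 h2' V hV
  · rintro i j k l hd O ⟨t, ht, h1, h2⟩ ⟨t', ht', h1', h2'⟩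
    have h3 := inc_dist hd h1 h1'
    exact hcom t ht t' ht' (fun h => h3 (congrArg s h)) O ⟨h2, h2'⟩
  · rintro i j O ⟨t, ht, h1, h2⟩
    unfold mm
    rw [sum_one hLE hcom (fun i => (m i : ℤ)) ht h2]
    have h3 := hm t ht
    positivity
  · rintro n hn i j O ⟨t, ht, h1, h2⟩
    rw [(hf n hn).2 O, sum_one hLE hcom (fun i => n (eS (s i)) (eT (s i)) * m i) ht h2]
    unfold mm
    rw [sum_one hLE hcom (fun i => (m i : ℤ)) ht h2, inc_val hn h1]
    ring
  · intro n hn O hO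
    rw [(hf n hn).2 O]
    refine Finset.sum_eq_zero fun t ht => ?_
    rw [D_zero hLE hO t ht, mul_zero]
  · intro i j O _
    rw [he' O]
    push_cast
    ring
  · intro O hO
    rw [he' O]
    have h1 : mm T m D O = 0 := by
      unfold mm
      refine Finset.sum_eq_zero fun t ht => ?_
      rw [D_zero hLE hO t ht, mul_zero]
    rw [h1]
    ring

include hLE in
/-- the form which vanishes on the boundary -/
theorem form (T : Finset ι) : (∏ t ∈ T, π t 0) ≠ 0 ∧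
    (∏ t ∈ T, π t 0) ∈ L Ω xs ys (fun O => ((∑ t ∈ T, a t 0 : ℕ) : ℤ) * H Ω xs ys O) ∧
    ∀ O, ∀ t ∈ T, D t O ≤ ord O.1 (∏ t ∈ T, π t 0) +
      ((∑ t ∈ T, a t 0 : ℕ) : ℤ) * H Ω xs ys O := by
  have h0 : (∏ t ∈ T, π t 0) ≠ 0 := Finset.prod_ne_zero_iff.2 fun t _ => (hLE t).pi_ne 0
  have h1 : ∀ O : PP Ω xs ys, ord O.1 (∏ t ∈ T, π t 0) +
      ((∑ t ∈ T, a t 0 : ℕ) : ℤ) * H Ω xs ys O =
      ∑ t ∈ T, (ord O.1 (π t 0) + a t 0 * H Ω xs ys O) := by
    intro O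
    induction T using Finset.induction_on with
    | empty => simp [O.isOrd.one]
    | insert t T ht ih =>
      rw [Finset.prod_insert ht, Finset.sum_insert ht, Finset.sum_insert ht,
        O.isOrd.mul _ _ ((hLE t).pi_ne 0) (Finset.prod_ne_zero_iff.2 fun t _ => (hLE t).pi_ne 0),
        ← ih (Finset.prod_ne_zero_iff.2 fun t _ => (hLE t).pi_ne 0)]
      push_cast
      ring
  have h2 : ∀ (O : PP Ω xs ys) t, 0 ≤ ord O.1 (π t 0) + a t 0 * H Ω xs ys O := fun O t =>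
    (le_nonneg (hLE t) O).trans ((hLE t).low O 0)
  refine ⟨h0, ?_, ?_⟩
  · rw [mem_L]
    right
    intro O
    have h3 := h1 O
    have h4 : 0 ≤ ∑ t ∈ T, (ord O.1 (π t 0) + a t 0 * H Ω xs ys O) :=
      Finset.sum_nonneg fun t _ => h2 O t
    linarith
  · intro O t ht
    rw [h1 O]
    exact ((hLE t).low O 0).trans (Finset.single_le_sum (f := fun t =>
      ord O.1 (π t 0) + a t 0 * H Ω xs ys O) (fun t _ => h2 O t) ht)

end

end CLX_

open CLX_ in
theorem CLX_proof (hLAH : Stmt_LAH) (hNTL : Stmt_NTL) (hSCI : SRF.Stmt_SCI)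
    (hEND1 : CPT.Stmt_END1) : Stmt_CLX := by
  classical
  intro N A ι _ _ a T s r B hr
  let B' : ℕ := ⌈∑ t ∈ T, ∑ t' ∈ T, 4 * B * r t / r t'⌉₊
  have hB' : ∀ t ∈ T, ∀ t' ∈ T, 4 * B * r t / r t' ≤ (B' : ℝ) := by
    intro t ht t' ht'
    have hpos : ∀ t ∈ T, ∀ t' ∈ T, 0 ≤ 4 * B * r t / r t' := by
      intro t ht t' ht'
      have h1 := hr t ht
      have h2 := hr t' ht'
      positivity
    calc 4 * B * r t / r t' ≤ ∑ t' ∈ T, 4 * B * r t / r t' :=
          Finset.single_le_sum (f := fun t' => 4 * B * r t / r t') (fun t' ht' => hpos t ht t' ht')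
            ht'
      _ ≤ ∑ t ∈ T, ∑ t' ∈ T, 4 * B * r t / r t' :=
          Finset.single_le_sum (f := fun t => ∑ t' ∈ T, 4 * B * r t / r t')
            (fun t ht => Finset.sum_nonneg fun t' ht' => hpos t ht t' ht') ht
      _ ≤ (B' : ℝ) := Nat.le_ceil _
  let c₁ : ℕ := ∑ t ∈ T, a t 0
  let K : ℕ := B' * (N ^ 2 * (c₁ + 2 * A * N)) + B + 1
  refine ⟨K, Nat.succ_pos _, ?_⟩
  intro Ω Fs _ _ _ _ _ xs ys ws g hM b π u D hLE hDB hdis hcom M m hM0 hm hNT
  obtain ⟨I, hID, hIm⟩ := exists_inp hLE hLAH hNTL hdis hcom hM0 (fun i hi => (hm i hi).1) hNT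
  obtain ⟨hf0, hfL, hfD⟩ := form hLE T
  have q1 : ∀ i j, ∀ O ∈ I.D i j, 1 ≤ SRF.ord O.1 (∏ t ∈ T, π t 0) + c₁ * SRF.H Ω xs ys O := by
    intro i j O hO
    rw [hID] at hO
    obtain ⟨t, ht, _, h2⟩ := hO
    exact le_trans h2 (hfD O t ht)
  have q2 : ∀ i j, ∀ O ∈ I.D i j, ∀ i' j', ∀ O' ∈ I.D i' j', I.m O ≤ B' * I.m O' := by
    intro i j O hO i' j' O' hO'
    rw [hID] at hO hO'
    obtain ⟨t, ht, _, h2⟩ := hO
    obtain ⟨t', ht', _, h2'⟩ := hO'
    rw [hIm]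
    unfold mm
    rw [sum_one hLE hcom (fun i => (m i : ℤ)) ht h2, sum_one hLE hcom (fun i => (m i : ℤ)) ht' h2']
    have h3 := ratio (B := B) (B' := B') (hr t' ht') (hm t ht).2.2 (hm t' ht').2.1
      (hB' t ht t' ht') (hr t ht)
    calc (m t : ℤ) * D t O ≤ m t * B := by
          exact mul_le_mul_of_nonneg_left (hDB t O) (by positivity)
      _ ≤ B' * m t' := h3
      _ = B' * (m t' * 1) := by ring
      _ ≤ B' * (m t' * D t' O') := by
          apply mul_le_mul_of_nonneg_left _ (by positivity)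
          exact mul_le_mul_of_nonneg_left h2' (by positivity)
  obtain ⟨X, hX0, hXa, hXp, -, ⟨r₁, r₂, hr₁, hr₂, hX⟩, hXb⟩ := hEND1 Ω Fs xs ys hM.surf I A c₁ B' ws
    (∏ t ∈ T, π t 0) (w_mem hSCI hM) hM.gen hf0 hfL q1 q2
  have hrk : Module.finrank (CPT.KK Ω xs ys) Fs = N := hM.rank
  rw [hrk] at hXb
  have hBK : (B' * (N ^ 2 * (c₁ + 2 * A * N)) : ℤ) ≤ K := by
    have h1 : B' * (N ^ 2 * (c₁ + 2 * A * N)) ≤ K := by
      change B' * (N ^ 2 * (c₁ + 2 * A * N)) ≤ B' * (N ^ 2 * (c₁ + 2 * A * N)) + B + 1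
      omega
    exact_mod_cast h1
  have hB0 : (B : ℤ) ≤ K := by
    have h1 : B ≤ K := by
      change B ≤ B' * (N ^ 2 * (c₁ + 2 * A * N)) + B + 1
      omega
    exact_mod_cast h1
  -- the sum over the poles
  have hkey : ∀ i j k l, CPT.Dist i j k l → ∀ O : PP Ω xs ys,
      0 ≤ (∑ t, (if t ∈ T ∧ (Inc (s t) i k ∨ Inc (s t) j l) then (K : ℤ) else 0) * D t O) ∧
      0 ≤ (∑ t, (if t ∈ T ∧ (Inc (s t) i k ∨ Inc (s t) j l) then (K : ℤ) else 0) * D t O) +
        ord O.1 (X (CPT.cr i j k l)) := by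
    intro i j k l hd O
    have hnn : ∀ t, 0 ≤ (if t ∈ T ∧ (Inc (s t) i k ∨ Inc (s t) j l) then (K : ℤ) else 0) * D t O := by
      intro t
      refine mul_nonneg ?_ (le_nonneg (hLE t) O)
      split_ifs
      · positivity
      · exact le_rfl
    have h1 : 0 ≤ ∑ t, (if t ∈ T ∧ (Inc (s t) i k ∨ Inc (s t) j l) then (K : ℤ) else 0) * D t O :=
      Finset.sum_nonneg fun t _ => hnn t
    refine ⟨h1, ?_⟩
    obtain ⟨h2, h3⟩ := hXb i j k l hd O
    by_cases h4 : ord O.1 (X (CPT.cr i j k l)) < 0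
    · have h5 := h2 h4
      rw [hID] at h5
      obtain ⟨t, ht, h6, h7⟩ : ∃ t ∈ T, (Inc (s t) i k ∨ Inc (s t) j l) ∧ 0 < D t O := by
        rcases h5 with ⟨t, ht, h6, h7⟩ | ⟨t, ht, h6, h7⟩
        · exact ⟨t, ht, Or.inl h6, h7⟩
        · exact ⟨t, ht, Or.inr h6, h7⟩
      have h8 := Finset.single_le_sum (f := fun t =>
        (if t ∈ T ∧ (Inc (s t) i k ∨ Inc (s t) j l) then (K : ℤ) else 0) * D t O)
        (fun t _ => hnn t) (Finset.mem_univ t)
      rw [if_pos ⟨ht, h6⟩] at h8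
      have h9 : (K : ℤ) * 1 ≤ K * D t O := mul_le_mul_of_nonneg_left h7 (by positivity)
      linarith
    · linarith
  refine ⟨X, hX0, hXa, hXp, ?_, ?_⟩
  · intro i j k l hd
    rw [mem_L]
    right
    intro O
    have h1 := (hkey i j k l hd O).2
    linarith
  · intro i j k l hd t₀ ht₀ hinc
    rw [mem_L]
    right
    intro O
    have hcr := CPT.Lam_cr i j k l hd
    rw [O.isOrd.pow (hX0 _ hcr)]
    have h1 : (∑ t, ((if t ∈ T ∧ (Inc (s t) i k ∨ Inc (s t) j l) then (K : ℤ) * K else 0) -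
        (if t = t₀ then 1 else 0)) * D t O) =
        K * (∑ t, (if t ∈ T ∧ (Inc (s t) i k ∨ Inc (s t) j l) then (K : ℤ) else 0) * D t O) -
          D t₀ O := by
      simp only [sub_mul, Finset.sum_sub_distrib]
      congr 1
      · rw [Finset.mul_sum]
        refine Finset.sum_congr rfl fun t _ => ?_
        split_ifs
        · ring
        · ring
      · simp
    rw [h1]
    obtain ⟨h2, h3⟩ := hkey i j k l hd O
    have h4 := le_nonneg (hLE t₀) O
    rcases eq_or_lt_of_le h4 with h5 | h5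
    · rw [← h5]
      have h6 : 0 ≤ (K : ℤ) * ((∑ t, (if t ∈ T ∧ (Inc (s t) i k ∨ Inc (s t) j l) then
        (K : ℤ) else 0) * D t O) + ord O.1 (X (CPT.cr i j k l))) := mul_nonneg (by positivity) h3
      linarith
    · have h6 : O ∈ I.D i j := by
        rw [hID]
        exact ⟨t₀, ht₀, hinc, h5⟩
      have h7 := hX _ hcr O
      rw [I.ord_D _ hcr i j O h6, cr_val hd, one_mul] at h7
      have h8 := I.m_pos i j O h6
      have h9 : 0 < ord O.1 (X (CPT.cr i j k l)) := by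
        have h10 : 0 < (r₁ : ℤ) * ord O.1 (X (CPT.cr i j k l)) := by
          rw [h7]
          positivity
        exact pos_of_mul_pos_right h10 (by positivity)
      have h11 : (K : ℤ) * 1 ≤ K * ord O.1 (X (CPT.cr i j k l)) :=
        mul_le_mul_of_nonneg_left h9 (by positivity)
      have h12 : 0 ≤ (K : ℤ) * (∑ t, (if t ∈ T ∧ (Inc (s t) i k ∨ Inc (s t) j l) then
        (K : ℤ) else 0) * D t O) := mul_nonneg (by positivity) h2
      have h13 := hDB t₀ O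
      linarith

end Pool.Agent.SPR
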