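import Pool.Agent.SPR.Dv

/-!
# The unknown functions at a closed point, the conclusion over the big field
-/

set_option autoImplicit false

noncomputable section

namespace Pool.Agent.SPR

open Pool.Agent.SRF Pool.Agent.CPT
open scoped Classical

/-- The edges of the poles of the eight unknowns. -/
def pe : Fin 8 → Finset (Fin 10) :=
  ![{XV.ed 0 2, XV.ed 1 3}, {XV.ed 0 2, XV.ed 1 4}, {XV.ed 1 3, XV.ed 2 4},
    {XV.ed 0 4, XV.ed 1 3}, {XV.ed 0 2, XV.ed 1 3}, {XV.ed 0 2, XV.ed 1 3},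
    {XV.ed 0 2, XV.ed 1 4}, {XV.ed 0 2, XV.ed 1 4}]

/-- The orders of the poles. -/
def kk (M : ℕ) : Fin 8 → ℤ := ![M, M, M, M, (M : ℤ) * M, (M : ℤ) * M, (M : ℤ) * M, (M : ℤ) * M]

/-- The equations. -/
def eqs (M : ℕ) : Finset (MvPolynomial (Fin 8) ℤ) :=
  open MvPolynomial in
  {X 2 * X 1 - X 0, X 3 * (1 - X 1) - (1 - X 0), X 4 - X 0 ^ M, X 5 - (1 - X 0) ^ M,
    X 6 - X 1 ^ M, X 7 - (1 - X 1) ^ M}

section

variable {K F : Type} [Field K] [Field F] [Algebra K F] {x y : F}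

/-- The zeros of the unknowns. -/
def zz {CC : Fin 10 → Finset (PP K x y)} (z1 z3 z4 : I1 x y CC) :
    Fin 8 → Option (I1 x y CC) :=
  ![none, none, none, none, some z1, some z3, some z1, some z4]

theorem eqs_zero {R : Type} [CommRing R] (M : ℕ) (f : Fin 8 → R)
    (h : ∀ Φ ∈ eqs M, MvPolynomial.aeval f Φ = 0) :
    f 2 * f 1 = f 0 ∧ f 3 * (1 - f 1) = 1 - f 0 ∧ f 4 = f 0 ^ M ∧ f 5 = (1 - f 0) ^ M ∧
      f 6 = f 1 ^ M ∧ f 7 = (1 - f 1) ^ M := by
  simp only [eqs, Finset.mem_insert, Finset.mem_singleton, forall_eq_or_imp, forall_eq, map_sub,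
    map_mul, MvPolynomial.aeval_X, map_one, map_pow, sub_eq_zero] at h
  exact h

theorem eqs_of {R : Type} [CommRing R] (M : ℕ) (f : Fin 8 → R)
    (h : f 2 * f 1 = f 0 ∧ f 3 * (1 - f 1) = 1 - f 0 ∧ f 4 = f 0 ^ M ∧ f 5 = (1 - f 0) ^ M ∧
      f 6 = f 1 ^ M ∧ f 7 = (1 - f 1) ^ M) : ∀ Φ ∈ eqs M, MvPolynomial.aeval f Φ = 0 := by
  simp only [eqs, Finset.mem_insert, Finset.mem_singleton, forall_eq_or_imp, forall_eq, map_sub,
    map_mul, MvPolynomial.aeval_X, map_one, map_pow, sub_eq_zero]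
  exact h

/-- The conclusion. -/
theorem funs_of (CC : Fin 10 → Finset (PP K x y)) (C : PP K x y → ℤ) [Fintype (I2 x y C)]
    (honce : ∀ s s', s ≠ s' → Disjoint (CC s) (CC s')) (M : ℕ) (hM : 0 < M)
    (z1 z3 z4 : I1 x y CC) (h1 : z1.1 = XV.ed 0 1) (h3 : z3.1 = XV.ed 0 3) (h4 : z4.1 = XV.ed 0 4)
    (f : Fin 8 → F)
    (hf : ∀ ν, f ν ∈ L K x y (fun O =>
      ∑ j, dv CC C (pe ν) (kk M ν) (zz z1 z3 z4 ν) j * dlt (EE x y CC C j) O))
    (heq : ∀ Φ ∈ eqs M, MvPolynomial.aeval f Φ = 0) : DIS.Funs x y CC (f 0) (f 1) := by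
  obtain ⟨e1, e2, e3, e4, e5, e6⟩ := eqs_zero M f heq
  have hM' : M ≠ 0 := hM.ne'
  have key : ∀ (g : F) (ν : Fin 8) (z : I1 x y CC), zz z1 z3 z4 ν = some z → z.1 ∉ pe ν →
      f ν = g ^ M → g ≠ 0 → 1 ≤ M * ord z.2.1.1 g := by
    intro g ν z hz hzp hg hg0
    have h := hf ν
    rw [hz, hg] at h
    exact zero_of_mem CC C honce hg0 z hzp h
  have hone : ∀ z : I1 x y CC, ord z.2.1.1 (1 : F) = 0 := fun z => (PP.isOrd z.2.1).one
  have p4 : z1.1 ∉ pe 4 := by rw [h1]; decide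
  have p5 : z3.1 ∉ pe 5 := by rw [h3]; decide
  have p6 : z1.1 ∉ pe 6 := by rw [h1]; decide
  have p7 : z4.1 ∉ pe 7 := by rw [h4]; decide
  have n0 : f 0 ≠ 0 := by
    intro h
    have h5 := key 1 5 z3 rfl p5 (by rw [e4, h, sub_zero]) one_ne_zero
    rw [hone, mul_zero] at h5
    norm_num at h5
  have n1 : f 0 ≠ 1 := by
    intro h
    have h5 := key 1 4 z1 rfl p4 (by rw [e3, h]) one_ne_zero
    rw [hone, mul_zero] at h5
    norm_num at h5
  have n0' : f 1 ≠ 0 := by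
    intro h
    have h5 := key 1 7 z4 rfl p7 (by rw [e6, h, sub_zero]) one_ne_zero
    rw [hone, mul_zero] at h5
    norm_num at h5
  have n1' : f 1 ≠ 1 := by
    intro h
    have h5 := key 1 6 z1 rfl p6 (by rw [e5, h]) one_ne_zero
    rw [hone, mul_zero] at h5
    norm_num at h5
  have m0 : 1 - f 0 ≠ 0 := sub_ne_zero.mpr (Ne.symm n1)
  have m1 : 1 - f 1 ≠ 0 := sub_ne_zero.mpr (Ne.symm n1')
  have q2 : f 0 / f 1 = f 2 := by rw [← e1, mul_div_cancel_right₀ _ n0']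
  have q3 : (1 - f 0) / (1 - f 1) = f 3 := by rw [← e2, mul_div_cancel_right₀ _ m1]
  have n2 : f 2 ≠ 0 := by rw [← q2]; exact div_ne_zero n0 n0'
  have n3 : f 3 ≠ 0 := by rw [← q3]; exact div_ne_zero m0 m1
  refine ⟨?_, n0, n0', n1, n1', ?_, ?_, ?_, ?_⟩
  · rintro ⟨c, hc⟩
    have hc0 : c ≠ 0 := by
      rintro rfl
      rw [map_zero] at hc
      exact n0 hc.symm
    have h5 := key (f 0) 4 z1 rfl p4 e3 n0
    rw [← hc, ord_const K x y z1.2.1 c hc0, mul_zero] at h5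
    norm_num at h5
  · intro O hO
    exact reg_of_mem CC C n0 (hf 0) O (by
      intro s hs
      exact hO s hs)
  · intro O hO
    exact reg_of_mem CC C n0' (hf 1) O (by
      intro s hs
      exact hO s hs)
  · rw [q2]
    intro O hO
    refine reg_of_mem CC C n2 (hf 2) O ?_
    intro s hs
    apply hO
    revert hs
    revert s
    decide
  · rw [q3]
    intro O hO
    refine reg_of_mem CC C n3 (hf 3) O ?_
    intro s hs
    apply hO
    revert hs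
    revert s
    decide

end

end Pool.Agent.SPR
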