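import Pool.Agent.SPR.Cp0
import Pool.Agent.MID.TorFq

/-!
# The closed point data at a good place
-/

set_option autoImplicit false

noncomputable section

namespace Pool.Agent.SPR

open Pool.Agent.SRF Pool.Agent.CPT

theorem LE.nonneg {k F : Type} [Field k] [Field F] [Algebra k F] {x y : F} {a b : Fin 2 → ℕ}
    {π u : Fin 2 → F} {D : PP k x y → ℤ} (h : LE k x y a b π u D) (O : PP k x y) : 0 ≤ D O := by
  obtain ⟨j, hj⟩ := h.att O
  rw [hj]
  have h1 := (h.pi_mem j).resolve_left (h.pi_ne j) O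
  simp only at h1
  linarith

theorem H_supp {k F : Type} [Field k] [Field F] [Algebra k F] {x y : F} (hSUP : SRF.Stmt_SUP)
    (hS : IsSurf k x y) : {O : PP k x y | H k x y O ≠ 0}.Finite := by
  have hx : x ≠ 0 := by
    have := hS.indep.ne_zero 0
    simpa using this
  have hy : y ≠ 0 := by
    have := hS.indep.ne_zero 1
    simpa using this
  refine ((hSUP k F x y hS x hx).union (hSUP k F x y hS y hy)).subset ?_
  intro O hO
  by_contra h
  simp only [Set.mem_union, Set.mem_ofPred_eq, not_or, not_not] at h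
  apply hO
  simp [H, h.1, h.2]

theorem LE.supp {k F : Type} [Field k] [Field F] [Algebra k F] {x y : F} (hSUP : SRF.Stmt_SUP)
    (hS : IsSurf k x y) {a b : Fin 2 → ℕ}
    {π u : Fin 2 → F} {D : PP k x y → ℤ} (h : LE k x y a b π u D) :
    {O : PP k x y | D O ≠ 0}.Finite := by
  refine ((H_supp hSUP hS).union (hSUP k F x y hS (π 0) (h.pi_ne 0))).subset ?_
  intro O hO
  by_contra hcon
  simp only [Set.mem_union, Set.mem_ofPred_eq, not_or, not_not] at hcon
  apply hO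
  have h1 := h.low O 0
  rw [hcon.1, hcon.2] at h1
  have h2 := h.nonneg O
  omega

variable {K F : Type} [Field K] [Field F] [Algebra K F] {x y w : F}

theorem cp_place (hSUP : SRF.Stmt_SUP) (hFCH : Stmt_FCH) (hFQ : Stmt_FQ) (hFWD : Stmt_FWD)
    (hK : IsSurf K x y) (CC : Fin 10 → Finset (PP K x y)) (r : PP K x y → ℝ)
    (honce : ∀ s s', s ≠ s' → Disjoint (CC s) (CC s')) (C : PP K x y → ℤ)
    [Fintype (I2 x y C)]
    (hbig : ∀ (c₀ : ℤ) (c : Fin 10 → ℤ), DIS.NT c₀ c → ∀ n : ℕ, ∃ m : ℕ, ∃ f : F, f ≠ 0 ∧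
      f ∈ L K x y (fun e => 2 ^ m * (C e + DIS.rdiv x y CC r c₀ c n e)))
    {Ω Fs : Type} [Field Ω] [IsAlgClosed Ω] [CharP Ω 2] [Field Fs] [Algebra Ω Fs]
    (hfin : ∀ c : Ω, ∃ n : ℕ, 0 < n ∧ c ^ 2 ^ n = c) {xs ys ws : Fs} (hs : IsSurf Ω xs ys)
    {P : Plc K Ω} (G : Gau P x y w xs ys ws)
    (a b : I1 x y CC ⊕ I2 x y C → Fin 2 → ℕ) (π u : I1 x y CC ⊕ I2 x y C → Fin 2 → F)
    (hLE : ∀ j, LE K x y (a j) (b j) (π j) (u j) (dlt (EE x y CC C j)))
    (hU : ∀ j i, G.U (π j i) ∧ G.U (u j i))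
    (D' : I1 x y CC ⊕ I2 x y C → PP Ω xs ys → ℤ)
    (hLE' : ∀ j, LE Ω xs ys (a j) (b j) (fun i => G.res (π j i)) (fun i => G.res (u j i)) (D' j))
    (B : ℕ) (hB : ∀ j O, D' j O ≤ B)
    (hdisj : ∀ i i' : I1 x y CC, i.1 ≠ i'.1 → ¬ XV.Disj i.1 i'.1 → ∀ O O',
      0 < D' (Sum.inl i) O → 0 < D' (Sum.inl i') O' → NoM Ω xs ys O O')
    (hcomm : ∀ i i' : I1 x y CC, i.1 ≠ i'.1 → ∀ O,
      ¬ (0 < D' (Sum.inl i) O ∧ 0 < D' (Sum.inl i') O)) :
    CP xs ys (fun i : I1 x y CC => (XV.eS i.1, XV.eT i.1)) (fun i => r i.2.1) B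
      (fun i => D' (Sum.inl i)) := by
  classical
  have hnn : ∀ j O, 0 ≤ D' j O := fun j O => (hLE' j).nonneg O
  have hpos : ∀ j O, D' j O ≠ 0 → 0 < D' j O := fun j O h =>
    lt_of_le_of_ne (hnn j O) (Ne.symm h)
  -- specialisation of the sections
  have hspec : ∀ (c₀ : ℤ) (c : Fin 10 → ℤ), DIS.NT c₀ c → ∀ n : ℕ, ∃ m : ℕ, ∃ f : Fs, f ≠ 0 ∧
      f ∈ L Ω xs ys (fun O => (2 : ℤ) ^ m * (∑ i : I2 x y C, C i.1 * D' (Sum.inr i) O +
        (n * c₀ * H Ω xs ys O + ∑ i : I1 x y CC, ⌊(n : ℝ) * ((c i.1 : ℝ) * r i.2.1)⌋ *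
          D' (Sum.inl i) O))) := by
    intro c₀ c hc n
    obtain ⟨m, f, hf0, hf⟩ := hbig c₀ c hc n
    obtain ⟨κ, hκ0, h1, h2⟩ := G.scale f hf0
    have h3 : (algebraMap K F κ * f) ∈ L K x y
        (fun O => ∑ j, dd x y CC C r c n m j * dlt (EE x y CC C j) O +
          (2 ^ m * (n * c₀)) * H K x y O) := by
      have e1 : (fun O => ∑ j, dd x y CC C r c n m j * dlt (EE x y CC C j) O +
          (2 ^ m * (n * c₀)) * H K x y O) =
          fun e => 2 ^ m * (C e + DIS.rdiv x y CC r c₀ c n e) := by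
        funext O
        exact (dec CC r honce C c₀ c n m O).symm
      rw [e1, ← Algebra.smul_def]
      exact Submodule.smul_mem _ _ hf
    have h4 := hFWD K Ω F Fs x y w xs ys ws P hK hs G (I1 x y CC ⊕ I2 x y C) a b π u
      (fun j => dlt (EE x y CC C j)) D' hLE hU hLE' (dd x y CC C r c n m) (2 ^ m * (n * c₀))
      _ h3 h1
    refine ⟨m, G.res (algebraMap K F κ * f), ?_, ?_⟩
    · exact Gau.U.res_ne ⟨mul_ne_zero (by rw [Ne, map_eq_zero]; exact hκ0) hf0, h1, h2⟩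
    · have e1 : (fun O => ∑ j, dd x y CC C r c n m j * D' j O +
          (2 ^ m * (n * c₀)) * H Ω xs ys O) =
          fun O => (2 : ℤ) ^ m * (∑ i : I2 x y C, C i.1 * D' (Sum.inr i) O +
            (n * c₀ * H Ω xs ys O + ∑ i : I1 x y CC, ⌊(n : ℝ) * ((c i.1 : ℝ) * r i.2.1)⌋ *
              D' (Sum.inl i) O)) := by
        funext O
        rw [Fintype.sum_sum_type]
        simp only [dd, Sum.elim_inl, Sum.elim_inr]
        rw [mul_add, mul_add, Finset.mul_sum, Finset.mul_sum]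
        have e2 : ∀ z : ℤ, ∑ i : I1 x y CC, 2 ^ m * ⌊(n : ℝ) * ((c i.1 : ℝ) * r i.2.1)⌋ *
            D' (Sum.inl i) O = ∑ i : I1 x y CC, 2 ^ m * (⌊(n : ℝ) * ((c i.1 : ℝ) * r i.2.1)⌋ *
            D' (Sum.inl i) O) := fun _ => Finset.sum_congr rfl fun i _ => by ring
        have e3 : ∑ i : I2 x y C, 2 ^ m * C i.1 * D' (Sum.inr i) O =
            ∑ i : I2 x y C, 2 ^ m * (C i.1 * D' (Sum.inr i) O) :=
          Finset.sum_congr rfl fun i _ => by ring
        rw [e2 0, e3]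
        ring
      rw [← e1]
      exact h4
  refine ⟨fun i O => hnn _ O, fun i O => hB _ O, ?_, ?_, ?_⟩
  · intro i i' hsh O O' hO hO' V hV
    have h1 : i.1 ≠ i'.1 := by
      intro h
      apply hsh.1
      left
      simp only [h, and_self]
    have h2 : ¬ XV.Disj i.1 i'.1 := by
      rintro ⟨h3, h4, h5, h6⟩
      rcases hsh.2 with h | h | h | h
      · exact h3 h
      · exact h4 h
      · exact h5 h
      · exact h6 h
    exact hdisj i i' h1 h2 O O' (hpos _ _ hO) (hpos _ _ hO') V hV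
  · intro i i' hd O
    have h1 : i.1 ≠ i'.1 := by
      intro h
      exact hd.1 (by simp only [h])
    by_contra hcon
    push Not at hcon
    exact hcomm i i' h1 O ⟨hpos _ _ hcon.1, hpos _ _ hcon.2⟩
  · intro c₀ c hc I hI
    have hNT : DIS.NT c₀ (cl c) := by
      rcases hc with ⟨rfl, h⟩ | ⟨rfl, h⟩
      · exact nt_lam c h
      · have : cl c = fun _ => 1 := by
          funext s
          exact h _ _
        rw [this]
        exact nt_one
    let T : Set (PP Ω xs ys) := {O | H Ω xs ys O ≠ 0} ∪ ⋃ j, {O | D' j O ≠ 0}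
    have hT : T.Finite := (H_supp hSUP hs).union
      (Set.finite_iUnion fun j => (hLE' j).supp hSUP hs)
    have hTD : ∀ O, O ∉ T → ∀ j, D' j O = 0 := by
      intro O hO j
      by_contra h
      exact hO (Or.inr (Set.mem_iUnion.mpr ⟨j, h⟩))
    have hTH : ∀ O, O ∉ T → H Ω xs ys O = 0 := by
      intro O hO
      by_contra h
      exact hO (Or.inl h)
    refine MID.tor_fq hSUP hFCH hFQ 2 Ω Fs xs ys hfin hs
      (fun O => ∑ i : I2 x y C, C i.1 * D' (Sum.inr i) O)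
      (fun n O => rd xs ys (fun i : I1 x y CC => (XV.eS i.1, XV.eT i.1)) (fun i => r i.2.1)
        (fun i => D' (Sum.inl i)) c₀ c n O) T hT ?_ ?_ ?_ ?_ I hI
    · intro O hO
      by_contra hOT
      exact hO (Finset.sum_eq_zero fun i _ => by rw [hTD O hOT, mul_zero])
    · intro n O hO
      by_contra hOT
      apply hO
      unfold rd
      rw [hTH O hOT, mul_zero, zero_add]
      refine Finset.sum_eq_zero fun i _ => ?_
      show _ * D' (Sum.inl i) O = 0
      rw [hTD O hOT, mul_zero]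
    · intro n
      obtain ⟨m, f, hf0, hf⟩ := hspec c₀ (cl c) hNT n
      exact ⟨m, f, hf0, hf⟩
    · intro n
      obtain ⟨m, f, hf0, hf⟩ := hspec (-c₀) (fun s => - cl c s) (nt_neg c₀ _ hNT) n
      refine ⟨m, f, hf0, ?_⟩
      right
      intro O
      have h1 := hf.resolve_left hf0 O
      refine le_trans ?_ h1
      apply neg_le_neg
      have h2 : (0 : ℤ) ≤ 2 ^ m := by positivity
      have h3 : (n * -c₀ * H Ω xs ys O + ∑ i : I1 x y CC,
          ⌊(n : ℝ) * (((- cl c i.1 : ℤ) : ℝ) * r i.2.1)⌋ * D' (Sum.inl i) O) ≤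
          - rd xs ys (fun i : I1 x y CC => (XV.eS i.1, XV.eT i.1)) (fun i => r i.2.1)
            (fun i => D' (Sum.inl i)) c₀ c n O := by
        unfold rd
        rw [neg_add, ← Finset.sum_neg_distrib]
        apply add_le_add
        · rw [mul_neg, neg_mul]
        · refine Finset.sum_le_sum fun i _ => ?_
          rw [← neg_mul]
          apply mul_le_mul_of_nonneg_right _ (hnn _ _)
          have e1 : (n : ℝ) * (((- cl c i.1 : ℤ) : ℝ) * r i.2.1) =
              - ((n : ℝ) * ((c (XV.eS i.1) (XV.eT i.1) : ℝ) * r i.2.1)) := by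
            push_cast [cl]; ring
          rw [e1]
          have h4 := Int.floor_le (-((n : ℝ) * ((c (XV.eS i.1) (XV.eT i.1) : ℝ) * r i.2.1)))
          have h5 := Int.floor_le ((n : ℝ) * ((c (XV.eS i.1) (XV.eT i.1) : ℝ) * r i.2.1))
          have h6 : ((⌊-((n : ℝ) * ((c (XV.eS i.1) (XV.eT i.1) : ℝ) * r i.2.1))⌋ +
            ⌊(n : ℝ) * ((c (XV.eS i.1) (XV.eT i.1) : ℝ) * r i.2.1)⌋ : ℤ) : ℝ) ≤ (0 : ℤ) := by
            push_cast
            linarith
          have h7 := Int.cast_le.mp h6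
          linarith
      calc (2 : ℤ) ^ m * (∑ i : I2 x y C, C i.1 * D' (Sum.inr i) O +
            (n * -c₀ * H Ω xs ys O + ∑ i : I1 x y CC,
              ⌊(n : ℝ) * (((- cl c i.1 : ℤ) : ℝ) * r i.2.1)⌋ * D' (Sum.inl i) O))
          ≤ 2 ^ m * (∑ i : I2 x y C, C i.1 * D' (Sum.inr i) O +
            - rd xs ys (fun i : I1 x y CC => (XV.eS i.1, XV.eT i.1)) (fun i => r i.2.1)
            (fun i => D' (Sum.inl i)) c₀ c n O) := by
            apply mul_le_mul_of_nonneg_left _ h2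
            linarith
        _ = _ := by push_cast; ring

end Pool.Agent.SPR
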