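import Pool.Agent.SPR.Stmts
import Pool.Agent.CPT.StmtsF
import Pool.Agent.DIS.Interface

/-!
# The rounded divisors in terms of prime divisors; numerically trivial classes
-/

set_option autoImplicit false

noncomputable section

namespace Pool.Agent.SPR

open Pool.Agent.SRF Pool.Agent.CPT

/-- The class of a unit of `M_{0,5}`. -/
def cl (c : Fin 5 → Fin 5 → ℤ) (s : Fin 10) : ℤ := c (XV.eS s) (XV.eT s)

theorem nt_lam (c : Fin 5 → Fin 5 → ℤ) (hc : Lam c) : DIS.NT 0 (cl c) := by
  obtain ⟨hs, hd, hr⟩ := hc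
  have h0 := hr 0
  have h1 := hr 1
  have h2 := hr 2
  have h3 := hr 3
  have h4 := hr 4
  simp only [Fin.sum_univ_five, hd] at h0 h1 h2 h3 h4
  have e10 := hs 1 0
  have e20 := hs 2 0
  have e30 := hs 3 0
  have e40 := hs 4 0
  have e21 := hs 2 1
  have e31 := hs 3 1
  have e41 := hs 4 1
  have e32 := hs 3 2
  have e42 := hs 4 2
  have e43 := hs 4 3
  intro s
  fin_cases s <;>
  · simp [Fin.sum_univ_succ, cl, XV.eS, XV.eT, XV.Disj]
    omega

theorem nt_one : DIS.NT (-1) (fun _ => 1) := by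
  intro s
  fin_cases s <;> decide

theorem nt_neg (c₀ : ℤ) (c : Fin 10 → ℤ) (h : DIS.NT c₀ c) : DIS.NT (-c₀) (fun s => - c s) := by
  intro s
  have h1 := h s
  have h2 : ∑ t : Fin 10, (if XV.Disj s t then - c t else 0) =
      - ∑ t : Fin 10, (if XV.Disj s t then c t else 0) := by
    rw [← Finset.sum_neg_distrib]
    refine Finset.sum_congr rfl fun t _ => ?_
    split_ifs <;> simp
  change 2 * -c₀ - -c s + ∑ t : Fin 10, (if XV.Disj s t then - c t else 0) = 0
  change 2 * c₀ - c s + ∑ t : Fin 10, (if XV.Disj s t then c t else 0) = 0 at h1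
  rw [h2]
  linarith

section

variable {K F : Type} [Field K] [Field F] [Algebra K F] (x y : F)

/-- Indices of the curves over the ten divisors. -/
abbrev I1 (CC : Fin 10 → Finset (PP K x y)) : Type := (s : Fin 10) × {e // e ∈ CC s}

/-- Indices of the support of `C`. -/
abbrev I2 (C : PP K x y → ℤ) : Type := {e : PP K x y // C e ≠ 0}

/-- The prime divisors. -/
def EE (CC : Fin 10 → Finset (PP K x y)) (C : PP K x y → ℤ) : I1 x y CC ⊕ I2 x y C → PP K x y :=
  Sum.elim (fun i => i.2.1) (fun i => i.1)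

/-- Multiplicities of the rounded divisors. -/
def dd (CC : Fin 10 → Finset (PP K x y)) (C : PP K x y → ℤ) (r : PP K x y → ℝ)
    (c : Fin 10 → ℤ) (n m : ℕ) : I1 x y CC ⊕ I2 x y C → ℤ :=
  Sum.elim (fun i => 2 ^ m * ⌊(n : ℝ) * ((c i.1 : ℝ) * r i.2.1)⌋) (fun i => 2 ^ m * C i.1)

variable {x y}

theorem dec (CC : Fin 10 → Finset (PP K x y)) (r : PP K x y → ℝ)
    (honce : ∀ s s', s ≠ s' → Disjoint (CC s) (CC s')) (C : PP K x y → ℤ)
    [Fintype (I2 x y C)] (c₀ : ℤ) (c : Fin 10 → ℤ) (n m : ℕ) (O : PP K x y) :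
    2 ^ m * (C O + DIS.rdiv x y CC r c₀ c n O) =
      ∑ j, dd x y CC C r c n m j * dlt (EE x y CC C j) O + (2 ^ m * (n * c₀)) * H K x y O := by
  classical
  rw [Fintype.sum_sum_type]
  have h2 : ∑ i : I2 x y C, dd x y CC C r c n m (Sum.inr i) *
      dlt (EE x y CC C (Sum.inr i)) O = 2 ^ m * C O := by
    by_cases hO : C O = 0
    · rw [hO, mul_zero]
      refine Finset.sum_eq_zero fun i _ => ?_
      have : O ≠ i.1 := fun h => i.2 (h ▸ hO)
      simp [dd, EE, dlt, this]
    · rw [Finset.sum_eq_single (⟨O, hO⟩ : I2 x y C)]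
      · simp [dd, EE, dlt]
      · intro b _ hb
        have : O ≠ b.1 := fun h => hb (Subtype.ext h.symm)
        simp [dd, EE, dlt, this]
      · intro h; exact absurd (Finset.mem_univ _) h
  have h1 : ∑ i : I1 x y CC, dd x y CC C r c n m (Sum.inl i) *
      dlt (EE x y CC C (Sum.inl i)) O =
      2 ^ m * ⌊(n : ℝ) * ∑ s : Fin 10, (c s : ℝ) * (if O ∈ CC s then r O else 0)⌋ := by
    by_cases hO : ∃ s, O ∈ CC s
    · obtain ⟨s, hs⟩ := hO
      have huniq : ∀ s', O ∈ CC s' → s' = s := by
        intro s' hs'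
        by_contra hne
        exact Finset.disjoint_left.mp (honce s' s hne) hs' hs
      have e1 : ∑ s' : Fin 10, (c s' : ℝ) * (if O ∈ CC s' then r O else 0) = c s * r O := by
        rw [Finset.sum_eq_single s]
        · rw [if_pos hs]
        · intro b _ hb
          rw [if_neg (fun h => hb (huniq b h)), mul_zero]
        · intro h; exact absurd (Finset.mem_univ _) h
      rw [e1, Finset.sum_eq_single (⟨s, O, hs⟩ : I1 x y CC)]
      · simp [dd, EE, dlt]
      · rintro ⟨s', e, he⟩ _ hb
        have : O ≠ e := by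
          rintro rfl
          have := huniq s' he
          subst this
          exact hb rfl
        simp [dd, EE, dlt, this]
      · intro h; exact absurd (Finset.mem_univ _) h
    · push Not at hO
      have e1 : ∑ s' : Fin 10, (c s' : ℝ) * (if O ∈ CC s' then r O else 0) = 0 :=
        Finset.sum_eq_zero fun s' _ => by rw [if_neg (hO s'), mul_zero]
      rw [e1, mul_zero, Int.floor_zero, mul_zero]
      refine Finset.sum_eq_zero fun i _ => ?_
      have : O ≠ i.2.1 := fun h => hO i.1 (h ▸ i.2.2)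
      simp [dd, EE, dlt, this]
  rw [h1, h2]
  unfold DIS.rdiv
  ring

end

end Pool.Agent.SPR
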