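import Pool.Agent.SPR.Cl

/-!
# The unknown functions at a closed point
-/

set_option autoImplicit false

noncomputable section

namespace Pool.Agent.SPR

open Pool.Agent.SRF Pool.Agent.CPT
open scoped Classical

theorem cr_sum1 : cr 3 2 1 4 + cr 0 1 2 4 = cr 0 1 2 3 := by decide

theorem cr_sum2 : cr 0 3 4 1 + cr 0 4 2 1 = cr 0 3 2 1 := by decide

variable {K F : Type} [Field K] [Field F] [Algebra K F] {x y : F}

theorem unknowns (CC : Fin 10 → Finset (PP K x y)) (C : PP K x y → ℤ) [Fintype (I2 x y C)]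
    {Ω Fs : Type} [Field Ω] [Field Fs] [Algebra Ω Fs] {xs ys : Fs}
    (D' : I1 x y CC ⊕ I2 x y C → PP Ω xs ys → ℤ) (hnn : ∀ j O, 0 ≤ D' j O) {K₀ B M : ℕ}
    (hM : K₀ + B + 1 ≤ M) (hB : ∀ j O, D' j O ≤ B)
    (z1 z3 z4 : I1 x y CC) (h1 : z1.1 = XV.ed 0 1) (h3 : z3.1 = XV.ed 0 3) (h4 : z4.1 = XV.ed 0 4)
    (X : (Fin 5 → Fin 5 → ℤ) → Fs) (hX0 : ∀ n, Lam n → X n ≠ 0)
    (hXa : ∀ m n, Lam m → Lam n → X (m + n) = X m * X n)
    (hXp : ∀ i j k l, Dist i j k l → X (cr i j k l) + X (cr i l k j) = 1)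
    (hXz : ∀ i j k l, Dist i j k l → ∀ O : PP Ω xs ys, ∀ i' : I1 x y CC, D' (Sum.inl i') O ≠ 0 →
      SameP (XV.eS i'.1, XV.eT i'.1) (i, j) → 0 < ord O.1 (X (cr i j k l)))
    (hXn : ∀ i j k l, Dist i j k l → ∀ O : PP Ω xs ys,
      (ord O.1 (X (cr i j k l)) < 0 → ∃ i' : I1 x y CC, D' (Sum.inl i') O ≠ 0 ∧
        (SameP (XV.eS i'.1, XV.eT i'.1) (i, k) ∨ SameP (XV.eS i'.1, XV.eT i'.1) (j, l))) ∧
      - (K₀ : ℤ) ≤ ord O.1 (X (cr i j k l))) :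
    ∃ f : Fin 8 → Fs, (∀ ν, f ν ∈ L Ω xs ys (fun O =>
      ∑ j, dv CC C (pe ν) (kk M ν) (zz z1 z3 z4 ν) j * D' j O)) ∧
      ∀ Φ ∈ eqs M, MvPolynomial.aeval f Φ = 0 := by
  have neg : ∀ i j k l, Dist i j k l → ∀ p : Finset (Fin 10), XV.ed i k ∈ p → XV.ed j l ∈ p →
      ∀ O : PP Ω xs ys, ord O.1 (X (cr i j k l)) < 0 →
      ∃ i' : I1 x y CC, D' (Sum.inl i') O ≠ 0 ∧ i'.1 ∈ p := by
    intro i j k l hd p hp1 hp2 O hO
    obtain ⟨i', h5, h6⟩ := (hXn i j k l hd O).1 hO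
    refine ⟨i', h5, ?_⟩
    rcases h6 with h6 | h6
    · rw [edge_of_same h6]; exact hp1
    · rw [edge_of_same h6]; exact hp2
  have hKM : (K₀ : ℤ) ≤ (M : ℤ) := by
    have : K₀ ≤ M := by omega
    exact_mod_cast this
  have A : ∀ i j k l, Dist i j k l → ∀ p : Finset (Fin 10), XV.ed i k ∈ p → XV.ed j l ∈ p →
      X (cr i j k l) ∈ L Ω xs ys (fun O => ∑ j, dv CC C p (M : ℤ) none j * D' j O) := by
    intro i j k l hd p hp1 hp2
    exact mem_of_X CC C D' hnn hKM (neg i j k l hd p hp1 hp2) fun O => (hXn i j k l hd O).2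
  have Bq : ∀ i j k l, Dist i j k l → ∀ p : Finset (Fin 10), XV.ed i k ∈ p → XV.ed j l ∈ p →
      ∀ z : I1 x y CC, z.1 = XV.ed i j →
      X (cr i j k l) ^ M ∈ L Ω xs ys (fun O =>
        ∑ j, dv CC C p ((M : ℤ) * M) (some z) j * D' j O) := by
    intro i j k l hd p hp1 hp2 z hz
    refine mem_of_pow CC C D' hnn hM hB (hX0 _ (Lam_cr i j k l hd)) z
      (neg i j k l hd p hp1 hp2) (fun O => (hXn i j k l hd O).2) ?_
    intro O hO
    refine hXz i j k l hd O z hO ?_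
    rw [hz]
    exact same_of_edge hd.1
  have e1 : 1 - X (cr 0 1 2 3) = X (cr 0 3 2 1) := by
    rw [← hXp 0 1 2 3 (by decide)]; ring
  have e2 : 1 - X (cr 0 1 2 4) = X (cr 0 4 2 1) := by
    rw [← hXp 0 1 2 4 (by decide)]; ring
  refine ⟨![X (cr 0 1 2 3), X (cr 0 1 2 4), X (cr 3 2 1 4), X (cr 0 3 4 1),
    X (cr 0 1 2 3) ^ M, X (cr 0 3 2 1) ^ M, X (cr 0 1 2 4) ^ M, X (cr 0 4 2 1) ^ M], ?_, ?_⟩
  · intro ν
    fin_cases ν
    · exact A 0 1 2 3 (by decide) _ (by decide) (by decide)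
    · exact A 0 1 2 4 (by decide) _ (by decide) (by decide)
    · exact A 3 2 1 4 (by decide) _ (by decide) (by decide)
    · exact A 0 3 4 1 (by decide) _ (by decide) (by decide)
    · exact Bq 0 1 2 3 (by decide) _ (by decide) (by decide) z1 h1
    · exact Bq 0 3 2 1 (by decide) _ (by decide) (by decide) z3 h3
    · exact Bq 0 1 2 4 (by decide) _ (by decide) (by decide) z1 h1
    · exact Bq 0 4 2 1 (by decide) _ (by decide) (by decide) z4 h4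
  · apply eqs_of
    refine ⟨?_, ?_, rfl, ?_, rfl, ?_⟩
    · show X (cr 3 2 1 4) * X (cr 0 1 2 4) = X (cr 0 1 2 3)
      rw [← hXa _ _ (Lam_cr _ _ _ _ (by decide)) (Lam_cr _ _ _ _ (by decide)), cr_sum1]
    · show X (cr 0 3 4 1) * (1 - X (cr 0 1 2 4)) = 1 - X (cr 0 1 2 3)
      rw [e1, e2, ← hXa _ _ (Lam_cr _ _ _ _ (by decide)) (Lam_cr _ _ _ _ (by decide)), cr_sum2]
    · show X (cr 0 3 2 1) ^ M = (1 - X (cr 0 1 2 3)) ^ M
      rw [e1]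
    · show X (cr 0 4 2 1) ^ M = (1 - X (cr 0 1 2 4)) ^ M
      rw [e2]

end Pool.Agent.SPR
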