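import Pool.Agent.SPR.Stmts

/-!
# SPR: disjoint prime divisors specialise to disjoint divisors (DJS)
-/

set_option autoImplicit false

noncomputable section

namespace Pool.Agent.SPR

open Pool.Agent.SRF

namespace DJS_

theorem z_ne {k F : Type} [Field k] [Field F] [Algebra k F] {x y : F} (h : IsSurf k x y)
    (l : Fin 3) : z x y l ≠ 0 := by
  have h0 := h.indep.ne_zero 0
  have h1 := h.indep.ne_zero 1
  fin_cases l
  · exact one_ne_zero
  · exact h0
  · exact h1

theorem mn_nonneg {k F : Type} [Field k] [Field F] [Algebra k F] {x y : F} {a b : Fin 2 → ℕ}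
    {π u : Fin 2 → F} {D : PP k x y → ℤ} (h : LE k x y a b π u D) (O : PP k x y) :
    0 ≤ mn k x y a π O := by
  have key : ∀ j, 0 ≤ ord O.1 (π j) + a j * H k x y O := by
    intro j
    have h1 := ((mem_L k x y).1 (h.pi_mem j)).resolve_left (h.pi_ne j) O
    linarith
  exact le_min (key 0) (key 1)

/-- a nonunit -/
theorem lt_one {F : Type} [Field F] {V : ValuationSubring F} {f : F}
    (h : f ≠ 0 → f⁻¹ ∉ V) : V.valuation f < 1 := by
  by_cases h0 : f = 0
  · rw [h0, map_zero]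
    exact zero_lt_one
  · have h1 := h h0
    rw [← V.valuation_le_one_iff, not_le, map_inv₀] at h1
    have h2 : V.valuation f ≠ 0 := by
      rw [Ne, map_eq_zero]
      exact h0
    exact (one_lt_inv₀ (zero_lt_iff.2 h2)).1 h1

/-- the contradiction -/
theorem final {k F : Type} [Field k] [Field F] [Algebra k F] {x y : F} (hs : IsSurf k x y)
    (hCEN : Stmt_CEN) (hTHC : Stmt_THC) (hSEC : Stmt_SEC) (hHCH : Stmt_HCH)
    (D D' : PP k x y → ℤ) (hD : ∀ O, 0 ≤ D O) (hD' : ∀ O, 0 ≤ D' O) (M : ℕ) (α β : Fin 3 → F)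
    (hα : ∀ l, α l ∈ L k x y (fun O => -D O + M * H k x y O))
    (hβ : ∀ l, β l ∈ L k x y (fun O => -D' O + M * H k x y O))
    (hsum : ∀ l, z x y l ^ M = α l + β l) (O O' : PP k x y) (hO : 0 < D O) (hO' : 0 < D' O') :
    NoM k x y O O' := by
  intro V hV ⟨h1, h2⟩
  obtain ⟨⟨l, hl⟩, -⟩ := hCEN k F x y hs V hV
  obtain ⟨c1, c2⟩ := hTHC k F x y hs O V hV h1 l hl
  obtain ⟨c1', c2'⟩ := hTHC k F x y hs O' V hV h2 l hl
  have hz : z x y l ≠ 0 := z_ne hs l
  have key : ∀ (E : PP k x y → ℤ) (γ : F) (P : PP k x y), (∀ O, 0 ≤ E O) →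
      γ ∈ L k x y (fun O => -E O + M * H k x y O) → 0 < E P → chart k x y l ≤ P.1.toSubring →
      (∀ a ∈ chart k x y l, a ≠ 0 → a⁻¹ ∉ P.1 → a⁻¹ ∉ V) →
      V.valuation (γ / z x y l ^ M) < 1 := by
    intro E γ P hE hγ hP hc hin
    refine lt_one fun h0 => hin _ ?_ h0 ?_
    · refine (hSEC k F x y hs M γ).1 ?_ l
      rw [mem_L] at hγ ⊢
      refine hγ.imp_right fun h3 Q => ?_
      have h4 := h3 Q
      have h5 := hE Q
      linarith
    · have hγ0 : γ ≠ 0 := by
        rintro rfl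
        rw [zero_div] at h0
        exact h0 rfl
      have h3 := ((mem_L k x y).1 hγ).resolve_left hγ0 P
      have h4 := ((hHCH k F x y hs P).2.2 l).1 hc
      rw [P.isOrd.mem _ (inv_ne_zero h0), P.isOrd.inv h0, div_eq_mul_inv,
        P.isOrd.mul _ _ hγ0 (inv_ne_zero (pow_ne_zero _ hz)), P.isOrd.inv (pow_ne_zero _ hz),
        P.isOrd.pow hz, not_le]
      rw [h4] at h3
      linarith
  have e1 := key D (α l) O hD (hα l) hO c1 c2
  have e2 := key D' (β l) O' hD' (hβ l) hO' c1' c2'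
  have e3 : α l / z x y l ^ M + β l / z x y l ^ M = 1 := by
    rw [← add_div, ← hsum, div_self (pow_ne_zero _ hz)]
  have e4 := Valuation.map_add_lt _ e1 e2
  rw [e3, map_one] at e4
  exact lt_irrefl _ e4

end DJS_

open DJS_ in
theorem DJS_proof (hGUN : Stmt_GUN) (hFWD : Stmt_FWD) (hDIS : SRF.Stmt_DIS) (hCEN : SRF.Stmt_CEN)
    (hTHC : SRF.Stmt_THC) (hSEC : SRF.Stmt_SEC) (hHCH : SRF.Stmt_HCH) : Stmt_DJS := by
  classical
  intro κ F _ _ _ _ x y w N A g hM E E' hNo a b a' b' π u π' u' hLE hLE'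
  obtain ⟨M, α, β, hα, hβ, hα1, hβ1, hsum⟩ := hDIS κ F x y hM.surf E E' hNo
  obtain ⟨C, hC⟩ := hGUN κ F x y w N A g hM
    ((Finset.univ.image α ∪ Finset.univ.image β) ∪
      ((Finset.univ.image π ∪ Finset.univ.image u) ∪
        (Finset.univ.image π' ∪ Finset.univ.image u')))
  refine ⟨C, ?_⟩
  intro Ω _ P hP Fs _ _ xs ys ws hMs G hL hL' O O' hO hO'
  have hG := hC Ω P hP Fs xs ys ws hMs G
  have gα : ∀ l, α l ≠ 0 → G.U (α l) := fun l => hG _ (by simp)
  have gβ : ∀ l, β l ≠ 0 → G.U (β l) := fun l => hG _ (by simp)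
  have gπ : ∀ j, G.U (π j) := fun j => hG _ (by simp) (hLE.pi_ne j)
  have gu : ∀ j, G.U (u j) := fun j => hG _ (by simp) (hLE.u_ne j)
  have gπ' : ∀ j, G.U (π' j) := fun j => hG _ (by simp) (hLE'.pi_ne j)
  have gu' : ∀ j, G.U (u' j) := fun j => hG _ (by simp) (hLE'.u_ne j)
  have mα : ∀ l, α l ∈ G.W := by
    intro l
    by_cases h : α l = 0
    · rw [h]; exact zero_mem _
    · exact (gα l h).2.1
  have mβ : ∀ l, β l ∈ G.W := by
    intro l
    by_cases h : β l = 0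
    · rw [h]; exact zero_mem _
    · exact (gβ l h).2.1
  have key : ∀ (B : PP κ x y) (a b : Fin 2 → ℕ) (π u : Fin 2 → F),
      LE κ x y a b π u (dlt B) → (∀ j, G.U (π j)) → (∀ j, G.U (u j)) →
      LE Ω xs ys a b (fun j => G.res (π j)) (fun j => G.res (u j))
        (mn Ω xs ys a (fun j => G.res (π j))) → ∀ γ : F,
      γ ∈ L κ x y (fun O => M * H κ x y O) → (γ = 0 ∨ 1 ≤ ord B.1 γ + M * H κ x y B) →
      γ ∈ G.W → G.res γ ∈ L Ω xs ys (fun O => -mn Ω xs ys a (fun j => G.res (π j)) O +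
        M * H Ω xs ys O) := by
    intro B a b π u h1 h2 h3 h4 γ h5 h6 h7
    have h8 := hFWD κ Ω F Fs x y w xs ys ws P hM.surf hMs.surf G Unit (fun _ => a) (fun _ => b)
      (fun _ => π) (fun _ => u) (fun _ => dlt B)
      (fun _ => mn Ω xs ys a (fun j => G.res (π j))) (fun _ => h1)
      (fun _ j => ⟨h2 j, h3 j⟩) (fun _ => h4) (fun _ => -1) M γ ?_ h7
    · simp only [Finset.univ_unique, Finset.sum_singleton, neg_mul, one_mul] at h8
      exact_mod_cast h8
    · rw [mem_L] at h5 ⊢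
      by_cases hγ0 : γ = 0
      · exact Or.inl hγ0
      · refine Or.inr fun Q => ?_
        have h9 := h5.resolve_left hγ0 Q
        simp only [Finset.univ_unique, Finset.sum_singleton, neg_mul, one_mul] at h9 ⊢
        unfold dlt
        by_cases hQ : Q = B
        · rw [if_pos hQ, hQ]
          have h10 := h6.resolve_left hγ0
          linarith
        · rw [if_neg hQ]
          linarith
  have hzl : ∀ l, z x y l ∈ G.W ∧ G.res (z x y l) = z xs ys l := by
    intro l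
    fin_cases l
    · exact ⟨one_mem _, Gau.res_one⟩
    · exact ⟨G.x_mem, Gau.res_x⟩
    · exact ⟨G.y_mem, Gau.res_y⟩
  refine final hMs.surf hCEN hTHC hSEC hHCH (mn Ω xs ys a (fun j => G.res (π j)))
    (mn Ω xs ys a' (fun j => G.res (π' j))) (mn_nonneg hL) (mn_nonneg hL') M
    (fun l => G.res (α l)) (fun l => G.res (β l)) ?_ ?_ ?_ O O' hO hO'
  · exact fun l => key E a b π u hLE gπ gu hL (α l) (hα l) (hα1 l) (mα l)
  · exact fun l => key E' a' b' π' u' hLE' gπ' gu' hL' (β l) (hβ l) (hβ1 l) (mβ l)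
  · intro l
    rw [← Gau.res_add (mα l) (mβ l), ← hsum l, Gau.res_pow (hzl l).1, (hzl l).2]

end Pool.Agent.SPR
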