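import Pool.Agent.SRF.Defs

/-!
# Specialisation of surfaces at places of the field of constants
-/

set_option autoImplicit false

noncomputable section

namespace Pool.Agent.SPR

open Pool.Agent.SRF

/-- A place of the field `κ` with values in the field `Ω`. -/
structure Plc (κ Ω : Type) [Field κ] [Field Ω] where
  O : ValuationSubring κ
  r : O →+* Ω
  ker : ∀ a : O, r a = 0 ↔ (a : κ) = 0 ∨ (a : κ)⁻¹ ∉ O

section

variable {κ Ω : Type} [Field κ] [Field Ω] (P : Plc κ Ω)

/-- The residue (`0` outside of the valuation ring). -/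
def Plc.res (a : κ) : Ω :=
  open scoped Classical in if h : a ∈ P.O then P.r ⟨a, h⟩ else 0

/-- The nonzero elements of `C` are units. -/
def Plc.Gd (C : Finset κ) : Prop := ∀ c ∈ C, c ≠ 0 → c ∈ P.O ∧ c⁻¹ ∈ P.O

/-- Reduction of the coefficients of a polynomial. -/
def Plc.mv {σ : Type} (f : MvPolynomial σ κ) : MvPolynomial σ Ω :=
  ∑ m ∈ f.support, MvPolynomial.monomial m (P.res (f.coeff m))

/-- Reduction of the coefficients of a polynomial. -/
def Plc.pl {σ : Type} (g : Polynomial (MvPolynomial σ κ)) : Polynomial (MvPolynomial σ Ω) :=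
  ∑ n ∈ g.support, Polynomial.monomial n (P.mv (g.coeff n))

variable {P}

theorem Plc.res_of_mem {a : κ} (h : a ∈ P.O) : P.res a = P.r ⟨a, h⟩ := by
  unfold Plc.res
  rw [dif_pos h]

theorem Plc.res_of_not_mem {a : κ} (h : a ∉ P.O) : P.res a = 0 := by
  unfold Plc.res
  rw [dif_neg h]

@[simp] theorem Plc.res_zero : P.res 0 = 0 := by
  rw [Plc.res_of_mem (zero_mem _)]
  exact map_zero P.r

@[simp] theorem Plc.res_one : P.res 1 = 1 := by
  rw [Plc.res_of_mem (one_mem _)]
  exact map_one P.r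

theorem Plc.res_add {a b : κ} (ha : a ∈ P.O) (hb : b ∈ P.O) :
    P.res (a + b) = P.res a + P.res b := by
  rw [Plc.res_of_mem ha, Plc.res_of_mem hb, Plc.res_of_mem (add_mem ha hb), ← map_add]
  rfl

theorem Plc.res_mul {a b : κ} (ha : a ∈ P.O) (hb : b ∈ P.O) :
    P.res (a * b) = P.res a * P.res b := by
  rw [Plc.res_of_mem ha, Plc.res_of_mem hb, Plc.res_of_mem (mul_mem ha hb), ← map_mul]
  rfl

theorem Plc.res_ne_zero {a : κ} (h0 : a ≠ 0) (ha : a ∈ P.O) (ha' : a⁻¹ ∈ P.O) : P.res a ≠ 0 := by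
  rw [Plc.res_of_mem ha, Ne, P.ker]
  rintro (h | h)
  · exact h0 h
  · exact h ha'

theorem Plc.coeff_mv {σ : Type} (f : MvPolynomial σ κ) (m : σ →₀ ℕ) :
    (P.mv f).coeff m = P.res (f.coeff m) := by
  classical
  unfold Plc.mv
  rw [MvPolynomial.coeff_sum]
  by_cases hm : m ∈ f.support
  · rw [Finset.sum_eq_single m]
    · rw [MvPolynomial.coeff_monomial, if_pos rfl]
    · intro b _ hb
      rw [MvPolynomial.coeff_monomial, if_neg hb]
    · intro h; exact absurd hm h
  · rw [MvPolynomial.notMem_support_iff.mp hm, Plc.res_zero]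
    refine Finset.sum_eq_zero fun b hb => ?_
    rw [MvPolynomial.coeff_monomial, if_neg]
    rintro rfl
    exact hm hb

@[simp] theorem Plc.mv_zero {σ : Type} : P.mv (0 : MvPolynomial σ κ) = 0 := by
  unfold Plc.mv
  simp

theorem Plc.coeff_pl {σ : Type} (g : Polynomial (MvPolynomial σ κ)) (n : ℕ) :
    (P.pl g).coeff n = P.mv (g.coeff n) := by
  classical
  unfold Plc.pl
  rw [Polynomial.finsetSum_coeff]
  by_cases hn : n ∈ g.support
  · rw [Finset.sum_eq_single n]
    · rw [Polynomial.coeff_monomial, if_pos rfl]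
    · intro b _ hb
      rw [Polynomial.coeff_monomial, if_neg hb]
    · intro h; exact absurd hn h
  · rw [Polynomial.notMem_support_iff.mp hn, Plc.mv_zero]
    refine Finset.sum_eq_zero fun b hb => ?_
    rw [Polynomial.coeff_monomial, if_neg]
    rintro rfl
    exact hn hb

theorem Plc.Gd.mono {C D : Finset κ} (h : C ⊆ D) (hD : P.Gd D) : P.Gd C :=
  fun c hc => hD c (h hc)

end

section

variable (κ : Type) {F : Type} [Field κ] [Field F] [Algebra κ F] (x y w : F)

/-- A model of the surface: `F = κ(x, y)[w] / g` with `g` monic over `κ[x, y]` of degree `N` in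
`w`, the coefficient of `w ^ j` of degree at most `a (N - j)`. -/
structure Mdl (N a : ℕ) (g : Polynomial (MvPolynomial (Fin 2) κ)) : Prop where
  surf : IsSurf κ x y
  monic : g.Monic
  deg : g.natDegree = N
  rank : Module.finrank (IntermediateField.adjoin κ {x, y}) F = N
  bound : ∀ j ≤ N, (g.coeff j).totalDegree ≤ a * (N - j)
  root : ∑ j ∈ Finset.range (N + 1), MvPolynomial.aeval ![x, y] (g.coeff j) * w ^ j = 0
  gen : IntermediateField.adjoin (IntermediateField.adjoin κ {x, y}) {w} = ⊤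

/-- The derivative of the equation of the model at `w`. -/
def der (N : ℕ) (g : Polynomial (MvPolynomial (Fin 2) κ)) : F :=
  ∑ j ∈ Finset.range N, ((j + 1 : ℕ) : F) *
    MvPolynomial.aeval ![x, y] (g.coeff (j + 1)) * w ^ j

end

section

variable {κ Ω F Fs : Type} [Field κ] [Field Ω] [Field F] [Field Fs] [Algebra κ F] [Algebra Ω Fs]

/-- The Gauss place of `F` over a place of `κ`, with values in the function field `Fs` of the
specialised surface. -/
structure Gau (P : Plc κ Ω) (x y w : F) (xs ys ws : Fs) where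
  W : ValuationSubring F
  r : W →+* Fs
  ker : ∀ f : W, r f = 0 ↔ (f : F) = 0 ∨ (f : F)⁻¹ ∉ W
  const_mem : ∀ c : κ, algebraMap κ F c ∈ W ↔ c ∈ P.O
  const : ∀ (c : κ) (hc : algebraMap κ F c ∈ W), r ⟨_, hc⟩ = algebraMap Ω Fs (P.res c)
  x_mem : x ∈ W
  y_mem : y ∈ W
  w_mem : w ∈ W
  r_x : r ⟨x, x_mem⟩ = xs
  r_y : r ⟨y, y_mem⟩ = ys
  r_w : r ⟨w, w_mem⟩ = ws
  scale : ∀ f : F, f ≠ 0 → ∃ c : κ, c ≠ 0 ∧ algebraMap κ F c * f ∈ W ∧
    (algebraMap κ F c * f)⁻¹ ∈ W
  int : ∀ f ∈ W, ∃ q : Polynomial F, q.Monic ∧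
    (∀ n, q.coeff n ∈ W ∧ q.coeff n ∈ IntermediateField.adjoin κ {x, y}) ∧ q.eval f = 0

namespace Gau

variable {P : Plc κ Ω} {x y w : F} {xs ys ws : Fs} (G : Gau P x y w xs ys ws)

/-- The reduction (`0` outside of the valuation ring). -/
def res (f : F) : Fs :=
  open scoped Classical in if h : f ∈ G.W then G.r ⟨f, h⟩ else 0

/-- Units. -/
def U (f : F) : Prop := f ≠ 0 ∧ f ∈ G.W ∧ f⁻¹ ∈ G.W

variable {G}

theorem res_of_mem {f : F} (h : f ∈ G.W) : G.res f = G.r ⟨f, h⟩ := by
  unfold res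
  rw [dif_pos h]

theorem res_add {f g : F} (hf : f ∈ G.W) (hg : g ∈ G.W) : G.res (f + g) = G.res f + G.res g := by
  rw [res_of_mem hf, res_of_mem hg, res_of_mem (add_mem hf hg), ← map_add]
  rfl

theorem res_mul {f g : F} (hf : f ∈ G.W) (hg : g ∈ G.W) : G.res (f * g) = G.res f * G.res g := by
  rw [res_of_mem hf, res_of_mem hg, res_of_mem (mul_mem hf hg), ← map_mul]
  rfl

@[simp] theorem res_one : G.res 1 = 1 := by
  rw [res_of_mem (one_mem _)]
  exact map_one G.r

@[simp] theorem res_zero : G.res 0 = 0 := by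
  rw [res_of_mem (zero_mem _)]
  exact map_zero G.r

theorem res_neg {f : F} (hf : f ∈ G.W) : G.res (-f) = - G.res f := by
  rw [res_of_mem hf, res_of_mem (neg_mem hf), ← map_neg]
  rfl

theorem res_pow {f : F} (hf : f ∈ G.W) (n : ℕ) : G.res (f ^ n) = G.res f ^ n := by
  induction n with
  | zero => simp
  | succ n ih => rw [pow_succ, pow_succ, res_mul (pow_mem hf n) hf, ih]

theorem res_sum {ι : Type} (s : Finset ι) (f : ι → F) (hf : ∀ i ∈ s, f i ∈ G.W) :
    G.res (∑ i ∈ s, f i) = ∑ i ∈ s, G.res (f i) := by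
  classical
  induction s using Finset.induction_on with
  | empty => simp
  | insert i s hi ih =>
    rw [Finset.sum_insert hi, Finset.sum_insert hi,
      res_add (hf i (Finset.mem_insert_self i s))
        (sum_mem fun j hj => hf j (Finset.mem_insert_of_mem hj)),
      ih fun j hj => hf j (Finset.mem_insert_of_mem hj)]

theorem res_prod {ι : Type} (s : Finset ι) (f : ι → F) (hf : ∀ i ∈ s, f i ∈ G.W) :
    G.res (∏ i ∈ s, f i) = ∏ i ∈ s, G.res (f i) := by
  classical
  induction s using Finset.induction_on with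
  | empty => simp
  | insert i s hi ih =>
    rw [Finset.prod_insert hi, Finset.prod_insert hi,
      res_mul (hf i (Finset.mem_insert_self i s))
        (prod_mem fun j hj => hf j (Finset.mem_insert_of_mem hj)),
      ih fun j hj => hf j (Finset.mem_insert_of_mem hj)]

theorem U.mul {f g : F} (hf : G.U f) (hg : G.U g) : G.U (f * g) :=
  ⟨mul_ne_zero hf.1 hg.1, mul_mem hf.2.1 hg.2.1, by rw [mul_inv]; exact mul_mem hf.2.2 hg.2.2⟩

theorem U.inv {f : F} (hf : G.U f) : G.U f⁻¹ :=
  ⟨inv_ne_zero hf.1, hf.2.2, by rw [inv_inv]; exact hf.2.1⟩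

theorem U.pow {f : F} (hf : G.U f) (n : ℕ) : G.U (f ^ n) :=
  ⟨pow_ne_zero n hf.1, pow_mem hf.2.1 n, by rw [← inv_pow]; exact pow_mem hf.2.2 n⟩

theorem U.one : G.U 1 := ⟨one_ne_zero, one_mem _, by rw [inv_one]; exact one_mem _⟩

theorem U.res_ne {f : F} (hf : G.U f) : G.res f ≠ 0 := by
  rw [res_of_mem hf.2.1, Ne, G.ker]
  rintro (h | h)
  · exact hf.1 h
  · exact h hf.2.2

theorem U.res_inv {f : F} (hf : G.U f) : G.res f⁻¹ = (G.res f)⁻¹ := by
  apply eq_inv_of_mul_eq_one_right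
  rw [← res_mul hf.2.1 hf.2.2, mul_inv_cancel₀ hf.1, res_one]

theorem res_eq_zero {f : F} (hf : f ∈ G.W) : G.res f = 0 ↔ f = 0 ∨ f⁻¹ ∉ G.W := by
  rw [res_of_mem hf, G.ker]

theorem res_const {c : κ} (hc : c ∈ P.O) :
    G.res (algebraMap κ F c) = algebraMap Ω Fs (P.res c) := by
  rw [res_of_mem ((G.const_mem c).mpr hc), G.const]

theorem res_x : G.res x = xs := by rw [res_of_mem G.x_mem, G.r_x]

theorem res_y : G.res y = ys := by rw [res_of_mem G.y_mem, G.r_y]

theorem res_w : G.res w = ws := by rw [res_of_mem G.w_mem, G.r_w]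

end Gau

end

section

variable (k : Type) {F : Type} [Field k] [Field F] [Algebra k F] (x y : F)

/-- Local equations of the effective divisor `D`: two pairs `(π, u)`. -/
structure LE (a b : Fin 2 → ℕ) (π u : Fin 2 → F) (D : PP k x y → ℤ) : Prop where
  pi_ne : ∀ j, π j ≠ 0
  u_ne : ∀ j, u j ≠ 0
  pi_mem : ∀ j, π j ∈ L k x y (fun O => a j * H k x y O)
  u_mem : ∀ j, u j ∈ L k x y (fun O => b j * H k x y O)
  le : ∀ j, a j ≤ b j
  low : ∀ O j, D O ≤ ord O.1 (π j) + a j * H k x y O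
  att : ∀ O, ∃ j, D O = ord O.1 (π j) + a j * H k x y O
  quo : ∀ O j, ord O.1 (π j) + a j * H k x y O ≤ D O + (ord O.1 (u j) + b j * H k x y O)
  cop : ∀ O, ∃ j, ord O.1 (u j) + b j * H k x y O = 0

/-- The multiplier of the multiplicity `d` for the pair `j`. -/
def mul1 {F : Type} [Field F] (π u : Fin 2 → F) (d : ℤ) (j : Fin 2) : F :=
  π j ^ d.toNat * (u j / π j) ^ (-d).toNat

/-- Its degree. -/
def deg1 (a b : Fin 2 → ℕ) (d : ℤ) (j : Fin 2) : ℕ :=
  a j * d.toNat + (b j - a j) * (-d).toNat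

/-- The smaller one of the orders of two sections. -/
def mn (a : Fin 2 → ℕ) (π : Fin 2 → F) (O : PP k x y) : ℤ :=
  min (ord O.1 (π 0) + a 0 * H k x y O) (ord O.1 (π 1) + a 1 * H k x y O)

variable {k x y} in
/-- The prime divisor `E` as a divisor. -/
def dlt (E : PP k x y) (O : PP k x y) : ℤ :=
  open scoped Classical in if O = E then 1 else 0

/-- No valuation ring of `F` has its centre on both prime divisors. -/
def NoM (O O' : PP k x y) : Prop :=
  ∀ V : ValuationSubring F, (∀ c : k, algebraMap k F c ∈ V) →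
    ¬ (thr k x y O.1 V ∧ thr k x y O'.1 V)

end

/-- Reduction of the coefficients of a polynomial with coefficients in `F`. -/
def Gau.mv {κ Ω F Fs : Type} [Field κ] [Field Ω] [Field F] [Field Fs] [Algebra κ F] [Algebra Ω Fs]
    {P : Plc κ Ω} {x y w : F} {xs ys ws : Fs} (G : Gau P x y w xs ys ws) {σ : Type}
    (f : MvPolynomial σ F) : MvPolynomial σ Fs :=
  ∑ m ∈ f.support, MvPolynomial.monomial m (G.res (f.coeff m))

end Pool.Agent.SPR
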