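import Pool.Agent.SPR.Cp
import Pool.Agent.SPR.Cpp

/-!
# The divisors of the unknown functions
-/

set_option autoImplicit false

noncomputable section

namespace Pool.Agent.SPR

open Pool.Agent.SRF Pool.Agent.CPT
open scoped Classical

section

variable {K F : Type} [Field K] [Field F] [Algebra K F] {x y : F}

/-- Poles of order `k` on the curves over the edges in `pe`, a zero on the curve `z`. -/
def dv (CC : Fin 10 → Finset (PP K x y)) (C : PP K x y → ℤ) (pe : Finset (Fin 10)) (k : ℤ)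
    (z : Option (I1 x y CC)) : I1 x y CC ⊕ I2 x y C → ℤ :=
  Sum.elim (fun i => (if i.1 ∈ pe then k else 0) - (if z = some i then 1 else 0)) (fun _ => 0)

variable (CC : Fin 10 → Finset (PP K x y)) (C : PP K x y → ℤ) [Fintype (I2 x y C)]

/-- No poles outside of the given curves. -/
theorem reg_of_mem {pe : Finset (Fin 10)} {k : ℤ} {f : F} (hf0 : f ≠ 0)
    (hf : f ∈ L K x y (fun O => ∑ j, dv CC C pe k none j * dlt (EE x y CC C j) O))
    (O : PP K x y) (hO : ∀ s ∈ pe, O ∉ CC s) : 0 ≤ ord O.1 f := by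
  have h1 := hf.resolve_left hf0 O
  have h2 : ∑ j, dv CC C pe k none j * dlt (EE x y CC C j) O = 0 := by
    refine Finset.sum_eq_zero fun j _ => ?_
    rcases j with i | i
    · by_cases h : O = i.2.1
      · have h3 : i.1 ∉ pe := fun h4 => hO i.1 h4 (h ▸ i.2.2)
        simp [dv, h3]
      · simp [dlt, EE, h]
    · simp [dv]
  simp only at h1
  rw [h2, neg_zero] at h1
  exact h1

/-- The zero. -/
theorem zero_of_mem (honce : ∀ s s', s ≠ s' → Disjoint (CC s) (CC s')) {pe : Finset (Fin 10)}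
    {k : ℤ} {f : F} {M : ℕ} (hf0 : f ≠ 0) (z : I1 x y CC) (hz : z.1 ∉ pe)
    (hf : f ^ M ∈ L K x y (fun O => ∑ j, dv CC C pe k (some z) j * dlt (EE x y CC C j) O)) :
    1 ≤ M * ord z.2.1.1 f := by
  have h1 := hf.resolve_left (pow_ne_zero M hf0) z.2.1
  have h2 : ∑ j, dv CC C pe k (some z) j * dlt (EE x y CC C j) z.2.1 = -1 := by
    rw [Finset.sum_eq_single (Sum.inl z)]
    · simp [dv, dlt, EE, hz]
    · rintro (i | i) _ hb
      · have h3 : z.2.1 ≠ i.2.1 := by
          intro h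
          apply hb
          congr 1
          obtain ⟨s, e, he⟩ := i
          obtain ⟨s', e', he'⟩ := z
          simp only at h
          subst h
          have : s = s' := by
            by_contra hne
            exact Finset.disjoint_left.mp (honce s s' hne) he he'
          subst this
          rfl
        simp [dlt, EE, h3]
      · simp [dv]
    · intro h; exact absurd (Finset.mem_univ _) h
  simp only at h1
  rw [h2, (PP.isOrd z.2.1).pow hf0] at h1
  linarith

end

section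

variable {K F : Type} [Field K] [Field F] [Algebra K F] {x y : F}
variable (CC : Fin 10 → Finset (PP K x y)) (C : PP K x y → ℤ) [Fintype (I2 x y C)]
variable {Ω Fs : Type} [Field Ω] [Field Fs] [Algebra Ω Fs] {xs ys : Fs}
  (D' : I1 x y CC ⊕ I2 x y C → PP Ω xs ys → ℤ)

theorem sum_dv (pe : Finset (Fin 10)) (k : ℤ) (z : Option (I1 x y CC)) (O : PP Ω xs ys) :
    ∑ j, dv CC C pe k z j * D' j O =
      ∑ i : I1 x y CC, (if i.1 ∈ pe then k else 0) * D' (Sum.inl i) O -
        (match z with | none => 0 | some t => D' (Sum.inl t) O) := by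
  rw [Fintype.sum_sum_type]
  have h2 : ∑ i : I2 x y C, dv CC C pe k z (Sum.inr i) * D' (Sum.inr i) O = 0 :=
    Finset.sum_eq_zero fun i _ => by simp [dv]
  rw [h2, add_zero]
  simp only [dv, Sum.elim_inl, sub_mul]
  rw [Finset.sum_sub_distrib]
  congr 1
  cases z with
  | none => simp
  | some t => simp

theorem mem_of_X (hnn : ∀ j O, 0 ≤ D' j O) {pe : Finset (Fin 10)} {k : ℤ} {K₀ : ℕ}
    (hk : (K₀ : ℤ) ≤ k) {f : Fs}
    (hneg : ∀ O : PP Ω xs ys, ord O.1 f < 0 → ∃ i : I1 x y CC, D' (Sum.inl i) O ≠ 0 ∧ i.1 ∈ pe)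
    (hlow : ∀ O : PP Ω xs ys, - (K₀ : ℤ) ≤ ord O.1 f) :
    f ∈ L Ω xs ys (fun O => ∑ j, dv CC C pe k none j * D' j O) := by
  have hk0 : 0 ≤ k := le_trans (by positivity) hk
  right
  intro O
  simp only
  rw [sum_dv]
  simp only [sub_zero]
  have hterm : ∀ i : I1 x y CC, 0 ≤ (if i.1 ∈ pe then k else 0) * D' (Sum.inl i) O := by
    intro i
    split_ifs
    · exact mul_nonneg hk0 (hnn _ _)
    · simp
  by_cases h : ord O.1 f < 0
  · obtain ⟨i, h1, h2⟩ := hneg O h
    have h3 : (1 : ℤ) ≤ D' (Sum.inl i) O := by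
      have := hnn (Sum.inl i) O
      omega
    have h4 : k ≤ ∑ i : I1 x y CC, (if i.1 ∈ pe then k else 0) * D' (Sum.inl i) O := by
      refine le_trans ?_ (Finset.single_le_sum (fun i _ => hterm i) (Finset.mem_univ i))
      rw [if_pos h2]
      nlinarith
    have := hlow O
    linarith
  · have := Finset.sum_nonneg (fun (i : I1 x y CC) (_ : i ∈ Finset.univ) => hterm i)
    push Not at h
    linarith

theorem mem_of_pow (hnn : ∀ j O, 0 ≤ D' j O) {pe : Finset (Fin 10)} {K₀ B M : ℕ}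
    (hM : K₀ + B + 1 ≤ M) (hB : ∀ j O, D' j O ≤ B) {f : Fs} (hf0 : f ≠ 0) (z : I1 x y CC)
    (hneg : ∀ O : PP Ω xs ys, ord O.1 f < 0 → ∃ i : I1 x y CC, D' (Sum.inl i) O ≠ 0 ∧ i.1 ∈ pe)
    (hlow : ∀ O : PP Ω xs ys, - (K₀ : ℤ) ≤ ord O.1 f)
    (hz : ∀ O : PP Ω xs ys, D' (Sum.inl z) O ≠ 0 → 0 < ord O.1 f) :
    f ^ M ∈ L Ω xs ys (fun O => ∑ j, dv CC C pe ((M : ℤ) * M) (some z) j * D' j O) := by
  right
  intro O
  simp only
  rw [sum_dv, (PP.isOrd O).pow hf0]
  simp only
  have hMM : (0 : ℤ) ≤ (M : ℤ) * M := by positivity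
  have hterm : ∀ i : I1 x y CC, 0 ≤ (if i.1 ∈ pe then (M : ℤ) * M else 0) *
      D' (Sum.inl i) O := by
    intro i
    split_ifs
    · exact mul_nonneg hMM (hnn _ _)
    · simp
  have hBz := hB (Sum.inl z) O
  have hM' : (K₀ : ℤ) + B + 1 ≤ M := by exact_mod_cast hM
  by_cases h : ord O.1 f < 0
  · obtain ⟨i, h1, h2⟩ := hneg O h
    have h3 : (1 : ℤ) ≤ D' (Sum.inl i) O := by
      have := hnn (Sum.inl i) O
      omega
    have h4 : (M : ℤ) * M ≤
        ∑ i : I1 x y CC, (if i.1 ∈ pe then (M : ℤ) * M else 0) * D' (Sum.inl i) O := by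
      refine le_trans ?_ (Finset.single_le_sum (fun i _ => hterm i) (Finset.mem_univ i))
      rw [if_pos h2]
      nlinarith
    have h5 := hlow O
    nlinarith
  · have h6 := Finset.sum_nonneg (fun (i : I1 x y CC) (_ : i ∈ Finset.univ) => hterm i)
    push Not at h
    by_cases h7 : D' (Sum.inl z) O = 0
    · rw [h7]
      have : 0 ≤ (M : ℤ) * ord O.1 f := by positivity
      linarith
    · have h8 := hz O h7
      have : (M : ℤ) ≤ M * ord O.1 f := by nlinarith
      linarith

end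

theorem edge_of_same {s : Fin 10} {i j : Fin 5} (h : SameP (XV.eS s, XV.eT s) (i, j)) :
    s = XV.ed i j := by
  unfold SameP at h
  revert h
  revert s i j
  decide

theorem same_of_edge {i j : Fin 5} (h : i ≠ j) :
    SameP (XV.eS (XV.ed i j), XV.eT (XV.ed i j)) (i, j) := by
  unfold SameP
  revert h
  revert i j
  decide

end Pool.Agent.SPR
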