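import Pool.Agent.SPR.StmtsC

/-!
# SPR: LAH, extraction of a homomorphism
-/

set_option autoImplicit false

noncomputable section

namespace Pool.Agent.SPR

open Pool.Agent.SRF

namespace LAH_

/-- `Lam` as a submodule. -/
def LamS : Submodule ℤ (Fin 5 → Fin 5 → ℤ) where
  carrier := {n | CPT.Lam n}
  zero_mem' := ⟨fun _ _ => rfl, fun _ => rfl, fun i => by simp⟩
  add_mem' := by
    intro m n hm hn
    refine ⟨fun i j => ?_, fun i => ?_, fun i => ?_⟩
    · simp only [Pi.add_apply]; rw [hm.1 i j, hn.1 i j]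
    · simp only [Pi.add_apply]; rw [hm.2.1 i, hn.2.1 i]; rfl
    · simp only [Pi.add_apply]; rw [Finset.sum_add_distrib, hm.2.2 i, hn.2.2 i]; rfl
  smul_mem' := by
    intro c n hn
    refine ⟨fun i j => ?_, fun i => ?_, fun i => ?_⟩
    · simp only [Pi.smul_apply]; rw [hn.1 i j]
    · simp only [Pi.smul_apply]; rw [hn.2.1 i]; simp
    · simp only [Pi.smul_apply, smul_eq_mul]; rw [← Finset.mul_sum, hn.2.2 i, mul_zero]

section

variable {K M : Type} [Field K] [AddCommGroup M] (R : M → K → Prop) (h0 : R 0 1)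
  (hadd : ∀ m n f g, R m f → R n g → R (m + n) (f * g)) (hneg : ∀ n f, R n f → R (-n) f⁻¹)

include h0 hadd in
lemma nsmul_mem {n : M} {f : K} (h : R n f) (k : ℕ) : R (k • n) (f ^ k) := by
  induction k with
  | zero => rwa [zero_smul, pow_zero]
  | succ k ih =>
    rw [succ_nsmul, pow_succ]
    exact hadd _ _ _ _ ih h

include h0 hadd hneg in
lemma zsmul_mem {n : M} {f : K} (h : R n f) (k : ℤ) : R (k • n) (f ^ k) := by
  obtain ⟨m, rfl | rfl⟩ := k.eq_nat_or_neg
  · rw [natCast_zsmul, zpow_natCast]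
    exact nsmul_mem R h0 hadd h m
  · rw [neg_smul, natCast_zsmul, zpow_neg, zpow_natCast]
    exact hneg _ _ (nsmul_mem R h0 hadd h m)

include h0 hadd hneg in
lemma sum_mem {ι : Type} (s : Finset ι) (b : ι → M) (f : ι → K) (hb : ∀ i, R (b i) (f i))
    (c : ι → ℤ) : R (∑ i ∈ s, c i • b i) (∏ i ∈ s, f i ^ c i) := by
  classical
  induction s using Finset.induction_on with
  | empty => simpa using h0
  | insert i s hi ih =>
    rw [Finset.sum_insert hi, Finset.prod_insert hi]
    exact hadd _ _ _ _ (zsmul_mem R h0 hadd hneg (hb i) (c i)) ih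

end

end LAH_

open LAH_ in
theorem LAH_proof : Stmt_LAH := by
  intro K _ R h0 hadd hneg hne hex
  classical
  let b := Module.Free.chooseBasis ℤ LamS
  have : Finite (Module.Free.ChooseBasisIndex ℤ LamS) := inferInstance
  let _ : Fintype (Module.Free.ChooseBasisIndex ℤ LamS) := Fintype.ofFinite _
  choose f hf using fun i => hex (b i : Fin 5 → Fin 5 → ℤ) (b i).2
  have hf0 : ∀ i, f i ≠ 0 := fun i => hne _ _ (hf i)
  refine ⟨fun n => if h : CPT.Lam n then ∏ i, f i ^ (b.repr ⟨n, h⟩ i) else 1, ?_, ?_⟩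
  · intro n hn
    simp only [dif_pos hn]
    have h1 := sum_mem R h0 hadd hneg Finset.univ (fun i => (b i : Fin 5 → Fin 5 → ℤ)) f hf
      (fun i => b.repr ⟨n, hn⟩ i)
    have h2 : ∑ i, b.repr ⟨n, hn⟩ i • (b i : Fin 5 → Fin 5 → ℤ) = n := by
      have h3 := congrArg Subtype.val (b.sum_repr ⟨n, hn⟩)
      rw [Submodule.coe_sum] at h3
      exact h3
    rw [h2] at h1
    exact h1
  · intro m n hm hn
    have hmn : CPT.Lam (m + n) := LamS.add_mem hm hn
    simp only [dif_pos hm, dif_pos hn, dif_pos hmn]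
    rw [← Finset.prod_mul_distrib]
    refine Finset.prod_congr rfl fun i _ => ?_
    have h1 : (⟨m + n, hmn⟩ : LamS) = ⟨m, hm⟩ + ⟨n, hn⟩ := rfl
    rw [h1, map_add, Finsupp.add_apply, zpow_add₀ (hf0 i)]

end Pool.Agent.SPR
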