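import Pool.Agent.SPR.Stmts

/-!
# Reduction of polynomials through lifts to the valuation ring (helper85)
-/

set_option autoImplicit false
set_option linter.all false

noncomputable section

namespace Pool.Agent.SPR

namespace Lift85

open MvPolynomial

variable {κ Ω : Type} [Field κ] [Field Ω]

/-- the generic reduction through the valuation ring -/
theorem gen_map {ρ : Type} (O : ValuationSubring κ) (r : O →+* Ω) (res : κ → Ω)
    (h : ∀ a : O, res a = r a) (h0 : res 0 = 0) (p : MvPolynomial ρ O) :
    ∑ m ∈ (map O.subtype p).support, monomial m (res ((map O.subtype p).coeff m)) = map r p := by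
  classical
  ext n
  rw [coeff_sum, coeff_map]
  by_cases hn : n ∈ (map O.subtype p).support
  · rw [Finset.sum_eq_single n]
    · rw [coeff_monomial, if_pos rfl, coeff_map]
      exact h _
    · intro b _ hb
      rw [coeff_monomial, if_neg hb]
    · intro h; exact absurd hn h
  · have h1 : O.subtype (p.coeff n) = 0 := by
      rw [← coeff_map]; exact notMem_support_iff.mp hn
    have h2 : p.coeff n = 0 := Subtype.ext h1
    rw [h2, map_zero]
    refine Finset.sum_eq_zero fun b hb => ?_
    rw [coeff_monomial, if_neg]
    rintro rfl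
    exact hn hb

theorem P_map {ρ : Type} (P : Plc κ Ω) (p : MvPolynomial ρ P.O) :
    P.mv (map P.O.subtype p) = map P.r p :=
  gen_map P.O P.r P.res (fun a => Plc.res_of_mem a.2) Plc.res_zero p

variable {F Fs : Type} [Field F] [Field Fs] [Algebra κ F] [Algebra Ω Fs] {P : Plc κ Ω}
  {x y w : F} {xs ys ws : Fs}

theorem G_map {ρ : Type} (G : Gau P x y w xs ys ws) (p : MvPolynomial ρ G.W) :
    G.mv (map G.W.subtype p) = map G.r p :=
  gen_map G.W G.r G.res (fun a => Gau.res_of_mem a.2) Gau.res_zero p

theorem exists_lift {ρ : Type} (O : ValuationSubring κ) (p : MvPolynomial ρ κ)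
    (h : ∀ m, p.coeff m ∈ O) : ∃ q : MvPolynomial ρ O, map O.subtype q = p := by
  have : p ∈ Set.range (map (σ := ρ) O.subtype) := by
    rw [mem_range_map_iff_coeffs_subset]
    intro c hc
    rw [SetLike.mem_coe, mem_coeffs_iff] at hc
    obtain ⟨m, -, rfl⟩ := hc
    exact ⟨⟨_, h m⟩, rfl⟩
  exact this

end Lift85

end Pool.Agent.SPR
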