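import Pool.Agent.SPR.KeyTrick

/-!
# Algebraic relations between the periods of abelian varieties with complex multiplication

Abstract form.  `G` is a finite abelian group (the Galois group of a CM field `E`), `c` an element of order
two (complex conjugation), `M` a torsion free abelian group (the multiplicative group of complex
numbers modulo algebraic numbers), `pi` a nonzero element of `M` (the class of `2 π i`), `Θ Φ τ` the class of
the periods of the `τ`-eigendifferential of the abelian variety with CM type `Φ`.  From Shimura's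
relations and the fact that two different types have different periods we deduce that all algebraic
monomials in the periods correspond to relations between the types.
-/

set_option autoImplicit false

open scoped BigOperators

namespace Pool.Agent.SPR

/-- `Φ` is a CM type. -/
def IsCM {G : Type} [Mul G] (c : G) (Φ : Set G) : Prop := ∀ x, x ∈ Φ ↔ c * x ∉ Φ

/-- The indicator function of a set. -/
noncomputable def ind {G : Type} (Φ : Set G) (x : G) : ℤ := Φ.indicator 1 x

namespace P3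

variable {G : Type}

theorem ind_mem {Φ : Set G} {x : G} (h : x ∈ Φ) : ind Φ x = 1 := by
  unfold ind
  rw [Set.indicator_of_mem h]
  rfl

theorem ind_notMem {Φ : Set G} {x : G} (h : x ∉ Φ) : ind Φ x = 0 := by
  unfold ind
  rw [Set.indicator_of_notMem h]

variable [CommGroup G]

theorem ind_add {c : G} {Φ : Set G} (h : IsCM c Φ) (x : G) : ind Φ x + ind Φ (c * x) = 1 := by
  by_cases hx : x ∈ Φ
  · rw [ind_mem hx, ind_notMem ((h x).1 hx)]
    rfl
  · have h1 : c * x ∈ Φ := by
      by_contra h2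
      exact hx ((h x).2 h2)
    rw [ind_notMem hx, ind_mem h1]
    rfl

theorem exists_cm [Finite G] (c : G) (hc : c * c = 1) (hc1 : c ≠ 1) : ∃ Φ : Set G, IsCM c Φ ∧ 1 ∈ Φ := by
  classical
  have _ : Fintype G := Fintype.ofFinite G
  let e : G ≃ Fin (Fintype.card G) := Fintype.equivFin G
  have key : ∀ x : G, c * (c * x) = x := fun x => by rw [← mul_assoc, hc, one_mul]
  have hne : ∀ x : G, e x ≠ e (c * x) := by
    intro x h
    apply hc1
    exact mul_eq_right.1 (e.injective h).symm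
  by_cases h1 : e 1 < e (c * 1)
  · refine ⟨{x | e x < e (c * x)}, ?_, h1⟩
    intro x
    simp only [Set.mem_ofPred_eq, key, not_lt]
    exact ⟨fun h => h.le, fun h => lt_of_le_of_ne h (hne x)⟩
  · refine ⟨{x | e (c * x) < e x}, ?_, lt_of_le_of_ne (not_lt.1 h1) (hne 1).symm⟩
    intro x
    simp only [Set.mem_ofPred_eq, key, not_lt]
    exact ⟨fun h => h.le, fun h => lt_of_le_of_ne h (hne x).symm⟩

/-- The type `Φ` flipped at `x`. -/
def flip (c : G) (Φ : Set G) (x : G) : Set G := {y | (y ∈ Φ ∧ y ≠ x) ∨ y = c * x}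

theorem flip_cm {c : G} (hc : c * c = 1) (hc1 : c ≠ 1) {Φ : Set G} (h : IsCM c Φ) {x : G} (hx : x ∈ Φ) :
    IsCM c (flip c Φ x) := by
  have key : ∀ x : G, c * (c * x) = x := fun x => by rw [← mul_assoc, hc, one_mul]
  have hcx : c * x ∉ Φ := (h x).1 hx
  have hne : c * x ≠ x := fun e => hc1 (mul_eq_right.1 e)
  intro y
  unfold flip
  simp only [Set.mem_ofPred_eq]
  constructor
  · rintro (⟨h1, h2⟩ | h1)
    · rintro (⟨h3, -⟩ | h3)
      · exact (h y).1 h1 h3
      · exact h2 (mul_left_cancel h3)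
    · subst h1
      rintro (⟨-, h4⟩ | h4)
      · exact h4 (key x)
      · rw [key] at h4
        exact hne h4.symm
  · intro h1
    push Not at h1
    obtain ⟨h2, h3⟩ := h1
    by_cases hy : y ∈ Φ
    · left
      refine ⟨hy, ?_⟩
      rintro rfl
      exact h3 rfl
    · right
      have h4 : c * y ∈ Φ := by
        by_contra h5
        exact hy ((h y).2 h5)
      have h5 := h2 h4
      rw [← h5, key]

theorem flip_ind {c : G} (hc : c * c = 1) (hc1 : c ≠ 1) {Φ : Set G} (h : IsCM c Φ) {x : G} (hx : x ∈ Φ)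
    {Ψ : Set G} (hΨ : IsCM c Ψ) (hxΨ : x ∈ Ψ) (y : G) :
    ind (flip c Φ x) y + ind Ψ y = ind Φ y + ind (flip c Ψ x) y := by
  have hne : c * x ≠ x := fun e => hc1 (mul_eq_right.1 e)
  have key : ∀ Φ : Set G, IsCM c Φ → x ∈ Φ →
      ind (flip c Φ x) y - ind Φ y = (open Classical in
        (if y = c * x then 1 else 0) - (if y = x then 1 else 0)) := by
    intro Φ h hx
    have hcx : c * x ∉ Φ := (h x).1 hx
    by_cases h1 : y = c * x
    · subst h1
      rw [if_pos rfl, if_neg hne, ind_mem (show c * x ∈ flip c Φ x from Or.inr rfl), ind_notMem hcx]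
    · by_cases h2 : y = x
      · subst h2
        rw [if_neg h1, if_pos rfl, ind_mem hx, ind_notMem]
        rintro (⟨-, h3⟩ | h3)
        · exact h3 rfl
        · exact h1 h3
      · rw [if_neg h1, if_neg h2]
        by_cases h3 : y ∈ Φ
        · rw [ind_mem h3, ind_mem (show y ∈ flip c Φ x from Or.inl ⟨h3, h2⟩)]
          ring
        · have h5 : y ∉ flip c Φ x := by
            rintro (⟨h4, -⟩ | h4)
            · exact h3 h4
            · exact h1 h4
          rw [ind_notMem h3, ind_notMem h5]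
  have h1 := key Φ h hx
  have h2 := key Ψ hΨ hxΨ
  rw [← h2] at h1
  linarith

end P3

open P3 in
/-- Algebraic monomials in the periods of abelian varieties with CM by an abelian field are given by the
relations between the CM types. -/
theorem partIII (G : Type) [CommGroup G] [Finite G] (c : G) (hc : c * c = 1) (hc1 : c ≠ 1)
    (M : Type) [AddCommGroup M] (tf : ∀ (n : ℤ) (x : M), n ≠ 0 → n • x = 0 → x = 0)
    (pi : M) (hpi : pi ≠ 0) (Θ : Set G → G → M)
    (twist : ∀ Φ, IsCM c Φ → ∀ σ τ, Θ {x | σ * x ∈ Φ} τ = Θ Φ (σ * τ))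
    (riemann : ∀ Φ, IsCM c Φ → ∀ τ, Θ Φ τ + Θ Φ (c * τ) = pi)
    (shimura : ∀ Φ₁ Φ₂ Φ₃ Φ₄, IsCM c Φ₁ → IsCM c Φ₂ → IsCM c Φ₃ → IsCM c Φ₄ →
      (∀ x, ind Φ₁ x + ind Φ₂ x = ind Φ₃ x + ind Φ₄ x) →
      ∀ τ, τ ∈ Φ₁ → τ ∈ Φ₂ → τ ∈ Φ₃ → τ ∈ Φ₄ → Θ Φ₁ τ + Θ Φ₂ τ = Θ Φ₃ τ + Θ Φ₄ τ)
    (sep : ∀ Φ Φ', IsCM c Φ → IsCM c Φ' → (∀ τ, Θ Φ τ = Θ Φ' τ) → Φ = Φ')
    (ι : Type) [Fintype ι] (Φ : ι → Set G) (hΦ : ∀ i, IsCM c (Φ i)) (φ : ι → G) (n : ι → ℤ) (m : ℤ) :
    (∀ σ : G, ∑ i, n i • Θ (Φ i) (σ * φ i) + m • pi = 0) ↔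
      ∀ σ : G, ∑ i, n i * ind (Φ i) (σ * φ i) + m = 0 := by
  classical
  obtain ⟨Ψ₀, hΨ₀, h1Ψ₀⟩ := exists_cm c hc hc1
  have _ : Fintype G := Fintype.ofFinite G
  have key : ∀ x : G, c * (c * x) = x := fun x => by rw [← mul_assoc, hc, one_mul]
  let S : Finset G := Finset.univ.filter (fun x => x ∈ Ψ₀ ∧ x ≠ 1)
  have hS : ∀ x, x ∈ S ↔ x ∈ Ψ₀ ∧ x ≠ 1 := by
    intro x
    simp [S]
  let gg : G → M := fun x => Θ (flip c Ψ₀ x) 1 - Θ Ψ₀ 1
  let P : (G → ℤ) →+ M :=
    { toFun := fun f => f 1 • Θ Ψ₀ 1 + f c • (pi - Θ Ψ₀ 1) + ∑ x ∈ S, (f 1 - f x) • gg x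
      map_zero' := by simp
      map_add' := by
        intro f f'
        have h1 : ∑ x ∈ S, ((f + f') 1 - (f + f') x) • gg x =
            ∑ x ∈ S, (f 1 - f x) • gg x + ∑ x ∈ S, (f' 1 - f' x) • gg x := by
          rw [← Finset.sum_add_distrib]
          refine Finset.sum_congr rfl fun x _ => ?_
          rw [← add_smul]
          congr 1
          simp only [Pi.add_apply]
          ring
        rw [h1]
        simp only [Pi.add_apply, add_smul]
        abel }
  have hP : ∀ f, P f = f 1 • Θ Ψ₀ 1 + f c • (pi - Θ Ψ₀ 1) + ∑ x ∈ S, (f 1 - f x) • gg x := fun f => rfl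
  -- types containing `1`
  have step1 : ∀ (k : ℕ) (Ψ : Set G), IsCM c Ψ → 1 ∈ Ψ → (S.filter (fun x => x ∉ Ψ)).card = k →
      Θ Ψ 1 = Θ Ψ₀ 1 + ∑ x ∈ S.filter (fun x => x ∉ Ψ), gg x := by
    intro k
    induction k with
    | zero =>
      intro Ψ hΨ h1 hcard
      rw [Finset.card_eq_zero] at hcard
      rw [hcard, Finset.sum_empty, add_zero]
      have h2 : Ψ = Ψ₀ := by
        have h3 : ∀ x, x ∈ Ψ₀ → x ∈ Ψ := by
          intro x hx
          by_cases hx1 : x = 1
          · rw [hx1]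
            exact h1
          · by_contra hxΨ
            have : x ∈ S.filter (fun x => x ∉ Ψ) := Finset.mem_filter.2 ⟨(hS x).2 ⟨hx, hx1⟩, hxΨ⟩
            rw [hcard] at this
            exact Finset.notMem_empty x this
        ext x
        constructor
        · intro hx
          by_contra hx0
          have h4 : c * x ∈ Ψ₀ := by
            by_contra h5
            exact hx0 ((hΨ₀ x).2 h5)
          exact (hΨ x).1 hx (h3 _ h4)
        · exact h3 x
      rw [h2]
    | succ k ih =>
      intro Ψ hΨ h1 hcard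
      obtain ⟨x, hx⟩ : (S.filter (fun x => x ∉ Ψ)).Nonempty := by
        rw [← Finset.card_pos, hcard]
        omega
      obtain ⟨hxS, hxΨ⟩ := Finset.mem_filter.1 hx
      obtain ⟨hx0, hx1⟩ := (hS x).1 hxS
      have hcxΨ : c * x ∈ Ψ := by
        by_contra h
        exact hxΨ ((hΨ x).2 h)
      have hcx1 : c * x ≠ 1 := by
        intro h
        have : c * x ∉ Ψ₀ := (hΨ₀ x).1 hx0
        rw [h] at this
        exact this h1Ψ₀
      -- the flipped type
      set Ψ' := flip c Ψ (c * x) with hΨ'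
      have hcm : IsCM c Ψ' := flip_cm hc hc1 hΨ hcxΨ
      have h1' : (1 : G) ∈ Ψ' := Or.inl ⟨h1, Ne.symm hcx1⟩
      have hxΨ' : x ∈ Ψ' := Or.inr (key x).symm
      have hmem : ∀ y, y ∈ Ψ₀ → y ≠ x → (y ∈ Ψ' ↔ y ∈ Ψ) := by
        intro y hy hyx
        constructor
        · rintro (⟨h, -⟩ | h)
          · exact h
          · rw [key] at h
            exact absurd h hyx
        · intro h
          left
          refine ⟨h, ?_⟩
          rintro rfl
          exact (hΨ₀ x).1 hx0 hy
      have hfil : S.filter (fun y => y ∉ Ψ') = (S.filter (fun y => y ∉ Ψ)).erase x := by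
        apply Finset.ext
        intro y
        rw [Finset.mem_erase]
        simp only [Finset.mem_filter]
        constructor
        · rintro ⟨hyS, hyΨ'⟩
          have hyx : y ≠ x := by
            rintro rfl
            exact hyΨ' hxΨ'
          exact ⟨hyx, hyS, fun h => hyΨ' ((hmem y ((hS y).1 hyS).1 hyx).2 h)⟩
        · rintro ⟨hyx, hyS, hyΨ⟩
          exact ⟨hyS, fun h => hyΨ ((hmem y ((hS y).1 hyS).1 hyx).1 h)⟩
      have hcard' : (S.filter (fun y => y ∉ Ψ')).card = k := by
        rw [hfil, Finset.card_erase_of_mem hx, hcard]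
        rfl
      have hih := ih Ψ' hcm h1' hcard'
      -- the double flip is the identity
      have hflip : flip c Ψ' x = Ψ := by
        ext y
        constructor
        · rintro (⟨(⟨h, -⟩ | h), h'⟩ | h)
          · exact h
          · rw [key] at h
            exact absurd h h'
          · rw [h]
            exact hcxΨ
        · intro h
          by_cases hy : y = c * x
          · exact Or.inr hy
          · left
            refine ⟨Or.inl ⟨h, hy⟩, ?_⟩
            rintro rfl
            exact hxΨ h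
      have hR := shimura (flip c Ψ' x) Ψ₀ Ψ' (flip c Ψ₀ x) (flip_cm hc hc1 hcm hxΨ') hΨ₀ hcm
        (flip_cm hc hc1 hΨ₀ hx0) (flip_ind hc hc1 hcm hxΨ' hΨ₀ hx0) 1 (by rw [hflip]; exact h1) h1Ψ₀ h1'
        (Or.inl ⟨h1Ψ₀, Ne.symm hx1⟩)
      rw [hflip] at hR
      have h5 : ∑ y ∈ S.filter (fun y => y ∉ Ψ), gg y =
          gg x + ∑ y ∈ S.filter (fun y => y ∉ Ψ'), gg y := by
        rw [hfil]
        exact (Finset.add_sum_erase _ gg hx).symm
      have h6 : Θ Ψ 1 = Θ Ψ' 1 + gg x := by
        have h7 : Θ Ψ 1 = Θ Ψ' 1 + Θ (flip c Ψ₀ x) 1 - Θ Ψ₀ 1 := eq_sub_of_add_eq hR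
        rw [h7]
        simp only [gg]
        abel
      rw [h6, hih, h5]
      abel
  -- all types
  have hone : ∀ Ψ : Set G, IsCM c Ψ → 1 ∈ Ψ → P (ind Ψ) = Θ Ψ 1 := by
    intro Ψ hΨ h1
    have hc' : c ∉ Ψ := by
      have := (hΨ 1).1 h1
      rwa [mul_one] at this
    rw [hP, ind_mem h1, ind_notMem hc', one_smul, zero_smul, add_zero, step1 _ Ψ hΨ h1 rfl]
    congr 1
    rw [Finset.sum_filter (fun x => x ∉ Ψ) gg]
    apply Finset.sum_congr rfl
    intro x _
    by_cases hx : x ∈ Ψ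
    · rw [ind_mem hx, if_neg (not_not.2 hx), sub_self, zero_smul]
    · rw [ind_notMem hx, if_pos hx, sub_zero, one_smul]
  have hconst : ∀ w : ℤ, P (fun _ => w) = w • pi := by
    intro w
    rw [hP]
    simp only [sub_self, zero_smul, Finset.sum_const_zero, add_zero]
    rw [← smul_add, add_sub_cancel]
  have hgen : ∀ Ψ : Set G, IsCM c Ψ → P (ind Ψ) = Θ Ψ 1 := by
    intro Ψ hΨ
    by_cases h1 : 1 ∈ Ψ
    · exact hone Ψ hΨ h1
    · have hcm : IsCM c {x | c * x ∈ Ψ} := by
        intro x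
        simp only [Set.mem_ofPred_eq]
        exact hΨ (c * x)
      have h2 : (1 : G) ∈ {x | c * x ∈ Ψ} := by
        change c * 1 ∈ Ψ
        by_contra h3
        exact h1 ((hΨ 1).2 h3)
      have h3 := hone _ hcm h2
      have h4 : ind {x | c * x ∈ Ψ} = fun x => 1 - ind Ψ x := by
        funext x
        have h5 := ind_add hΨ x
        have h6 : ind {x | c * x ∈ Ψ} x = ind Ψ (c * x) := rfl
        rw [h6]
        linarith
      have h5 : P (ind {x | c * x ∈ Ψ}) = pi - P (ind Ψ) := by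
        rw [h4]
        have h6 : (fun x => 1 - ind Ψ x) = (fun _ => (1 : ℤ)) - ind Ψ := rfl
        rw [h6, map_sub, hconst, one_smul]
      rw [h5, twist Ψ hΨ] at h3
      have h6 := riemann Ψ hΨ 1
      have h7 : P (ind Ψ) = pi - Θ Ψ (c * 1) := by
        rw [← h3]
        abel
      rw [h7, ← h6]
      abel
  have htr : ∀ Ψ : Set G, IsCM c Ψ → ∀ σ, P (fun x => ind Ψ (σ * x)) = Θ Ψ σ := by
    intro Ψ hΨ σ
    have hcm : IsCM c {x | σ * x ∈ Ψ} := by
      intro x
      simp only [Set.mem_ofPred_eq]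
      rw [hΨ (σ * x), mul_left_comm]
    have h1 := hgen _ hcm
    rw [twist Ψ hΨ, mul_one] at h1
    exact h1
  -- the group of relations
  let R : AddSubgroup (G → ℤ) :=
    { carrier := {h | (∃ w : ℤ, ∀ x, h x + h (c * x) = w) ∧ ∀ σ, P (fun x => h (σ * x)) = 0}
      add_mem' := by
        rintro a b ⟨⟨w, hw⟩, ha⟩ ⟨⟨w', hw'⟩, hb⟩
        refine ⟨⟨w + w', fun x => ?_⟩, fun σ => ?_⟩
        · rw [← hw x, ← hw' x]
          simp only [Pi.add_apply]
          ring
        · have : (fun x => (a + b) (σ * x)) = (fun x => a (σ * x)) + fun x => b (σ * x) := rfl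
          rw [this, map_add, ha, hb, add_zero]
      zero_mem' := by
        refine ⟨⟨0, fun x => by simp⟩, fun σ => ?_⟩
        have : (fun x => (0 : G → ℤ) (σ * x)) = 0 := rfl
        rw [this, map_zero]
      neg_mem' := by
        rintro a ⟨⟨w, hw⟩, ha⟩
        refine ⟨⟨-w, fun x => ?_⟩, fun σ => ?_⟩
        · rw [← hw x]
          simp only [Pi.neg_apply]
          ring
        · have : (fun x => (-a) (σ * x)) = -(fun x => a (σ * x)) := rfl
          rw [this, map_neg, ha, neg_zero] }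
  have hR : ∀ h, h ∈ R ↔ (∃ w : ℤ, ∀ x, h x + h (c * x) = w) ∧ ∀ σ, P (fun x => h (σ * x)) = 0 :=
    fun h => Iff.rfl
  have hst : ∀ g : G, ∀ h ∈ R, (fun x => h (g * x)) ∈ R := by
    rintro g h ⟨⟨w, hw⟩, hh⟩
    refine ⟨⟨w, fun x => ?_⟩, fun σ => ?_⟩
    · rw [← hw (g * x)]
      simp only
      rw [mul_left_comm]
    · rw [← hh (g * σ)]
      congr 1
      funext x
      rw [mul_assoc]
  have hodd : ∀ h ∈ R, ∀ x, h (c * x) = - h x := by
    rintro h ⟨⟨w, hw⟩, hh⟩ x
    have h1 : (fun x => h (1 * x)) + (fun x => h (c * x)) = fun _ => w := by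
      funext x
      rw [← hw x]
      simp
    have h2 := congrArg P h1
    rw [map_add, hh, hh, hconst, add_zero] at h2
    have h3 : w = 0 := by
      by_contra hw0
      exact hpi (tf w pi hw0 h2.symm)
    have h4 := hw x
    rw [h3] at h4
    linarith
  have hRbot : R = ⊥ := by
    by_contra hne
    obtain ⟨Ψ, Ψ', hΨ, hΨ', hne', N, hN, hmem⟩ := keyTrick G c hc R hst hodd hne
    apply hne'
    apply sep Ψ Ψ' hΨ hΨ'
    intro τ
    have h1 := hmem.2 τ
    have h2 : (fun x => (N : ℤ) * (Ψ.indicator 1 (τ * x) - Ψ'.indicator 1 (τ * x))) =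
        (N : ℤ) • ((fun x => ind Ψ (τ * x)) - fun x => ind Ψ' (τ * x)) := rfl
    rw [h2, map_zsmul, map_sub, htr Ψ hΨ, htr Ψ' hΨ'] at h1
    exact sub_eq_zero.1 (tf (N : ℤ) _ (by omega) h1)
  -- the function `f`
  let f : G → ℤ := fun x => ∑ i, n i * ind (Φ i) (x * φ i) + m
  have hf : ∀ σ, P (fun x => f (σ * x)) = ∑ i, n i • Θ (Φ i) (σ * φ i) + m • pi := by
    intro σ
    have h1 : (fun x => f (σ * x)) =
        (∑ i, n i • (fun x => ind (Φ i) (σ * φ i * x))) + fun _ => m := by
      funext x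
      simp only [f, Pi.add_apply, Finset.sum_apply, Pi.smul_apply, smul_eq_mul]
      congr 1
      refine Finset.sum_congr rfl fun i _ => ?_
      rw [mul_right_comm]
    rw [h1, map_add, map_sum, hconst]
    congr 1
    refine Finset.sum_congr rfl fun i _ => ?_
    rw [map_zsmul, htr (Φ i) (hΦ i)]
  constructor
  · intro h
    have hfR : f ∈ R := by
      rw [hR]
      refine ⟨⟨∑ i, n i + 2 * m, fun x => ?_⟩, fun σ => ?_⟩
      · have h1 : ∀ i, n i = n i * ind (Φ i) (x * φ i) + n i * ind (Φ i) (c * x * φ i) := by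
          intro i
          rw [← mul_add, mul_assoc c, ind_add (hΦ i), mul_one]
        rw [Finset.sum_congr rfl fun i _ => h1 i, Finset.sum_add_distrib]
        simp only [f]
        ring
      · rw [hf]
        exact h σ
    rw [hRbot, AddSubgroup.mem_bot] at hfR
    intro σ
    exact congrFun hfR σ
  · intro h σ
    rw [← hf]
    have h1 : (fun x => f (σ * x)) = 0 := by
      funext x
      exact h (σ * x)
    rw [h1, map_zero]

end Pool.Agent.SPR
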