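import Pool.Agent.SPR.Defs
import Pool.Agent.SRF.Stmts

/-!
# Statements: specialisation of surfaces and transfer back
-/

set_option autoImplicit false

noncomputable section

namespace Pool.Agent.SPR

open Pool.Agent.SRF

/-- Extension of a homomorphism to a place. -/
def Stmt_PLX : Prop :=
  ∀ (κ Ω : Type) [Field κ] [Field Ω] [IsAlgClosed Ω] (A : Subring κ) (h : A →+* Ω),
    ∃ P : Plc κ Ω, ∀ a : A, (a : κ) ∈ P.O ∧ P.res a = h a

/-- Finitely generated rings of characteristic `p` have points. -/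
def Stmt_PLH : Prop :=
  ∀ (p : ℕ) [Fact p.Prime] (κ Ω : Type) [Field κ] [Field Ω] [CharP κ p] [CharP Ω p]
    [IsAlgClosed Ω] (C : Finset κ), Nonempty (Subring.closure (C : Set κ) →+* Ω)

/-- Places with prescribed units. -/
def Stmt_PLC : Prop :=
  ∀ (p : ℕ) [Fact p.Prime] (κ Ω : Type) [Field κ] [Field Ω] [CharP κ p] [CharP Ω p]
    [IsAlgClosed Ω] (C : Finset κ), ∃ P : Plc κ Ω, P.Gd C

/-- Every surface has a model. -/
def Stmt_MDL : Prop :=
  ∀ (κ F : Type) [Field κ] [Field F] [Algebra κ F] (x y : F), IsSurf κ x y →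
    ∃ (w : F) (N a : ℕ) (g : Polynomial (MvPolynomial (Fin 2) κ)), Mdl κ x y w N a g

/-- The equation of a model is irreducible and separable. -/
def Stmt_MIR : Prop :=
  ∀ (κ F : Type) [Field κ] [Field F] [Algebra κ F] (x y w : F) (N a : ℕ)
    (g : Polynomial (MvPolynomial (Fin 2) κ)), Mdl κ x y w N a g →
    0 < N ∧ Irreducible g ∧ Polynomial.derivative g ≠ 0

/-- Certificates of the Nullstellensatz specialise. -/
def Stmt_NSC : Prop :=
  ∀ (κ : Type) [Field κ] [IsAlgClosed κ] (σ : Type) [Finite σ]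
    (S : Finset (MvPolynomial σ κ)), (¬ ∃ u : σ → κ, ∀ f ∈ S, MvPolynomial.eval u f = 0) →
    ∃ C : Finset κ, ∀ (Ω : Type) [Field Ω] (P : Plc κ Ω), P.Gd C →
      ¬ ∃ u : σ → Ω, ∀ f ∈ S, MvPolynomial.eval u (P.mv f) = 0

/-- Good reduction of irreducible polynomials. -/
def Stmt_GIR : Prop :=
  ∀ (κ : Type) [Field κ] [IsAlgClosed κ] (g : Polynomial (MvPolynomial (Fin 2) κ)),
    g.Monic → 0 < g.natDegree → Irreducible g →
    ∃ C : Finset κ, ∀ (Ω : Type) [Field Ω] (P : Plc κ Ω), P.Gd C → Irreducible (P.pl g)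

/-- Construction of a model from its equation. -/
def Stmt_SPM : Prop :=
  ∀ (Ω : Type) [Field Ω] (N a : ℕ) (g : Polynomial (MvPolynomial (Fin 2) Ω)),
    g.Monic → g.natDegree = N → 0 < N → (∀ j ≤ N, (g.coeff j).totalDegree ≤ a * (N - j)) →
    Irreducible g → Polynomial.derivative g ≠ 0 →
    ∃ (Fs : Type) (_ : Field Fs) (_ : Algebra Ω Fs) (xs ys ws : Fs), Mdl Ω xs ys ws N a g

/-- Good places specialise the model. -/
def Stmt_SPE : Prop :=
  ∀ (κ F : Type) [Field κ] [IsAlgClosed κ] [Field F] [Algebra κ F] (x y w : F) (N a : ℕ)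
    (g : Polynomial (MvPolynomial (Fin 2) κ)), Mdl κ x y w N a g →
    ∃ C : Finset κ, ∀ (Ω : Type) [Field Ω] (P : Plc κ Ω), P.Gd C →
      (∀ j m, (g.coeff j).coeff m ∈ P.O) ∧
      ∃ (Fs : Type) (_ : Field Fs) (_ : Algebra Ω Fs) (xs ys ws : Fs),
        Mdl Ω xs ys ws N a (P.pl g)

/-- The Gauss place of the field `κ(x, y)`. -/
def Stmt_GRG : Prop :=
  ∀ (κ Ω F Fs : Type) [Field κ] [Field Ω] [Field F] [Field Fs] [Algebra κ F] [Algebra Ω Fs]
    (x y : F) (xs ys : Fs), AlgebraicIndependent κ ![x, y] → AlgebraicIndependent Ω ![xs, ys] →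
    ∀ P : Plc κ Ω, ∃ (R : Subring F) (γ : R →+* Fs),
      (∀ f ∈ R, f ∈ IntermediateField.adjoin κ {x, y}) ∧
      (∀ f, γ f ∈ IntermediateField.adjoin Ω {xs, ys}) ∧
      (∀ c : κ, algebraMap κ F c ∈ R ↔ c ∈ P.O) ∧
      (∀ (c : κ) (hc : algebraMap κ F c ∈ R), γ ⟨_, hc⟩ = algebraMap Ω Fs (P.res c)) ∧
      (∃ h : x ∈ R, γ ⟨x, h⟩ = xs) ∧ (∃ h : y ∈ R, γ ⟨y, h⟩ = ys) ∧
      (∀ f : R, γ f = 0 ↔ (f : F) = 0 ∨ (f : F)⁻¹ ∉ R) ∧
      ∀ f ∈ IntermediateField.adjoin κ {x, y}, f ≠ 0 →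
        ∃ c : κ, c ≠ 0 ∧ algebraMap κ F c * f ∈ R ∧ (algebraMap κ F c * f)⁻¹ ∈ R

/-- The Gauss place of `F`. -/
def Stmt_GAU : Prop :=
  ∀ (κ Ω F Fs : Type) [Field κ] [Field Ω] [Field F] [Field Fs] [Algebra κ F] [Algebra Ω Fs]
    (x y w : F) (xs ys ws : Fs) (N a : ℕ) (g : Polynomial (MvPolynomial (Fin 2) κ)),
    Mdl κ x y w N a g → ∀ P : Plc κ Ω, (∀ j m, (g.coeff j).coeff m ∈ P.O) →
    Mdl Ω xs ys ws N a (P.pl g) → Nonempty (Gau P x y w xs ys ws)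

/-- Polynomials with unit coefficients are units, the other ones show the size of their
coefficients. -/
def Stmt_GPO : Prop :=
  ∀ (κ Ω F Fs : Type) [Field κ] [Field Ω] [Field F] [Field Fs] [Algebra κ F] [Algebra Ω Fs]
    (x y w : F) (xs ys ws : Fs) (P : Plc κ Ω), AlgebraicIndependent Ω ![xs, ys] →
    ∀ (G : Gau P x y w xs ys ws) (f : MvPolynomial (Fin 2) κ),
      (MvPolynomial.aeval ![x, y] f ∈ G.W ↔ ∀ m, f.coeff m ∈ P.O) ∧
      (MvPolynomial.aeval ![x, y] f ∈ G.W →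
        G.res (MvPolynomial.aeval ![x, y] f) = MvPolynomial.aeval ![xs, ys] (P.mv f))

/-- Finitely many given functions are units at good places. -/
def Stmt_GUN : Prop :=
  ∀ (κ F : Type) [Field κ] [Field F] [Algebra κ F] (x y w : F) (N a : ℕ)
    (g : Polynomial (MvPolynomial (Fin 2) κ)), Mdl κ x y w N a g → ∀ S : Finset F,
    ∃ C : Finset κ, ∀ (Ω : Type) [Field Ω] (P : Plc κ Ω), P.Gd C →
      ∀ (Fs : Type) [Field Fs] [Algebra Ω Fs] (xs ys ws : Fs), Mdl Ω xs ys ws N a (P.pl g) →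
      ∀ G : Gau P x y w xs ys ws, ∀ s ∈ S, s ≠ 0 → G.U s

/-- Specialisation of sections of multiples of the line at infinity. -/
def Stmt_RDL : Prop :=
  ∀ (κ Ω F Fs : Type) [Field κ] [Field Ω] [Field F] [Field Fs] [Algebra κ F] [Algebra Ω Fs]
    (x y w : F) (xs ys ws : Fs) (P : Plc κ Ω), IsSurf κ x y → IsSurf Ω xs ys →
    ∀ (G : Gau P x y w xs ys ws) (q : ℤ) (f : F), f ∈ L κ x y (fun O => q * H κ x y O) →
      f ∈ G.W → G.res f ∈ L Ω xs ys (fun O => q * H Ω xs ys O)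

/-- Sections of combinations of effective divisors in terms of the local equations. -/
def Stmt_MUL : Prop :=
  ∀ (k F : Type) [Field k] [Field F] [Algebra k F] (x y : F) (ι : Type) [Fintype ι]
    (a b : ι → Fin 2 → ℕ) (π u : ι → Fin 2 → F) (D : ι → PP k x y → ℤ),
    (∀ i, LE k x y (a i) (b i) (π i) (u i) (D i)) → ∀ (d : ι → ℤ) (h : ℤ) (f : F),
      f ∈ L k x y (fun O => ∑ i, d i * D i O + h * H k x y O) ↔
      ∀ j : ι → Fin 2, f * ∏ i, mul1 (π i) (u i) (d i) (j i) ∈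
        L k x y (fun O => (h + ((∑ i, deg1 (a i) (b i) (d i) (j i) : ℕ) : ℤ)) * H k x y O)

/-- Specialisation of sections. -/
def Stmt_FWD : Prop :=
  ∀ (κ Ω F Fs : Type) [Field κ] [Field Ω] [Field F] [Field Fs] [Algebra κ F] [Algebra Ω Fs]
    (x y w : F) (xs ys ws : Fs) (P : Plc κ Ω), IsSurf κ x y → IsSurf Ω xs ys →
    ∀ (G : Gau P x y w xs ys ws) (ι : Type) [Fintype ι]
    (a b : ι → Fin 2 → ℕ) (π u : ι → Fin 2 → F) (D : ι → PP κ x y → ℤ) (D' : ι → PP Ω xs ys → ℤ),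
    (∀ i, LE κ x y (a i) (b i) (π i) (u i) (D i)) → (∀ i j, G.U (π i j) ∧ G.U (u i j)) →
    (∀ i, LE Ω xs ys (a i) (b i) (fun j => G.res (π i j)) (fun j => G.res (u i j)) (D' i)) →
    ∀ (d : ι → ℤ) (h : ℤ) (f : F), f ∈ L κ x y (fun O => ∑ i, d i * D i O + h * H κ x y O) →
      f ∈ G.W → G.res f ∈ L Ω xs ys (fun O => ∑ i, d i * D' i O + h * H Ω xs ys O)

/-- Local equations of prime divisors; they specialise to local equations. -/
def Stmt_LES : Prop :=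
  ∀ (κ F : Type) [Field κ] [IsAlgClosed κ] [Field F] [Algebra κ F] (x y w : F) (N A : ℕ)
    (g : Polynomial (MvPolynomial (Fin 2) κ)), Mdl κ x y w N A g → ∀ E : PP κ x y,
    ∃ (a b : Fin 2 → ℕ) (π u : Fin 2 → F), LE κ x y a b π u (dlt E) ∧
      ∃ (B : ℕ) (C : Finset κ), ∀ (Ω : Type) [Field Ω] (P : Plc κ Ω), P.Gd C →
        ∀ (Fs : Type) [Field Fs] [Algebra Ω Fs] (xs ys ws : Fs), Mdl Ω xs ys ws N A (P.pl g) →
        ∀ G : Gau P x y w xs ys ws, (∀ j, G.U (π j) ∧ G.U (u j)) ∧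
          LE Ω xs ys a b (fun j => G.res (π j)) (fun j => G.res (u j))
            (mn Ω xs ys a (fun j => G.res (π j))) ∧
          ∀ O, mn Ω xs ys a (fun j => G.res (π j)) O ≤ B

/-- Disjoint prime divisors specialise to disjoint divisors. -/
def Stmt_DJS : Prop :=
  ∀ (κ F : Type) [Field κ] [IsAlgClosed κ] [Field F] [Algebra κ F] (x y w : F) (N A : ℕ)
    (g : Polynomial (MvPolynomial (Fin 2) κ)), Mdl κ x y w N A g → ∀ E E' : PP κ x y,
    NoM κ x y E E' → ∀ (a b a' b' : Fin 2 → ℕ) (π u π' u' : Fin 2 → F),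
    LE κ x y a b π u (dlt E) → LE κ x y a' b' π' u' (dlt E') →
    ∃ C : Finset κ, ∀ (Ω : Type) [Field Ω] (P : Plc κ Ω), P.Gd C →
      ∀ (Fs : Type) [Field Fs] [Algebra Ω Fs] (xs ys ws : Fs), Mdl Ω xs ys ws N A (P.pl g) →
      ∀ G : Gau P x y w xs ys ws,
        LE Ω xs ys a b (fun j => G.res (π j)) (fun j => G.res (u j))
          (mn Ω xs ys a (fun j => G.res (π j))) →
        LE Ω xs ys a' b' (fun j => G.res (π' j)) (fun j => G.res (u' j))
          (mn Ω xs ys a' (fun j => G.res (π' j))) →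
        ∀ O O', 0 < mn Ω xs ys a (fun j => G.res (π j)) O →
          0 < mn Ω xs ys a' (fun j => G.res (π' j)) O' → NoM Ω xs ys O O'

/-- Different prime divisors specialise to divisors without common component. -/
def Stmt_NCS : Prop :=
  ∀ (κ F : Type) [Field κ] [IsAlgClosed κ] [Field F] [Algebra κ F] (x y w : F) (N A : ℕ)
    (g : Polynomial (MvPolynomial (Fin 2) κ)), Mdl κ x y w N A g → ∀ E E' : PP κ x y,
    E ≠ E' → ∀ (a b a' b' : Fin 2 → ℕ) (π u π' u' : Fin 2 → F),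
    LE κ x y a b π u (dlt E) → LE κ x y a' b' π' u' (dlt E') →
    ∃ C : Finset κ, ∀ (Ω : Type) [Field Ω] (P : Plc κ Ω), P.Gd C →
      ∀ (Fs : Type) [Field Fs] [Algebra Ω Fs] (xs ys ws : Fs), Mdl Ω xs ys ws N A (P.pl g) →
      ∀ G : Gau P x y w xs ys ws,
        LE Ω xs ys a b (fun j => G.res (π j)) (fun j => G.res (u j))
          (mn Ω xs ys a (fun j => G.res (π j))) →
        LE Ω xs ys a' b' (fun j => G.res (π' j)) (fun j => G.res (u' j))
          (mn Ω xs ys a' (fun j => G.res (π' j))) →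
        ∀ O, ¬ (0 < mn Ω xs ys a (fun j => G.res (π j)) O ∧
          0 < mn Ω xs ys a' (fun j => G.res (π' j)) O)

/-- Sections in terms of the powers of `w`. -/
def Stmt_REP : Prop :=
  ∀ (k F : Type) [Field k] [Field F] [Algebra k F] (x y w : F) (N a : ℕ)
    (g : Polynomial (MvPolynomial (Fin 2) k)), Mdl k x y w N a g →
    der k x y w N g ≠ 0 ∧ ∀ (q : ℕ), ∀ f ∈ L k x y (fun O => q * H k x y O),
      ∃ b : ℕ → MvPolynomial (Fin 2) k, (∀ j, (b j).totalDegree ≤ q + a * N) ∧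
        der k x y w N g * f = ∑ j ∈ Finset.range N, MvPolynomial.aeval ![x, y] (b j) * w ^ j

/-- Transfer of systems of polynomial equations from closed points. -/
def Stmt_TRF : Prop :=
  ∀ (κ F : Type) [Field κ] [IsAlgClosed κ] [Field F] [Algebra κ F] (x y w : F) (N a : ℕ)
    (g : Polynomial (MvPolynomial (Fin 2) κ)), Mdl κ x y w N a g → ∀ (σ : Type) [Finite σ]
    (Q : Finset (MvPolynomial (σ ⊕ Fin 3) κ)),
    (∀ C : Finset κ, ∃ (Ω : Type) (_ : Field Ω) (P : Plc κ Ω) (_ : P.Gd C) (Fs : Type)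
      (_ : Field Fs) (_ : Algebra Ω Fs) (xs ys ws : Fs), Mdl Ω xs ys ws N a (P.pl g) ∧
      ∃ u : σ → Ω, ∀ f ∈ Q,
        MvPolynomial.aeval (Sum.elim (fun i => algebraMap Ω Fs (u i)) ![xs, ys, ws]) (P.mv f) = 0) →
    ∃ u : σ → κ, ∀ f ∈ Q,
      MvPolynomial.aeval (Sum.elim (fun i => algebraMap κ F (u i)) ![x, y, w]) f = 0

/-- Transfer of equations between sections of multiples of the line at infinity. -/
def Stmt_BAL : Prop :=
  ∀ (κ F : Type) [Field κ] [IsAlgClosed κ] [Field F] [Algebra κ F] (x y w : F) (N a : ℕ)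
    (g : Polynomial (MvPolynomial (Fin 2) κ)), Mdl κ x y w N a g → ∀ (σ : Type) [Finite σ]
    (q : σ → ℕ) (S : Finset (MvPolynomial σ F)),
    (∀ C : Finset κ, ∃ (Ω : Type) (_ : Field Ω) (P : Plc κ Ω) (_ : P.Gd C) (Fs : Type)
      (_ : Field Fs) (_ : Algebra Ω Fs) (xs ys ws : Fs) (_ : Mdl Ω xs ys ws N a (P.pl g))
      (G : Gau P x y w xs ys ws), ∃ f : σ → Fs,
        (∀ i, f i ∈ L Ω xs ys (fun O => q i * H Ω xs ys O)) ∧
        ∀ Φ ∈ S, MvPolynomial.eval f (G.mv Φ) = 0) →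
    ∃ f : σ → F, (∀ i, f i ∈ L κ x y (fun O => q i * H κ x y O)) ∧
      ∀ Φ ∈ S, MvPolynomial.eval f Φ = 0

/-- Transfer of equations between sections. -/
def Stmt_BAK : Prop :=
  ∀ (κ F : Type) [Field κ] [IsAlgClosed κ] [Field F] [Algebra κ F] (x y w : F) (N A : ℕ)
    (g : Polynomial (MvPolynomial (Fin 2) κ)), Mdl κ x y w N A g → ∀ (ι : Type) [Fintype ι]
    (a b : ι → Fin 2 → ℕ) (π u : ι → Fin 2 → F) (D : ι → PP κ x y → ℤ),
    (∀ i, LE κ x y (a i) (b i) (π i) (u i) (D i)) → ∀ (σ : Type) [Finite σ] (d : σ → ι → ℤ)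
    (S : Finset (MvPolynomial σ ℤ)),
    (∀ C : Finset κ, ∃ (Ω : Type) (_ : Field Ω) (P : Plc κ Ω) (_ : P.Gd C) (Fs : Type)
      (_ : Field Fs) (_ : Algebra Ω Fs) (xs ys ws : Fs) (_ : Mdl Ω xs ys ws N A (P.pl g))
      (G : Gau P x y w xs ys ws) (D' : ι → PP Ω xs ys → ℤ),
        (∀ i, LE Ω xs ys (a i) (b i) (fun j => G.res (π i j)) (fun j => G.res (u i j)) (D' i)) ∧
        ∃ f : σ → Fs, (∀ ν, f ν ∈ L Ω xs ys (fun O => ∑ i, d ν i * D' i O)) ∧
          ∀ Φ ∈ S, MvPolynomial.aeval f Φ = 0) →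
    ∃ f : σ → F, (∀ ν, f ν ∈ L κ x y (fun O => ∑ i, d ν i * D i O)) ∧
      ∀ Φ ∈ S, MvPolynomial.aeval f Φ = 0

end Pool.Agent.SPR
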