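import Pool.Agent.SPR.Stmts
import Pool.Agent.CPT.StmtsE

/-!
# Statements: the closed points
-/

set_option autoImplicit false

noncomputable section

namespace Pool.Agent.SPR

open Pool.Agent.SRF

/-- The edges of the complete graph on five points, see `XV.eS`. -/
def eS : Fin 10 → Fin 5 := ![0, 0, 0, 0, 1, 1, 1, 2, 2, 3]

/-- The edges of the complete graph on five points, see `XV.eT`. -/
def eT : Fin 10 → Fin 5 := ![1, 2, 3, 4, 2, 3, 4, 3, 4, 4]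

/-- Disjoint edges. -/
def Dsj (k l : Fin 10) : Prop := eS k ≠ eS l ∧ eS k ≠ eT l ∧ eT k ≠ eS l ∧ eT k ≠ eT l

instance (k l : Fin 10) : Decidable (Dsj k l) := by unfold Dsj; infer_instance

/-- `k` is the edge `ij`. -/
def Inc (k : Fin 10) (i j : Fin 5) : Prop := (eS k = i ∧ eT k = j) ∨ (eS k = j ∧ eT k = i)

instance (k : Fin 10) (i j : Fin 5) : Decidable (Inc k i j) := by unfold Inc; infer_instance

/-- Numerically trivial classes. -/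
def NTr (c₀ : ℤ) (c : Fin 10 → ℤ) : Prop :=
  ∀ s : Fin 10, 2 * c₀ - c s + ∑ t : Fin 10, (if Dsj s t then c t else 0) = 0

/-- TRA: numerically trivial classes are torsion at a closed point. -/
def Stmt_TRA : Prop :=
  ∀ (Ω Fs : Type) [Field Ω] [IsAlgClosed Ω] [CharP Ω 2] [Field Fs] [Algebra Ω Fs] (xs ys : Fs),
    (∀ c : Ω, ∃ n : ℕ, 0 < n ∧ c ^ 2 ^ n = c) → IsSurf Ω xs ys →
    ∀ (ι : Type) [Fintype ι] [DecidableEq ι] (a b : ι → Fin 2 → ℕ) (π u : ι → Fin 2 → Fs)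
    (D : ι → PP Ω xs ys → ℤ), (∀ i, LE Ω xs ys (a i) (b i) (π i) (u i) (D i)) →
    ∀ (T : Finset ι) (s : ι → Fin 10) (r : ι → ℝ) (C : ι → ℤ), (∀ i ∈ T, 0 < r i) →
    (∀ (c₀ : ℤ) (c : Fin 10 → ℤ), NTr c₀ c → ∀ n : ℕ, ∃ m : ℕ, ∃ f : Fs, f ≠ 0 ∧
      f ∈ L Ω xs ys (fun O => ∑ i, (2 ^ m * (C i + if i ∈ T then
        ⌊(n : ℝ) * ((c (s i) : ℝ) * r i)⌋ else 0)) * D i O + (2 ^ m * (n * c₀)) * H Ω xs ys O)) →
    ∃ (M : ℕ) (m : ι → ℕ), 0 < M ∧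
      (∀ i ∈ T, 0 < m i ∧ M * r i / 2 ≤ m i ∧ (m i : ℝ) ≤ 2 * (M * r i)) ∧
      ∀ (c₀ : ℤ) (c : Fin 10 → ℤ), NTr c₀ c → ∃ f : Fs, f ≠ 0 ∧ ∀ O : PP Ω xs ys,
        ord O.1 f = c₀ * M * H Ω xs ys O + ∑ i ∈ T, c (s i) * m i * D i O

/-- LAH: the units of `M_{0,5}` form a free group; extraction of a homomorphism. -/
def Stmt_LAH : Prop :=
  ∀ (K : Type) [Field K] (R : (Fin 5 → Fin 5 → ℤ) → K → Prop), R 0 1 →
    (∀ m n f g, R m f → R n g → R (m + n) (f * g)) → (∀ n f, R n f → R (-n) f⁻¹) →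
    (∀ n f, R n f → f ≠ 0) → (∀ n, CPT.Lam n → ∃ f, R n f) →
    ∃ a : (Fin 5 → Fin 5 → ℤ) → K, (∀ n, CPT.Lam n → R n (a n)) ∧
      ∀ m n, CPT.Lam m → CPT.Lam n → a (m + n) = a m * a n

/-- NTL: the units of `M_{0,5}` and `H - ∑ D` are numerically trivial. -/
def Stmt_NTL : Prop :=
  NTr 1 (fun _ => -1) ∧ ∀ n, CPT.Lam n → NTr 0 (fun t => n (eS t) (eT t))

/-- CLX: the functions at a closed point. -/
def Stmt_CLX : Prop :=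
  ∀ (N A : ℕ) (ι : Type) [Fintype ι] [DecidableEq ι] (a : ι → Fin 2 → ℕ) (T : Finset ι)
    (s : ι → Fin 10) (r : ι → ℝ) (B : ℕ), (∀ i ∈ T, 0 < r i) →
    ∃ K : ℕ, 0 < K ∧ ∀ (Ω Fs : Type) [Field Ω] [IsAlgClosed Ω] [CharP Ω 2] [Field Fs]
      [Algebra Ω Fs] (xs ys ws : Fs) (g : Polynomial (MvPolynomial (Fin 2) Ω)),
      Mdl Ω xs ys ws N A g → ∀ (b : ι → Fin 2 → ℕ) (π u : ι → Fin 2 → Fs)
      (D : ι → PP Ω xs ys → ℤ), (∀ i, LE Ω xs ys (a i) (b i) (π i) (u i) (D i)) →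
      (∀ i O, D i O ≤ B) →
      (∀ i ∈ T, ∀ i' ∈ T, s i ≠ s i' → ¬ Dsj (s i) (s i') → ∀ O O', 0 < D i O → 0 < D i' O' →
        NoM Ω xs ys O O') →
      (∀ i ∈ T, ∀ i' ∈ T, i ≠ i' → ∀ O, ¬ (0 < D i O ∧ 0 < D i' O)) →
      ∀ (M : ℕ) (m : ι → ℕ), 0 < M →
      (∀ i ∈ T, 0 < m i ∧ M * r i / 2 ≤ m i ∧ (m i : ℝ) ≤ 2 * (M * r i)) →
      (∀ (c₀ : ℤ) (c : Fin 10 → ℤ), NTr c₀ c → ∃ f : Fs, f ≠ 0 ∧ ∀ O : PP Ω xs ys,
        ord O.1 f = c₀ * M * H Ω xs ys O + ∑ i ∈ T, c (s i) * m i * D i O) →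
      ∃ X : (Fin 5 → Fin 5 → ℤ) → Fs, (∀ n, CPT.Lam n → X n ≠ 0) ∧
        (∀ m n, CPT.Lam m → CPT.Lam n → X (m + n) = X m * X n) ∧
        (∀ i j k l, CPT.Dist i j k l → X (CPT.cr i j k l) + X (CPT.cr i l k j) = 1) ∧
        (∀ i j k l, CPT.Dist i j k l → X (CPT.cr i j k l) ∈ L Ω xs ys (fun O =>
          ∑ t, (if t ∈ T ∧ (Inc (s t) i k ∨ Inc (s t) j l) then (K : ℤ) else 0) * D t O)) ∧
        ∀ i j k l, CPT.Dist i j k l → ∀ t₀ ∈ T, Inc (s t₀) i j →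
          X (CPT.cr i j k l) ^ K ∈ L Ω xs ys (fun O =>
            ∑ t, ((if t ∈ T ∧ (Inc (s t) i k ∨ Inc (s t) j l) then (K : ℤ) * K else 0) -
              (if t = t₀ then 1 else 0)) * D t O)

end Pool.Agent.SPR
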