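import Pool.Agent.SPR.StmtsC
import Pool.Agent.H83.TorSurf
import Pool.Agent.H83.Rat

/-!
# TRA: numerically trivial classes are torsion at a closed point
-/

set_option autoImplicit false

noncomputable section

namespace Pool.Agent.SPR

open Pool.Agent.SRF Pool.Agent.H83

namespace TRA_

/-- the group of the numerically trivial classes -/
def NT : Submodule ℤ (ℤ × (Fin 10 → ℤ)) where
  carrier := {p | NTr p.1 p.2}
  zero_mem' := by
    intro s
    simp
  add_mem' := by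
    intro p q hp hq s
    have h1 := hp s
    have h2 := hq s
    have h3 : (∑ t : Fin 10, (if Dsj s t then (p + q).2 t else 0)) =
        (∑ t : Fin 10, if Dsj s t then p.2 t else 0) +
          ∑ t : Fin 10, if Dsj s t then q.2 t else 0 := by
      rw [← Finset.sum_add_distrib]
      refine Finset.sum_congr rfl fun t _ => ?_
      split_ifs <;> simp
    show 2 * (p.1 + q.1) - (p.2 s + q.2 s) + _ = 0
    rw [h3]
    linarith
  smul_mem' := by
    intro n p hp s
    have h1 := hp s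
    have h3 : (∑ t : Fin 10, (if Dsj s t then (n • p).2 t else 0)) =
        n * (∑ t : Fin 10, if Dsj s t then p.2 t else 0) := by
      rw [Finset.mul_sum]
      refine Finset.sum_congr rfl fun t _ => ?_
      split_ifs <;> simp
    show 2 * (n * p.1) - (n * p.2 s) + _ = 0
    rw [h3]
    linear_combination n * h1

theorem mem_NT (p : ℤ × (Fin 10 → ℤ)) : p ∈ NT ↔ NTr p.1 p.2 := Iff.rfl

theorem NTr_neg {c₀ : ℤ} {c : Fin 10 → ℤ} (h : NTr c₀ c) : NTr (-c₀) (-c) :=
  NT.neg_mem (x := (c₀, c)) h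

section

variable {k F : Type} [Field k] [Field F] [Algebra k F] {x y : F}

theorem pow_mem_L {D : PP k x y → ℤ} {f : F} (hf : f ∈ L k x y D) (hf0 : f ≠ 0) (n : ℕ) :
    f ^ n ∈ L k x y (fun O => n * D O) := by
  rw [mem_L] at hf ⊢
  refine Or.inr fun O => ?_
  have h1 := hf.resolve_left hf0 O
  rw [O.isOrd.pow hf0]
  have h2 : (0 : ℤ) ≤ n := Int.natCast_nonneg n
  nlinarith

theorem mono_L {D D' : PP k x y → ℤ} (h : ∀ O, D O ≤ D' O) {f : F} (hf : f ∈ L k x y D) :
    f ∈ L k x y D' := by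
  rw [mem_L] at hf ⊢
  rcases hf with hf | hf
  · exact Or.inl hf
  · exact Or.inr fun O => by linarith [hf O, h O]

theorem lift_L {D : PP k x y → ℤ} {m e : ℕ} (hme : m ≤ e) {f : F} (hf0 : f ≠ 0)
    (hf : f ∈ L k x y (fun O => 2 ^ m * D O)) :
    ∃ g : F, g ≠ 0 ∧ g ∈ L k x y (fun O => 2 ^ e * D O) := by
  obtain ⟨j, rfl⟩ := Nat.exists_eq_add_of_le hme
  refine ⟨f ^ 2 ^ j, pow_ne_zero _ hf0, ?_⟩
  have h1 := pow_mem_L hf hf0 (2 ^ j)
  refine mono_L (fun O => le_of_eq ?_) h1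
  push_cast
  ring

theorem finite_ord (hsup : ∀ f : F, f ≠ 0 → {O : PP k x y | ord O.1 f ≠ 0}.Finite) (f : F) :
    {O : PP k x y | ord O.1 f ≠ 0}.Finite := by
  by_cases hf : f = 0
  · subst hf
    refine Set.Finite.subset Set.finite_empty ?_
    intro O hO
    exact hO O.isOrd.zero
  · exact hsup f hf

theorem finite_H (hsup : ∀ f : F, f ≠ 0 → {O : PP k x y | ord O.1 f ≠ 0}.Finite) :
    {O : PP k x y | H k x y O ≠ 0}.Finite := by
  refine ((finite_ord hsup x).union (finite_ord hsup y)).subset ?_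
  intro O hO
  by_contra hcon
  simp only [Set.mem_union, Set.mem_ofPred_eq, not_or, not_not] at hcon
  apply hO
  unfold H
  rw [hcon.1, hcon.2]
  simp

variable {a b : Fin 2 → ℕ} {π u : Fin 2 → F} {D : PP k x y → ℤ}

theorem LE_nonneg (h : LE k x y a b π u D) (O : PP k x y) : 0 ≤ D O := by
  obtain ⟨j, hj⟩ := h.cop O
  have h1 := h.quo O j
  have h2 := (h.pi_mem j)
  rw [mem_L] at h2
  have h3 := h2.resolve_left (h.pi_ne j) O
  linarith

theorem LE_finite (hsup : ∀ f : F, f ≠ 0 → {O : PP k x y | ord O.1 f ≠ 0}.Finite)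
    (h : LE k x y a b π u D) : {O : PP k x y | D O ≠ 0}.Finite := by
  refine ((finite_ord hsup (π 0)).union (finite_H hsup)).subset ?_
  intro O hO
  by_contra hcon
  simp only [Set.mem_union, Set.mem_ofPred_eq, not_or, not_not] at hcon
  have h1 := h.low O 0
  rw [hcon.1, hcon.2] at h1
  have h2 := LE_nonneg h O
  apply hO
  linarith

theorem LE_inv [IsAlgClosed k] {q : ℕ} {σ : F ≃+* F} (hσ : IsCFrob k x y q σ)
    (h : LE k x y a b π u D) (hfix : ∀ j, σ (π j) = π j) (O : PP k x y) :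
    D (hσ.act O) = D O := by
  have hH : H k x y (hσ.act O) = H k x y O := by
    unfold H
    rw [hσ.ord_act, hσ.ord_act, hσ.hx, hσ.hy]
  have hv : ∀ j, ord (hσ.act O).1 (π j) = ord O.1 (π j) := fun j => by
    rw [hσ.ord_act, hfix]
  refine le_antisymm ?_ ?_
  · obtain ⟨j, hj⟩ := h.att O
    have h1 := h.low (hσ.act O) j
    rw [hv, hH] at h1
    linarith
  · obtain ⟨j, hj⟩ := h.att (hσ.act O)
    have h1 := h.low O j
    rw [hv, hH] at hj
    linarith

end

theorem iter {F : Type} [Field F] (σ : F ≃+* F) (m : ℕ) (f : F) : (σ ^ m) f = σ^[m] f := by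
  induction m with
  | zero => rfl
  | succ m ih =>
    rw [pow_succ', Function.iterate_succ_apply', ← ih]
    rfl

section

variable {k F : Type} [Field k] [Field F] [Algebra k F] {x y : F} {ι : Type}
  (T : Finset ι) (D : ι → PP k x y → ℤ)

/-- the divisors of functions -/
def GG : AddSubgroup (Option {i // i ∈ T} → ℤ) where
  carrier := {v | ∃ f : F, f ≠ 0 ∧ ∀ O : PP k x y,
    ord O.1 f = v none * H k x y O + ∑ i : {i // i ∈ T}, v (some i) * D i O}
  zero_mem' := by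
    refine ⟨1, one_ne_zero, fun O => ?_⟩
    rw [O.isOrd.one]
    simp
  add_mem' := by
    rintro v w ⟨f, hf, hf'⟩ ⟨g, hg, hg'⟩
    refine ⟨f * g, mul_ne_zero hf hg, fun O => ?_⟩
    rw [O.isOrd.mul f g hf hg, hf', hg']
    simp only [Pi.add_apply, add_mul, Finset.sum_add_distrib]
    ring
  neg_mem' := by
    rintro v ⟨f, hf, hf'⟩
    refine ⟨f⁻¹, inv_ne_zero hf, fun O => ?_⟩
    rw [O.isOrd.inv hf, hf']
    simp only [Pi.neg_apply, neg_mul, Finset.sum_neg_distrib]
    ring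

end

end TRA_

open TRA_

theorem TRA_proof (hFRO : SRF.Stmt_FRO) (hSUP : SRF.Stmt_SUP) (hFDL : SRF.Stmt_FDL)
    (hFCH : SRF.Stmt_FCH) : Stmt_TRA := by
  intro Ω Fs _ _ _ _ _ xs ys hfr hS ι _ _ a b π u D hLE T s r C hr hL
  classical
  haveI : Fact (Nat.Prime 2) := ⟨Nat.prime_two⟩
  obtain ⟨n₁, hn₁, σ, hσc, hσx, hσy, hσS, hσf⟩ := hFRO 2 Ω Fs xs ys hfr hS
    (Finset.univ.image fun p : ι × Fin 2 => π p.1 p.2)
  have hσ : IsCFrob Ω xs ys (2 ^ n₁) σ := ⟨Nat.one_le_two_pow, hσc, hσx, hσy⟩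
  have hfix : ∀ i j, σ (π i j) = π i j := fun i j =>
    hσS _ (Finset.mem_image.2 ⟨(i, j), Finset.mem_univ _, rfl⟩)
  have hσf' : ∀ f, ∃ N, 1 ≤ N ∧ σ^[N] f = f := fun f => by
    obtain ⟨m, hm, hm'⟩ := hσf f
    exact ⟨m, hm, by rw [← iter, hm']⟩
  have hsup := hSUP Ω Fs xs ys hS
  have hDinv : ∀ i O, D i (hσ.act O) = D i O := fun i O => LE_inv hσ (hLE i) (hfix i) O
  have hHinv : ∀ O, H Ω xs ys (hσ.act O) = H Ω xs ys O := fun O => by
    unfold H
    rw [hσ.ord_act, hσ.ord_act, hσ.hx, hσ.hy]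
  have hDnn : ∀ i O, 0 ≤ D i O := fun i O => LE_nonneg (hLE i) O
  -- the divisors
  let C' : PP Ω xs ys → ℤ := fun O => ∑ i, C i * D i O
  let E : (ℤ × (Fin 10 → ℤ)) → ℕ → Option {i // i ∈ T} → ℤ := fun p n e =>
    Option.rec (n * p.1) (fun i => ⌊(n : ℝ) * ((p.2 (s i) : ℝ) * r i)⌋) e
  let D' : (ℤ × (Fin 10 → ℤ)) → ℕ → PP Ω xs ys → ℤ := fun p n O =>
    E p n none * H Ω xs ys O + ∑ i : {i // i ∈ T}, E p n (some i) * D i O
  have hexp : ∀ (p : ℤ × (Fin 10 → ℤ)) (n m : ℕ) (O : PP Ω xs ys),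
      ∑ i, (2 ^ m * (C i + if i ∈ T then ⌊(n : ℝ) * ((p.2 (s i) : ℝ) * r i)⌋ else 0)) * D i O +
        (2 ^ m * (n * p.1)) * H Ω xs ys O = 2 ^ m * (C' O + D' p n O) := by
    intro p n m O
    have h1 : ∑ i : {i // i ∈ T}, E p n (some i) * D i O =
        ∑ i, (if i ∈ T then ⌊(n : ℝ) * ((p.2 (s i) : ℝ) * r i)⌋ * D i O else 0) := by
      rw [← Finset.sum_filter, Finset.filter_mem_eq_inter, Finset.univ_inter]
      exact Finset.sum_coe_sort T fun i => ⌊(n : ℝ) * ((p.2 (s i) : ℝ) * r i)⌋ * D i O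
    show _ = 2 ^ m * (∑ i, C i * D i O + ((n * p.1) * H Ω xs ys O +
      ∑ i : {i // i ∈ T}, E p n (some i) * D i O))
    rw [h1, mul_add, mul_add, ← add_assoc, Finset.mul_sum, Finset.mul_sum, add_right_comm,
      ← Finset.sum_add_distrib, mul_assoc (2 ^ m) _ (H Ω xs ys O)]
    congr 1
    refine Finset.sum_congr rfl fun i _ => ?_
    split_ifs <;> ring
  have hCfin : (Function.support C').Finite := by
    refine (Set.finite_iUnion fun i => LE_finite hsup (hLE i)).subset ?_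
    intro O hO
    by_contra hcon
    simp only [Set.mem_iUnion, Set.mem_ofPred_eq, not_exists, not_not] at hcon
    apply hO
    show ∑ i, C i * D i O = 0
    exact Finset.sum_eq_zero fun i _ => by rw [hcon i, mul_zero]
  have hCσ : ∀ O, C' (hσ.act O) = C' O := fun O => by
    show ∑ i, C i * D i (hσ.act O) = ∑ i, C i * D i O
    exact Finset.sum_congr rfl fun i _ => by rw [hDinv]
  have hD'σ : ∀ p n O, D' p n (hσ.act O) = D' p n O := fun p n O => by
    show E p n none * H Ω xs ys (hσ.act O) + ∑ i : {i // i ∈ T}, E p n (some i) *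
      D i (hσ.act O) = E p n none * H Ω xs ys O + ∑ i : {i // i ∈ T}, E p n (some i) * D i O
    rw [hHinv]
    congr 1
    exact Finset.sum_congr rfl fun i _ => by rw [hDinv]
  have hbig : ∀ p : ℤ × (Fin 10 → ℤ), NTr p.1 p.2 → ∀ n : ℕ, ∃ e : ℕ,
      (∃ f : Fs, f ≠ 0 ∧ f ∈ L Ω xs ys (fun O => ((2 : ℕ) : ℤ) ^ e * (C' O + D' p n O))) ∧
      (∃ f : Fs, f ≠ 0 ∧ f ∈ L Ω xs ys (fun O => ((2 : ℕ) : ℤ) ^ e * (C' O - D' p n O))) := by
    intro p hp n
    obtain ⟨m₁, f₁, hf₁0, hf₁⟩ := hL p.1 p.2 hp n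
    obtain ⟨m₂, f₂, hf₂0, hf₂⟩ := hL (-p.1) (-p.2) (NTr_neg hp) n
    have g₁ : f₁ ∈ L Ω xs ys (fun O => 2 ^ m₁ * (C' O + D' p n O)) := by
      refine mono_L (fun O => le_of_eq ?_) hf₁
      exact hexp p n m₁ O
    have g₂ : f₂ ∈ L Ω xs ys (fun O => 2 ^ m₂ * (C' O - D' p n O)) := by
      refine mono_L (fun O => ?_) hf₂
      refine le_trans (le_of_eq (hexp (-p) n m₂ O)) ?_
      refine mul_le_mul_of_nonneg_left ?_ (by positivity)
      have h1 : D' (-p) n O ≤ - D' p n O := by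
        show (n * (-p.1)) * H Ω xs ys O + ∑ i : {i // i ∈ T}, E (-p) n (some i) * D i O ≤
          -((n * p.1) * H Ω xs ys O + ∑ i : {i // i ∈ T}, E p n (some i) * D i O)
        rw [neg_add, ← Finset.sum_neg_distrib]
        refine add_le_add (le_of_eq (by ring)) (Finset.sum_le_sum fun i _ => ?_)
        rw [← neg_mul]
        refine mul_le_mul_of_nonneg_right ?_ (hDnn i O)
        show ⌊(n : ℝ) * (((-p).2 (s i) : ℝ) * r i)⌋ ≤ -⌊(n : ℝ) * ((p.2 (s i) : ℝ) * r i)⌋
        have h2 : (n : ℝ) * (((-p).2 (s i) : ℝ) * r i) = -((n : ℝ) * ((p.2 (s i) : ℝ) * r i)) := by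
          have : (-p).2 (s i) = -(p.2 (s i)) := rfl
          rw [this]
          push_cast
          ring
        rw [h2, Int.floor_neg]
        exact neg_le_neg (Int.floor_le_ceil _)
      linarith
    refine ⟨max m₁ m₂, ?_, ?_⟩
    · exact_mod_cast lift_L (le_max_left m₁ m₂) hf₁0 g₁
    · exact_mod_cast lift_L (le_max_right m₁ m₂) hf₂0 g₂
  -- finitely many classes
  obtain ⟨A, hA⟩ := (IsNoetherian.noetherian (R := ℤ) NT : NT.FG)
  let X : Option {i // i ∈ T} → ℝ := fun e => Option.rec 1 (fun i => r i) e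
  let c : {p // p ∈ A} → Option {i // i ∈ T} → ℤ := fun p e =>
    Option.rec p.1.1 (fun i => p.1.2 (s i)) e
  obtain ⟨M, Y, hM, hY, hYn, hYb, hYG⟩ := rat_of_rounding (E := Option {i // i ∈ T})
    (A := {p // p ∈ A}) (GG T D) X (by
      rintro (_ | i)
      · exact one_pos
      · exact hr i i.2) c (fun p => E p.1) (by
      rintro p n (_ | i)
      · show |(((n * p.1.1 : ℤ)) : ℝ) - n * ((p.1.1 : ℝ) * 1)| ≤ 1
        push_cast
        rw [mul_one, sub_self, abs_zero]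
        exact zero_le_one
      · show |((⌊(n : ℝ) * ((p.1.2 (s i) : ℝ) * r i)⌋ : ℤ) : ℝ) -
          n * ((p.1.2 (s i) : ℝ) * r i)| ≤ 1
        have h1 := Int.floor_le ((n : ℝ) * ((p.1.2 (s i) : ℝ) * r i))
        have h2 := Int.lt_floor_add_one ((n : ℝ) * ((p.1.2 (s i) : ℝ) * r i))
        rw [abs_le]
        constructor <;> linarith) (by
      intro p I hI
      have hp : NTr p.1.1 p.1.2 := by
        rw [← mem_NT, ← hA]
        exact Submodule.subset_span p.2
      obtain ⟨n, hn, m, hm, hnm, f, hf0, hf⟩ := tor_surf_seq (p := 2) hn₁ hσ hσf' hsup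
        (fun D hD => hFDL Ω Fs xs ys hS D hD)
        (fun i => hFCH 2 Ω Fs xs ys (fun c => IsAlgClosed.exists_pow_nat_eq c two_pos) hS i)
        C' (D' p.1) hCfin hCσ (hD'σ p.1) (hbig p.1 hp) I hI
      refine ⟨n, hn, m, hm, hnm, f, hf0, fun O => ?_⟩
      rw [hf]
      show (E p.1 m none * H Ω xs ys O + ∑ i : {i // i ∈ T}, E p.1 m (some i) * D i O) -
        (E p.1 n none * H Ω xs ys O + ∑ i : {i // i ∈ T}, E p.1 n (some i) * D i O) = _
      simp only [Pi.sub_apply, sub_mul, Finset.sum_sub_distrib]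
      ring)
  have hm : ∀ i (hi : i ∈ T), (if h : i ∈ T then Y (some ⟨i, h⟩) else 0) = Y (some ⟨i, hi⟩) :=
    fun i hi => dif_pos hi
  refine ⟨M, fun i => if h : i ∈ T then Y (some ⟨i, h⟩) else 0, hM, ?_, ?_⟩
  · intro i hi
    show 0 < (if h : i ∈ T then Y (some ⟨i, h⟩) else 0) ∧
      M * r i / 2 ≤ ((if h : i ∈ T then Y (some ⟨i, h⟩) else 0 : ℕ) : ℝ) ∧
      ((if h : i ∈ T then Y (some ⟨i, h⟩) else 0 : ℕ) : ℝ) ≤ 2 * (M * r i)
    rw [hm i hi]
    exact ⟨hY _, (hYb (some ⟨i, hi⟩)).1, (hYb (some ⟨i, hi⟩)).2⟩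
  · intro c₀ c' hc
    -- all classes
    have hall : ∀ p ∈ Submodule.span ℤ (A : Set (ℤ × (Fin 10 → ℤ))),
        (fun e : Option {i // i ∈ T} => (Option.rec p.1 (fun i => p.2 (s i)) e : ℤ) *
          (Y e : ℤ)) ∈ GG T D := by
      intro p hp
      refine Submodule.span_induction (p := fun p _ => (fun e : Option {i // i ∈ T} =>
        (Option.rec p.1 (fun i => p.2 (s i)) e : ℤ) * (Y e : ℤ)) ∈ GG T D) ?_ ?_ ?_ ?_ hp
      · intro q hq
        exact hYG ⟨q, hq⟩
      · have : (fun e : Option {i // i ∈ T} => (Option.rec (0 : ℤ × (Fin 10 → ℤ)).1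
            (fun i => (0 : ℤ × (Fin 10 → ℤ)).2 (s i)) e : ℤ) * (Y e : ℤ)) = 0 := by
          funext e
          rcases e with _ | i
          · exact zero_mul _
          · exact zero_mul _
        rw [this]
        exact (GG T D).zero_mem
      · intro q q' _ _ h1 h2
        have := (GG T D).add_mem h1 h2
        refine (congrArg (fun v => v ∈ GG T D) ?_).mp this
        funext e
        rcases e with _ | i
        · exact (add_mul _ _ _).symm
        · exact (add_mul _ _ _).symm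
      · intro z q _ h1
        have := (GG T D).zsmul_mem h1 z
        refine (congrArg (fun v => v ∈ GG T D) ?_).mp this
        funext e
        rcases e with _ | i
        · exact (mul_assoc z _ _).symm
        · exact (mul_assoc z _ _).symm
    have hmem : (c₀, c') ∈ Submodule.span ℤ (A : Set (ℤ × (Fin 10 → ℤ))) := by
      rw [hA]
      exact hc
    obtain ⟨f, hf0, hf⟩ := hall _ hmem
    refine ⟨f, hf0, fun O => ?_⟩
    rw [hf]
    have h1 : Y none = M := hYn none rfl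
    show c₀ * (Y none : ℤ) * H Ω xs ys O + ∑ i : {i // i ∈ T}, c' (s i) * (Y (some i) : ℤ) *
      D i O = _
    rw [h1]
    congr 1
    rw [← Finset.sum_coe_sort T]
    refine Finset.sum_congr rfl fun i _ => ?_
    show c' (s i) * (Y (some i) : ℤ) * D i O = c' (s i) *
      ((if h : (i : ι) ∈ T then Y (some ⟨i, h⟩) else 0 : ℕ) : ℤ) * D i O
    rw [hm i i.2]

end Pool.Agent.SPR
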